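import Pool.Agent.Zhu.SphMain

open MeasureTheory Metric Set Filter Matrix Polynomial

namespace SphSplit

/-- the vector product of `u` and `x` -/
noncomputable def cr (u x : E) : E :=
  !₂[u 1 * x 2 - u 2 * x 1, u 2 * x 0 - u 0 * x 2, u 0 * x 1 - u 1 * x 0]

/-- Rodrigues formula: the rotation by the angle `t` about the unit vector `u` -/
noncomputable def rot (u : E) (t : ℝ) (x : E) : E :=
  Real.cos t • x + Real.sin t • cr u x + ((1 - Real.cos t) * inner ℝ u x) • u

theorem countable_fiber (c d : ℝ) : {t : ℝ | Real.cos t = c ∧ Real.sin t = d}.Countable := by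
  by_cases h : ∃ t0, Real.cos t0 = c ∧ Real.sin t0 = d
  · obtain ⟨t0, hc, hs⟩ := h
    refine (Set.countable_range (fun k : ℤ => t0 + 2 * Real.pi * k)).mono ?_
    rintro t ⟨h1, h2⟩
    have h3 : (t : Real.Angle) = t0 :=
      Real.Angle.cos_sin_inj (h1.trans hc.symm) (h2.trans hs.symm)
    obtain ⟨k, hk⟩ := Real.Angle.angle_eq_iff_two_pi_dvd_sub.mp h3
    exact ⟨k, by simp only []; linarith⟩
  · have : {t : ℝ | Real.cos t = c ∧ Real.sin t = d} = ∅ := by
      ext t; simp only [mem_setOf_eq, mem_empty_iff_false, iff_false]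
      exact fun ht => h ⟨t, ht⟩
    rw [this]; exact countable_empty

/-- the matrix of the vector product with `u` -/
noncomputable def crm (u : E) : Matrix (Fin 3) (Fin 3) ℝ :=
  !![0, -u 2, u 1; u 2, 0, -u 0; -u 1, u 0, 0]

/-- the polynomial matrix of the rotations about `u` -/
noncomputable def Mp (σ : ℝ) (u : E) : Matrix (Fin 3) (Fin 3) ℝ[X] :=
  Matrix.of fun i j => C (σ * (if i = j then 1 else 0)) * (1 - X ^ 2)
    + C (σ * crm u i j) * (2 * X) + C (σ * (u i * u j)) * (2 * X ^ 2)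

theorem mat_rot (σ : ℝ) (u : E) (t : ℝ) (τ : E ≃ₗᵢ[ℝ] E)
    (h : ∀ x, τ x = σ • rot u t x) (i j : Fin 3) :
    mat τ i j = σ * (Real.cos t * (if i = j then 1 else 0) + Real.sin t * crm u i j
      + (1 - Real.cos t) * (u i * u j)) := by
  simp only [mat, Matrix.of_apply, h, rot, cr, crm]
  fin_cases i <;> fin_cases j <;>
    simp [PiLp.inner_apply, Fin.sum_univ_three] <;> ring

theorem part1 (ρ : E ≃ₗᵢ[ℝ] E) (u : E) :
    {t : ℝ | ∃ τ : E ≃ₗᵢ[ℝ] E, ((∀ x, τ x = rot u t x) ∨ (∀ x, τ x = -rot u t x)) ∧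
      Splits ρ τ}.Countable := by
  have hN : (1 + X ^ 2 : ℝ[X]).eval 0 = 1 := by simp
  have hM : ∀ σ : ℝ, (Mp σ u).map (eval 0) = σ • (1 : Matrix (Fin 3) (Fin 3) ℝ) := by
    intro σ
    ext i j
    simp [Mp, Matrix.one_apply]
  have hcount : ({t : ℝ | Real.cos t = -1 ∧ Real.sin t = 0} ∪
      ⋃ (l : ℕ), ⋃ s ∈ (Dp l (mat ρ) (1 + X ^ 2) (Mp 1 u) *
        Dp l (mat ρ) (1 + X ^ 2) (Mp (-1) u)).roots.toFinset,
        {t : ℝ | Real.cos t = (1 - s ^ 2) / (1 + s ^ 2) ∧
          Real.sin t = 2 * s / (1 + s ^ 2)}).Countable := by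
    refine (countable_fiber _ _).union ?_
    refine countable_iUnion fun l => ?_
    refine (Finset.countable_toSet _).biUnion fun s _ => countable_fiber _ _
  refine hcount.mono ?_
  rintro t ⟨τ, hτ, hsp⟩
  by_cases hcos : Real.cos t = -1
  · left
    refine ⟨hcos, ?_⟩
    have := Real.sin_sq_add_cos_sq t
    rw [hcos] at this
    have h2 : Real.sin t ^ 2 = 0 := by linarith
    exact pow_eq_zero_iff (two_ne_zero) |>.mp h2
  right
  set s := Real.sin t / (1 + Real.cos t) with hs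
  have hpos : 0 < 1 + Real.cos t := by
    have := Real.neg_one_le_cos t
    rcases this.lt_or_eq with h | h
    · linarith
    · exact absurd h.symm hcos
  have hs2 : s ^ 2 = (1 - Real.cos t) / (1 + Real.cos t) := by
    rw [hs, div_pow, div_eq_div_iff (by positivity) (by positivity)]
    have := Real.sin_sq_add_cos_sq t
    nlinarith
  have h1s : 1 + s ^ 2 = 2 / (1 + Real.cos t) := by
    rw [hs2]; field_simp; ring
  have hc : Real.cos t = (1 - s ^ 2) / (1 + s ^ 2) := by
    rw [h1s, hs2]; field_simp; ring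
  have hsn : Real.sin t = 2 * s / (1 + s ^ 2) := by
    rw [h1s, hs]; field_simp
  have h1ne : (1 + s ^ 2) ≠ 0 := by positivity
  rw [mem_iUnion]
  by_contra hcon
  push Not at hcon
  have hgood : ∀ l, (Dp l (mat ρ) (1 + X ^ 2) (Mp 1 u)).eval s ≠ 0 ∧
      (Dp l (mat ρ) (1 + X ^ 2) (Mp (-1) u)).eval s ≠ 0 := by
    intro l
    by_contra hbad
    apply hcon l
    rw [mem_iUnion₂]
    refine ⟨s, ?_, hc, hsn⟩
    have hne : Dp l (mat ρ) (1 + X ^ 2) (Mp 1 u) * Dp l (mat ρ) (1 + X ^ 2) (Mp (-1) u) ≠ 0 :=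
      mul_ne_zero
        (Dp_ne_zero l _ (mat_orth ρ) _ _ hN 1 (Or.inl rfl) (hM 1))
        (Dp_ne_zero l _ (mat_orth ρ) _ _ hN (-1) (Or.inr rfl) (hM (-1)))
    rw [Multiset.mem_toFinset, mem_roots hne, IsRoot.def, eval_mul]
    by_contra h0
    exact hbad ⟨fun h => h0 (by rw [h, zero_mul]), fun h => h0 (by rw [h, mul_zero])⟩
  have hT : ∀ σ : ℝ, (∀ x, τ x = σ • rot u t x) →
      (1 + X ^ 2 : ℝ[X]).eval s • mat τ = (Mp σ u).map (eval s) := by
    intro σ hσ
    ext i j
    rw [Matrix.smul_apply, mat_rot σ u t τ hσ, Matrix.map_apply, Mp, Matrix.of_apply]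
    simp only [eval_add, eval_mul, eval_C, eval_sub, eval_one, eval_pow, eval_X, eval_ofNat,
      smul_eq_mul]
    rw [hc, hsn]
    field_simp
    ring
  rcases hτ with hτ | hτ
  · exact no_split ρ τ (fun l F hF => kernel_zero l _ _ _ _ s (hgood l).1
      (hT 1 (fun x => by rw [one_smul]; exact hτ x)) F hF) hsp
  · exact no_split ρ τ (fun l F hF => kernel_zero l _ _ _ _ s (hgood l).2
      (hT (-1) (fun x => by rw [neg_one_smul]; exact hτ x)) F hF) hsp

theorem det_ne_zero_of_orth {K : Type*} [Field K] {n : Type*} [Fintype n] [DecidableEq n]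
    (T : Matrix n n K) (h : Tᵀ * T = 1) : T.det ≠ 0 := by
  intro h0
  have := congrArg Matrix.det h
  rw [Matrix.det_mul, h0, mul_zero, Matrix.det_one] at this
  exact zero_ne_one this

theorem part2 (ρ τ : E ≃ₗᵢ[ℝ] E) (S : Subring ℝ)
    (P T : Matrix (Fin 3) (Fin 3) S) (hP : ∀ i j, (P i j : ℝ) = ρ (EuclideanSpace.single j 1) i)
    (hT : ∀ i j, (T i j : ℝ) = τ (EuclideanSpace.single j 1) i)
    (K : Type) [Field K] (φ : S →+* K)
    (h : ((2 : K) = 0 ∧ (P.map φ = 1 ∨ T.map φ = 1 ∨ P.map φ = T.map φ)) ∨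
      ((3 : K) ≠ 0 ∧ P.map φ = 1 ∧ T.map φ = 1)) : ¬ Splits ρ τ := by
  have hPm : P.map S.subtype = mat ρ := by
    ext i j; exact hP i j
  have hTm : T.map S.subtype = mat τ := by
    ext i j; exact hT i j
  have horth : ∀ (Q : Matrix (Fin 3) (Fin 3) S) (σ : E ≃ₗᵢ[ℝ] E), Q.map S.subtype = mat σ →
      (Q.map φ)ᵀ * (Q.map φ) = 1 := by
    intro Q σ hQ
    have h1 : Qᵀ * Q = 1 := by
      have h2 : (Qᵀ * Q).map S.subtype = (1 : Matrix (Fin 3) (Fin 3) S).map S.subtype := by
        rw [Matrix.map_mul, Matrix.transpose_map, hQ, mat_orth]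
        simp
      exact Matrix.map_injective Subtype.val_injective h2
    have h3 := congrArg (fun m : Matrix (Fin 3) (Fin 3) S => m.map φ) h1
    simp only [Matrix.map_mul, Matrix.transpose_map] at h3
    rw [h3]
    simp
  have hdetK : ∀ l, (1 + tp l (P.map φ) + tp l (T.map φ)).det ≠ 0 := by
    intro l
    have hz : ∀ X : Matrix (Fin l → Fin 3) (Fin l → Fin 3) K, (2 : K) = 0 → X + X = 0 := by
      intro X h2
      ext a b
      simp only [Matrix.add_apply, Matrix.zero_apply]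
      rw [← two_mul, h2, zero_mul]
    have htp : ∀ Q : Matrix (Fin 3) (Fin 3) K, Qᵀ * Q = 1 → (tp l Q)ᵀ * tp l Q = 1 := by
      intro Q hQ
      rw [tp_transpose, tp_mul, hQ, tp_one]
    rcases h with ⟨h2, h | h | h⟩ | ⟨h3, h, h'⟩
    · rw [h, tp_one, hz 1 h2, zero_add]
      exact det_ne_zero_of_orth _ (htp _ (horth T τ hTm))
    · rw [h, tp_one, add_right_comm, hz 1 h2, zero_add]
      exact det_ne_zero_of_orth _ (htp _ (horth P ρ hPm))
    · rw [h, add_assoc, hz _ h2, add_zero, Matrix.det_one]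
      exact one_ne_zero
    · rw [h, h', tp_one]
      have : (1 + 1 + 1 : Matrix (Fin l → Fin 3) (Fin l → Fin 3) K) = (3 : K) • 1 := by
        ext a b
        simp only [Matrix.add_apply, Matrix.smul_apply, smul_eq_mul]
        ring
      rw [this, Matrix.det_smul, Matrix.det_one, mul_one]
      exact pow_ne_zero _ h3
  apply no_split
  intro l F hF
  by_contra hne
  have h0 : (1 + tp l (mat ρ) + tp l (mat τ)).det = 0 := by
    apply Matrix.exists_mulVec_eq_zero_iff.mp
    refine ⟨F, hne, ?_⟩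
    rw [Matrix.add_mulVec, Matrix.add_mulVec, Matrix.one_mulVec]
    exact hF
  have h1 : (1 + tp l P + tp l T).det = 0 := by
    apply Subtype.val_injective
    have : S.subtype ((1 + tp l P + tp l T).det) = 0 := by
      rw [RingHom.map_det, ← h0, ← hPm, ← hTm, ← tp_map, ← tp_map]
      congr 1
      ext a b
      by_cases hab : a = b
      · subst hab; simp
      · simp [hab]
    exact this
  apply hdetK l
  have h2 : φ ((1 + tp l P + tp l T).det) = 0 := by rw [h1, map_zero]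
  rw [RingHom.map_det] at h2
  rw [← h2, ← tp_map, ← tp_map]
  congr 1
  ext a b
  by_cases hab : a = b
  · subst hab; simp
  · simp [hab]

end SphSplit
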