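import Pool.Agent.Zhu.SphOrd

open MeasureTheory Metric Set Filter Matrix Topology

namespace SphSplit

theorem exists_axis (r : E ≃ₗᵢ[ℝ] E) (hr : ∀ x, r (r (r x)) = x) :
    ∃ N : E, ‖N‖ = 1 / 2 ∧ r N = N := by
  have h : ∃ x : E, x + r x + r (r x) ≠ 0 := by
    by_contra hcon
    push Not at hcon
    have hm : 1 + mat r + mat r * mat r = 0 := by
      ext i j
      have h1 := congrArg (fun z : E => z i) (hcon (EuclideanSpace.single j 1))
      have h2 : mat r * mat r = mat (r.trans r) := (mat_trans r r).symm
      rw [h2]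
      simp only [Matrix.add_apply, Matrix.zero_apply, mat, Matrix.of_apply,
        LinearIsometryEquiv.trans_apply]
      simpa [Matrix.one_apply, Pi.single_apply] using h1
    have h3 : (2 • mat r + 1) * (2 • mat r + 1) = (-3 : ℝ) • (1 : Matrix (Fin 3) (Fin 3) ℝ) := by
      have : (2 • mat r + 1) * (2 • mat r + 1)
          = 4 • (1 + mat r + mat r * mat r) - 3 • (1 : Matrix (Fin 3) (Fin 3) ℝ) := by
        noncomm_ring
      rw [this, hm, smul_zero, zero_sub, neg_smul]
      congr 1
      ext i j
      simp
    have h4 := congrArg Matrix.det h3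
    rw [Matrix.det_mul, Matrix.det_smul, Matrix.det_one] at h4
    simp only [Fintype.card_fin, mul_one] at h4
    nlinarith [mul_self_nonneg ((2 • mat r + 1).det)]
  obtain ⟨x, hx⟩ := h
  set y := x + r x + r (r x) with hy
  have hry : r y = y := by
    rw [hy, map_add, map_add, hr]; abel
  have hyn : ‖y‖ ≠ 0 := norm_ne_zero_iff.mpr hx
  refine ⟨(2 * ‖y‖)⁻¹ • y, ?_, ?_⟩
  · rw [norm_smul, norm_inv, norm_mul, norm_norm]
    simp only [Real.norm_ofNat]
    field_simp
  · rw [map_smul, hry]

theorem exists_Q (b : E) (hb : ‖b‖ = 1) :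
    ∃ Q : E ≃ₗᵢ[ℝ] E, Q (EuclideanSpace.single 2 1) = b := by
  have hn : ‖(EuclideanSpace.single 2 (1 : ℝ) : E)‖ = ‖b‖ := by simp [hb]
  exact ⟨Submodule.reflection (ℝ ∙ ((EuclideanSpace.single 2 (1 : ℝ) : E) - b))ᗮ,
    Submodule.reflection_sub hn⟩

theorem order_three (r s : E ≃ₗᵢ[ℝ] E) (hr : ∀ x, r (r (r x)) = x) :
    ¬ Splits r s := by
  rintro ⟨A, hA, hm, d1, d2, d3, hu⟩
  have hC := cone_null A hm
  set C := cone A with hCdef
  have hsub : C ⊆ ball 0 1 := cone_sub A
  have h1 : Disjoint C (r '' C) := by rw [image_cone]; exact cone_disjoint d1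
  have h2 : Disjoint C (s '' C) := by rw [image_cone]; exact cone_disjoint d2
  have h4 : C ∪ r '' C ∪ s '' C = ball 0 1 \ {0} := by
    rw [image_cone, image_cone, ← cone_union, ← cone_union, hu, cone_sphere]
  have hCfin : volume C ≠ ⊤ := (lt_of_le_of_lt (measure_mono hsub) measure_ball_lt_top).ne
  rw [Set.disjoint_left] at h1
  have hcov : ∀ z : E, z ∈ ball (0 : E) 1 → z ≠ 0 → z ∉ C → z ∉ r '' C → z ∈ s '' C := by
    intro z hz hz0 hzC hzr
    have : z ∈ C ∪ r '' C ∪ s '' C := by rw [h4]; exact ⟨hz, hz0⟩
    rcases this with (h | h) | h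
    · exact absurd h hzC
    · exact absurd h hzr
    · exact h
  set t := s.trans r with ht
  have htimg : t '' C = r '' (s '' C) := by
    rw [ht, image_image]; rfl
  -- C ⊆ t C
  have hsubt : C ⊆ t '' C := by
    intro x hx
    have hx0 : x ≠ 0 := hx.1
    have hz : r (r x) ∈ s '' C := by
      apply hcov
      · have := hx.2.1; simpa using this
      · intro h0; apply hx0
        have := congrArg r h0; rw [hr, map_zero] at this; exact this
      · intro hzC
        exact h1 hx ⟨r (r x), hzC, hr x⟩
      · rintro ⟨c, hc, hcz⟩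
        have hcx : c = r x := r.injective hcz
        rw [hcx] at hc
        exact h1 hc ⟨x, hx, rfl⟩
    rw [htimg]
    exact ⟨r (r x), hz, hr x⟩
  obtain ⟨N, hN, hrN⟩ := exists_axis r hr
  have hN0 : N ≠ 0 := by
    intro h; rw [h, norm_zero] at hN; norm_num at hN
  have hNC : N ∉ C := fun h => h1 h ⟨N, h, hrN⟩
  have hNr : N ∉ r '' C := by
    rintro ⟨c, hc, hcN⟩
    have : c = N := r.injective (by rw [hcN, hrN])
    rw [this] at hc; exact hNC hc
  have hNs : N ∈ s '' C := hcov N (by simp [hN]; norm_num) hN0 hNC hNr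
  have hNt : N ∈ t '' C := by
    rw [htimg]; exact ⟨N, hNs, hrN⟩
  -- t has infinite order
  have hpow : ∀ k : ℕ, t '' C ⊆ (t ^ (k + 1) : E ≃ₗᵢ[ℝ] E) '' C := by
    intro k
    induction k with
    | zero => simp
    | succ k ih =>
      refine ih.trans ?_
      have : (t ^ (k + 1 + 1) : E ≃ₗᵢ[ℝ] E) '' C = (t ^ (k + 1) : E ≃ₗᵢ[ℝ] E) '' (t '' C) := by
        rw [pow_succ, image_image]; rfl
      rw [this]
      exact image_mono hsubt
  have hinf : ∀ k : ℕ, k ≠ 0 → t ^ k ≠ 1 := by
    intro k hk h
    obtain ⟨j, rfl⟩ := Nat.exists_eq_succ_of_ne_zero hk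
    have h5 := hpow j hNt
    have h6 : (t ^ (j + 1) : E ≃ₗᵢ[ℝ] E) = 1 := h
    rw [h6] at h5
    obtain ⟨c, hc, hcN⟩ := h5
    have : c = N := hcN
    rw [this] at hc; exact hNC hc
  -- t preserves C up to a null set
  have hvt : volume (t '' C) = volume C := vol_image t C
  have hae : C =ᵐ[volume] t '' C :=
    ae_eq_of_subset_of_measure_ge hsubt hvt.le hC (by rw [hvt]; exact hCfin)
  have hrest : (volume : Measure E).restrict (t '' C) = (volume : Measure E).restrict C :=
    Measure.restrict_congr_set hae.symm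
  have hmt : ∀ l, tp l (mat t) *ᵥ mom C l = mom C l := by
    intro l
    rw [← mom_image t C hsub]
    ext w
    simp only [mom, hrest]
  set g := t.trans t with hg
  have hmg : ∀ l, tp l (mat g) *ᵥ mom C l = mom C l := by
    intro l
    rw [hg, mat_trans, ← tp_mul, ← Matrix.mulVec_mulVec, hmt, hmt]
  have hdg : (mat g).det = 1 := by
    rw [hg, mat_trans, Matrix.det_mul, ← sq]; exact det_mat_sq t
  obtain ⟨b, hb, hgb⟩ := exists_fixed g hdg
  obtain ⟨Q, hQ⟩ := exists_Q b hb
  have hg' : ∃ α, (Q.trans g).trans Q.symm = rot3 α := by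
    apply eq_rot3
    · rw [mat_trans, mat_trans, Matrix.det_mul, Matrix.det_mul, hdg, one_mul, ← Matrix.det_mul,
        ← mat_trans, LinearIsometryEquiv.self_trans_symm, mat_refl, Matrix.det_one]
    · simp only [LinearIsometryEquiv.trans_apply, hQ, hgb]
      rw [← hQ, LinearIsometryEquiv.symm_apply_apply]
  obtain ⟨α, hα⟩ := hg'
  have hgα : rotQ Q α = g := by
    rw [rotQ, ← hα]
    ext x
    simp
  have hgpow : ∀ k : ℕ, rotQ Q (k * α) = g ^ k := by
    intro k
    induction k with
    | zero => rw [pow_zero, Nat.cast_zero, zero_mul, rotQ_zero]; rfl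
    | succ k ih =>
      have : ((k + 1 : ℕ) : ℝ) * α = k * α + α := by push_cast; ring
      rw [this, rotQ_add, ih, hgα, pow_succ']
      rfl
  have hg2 : g = t ^ 2 := by rw [hg, sq]; rfl
  have hord : ∀ n : ℤ, n ≠ 0 → rotQ Q (n * α) ≠ LinearIsometryEquiv.refl ℝ E := by
    have hnat : ∀ k : ℕ, k ≠ 0 → rotQ Q (k * α) ≠ LinearIsometryEquiv.refl ℝ E := by
      intro k hk h
      rw [hgpow, hg2, ← pow_mul] at h
      exact hinf (2 * k) (by positivity) h
    intro n hn h
    rcases Int.eq_nat_or_neg n with ⟨k, rfl | rfl⟩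
    · exact hnat k (by exact_mod_cast hn) (by exact_mod_cast h)
    · have hk : k ≠ 0 := by
        intro h0; apply hn; rw [h0]; simp
      apply hnat k hk
      have h7 : rotQ Q (((-(k : ℤ) : ℤ) : ℝ) * α + k * α) = LinearIsometryEquiv.refl ℝ E := by
        have : (((-(k : ℤ) : ℤ) : ℝ) * α + k * α) = 0 := by push_cast; ring
        rw [this, rotQ_zero]
      rw [rotQ_add, h] at h7
      exact h7
  have hall := all_angles Q C α (by rw [hgα]; exact hmg) hord
  have hZ : ∀ x y : E, x ∈ Dens C → ‖y‖ = ‖x‖ → inner ℝ y b = inner ℝ x b → y ∈ Dens C := by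
    intro x y hx hn hi
    obtain ⟨φ, rfl⟩ := rotQ_circle Q b hQ x y hn hi
    apply dens_inv _ _ _ hx
    apply restrict_eq_of_mom (image_ball_sub _ hsub) hsub
    intro l
    rw [mom_image _ _ hsub]
    exact hall φ l
  have hrC : NullMeasurableSet (r '' C) := image_null r hC
  have hdis : Disjoint C (r '' C) := Set.disjoint_left.mpr h1
  -- C has positive measure near N
  have hposU : ∀ ε : ℝ, 0 < ε → ball N ε ⊆ ball (0 : E) 1 → volume (C ∩ ball N ε) ≠ 0 := by
    intro ε hε hU hzero
    have hrU : r '' ball N ε = ball N ε := by rw [r.image_ball, hrN]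
    have e1 : volume (r '' C ∩ ball N ε) = 0 := by
      rw [← hrU, ← image_inter r.injective, vol_image]; exact hzero
    have e2 : volume (t '' C ∩ ball N ε) = 0 := by
      rw [inter_comm, ← Measure.restrict_apply measurableSet_ball, hrest,
        Measure.restrict_apply measurableSet_ball, inter_comm]
      exact hzero
    have e3 : volume (s '' C ∩ ball N ε) = 0 := by
      rw [htimg] at e2
      rw [← vol_image r, image_inter r.injective, hrU]
      exact e2
    have e4 : volume (ball N ε) = 0 := by
      refine measure_mono_null (t := {0} ∪ (C ∩ ball N ε) ∪ (r '' C ∩ ball N ε) ∪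
        (s '' C ∩ ball N ε)) ?_ ?_
      · intro z hz
        by_cases hz0 : z = 0
        · left; left; left; exact hz0
        by_cases hzC : z ∈ C
        · left; left; right; exact ⟨hzC, hz⟩
        by_cases hzr : z ∈ r '' C
        · left; right; exact ⟨hzr, hz⟩
        · right; exact ⟨hcov z (hU hz) hz0 hzC hzr, hz⟩
      · exact measure_union_null (measure_union_null (measure_union_null
          (measure_singleton _) hzero) e1) e3
    exact (measure_ball_pos volume N hε).ne' e4
  have hballN : ∀ ε : ℝ, ε ≤ 1 / 2 → ball N ε ⊆ ball (0 : E) 1 := by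
    intro ε hε
    apply ball_subset_ball'
    rw [dist_zero_right, hN]; linarith
  by_cases hrb : r b = b
  · obtain ⟨x, _, hx⟩ := exists_dens C (ball N (1 / 2)) measurableSet_ball
      (hposU _ (by norm_num) (hballN _ le_rfl))
    have hrx : r x ∈ Dens C := by
      apply hZ x (r x) hx (r.norm_map x)
      conv_lhs => rw [← hrb]
      exact r.inner_map_map x b
    exact dens_disjoint hrC hdis hrx (dens_image r C hx)
  · set c := inner ℝ b (r b) with hc
    set m := b + r b with hmdef
    have hbb : inner ℝ b b = 1 := by rw [real_inner_self_eq_norm_sq, hb]; norm_num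
    have hrbb : inner ℝ (r b) (r b) = 1 := by rw [r.inner_map_map]; exact hbb
    have hcs : inner ℝ (r b) b = c := by rw [real_inner_comm]
    have hmb : inner ℝ m b = 1 + c := by
      rw [hmdef, inner_add_left, hbb, hcs]
    have hmr : inner ℝ m (r b) = 1 + c := by
      rw [hmdef, inner_add_left, hrbb, ← hc]; ring
    have hmm : inner ℝ m m = 2 * (1 + c) := by
      conv_lhs => rw [hmdef]
      rw [inner_add_right, hmb, hmr] 
      ring
    have hb0 : b ≠ 0 := by intro h; rw [h, norm_zero] at hb; exact zero_ne_one hb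
    have hm0 : m ≠ 0 := by
      intro h
      have e1 : r b = -b := eq_neg_of_add_eq_zero_right h
      have e2 := hr b
      rw [e1, map_neg, e1, neg_neg, e1] at e2
      apply hb0
      have : b + b = 0 := by nth_rewrite 1 [← e2]; exact neg_add_cancel b
      have h2 : (2 : ℝ) • b = 0 := by rw [two_smul]; exact this
      exact (smul_eq_zero.mp h2).resolve_left two_ne_zero
    have hcpos : 0 < 1 + c := by
      have : 0 < inner ℝ m m := real_inner_self_pos.mpr hm0
      rw [hmm] at this; linarith
    set β := inner ℝ N b with hβ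
    have hNr' : inner ℝ N (r b) = β := by
      conv_lhs => rw [← hrN]
      exact r.inner_map_map N b
    set w := N - (β / (1 + c)) • m with hw
    have hwb : inner ℝ w b = 0 := by
      rw [hw, inner_sub_left, real_inner_smul_left, hmb, ← hβ]; field_simp; ring
    have hwr : inner ℝ w (r b) = 0 := by
      rw [hw, inner_sub_left, real_inner_smul_left, hmr, hNr']; field_simp; ring
    have hwm : inner ℝ w m = 0 := by
      conv_lhs => rw [hmdef]
      rw [inner_add_right, hwb, hwr, add_zero]
    have hw0 : w ≠ 0 := by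
      intro h
      have e1 : N = (β / (1 + c)) • m := sub_eq_zero.mp h
      have hl : β / (1 + c) ≠ 0 := by
        intro h0; rw [h0, zero_smul] at e1; exact hN0 e1
      have e2 : r m = m := by
        have h3 : (β / (1 + c)) • r m = (β / (1 + c)) • m := by
          rw [← map_smul, ← e1, hrN]
        exact smul_right_injective E hl h3
      have e3 : r (r b) = b := by
        rw [hmdef, map_add] at e2
        rw [add_comm] at e2
        exact add_right_cancel e2
      apply hrb
      have e4 := hr b
      rw [e3] at e4; exact e4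
    have hwpos : 0 < inner ℝ w w := real_inner_self_pos.mpr hw0
    have hNN : inner ℝ N N = 2 * β ^ 2 / (1 + c) + inner ℝ w w := by
      have e1 : N = (β / (1 + c)) • m + w := by rw [hw]; abel
      conv_lhs => rw [e1]
      rw [inner_add_add_self, real_inner_smul_left, real_inner_smul_right, hmm,
        real_inner_smul_left, real_inner_smul_right, real_inner_comm, hwm]
      field_simp
      ring
    have hcont : Continuous fun x : E => inner ℝ x x - 2 * (inner ℝ x b) ^ 2 / (1 + c) := by
      fun_prop
    have hqN : 0 < inner ℝ N N - 2 * (inner ℝ N b) ^ 2 / (1 + c) := by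
      rw [hNN, ← hβ]; linarith
    have hopen : IsOpen {x : E | 0 < inner ℝ x x - 2 * (inner ℝ x b) ^ 2 / (1 + c)} :=
      isOpen_lt continuous_const hcont
    obtain ⟨ε, hε, hεU⟩ := Metric.isOpen_iff.mp hopen N hqN
    obtain ⟨x, hxU, hx⟩ := exists_dens C (ball N (min ε (1 / 2))) measurableSet_ball
      (hposU _ (lt_min hε (by norm_num)) (hballN _ (min_le_right _ _)))
    have hqx : 0 < inner ℝ x x - 2 * (inner ℝ x b) ^ 2 / (1 + c) :=
      hεU (ball_subset_ball (min_le_left _ _) hxU)
    set a := inner ℝ x b with ha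
    set q := inner ℝ x x - 2 * a ^ 2 / (1 + c) with hq
    set κ := Real.sqrt (q / inner ℝ w w) with hκ
    have hκ2 : κ ^ 2 * inner ℝ w w = q := by
      rw [hκ, Real.sq_sqrt (by positivity)]
      field_simp
    set z := (a / (1 + c)) • m + κ • w with hz
    have hzb : inner ℝ z b = a := by
      rw [hz, inner_add_left, real_inner_smul_left, real_inner_smul_left, hmb, hwb]
      field_simp; ring
    have hzr : inner ℝ z (r b) = a := by
      rw [hz, inner_add_left, real_inner_smul_left, real_inner_smul_left, hmr, hwr]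
      field_simp; ring
    have hzz : inner ℝ z z = inner ℝ x x := by
      rw [hz, inner_add_add_self]
      simp only [real_inner_smul_left, real_inner_smul_right]
      rw [hmm, real_inner_comm w m, hwm]
      have : κ * (κ * inner ℝ w w) = q := by rw [← hκ2]; ring
      rw [this, hq]
      field_simp
      ring
    have hzn : ‖z‖ = ‖x‖ := by
      rw [real_inner_self_eq_norm_sq, real_inner_self_eq_norm_sq] at hzz
      exact (pow_left_inj₀ (norm_nonneg _) (norm_nonneg _) two_ne_zero).mp hzz
    have hzD : z ∈ Dens C := hZ x z hx hzn (by rw [hzb])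
    have hrz : r.symm z ∈ Dens C := by
      apply hZ x (r.symm z) hx
      · rw [LinearIsometryEquiv.norm_map, hzn]
      · have : inner ℝ (r.symm z) b = inner ℝ z (r b) := by
          rw [← r.inner_map_map, r.apply_symm_apply]
        rw [this, hzr]
    have hzD' : z ∈ Dens (r '' C) := by
      have := dens_image r C hrz
      rwa [r.apply_symm_apply] at this
    exact dens_disjoint hrC hdis hzD hzD'

end SphSplit
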