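import Pool.Agent.Zhu.Check

/-!
A graph on 11 vertices of 7 types.  The numbers of vertices of the types are
`3, 1, 1, 1, 1, 3, 1`; types 0 and 5 are cliques, and the pairs of types that are completely joined
are 0-2, 0-3, 0-6, 1-3, 1-6, 2-4, 2-5, 2-6, 3-5, 4-5, 4-6.
-/

set_option autoImplicit false

namespace Pool.Agent.Zhu

/-- masks of the types adjacent to a type -/
def amA : List Nat := [nat_lit 77, nat_lit 72, nat_lit 113, nat_lit 35, nat_lit 100, nat_lit 60, nat_lit 23]
/-- complements of the masks in `amA` -/
def namA : List Nat := [nat_lit 50, nat_lit 55, nat_lit 14, nat_lit 92, nat_lit 27, nat_lit 67, nat_lit 104]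
/-- complements of the singletons -/
def bitsA : List Nat := [nat_lit 126, nat_lit 125, nat_lit 123, nat_lit 119, nat_lit 111, nat_lit 95, nat_lit 63]
/-- numbers of vertices of the types -/
def csA : List Nat := [nat_lit 3, nat_lit 1, nat_lit 1, nat_lit 1, nat_lit 1, nat_lit 3, nat_lit 1]

end Pool.Agent.Zhu
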