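/-!
Strategy-table checker for the graph coloring game on a graph whose vertices fall into `m` types
(two vertices are adjacent or not according to their types).  A position is described by the list
`cs` of the numbers of uncolored vertices of each type and the list `L` of the masks, one for each
color, of the types at which the color is still available.

All functions are written with recursors, so that the kernel evaluates them quickly.
-/

set_option autoImplicit false
set_option linter.unusedVariables false

namespace Pool.Agent.Zhu

/-- search tree of packed positions with packed replies -/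
inductive Tree : Type
  | leaf : Tree
  | node (l : Tree) (k h : Nat) (r : Tree) : Tree

/-- membership, by binary search -/
noncomputable def mem (x : Nat) (t : Tree) : Bool :=
  Tree.rec false (fun _ k _ _ il ir => Bool.rec (Bool.rec ir il (Nat.ble x k)) true (Nat.beq x k)) t

/-- all nodes satisfy a test -/
noncomputable def all (p : Nat → Nat → Bool) (t : Tree) : Bool :=
  Tree.rec true (fun _ k h _ il ir => Bool.rec false (Bool.rec false ir il) (p k h)) t

/-- `n` digits in base `b` -/
noncomputable def unpack (b n : Nat) : Nat → List Nat :=
  Nat.rec (fun _ => []) (fun _ ih x => Nat.mod x b :: ih (Nat.div x b)) n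

/-- number with given digits -/
noncomputable def pack (b : Nat) (l : List Nat) : Nat :=
  List.rec 0 (fun a _ ih => Nat.add a (Nat.mul b ih)) l

/-- decrement the entry at index `i` -/
noncomputable def dec (l : List Nat) : Nat → List Nat :=
  List.rec (fun _ => []) (fun a l ih i => Nat.rec (Nat.pred a :: l) (fun j _ => a :: ih j) i) l

/-- entry at index `i` -/
noncomputable def get (l : List Nat) : Nat → Nat :=
  List.rec (fun _ => 0) (fun a _ ih i => Nat.rec a (fun j _ => ih j) i) l

/-- insertion into a sorted list -/
noncomputable def ins (a : Nat) (l : List Nat) : List Nat :=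
  List.rec [a] (fun b l ih => Bool.rec (b :: ih) (a :: b :: l) (Nat.ble a b)) l

/-- remove the first occurrence of `a` -/
noncomputable def del (a : Nat) (l : List Nat) : List Nat :=
  List.rec [] (fun b l ih => Bool.rec (b :: ih) l (Nat.beq a b)) l

/-- intersect all masks with `w` and sort -/
noncomputable def srt (w : Nat) (l : List Nat) : List Nat :=
  List.rec [] (fun b _ ih => ins (Nat.land b w) ih) l

/-- masks after color class `μ` is played at type `i`; `cs'` are the new counts -/
noncomputable def stepL (nam bits cs' L : List Nat) (i μ : Nat) : List Nat :=
  Nat.rec (srt (get bits i) (Nat.land μ (get nam i) :: del μ L))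
    (fun _ _ => ins (Nat.land μ (get nam i)) (del μ L)) (get cs' i)

/-- union of all masks -/
noncomputable def orL (l : List Nat) : Nat := List.rec 0 (fun a _ ih => Nat.lor a ih) l

/-- mask of the types that still have an uncolored vertex -/
noncomputable def act (l : List Nat) : Nat :=
  List.rec 0 (fun a _ ih => Nat.rec (Nat.mul 2 ih) (fun _ _ => Nat.succ (Nat.mul 2 ih)) a) l

/-- some type with an uncolored vertex has no available color -/
noncomputable def dead (cs L : List Nat) : Bool := Bool.rec true false (Nat.beq (orL L) (act cs))

/-- bit `i` of `μ` -/
noncomputable def tb (i μ : Nat) : Bool := Nat.beq (Nat.land (Nat.shiftRight μ i) 1) 1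

/-- packed position -/
noncomputable def key (P b : Nat) (cs L : List Nat) : Nat := Nat.add (pack 16 cs) (Nat.mul P (pack b L))

/-- check of the position `(cs1, L1)` reached by a move of the opponent: either it is terminal or
the reply encoded by `h` leads to a terminal position or to a position of the table -/
noncomputable def rep (term : List Nat → List Nat → Bool) (T : Tree) (P b : Nat)
    (nam bits cs1 L1 : List Nat) (h : Nat) : Bool :=
  let i' := Nat.land h 15
  Bool.rec
    (let μ' := get L1 (Nat.land (Nat.shiftRight h 4) 7)
    let cs2 := dec cs1 i'
    let L2 := stepL nam bits cs2 L1 i' μ'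
    Bool.rec false (Bool.rec false
      (Bool.rec (mem (key P b cs2 L2) T) (term cs2 L2) (Nat.ble 128 h)) (tb i' μ'))
        (Nat.ble 1 (get cs1 i')))
    (term cs1 L1) (Nat.beq i' 15)

/-- loop over the masks -/
noncomputable def chkL (term : List Nat → List Nat → Bool) (T : Tree) (P b : Nat)
    (nam bits cs L : List Nat) (i : Nat) (l : List Nat) : Nat → Nat → Bool :=
  List.rec (fun _ _ => true) (fun μ _ ih prev h =>
     Bool.rec
       (Bool.rec (ih μ (Nat.shiftRight h 8))
          (Bool.rec false (ih μ (Nat.shiftRight h 8))
            (rep term T P b nam bits (dec cs i) (stepL nam bits (dec cs i) L i μ) (Nat.land h 255)))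
         (tb i μ))
       (ih μ (Nat.shiftRight h 8))
       (Nat.beq μ prev)) l

/-- loop over the types -/
noncomputable def chkT (term : List Nat → List Nat → Bool) (T : Tree) (P b S : Nat)
    (nam bits cs L : List Nat) (l : List Nat) : Nat → Nat → Bool :=
  List.rec (fun _ _ => true) (fun n _ ih i h =>
    Nat.rec (ih (Nat.succ i) (Nat.shiftRight h S))
     (fun _ _ => Bool.rec false (ih (Nat.succ i) (Nat.shiftRight h S))
        (chkL term T P b nam bits cs L i L b h)) n) l

/-- check of one position of the table -/
noncomputable def chk (pre term : List Nat → List Nat → Bool) (T : Tree) (m K P b S : Nat)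
    (nam bits : List Nat) (k h : Nat) : Bool :=
  Bool.rec false
    (chkT term T P b S nam bits (unpack 16 m k) (unpack b K (Nat.div k P)) (unpack 16 m k) 0 h)
    (pre (unpack 16 m k) (unpack b K (Nat.div k P)))

end Pool.Agent.Zhu

namespace Pool.Agent.Zhu

/-- number of masks with bit `j` -/
noncomputable def cnt (j : Nat) (L : List Nat) : Nat :=
  List.rec 0 (fun μ _ ih => Bool.rec ih (Nat.succ ih) (tb j μ)) L

/-- some mask has bit `j` and is disjoint from `w` -/
noncomputable def prv (j w : Nat) (L : List Nat) : Bool :=
  List.rec false (fun μ _ ih => Bool.rec ih (Bool.rec ih true (Nat.beq (Nat.land μ w) 0)) (tb j μ)) L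

/-- number of uncolored vertices of the types in the mask `a` -/
noncomputable def dg (a : Nat) (cs : List Nat) : Nat → Nat :=
  List.rec (fun _ => 0)
    (fun n _ ih i => Bool.rec (ih (Nat.succ i)) (Nat.add n (ih (Nat.succ i))) (tb i a)) cs

/-- the vertices of type `j` (there are `n ≥ 1` uncolored ones) can never get stuck -/
noncomputable def safe1 (am bits cs L : List Nat) (j n : Nat) : Bool :=
  Bool.rec
    (Nat.ble (Nat.succ (dg (get am j) cs 0))
      (Bool.rec (cnt j L) (Nat.succ (cnt j L)) (tb j (get am j))))
    true
    (prv j (Bool.rec (get am j) (Nat.land (get am j) (get bits j)) (Nat.beq n 1)) L)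

noncomputable def safeT (am bits cs L : List Nat) (l : List Nat) : Nat → Bool :=
  List.rec (fun _ => true) (fun n _ ih j =>
    Nat.rec (ih (Nat.succ j))
      (fun _ _ => Bool.rec false (ih (Nat.succ j)) (safe1 am bits cs L j n)) n) l

/-- no uncolored vertex can ever get stuck -/
noncomputable def safe (am bits cs L : List Nat) : Bool := safeT am bits cs L cs 0

/-- every active type has an available color -/
noncomputable def live (cs L : List Nat) : Bool := Nat.beq (orL L) (act cs)

/-- some type has an uncolored vertex -/
noncomputable def nonfull (cs L : List Nat) : Bool := Bool.rec true false (Nat.beq (act cs) 0)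

theorem all_mk (p : Nat → Nat → Bool) (l : Tree) (k h : Nat) (r : Tree) (h1 : p k h = true)
    (h2 : all p l = true) (h3 : all p r = true) : all p (Tree.node l k h r) = true := by
  have e : all p (Tree.node l k h r) = Bool.rec (motive := fun _ => Bool) false
    (Bool.rec (motive := fun _ => Bool) false (all p r) (all p l)) (p k h) := rfl
  rw [e, h1, h2]
  exact h3

end Pool.Agent.Zhu
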