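import Mathlib
import Pool.Agent.Zhu.Check

set_option autoImplicit false

namespace Pool.Agent.Zhu

theorem br {α : Type} (f t : α) (c : Bool) :
    (Bool.rec (motive := fun _ => α) f t c) = if c = true then t else f := by cases c <;> rfl

/-- `(k, h)` is a node of the tree -/
def InT (k h : ℕ) : Tree → Prop
  | .leaf => False
  | .node l k' h' r => (k = k' ∧ h = h') ∨ InT k h l ∨ InT k h r

theorem mem_inT (x : ℕ) (t : Tree) : mem x t = true → ∃ h, InT x h t := by
  induction t with
  | leaf => intro h; exact absurd h (by simp [mem])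
  | node l k h r ihl ihr =>
    intro hm
    have e : mem x (.node l k h r) =
      Bool.rec (motive := fun _ => Bool) (Bool.rec (motive := fun _ => Bool) (mem x r) (mem x l) (Nat.ble x k)) true (Nat.beq x k) := rfl
    rw [e, br, br] at hm
    split_ifs at hm with h1 h2
    · exact ⟨h, Or.inl ⟨Nat.eq_of_beq_eq_true h1, rfl⟩⟩
    · obtain ⟨h', hh⟩ := ihl hm; exact ⟨h', Or.inr (Or.inl hh)⟩
    · obtain ⟨h', hh⟩ := ihr hm; exact ⟨h', Or.inr (Or.inr hh)⟩

theorem all_inT (p : ℕ → ℕ → Bool) (t : Tree) (k h : ℕ) : all p t = true → InT k h t → p k h = true := by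
  induction t with
  | leaf => intro _ hh; exact absurd hh (by simp [InT])
  | node l k' h' r ihl ihr =>
    intro hm hin
    have e : all p (.node l k' h' r) =
      Bool.rec (motive := fun _ => Bool) false (Bool.rec (motive := fun _ => Bool) false (all p r) (all p l)) (p k' h') := rfl
    rw [e, br, br] at hm
    split_ifs at hm with h1 h2
    rcases hin with ⟨rfl, rfl⟩ | hin | hin
    · exact h1
    · exact ihl h2 hin
    · exact ihr hm hin

theorem all_node (p : ℕ → ℕ → Bool) (l r : Tree) (k h : ℕ) (h1 : p k h = true)
    (h2 : all p l = true) (h3 : all p r = true) : all p (.node l k h r) = true := by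
  have e : all p (.node l k h r) =
      Bool.rec (motive := fun _ => Bool) false (Bool.rec (motive := fun _ => Bool) false (all p r) (all p l)) (p k h) := rfl
  rw [e, br, br]; simp [h1, h2, h3]

theorem get_nil (i : ℕ) : get [] i = 0 := rfl
theorem get_zero (a : ℕ) (l : List ℕ) : get (a :: l) 0 = a := rfl
theorem get_succ (a : ℕ) (l : List ℕ) (i : ℕ) : get (a :: l) (i+1) = get l i := rfl
theorem dec_nil (i : ℕ) : dec [] i = [] := rfl
theorem dec_zero (a : ℕ) (l : List ℕ) : dec (a :: l) 0 = (a - 1) :: l := rfl
theorem dec_succ (a : ℕ) (l : List ℕ) (i : ℕ) : dec (a :: l) (i+1) = a :: dec l i := rfl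

theorem get_dec (l : List ℕ) (i j : ℕ) :
    get (dec l i) j = if j = i then get l j - 1 else get l j := by
  induction l generalizing i j with
  | nil => simp [dec_nil, get_nil]
  | cons a l ih =>
    cases i with
    | zero =>
      cases j with
      | zero => simp [dec_zero, get_zero]
      | succ j => simp [dec_zero, get_succ]
    | succ i =>
      cases j with
      | zero => simp [dec_succ, get_zero]
      | succ j => simp [dec_succ, get_succ, ih]

theorem length_dec (l : List ℕ) (i : ℕ) : (dec l i).length = l.length := by
  induction l generalizing i with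
  | nil => rfl
  | cons a l ih =>
    cases i with
    | zero => rfl
    | succ i => simp [dec_succ, ih]

theorem dec_lt (b : ℕ) (l : List ℕ) (i : ℕ) (h : ∀ a ∈ l, a < b) : ∀ a ∈ dec l i, a < b := by
  induction l generalizing i with
  | nil => simpa [dec_nil] using h
  | cons a l ih =>
    cases i with
    | zero =>
      intro x hx
      rw [dec_zero, List.mem_cons] at hx
      rcases hx with rfl | hx
      · have := h a (by simp); omega
      · exact h x (by simp [hx])
    | succ i =>
      intro x hx
      rw [dec_succ, List.mem_cons] at hx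
      rcases hx with rfl | hx
      · exact h _ (by simp)
      · exact ih i (fun y hy => h y (by simp [hy])) x hx

theorem get_ne_zero (l : List ℕ) (i : ℕ) (h : get l i ≠ 0) : i < l.length ∧ get l i ∈ l := by
  induction l generalizing i with
  | nil => exact absurd rfl h
  | cons a l ih =>
    cases i with
    | zero => simp [get_zero]
    | succ i =>
      rw [get_succ] at h ⊢
      have := ih i h
      simp only [List.length_cons, List.mem_cons]
      exact ⟨by omega, Or.inr this.2⟩

theorem ins_cons (a b : ℕ) (l : List ℕ) :
    ins a (b :: l) = if Nat.ble a b = true then a :: b :: l else b :: ins a l := by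
  have : ins a (b :: l) = Bool.rec (motive := fun _ => List ℕ) (b :: ins a l) (a :: b :: l) (Nat.ble a b) := rfl
  rw [this, br]

theorem ins_perm (a : ℕ) (l : List ℕ) : (ins a l).Perm (a :: l) := by
  induction l with
  | nil => exact List.Perm.refl _
  | cons b l ih =>
    rw [ins_cons]
    split_ifs
    · exact List.Perm.refl _
    · exact (List.Perm.cons b ih).trans (List.Perm.swap a b l)

theorem del_cons (a b : ℕ) (l : List ℕ) :
    del a (b :: l) = if Nat.beq a b = true then l else b :: del a l := by
  have : del a (b :: l) = Bool.rec (motive := fun _ => List ℕ) (b :: del a l) l (Nat.beq a b) := rfl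
  rw [this, br]

theorem del_perm (a : ℕ) (l : List ℕ) (h : a ∈ l) : (a :: del a l).Perm l := by
  induction l with
  | nil => simp at h
  | cons b l ih =>
    rw [del_cons]
    split_ifs with hab
    · rw [Nat.eq_of_beq_eq_true hab]
    · have hne : a ≠ b := by
        rintro rfl
        exact hab (by simp)
      have hal : a ∈ l := by
        rcases List.mem_cons.1 h with h | h
        · exact absurd h hne
        · exact h
      exact (List.Perm.swap b a _).trans (List.Perm.cons b (ih hal))

theorem srt_perm (w : ℕ) (l : List ℕ) : (srt w l).Perm (l.map (fun x => x &&& w)) := by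
  induction l with
  | nil => exact List.Perm.refl _
  | cons b l ih =>
    have : srt w (b :: l) = ins (Nat.land b w) (srt w l) := rfl
    rw [this]
    exact (ins_perm _ _).trans (List.Perm.cons _ ih)

theorem pack_cons (b a : ℕ) (l : List ℕ) : pack b (a :: l) = a + b * pack b l := rfl

theorem unpack_succ (b n x : ℕ) : unpack b (n+1) x = x % b :: unpack b n (x / b) := rfl

theorem pack_lt (b : ℕ) (l : List ℕ) (hb : 0 < b) (h : ∀ a ∈ l, a < b) : pack b l < b ^ l.length := by
  induction l with
  | nil => simp [pack]
  | cons a l ih =>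
    rw [pack_cons, List.length_cons, pow_succ]
    have h1 := ih (fun x hx => h x (by simp [hx]))
    have h2 := h a (by simp)
    calc a + b * pack b l < b + b * pack b l := by omega
      _ = b * (pack b l + 1) := by ring
      _ ≤ b * b ^ l.length := Nat.mul_le_mul_left _ h1
      _ = b ^ l.length * b := by ring

theorem unpack_pack (b : ℕ) (l : List ℕ) (y : ℕ) (h : ∀ a ∈ l, a < b) :
    unpack b l.length (pack b l + b ^ l.length * y) = l := by
  induction l with
  | nil => rfl
  | cons a l ih =>
    have h2 := h a (by simp)
    have hb : 0 < b := by omega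
    rw [List.length_cons, unpack_succ, pack_cons]
    have e : a + b * pack b l + b ^ (l.length + 1) * y = a + b * (pack b l + b ^ l.length * y) := by ring
    rw [e]
    have e1 : (a + b * (pack b l + b ^ l.length * y)) % b = a := by
      rw [Nat.add_mul_mod_self_left, Nat.mod_eq_of_lt h2]
    have e2 : (a + b * (pack b l + b ^ l.length * y)) / b = pack b l + b ^ l.length * y := by
      rw [Nat.add_mul_div_left _ _ hb, Nat.div_eq_of_lt h2, zero_add]
    rw [e1, e2, ih (fun x hx => h x (by simp [hx]))]

theorem decode_cs (m b : ℕ) (cs L : List ℕ) (hl : cs.length = m) (h : ∀ a ∈ cs, a < 16) :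
    unpack 16 m (key (16 ^ m) b cs L) = cs := by
  have : key (16 ^ m) b cs L = pack 16 cs + 16 ^ m * pack b L := rfl
  rw [this, ← hl]
  exact unpack_pack 16 cs _ h

theorem decode_L (m b K : ℕ) (cs L : List ℕ) (hl : cs.length = m) (h : ∀ a ∈ cs, a < 16)
    (hL : L.length = K) (hb : ∀ a ∈ L, a < b) :
    unpack b K (Nat.div (key (16 ^ m) b cs L) (16 ^ m)) = L := by
  have e : key (16 ^ m) b cs L = pack 16 cs + 16 ^ m * pack b L := rfl
  have h1 : pack 16 cs < 16 ^ m := by rw [← hl]; exact pack_lt 16 cs (by norm_num) h
  have e2 : Nat.div (key (16 ^ m) b cs L) (16 ^ m) = pack b L := by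
    rw [e]
    change (pack 16 cs + 16 ^ m * pack b L) / 16 ^ m = _
    rw [Nat.add_mul_div_left _ _ (by positivity), Nat.div_eq_of_lt h1, zero_add]
  rw [e2]
  have := unpack_pack b L 0 hb
  rwa [mul_zero, add_zero, hL] at this

theorem orL_cons (a : ℕ) (l : List ℕ) : orL (a :: l) = a ||| orL l := rfl

theorem testBit_orL (l : List ℕ) (j : ℕ) :
    (orL l).testBit j = true ↔ ∃ a ∈ l, a.testBit j = true := by
  induction l with
  | nil => simp [orL]
  | cons a l ih =>
    rw [orL_cons, Nat.testBit_or, Bool.or_eq_true, ih]
    simp

theorem act_cons (a : ℕ) (l : List ℕ) : act (a :: l) = if a = 0 then 2 * act l else 2 * act l + 1 := by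
  cases a with
  | zero => rfl
  | succ n => rfl

theorem testBit_act (l : List ℕ) (j : ℕ) : (act l).testBit j = true ↔ get l j ≠ 0 := by
  induction l generalizing j with
  | nil => simp [act, get]
  | cons a l ih =>
    rw [act_cons]
    cases j with
    | zero =>
      rw [get_zero, Nat.testBit_zero]
      split_ifs with h
      · simp [h]
      · simp [h]
    | succ j =>
      rw [get_succ, ← ih, Nat.testBit_succ]
      have : (if a = 0 then 2 * act l else 2 * act l + 1) / 2 = act l := by
        split_ifs <;> omega
      rw [this]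

theorem tb_iff (i μ : ℕ) : tb i μ = true ↔ μ.testBit i = true := by
  have : tb i μ = Nat.beq ((μ >>> i) &&& 1) 1 := rfl
  rw [this, Nat.testBit, Nat.beq_eq]
  rw [Nat.and_comm 1]
  have h := Nat.and_one_is_mod (μ >>> i)
  rw [h]
  have : (μ >>> i) % 2 = 0 ∨ (μ >>> i) % 2 = 1 := by omega
  rcases this with h | h <;> simp [h]

end Pool.Agent.Zhu
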