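import Mathlib
import Pool.Agent.Zhu.Basic

set_option autoImplicit false

namespace Pool.Agent.Zhu

/-- the reply condition at the position `(cs1, L1)` -/
def Replies (term : List ℕ → List ℕ → Bool) (T : Tree) (P b : ℕ) (nam bits cs1 L1 : List ℕ) : Prop :=
  term cs1 L1 = true ∨ ∃ i' μ', get cs1 i' ≠ 0 ∧ μ' ∈ L1 ∧ μ'.testBit i' = true ∧
    (term (dec cs1 i') (stepL nam bits (dec cs1 i') L1 i' μ') = true ∨
      mem (key P b (dec cs1 i') (stepL nam bits (dec cs1 i') L1 i' μ')) T = true)

theorem get_eq_zero_or_mem (l : List ℕ) (i : ℕ) : get l i = 0 ∨ get l i ∈ l := by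
  by_cases h : get l i = 0
  · exact Or.inl h
  · exact Or.inr (get_ne_zero l i h).2

theorem rep_sound (term : List ℕ → List ℕ → Bool) (T : Tree) (P b : ℕ) (nam bits cs1 L1 : List ℕ)
    (h : ℕ) (hr : rep term T P b nam bits cs1 L1 h = true) :
    Replies term T P b nam bits cs1 L1 := by
  have e : rep term T P b nam bits cs1 L1 h =
    Bool.rec (motive := fun _ => Bool)
    (Bool.rec (motive := fun _ => Bool) false (Bool.rec (motive := fun _ => Bool) false
      (Bool.rec (motive := fun _ => Bool)
        (mem (key P b (dec cs1 (Nat.land h 15))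
          (stepL nam bits (dec cs1 (Nat.land h 15)) L1 (Nat.land h 15)
            (get L1 (Nat.land (Nat.shiftRight h 4) 7)))) T)
        (term (dec cs1 (Nat.land h 15))
          (stepL nam bits (dec cs1 (Nat.land h 15)) L1 (Nat.land h 15)
            (get L1 (Nat.land (Nat.shiftRight h 4) 7)))) (Nat.ble 128 h))
        (tb (Nat.land h 15) (get L1 (Nat.land (Nat.shiftRight h 4) 7))))
        (Nat.ble 1 (get cs1 (Nat.land h 15))))
    (term cs1 L1) (Nat.beq (Nat.land h 15) 15) := rfl
  rw [e, br, br, br, br] at hr
  split_ifs at hr with h1 h2 h3 h4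
  · exact Or.inl hr
  · refine Or.inr ⟨_, _, ?_, ?_, (tb_iff _ _).1 h3, Or.inl hr⟩
    · have := Nat.le_of_ble_eq_true h2
      omega
    · rcases get_eq_zero_or_mem L1 (Nat.land (Nat.shiftRight h 4) 7) with h0 | h0
      · rw [h0, tb_iff] at h3; simp at h3
      · exact h0
  · refine Or.inr ⟨_, _, ?_, ?_, (tb_iff _ _).1 h3, Or.inr hr⟩
    · have := Nat.le_of_ble_eq_true h2
      omega
    · rcases get_eq_zero_or_mem L1 (Nat.land (Nat.shiftRight h 4) 7) with h0 | h0
      · rw [h0, tb_iff] at h3; simp at h3
      · exact h0

theorem chkL_sound (term : List ℕ → List ℕ → Bool) (T : Tree) (P b : ℕ) (nam bits cs L : List ℕ)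
    (i : ℕ) (l : List ℕ) (prev h : ℕ) (hc : chkL term T P b nam bits cs L i l prev h = true) :
    ∀ μ ∈ l, μ.testBit i = true → μ = prev ∨
      Replies term T P b nam bits (dec cs i) (stepL nam bits (dec cs i) L i μ) := by
  induction l generalizing prev h with
  | nil => simp
  | cons a l ih =>
    have e : chkL term T P b nam bits cs L i (a :: l) prev h =
      Bool.rec (motive := fun _ => Bool)
       (Bool.rec (motive := fun _ => Bool) (chkL term T P b nam bits cs L i l a (Nat.shiftRight h 8))
          (Bool.rec (motive := fun _ => Bool) false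
            (chkL term T P b nam bits cs L i l a (Nat.shiftRight h 8))
            (rep term T P b nam bits (dec cs i) (stepL nam bits (dec cs i) L i a) (Nat.land h 255)))
         (tb i a))
       (chkL term T P b nam bits cs L i l a (Nat.shiftRight h 8))
       (Nat.beq a prev) := rfl
    rw [e, br, br, br] at hc
    intro μ hμ hbit
    split_ifs at hc with h1 h2 h3
    · have hap : a = prev := Nat.eq_of_beq_eq_true h1
      rcases List.mem_cons.1 hμ with rfl | hμ
      · exact Or.inl hap
      · rcases ih _ _ hc μ hμ hbit with h4 | h4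
        · exact Or.inl (h4.trans hap)
        · exact Or.inr h4
    · have hra := rep_sound _ _ _ _ _ _ _ _ _ h3
      rcases List.mem_cons.1 hμ with rfl | hμ
      · exact Or.inr hra
      · rcases ih _ _ hc μ hμ hbit with h4 | h4
        · rw [h4]; exact Or.inr hra
        · exact Or.inr h4
    · have hna : ∀ ν, ν = a → ν.testBit i = true → False := by
        rintro ν rfl hν
        exact h2 ((tb_iff _ _).2 hν)
      rcases List.mem_cons.1 hμ with h5 | hμ
      · exact (hna _ h5 hbit).elim
      · rcases ih _ _ hc μ hμ hbit with h4 | h4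
        · exact (hna _ h4 hbit).elim
        · exact Or.inr h4

theorem chkT_sound (term : List ℕ → List ℕ → Bool) (T : Tree) (P b S : ℕ) (nam bits cs L : List ℕ)
    (hL : ∀ μ ∈ L, μ < b) (l : List ℕ) (i h : ℕ)
    (hc : chkT term T P b S nam bits cs L l i h = true) :
    ∀ j, get l j ≠ 0 → ∀ μ ∈ L, μ.testBit (i + j) = true →
      Replies term T P b nam bits (dec cs (i + j)) (stepL nam bits (dec cs (i + j)) L (i + j) μ) := by
  induction l generalizing i h with
  | nil => intro j hj; exact absurd rfl hj
  | cons a l ih =>
    have e : chkT term T P b S nam bits cs L (a :: l) i h =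
      Nat.rec (motive := fun _ => Bool)
        (chkT term T P b S nam bits cs L l (i+1) (Nat.shiftRight h S))
        (fun _ _ => Bool.rec (motive := fun _ => Bool) false
          (chkT term T P b S nam bits cs L l (i+1) (Nat.shiftRight h S))
          (chkL term T P b nam bits cs L i L b h)) a := rfl
    rw [e] at hc
    intro j hj μ hμ hbit
    cases j with
    | zero =>
      rw [get_zero] at hj
      obtain ⟨n, rfl⟩ := Nat.exists_eq_succ_of_ne_zero hj
      change (Bool.rec (motive := fun _ => Bool) false
          (chkT term T P b S nam bits cs L l (i+1) (Nat.shiftRight h S))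
          (chkL term T P b nam bits cs L i L b h)) = true at hc
      rw [br] at hc
      split_ifs at hc with h1
      rcases chkL_sound _ _ _ _ _ _ _ _ _ _ _ _ h1 μ hμ hbit with h2 | h2
      · have := hL μ hμ; omega
      · exact h2
    | succ j =>
      rw [get_succ] at hj
      have hc' : chkT term T P b S nam bits cs L l (i+1) (Nat.shiftRight h S) = true := by
        cases a with
        | zero => exact hc
        | succ n =>
          change (Bool.rec (motive := fun _ => Bool) false
            (chkT term T P b S nam bits cs L l (i+1) (Nat.shiftRight h S))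
            (chkL term T P b nam bits cs L i L b h)) = true at hc
          rw [br] at hc
          split_ifs at hc with h1
          exact hc
      have e2 : i + (j + 1) = i + 1 + j := by omega
      rw [e2] at hbit ⊢
      exact ih _ _ hc' j hj μ hμ hbit

/-- A position of the table passes the test at each of its moves. -/
theorem chk_sound (pre term : List ℕ → List ℕ → Bool) (T : Tree) (m K b S : ℕ)
    (nam bits cs L : List ℕ) (hall : all (chk pre term T m K (16 ^ m) b S nam bits) T = true)
    (hl : cs.length = m) (hcs : ∀ a ∈ cs, a < 16) (hLK : L.length = K) (hL : ∀ a ∈ L, a < b)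
    (hm : mem (key (16 ^ m) b cs L) T = true) :
    pre cs L = true ∧ ∀ i, get cs i ≠ 0 → ∀ μ ∈ L, μ.testBit i = true →
      Replies term T (16 ^ m) b nam bits (dec cs i) (stepL nam bits (dec cs i) L i μ) := by
  obtain ⟨h, hh⟩ := mem_inT _ _ hm
  have h1 := all_inT _ _ _ _ hall hh
  have e : chk pre term T m K (16 ^ m) b S nam bits (key (16 ^ m) b cs L) h =
    Bool.rec (motive := fun _ => Bool) false
      (chkT term T (16 ^ m) b S nam bits (unpack 16 m (key (16 ^ m) b cs L))
        (unpack b K (Nat.div (key (16 ^ m) b cs L) (16 ^ m)))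
        (unpack 16 m (key (16 ^ m) b cs L)) 0 h)
      (pre (unpack 16 m (key (16 ^ m) b cs L))
        (unpack b K (Nat.div (key (16 ^ m) b cs L) (16 ^ m)))) := rfl
  rw [e, decode_cs m b cs L hl hcs, decode_L m b K cs L hl hcs hLK hL, br] at h1
  split_ifs at h1 with h2
  refine ⟨h2, ?_⟩
  intro i hi μ hμ hbit
  have := chkT_sound _ _ _ _ _ _ _ _ _ hL _ _ _ h1 i hi μ hμ
  rw [zero_add] at this
  exact this hbit

end Pool.Agent.Zhu
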