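import Mathlib
import Pool.Agent.Zhu.Sound

set_option autoImplicit false

namespace Pool.Agent.Zhu

variable {V : Type} [Fintype V] [DecidableEq V]

/-- A legal move: color `c` at the uncolored vertex `v`. -/
def Legal (G : SimpleGraph V) (K : ℕ) (f : V → Option ℕ) (v : V) (c : ℕ) : Prop :=
  f v = none ∧ c < K ∧ ∀ w, G.Adj v w → f w ≠ some c

/-- the graph `G` is given by the types `ty v < m` and the adjacency masks `am` of the types -/
structure GData (G : SimpleGraph V) (ty : V → ℕ) (m : ℕ) (am nam bits : List ℕ) : Prop where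
  hty : ∀ v, ty v < m
  hadj : ∀ u v, u ≠ v → (G.Adj u v ↔ (get am (ty u)).testBit (ty v) = true)
  hsymm : ∀ i < m, ∀ j < m, (get am i).testBit j = (get am j).testBit i
  hnam : ∀ i < m, ∀ j < m, (get nam i).testBit j = !(get am i).testBit j
  hbits : ∀ i < m, ∀ j < m, (get bits i).testBit j = !decide (j = i)

/-- `(cs, L)` describes the position `f` -/
def Match (K : ℕ) (ty : V → ℕ) (m : ℕ) (am : List ℕ) (f : V → Option ℕ) (cs L : List ℕ) : Prop :=
  cs.length = m ∧ (∀ a ∈ cs, a < 16) ∧
  (∀ i < m, get cs i = (Finset.univ.filter (fun v => ty v = i ∧ f v = none)).card) ∧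
  ∃ μ : ℕ → ℕ, ((List.range K).map μ).Perm L ∧
    ∀ c < K, ∀ j, ((μ c).testBit j = true ↔
      j < m ∧ get cs j ≠ 0 ∧ ∀ w, f w = some c → (get am j).testBit (ty w) = false)

theorem Match.length_L {K : ℕ} {ty : V → ℕ} {m : ℕ} {am : List ℕ} {f : V → Option ℕ}
    {cs L : List ℕ} (h : Match K ty m am f cs L) : L.length = K := by
  obtain ⟨_, _, _, μ, hp, _⟩ := h
  have := hp.length_eq
  simpa using this.symm

theorem Match.lt {K : ℕ} {ty : V → ℕ} {m : ℕ} {am : List ℕ} {f : V → Option ℕ}
    {cs L : List ℕ} (h : Match K ty m am f cs L) : ∀ a ∈ L, a < 2 ^ m := by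
  obtain ⟨_, _, _, μ, hp, hμ⟩ := h
  intro a ha
  have := hp.mem_iff.2 ha
  simp only [List.mem_map, List.mem_range] at this
  obtain ⟨c, hc, rfl⟩ := this
  apply Nat.lt_pow_two_of_testBit
  intro j hj
  by_contra hne
  have hne' : (μ c).testBit j = true := by simpa using hne
  have := ((hμ c hc j).1 hne').1
  omega

section
variable {G : SimpleGraph V} {ty : V → ℕ} {m : ℕ} {am nam bits : List ℕ}
  (hG : GData G ty m am nam bits)
include hG

theorem legal_iff {K : ℕ} {f : V → Option ℕ} {v : V} {c : ℕ} (hv : f v = none) :
    (∀ w, G.Adj v w → f w ≠ some c) ↔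
      ∀ w, f w = some c → (get am (ty v)).testBit (ty w) = false := by
  constructor
  · intro h w hw
    have hne : v ≠ w := by rintro rfl; rw [hv] at hw; simp at hw
    by_contra hb
    have hb' : (get am (ty v)).testBit (ty w) = true := by simpa using hb
    exact h w ((hG.hadj v w hne).2 hb') hw
  · intro h w hw hf
    have := h w hf
    rw [(hG.hadj v w hw.ne).1 hw] at this
    simp at this

/-- the effect of a legal move on the description of the position -/
theorem match_step {K : ℕ} {f : V → Option ℕ} {cs L : List ℕ} {μ : ℕ → ℕ}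
    (h1 : cs.length = m) (h2 : ∀ a ∈ cs, a < 16)
    (h3 : ∀ i < m, get cs i = (Finset.univ.filter (fun v => ty v = i ∧ f v = none)).card)
    (hp : ((List.range K).map μ).Perm L)
    (hμ : ∀ c < K, ∀ j, ((μ c).testBit j = true ↔
      j < m ∧ get cs j ≠ 0 ∧ ∀ w, f w = some c → (get am j).testBit (ty w) = false))
    {v : V} {c : ℕ} (hl : Legal G K f v c) :
    Match K ty m am (Function.update f v (some c)) (dec cs (ty v))
      (stepL nam bits (dec cs (ty v)) L (ty v) (μ c)) := by
  obtain ⟨hv, hc, _⟩ := hl
  have hcm : μ c ∈ L := hp.mem_iff.1 (List.mem_map.2 ⟨c, List.mem_range.2 hc, rfl⟩)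
  -- counts
  have hcount : ∀ i < m, get (dec cs (ty v)) i =
      (Finset.univ.filter (fun u => ty u = i ∧ Function.update f v (some c) u = none)).card := by
    intro i hi
    rw [get_dec]
    split_ifs with hiv
    · subst hiv
      rw [h3 _ hi]
      have e : (Finset.univ.filter (fun u => ty u = ty v ∧ Function.update f v (some c) u = none)) =
          (Finset.univ.filter (fun u => ty u = ty v ∧ f u = none)).erase v := by
        ext u
        simp only [Finset.mem_filter, Finset.mem_univ, true_and, Finset.mem_erase]
        by_cases huv : u = v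
        · subst huv; simp
        · rw [Function.update_of_ne huv]; simp [huv]
      rw [e, Finset.card_erase_of_mem (by simp [hv])]
    · rw [h3 _ hi]
      congr 1
      ext u
      simp only [Finset.mem_filter, Finset.mem_univ, true_and]
      by_cases huv : u = v
      · subst huv
        constructor
        · rintro ⟨h, _⟩; exact absurd h.symm hiv
        · rintro ⟨h, _⟩; exact absurd h.symm hiv
      · rw [Function.update_of_ne huv]
  -- the rest of the masks
  have hrest : (((List.range K).erase c).map μ).Perm (del (μ c) L) := by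
    have ha : (μ c :: ((List.range K).erase c).map μ).Perm (μ c :: del (μ c) L) := by
      have hb : (c :: (List.range K).erase c).Perm (List.range K) :=
        (List.perm_cons_erase (List.mem_range.2 hc)).symm
      have hb' := (hb.map μ).trans hp
      rw [List.map_cons] at hb'
      exact hb'.trans (del_perm _ _ hcm).symm
    exact (List.perm_cons _).1 ha
  -- new mask of color `c`
  set ν : ℕ := μ c &&& get nam (ty v) with hν
  have hupd : ((List.range K).map (Function.update μ c ν)).Perm (ν :: del (μ c) L) := by
    have hb : (c :: (List.range K).erase c).Perm (List.range K) :=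
      (List.perm_cons_erase (List.mem_range.2 hc)).symm
    have hb' := (hb.map (Function.update μ c ν)).symm
    rw [List.map_cons, Function.update_self] at hb'
    refine hb'.trans (List.Perm.cons _ ?_)
    have hmap : ((List.range K).erase c).map (Function.update μ c ν) =
        ((List.range K).erase c).map μ := by
      apply List.map_congr_left
      intro d hd
      have hdc : d ≠ c := by
        rintro rfl
        exact (List.nodup_range.not_mem_erase) hd
      rw [Function.update_of_ne hdc]
    rw [hmap]; exact hrest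
  have hν' : ∀ j, (ν.testBit j = true ↔ j < m ∧ get cs j ≠ 0 ∧
      ∀ w, Function.update f v (some c) w = some c → (get am j).testBit (ty w) = false) := by
    intro j
    rw [hν, Nat.testBit_and, Bool.and_eq_true, hμ c hc j]
    constructor
    · rintro ⟨⟨a, b, d⟩, e⟩
      refine ⟨a, b, fun w hw => ?_⟩
      by_cases hwv : w = v
      · subst hwv
        rw [hG.hnam _ (hG.hty w) _ a] at e
        rw [hG.hsymm _ a _ (hG.hty w)]
        simpa using e
      · rw [Function.update_of_ne hwv] at hw
        exact d w hw
    · rintro ⟨a, b, d⟩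
      refine ⟨⟨a, b, fun w hw => ?_⟩, ?_⟩
      · have hwv : w ≠ v := by rintro rfl; rw [hv] at hw; simp at hw
        exact d w (by rw [Function.update_of_ne hwv]; exact hw)
      · have := d v (by simp)
        rw [hG.hsymm _ a _ (hG.hty v)] at this
        rw [hG.hnam _ (hG.hty v) _ a, this]; rfl
  have hall : ∀ d < K, ∀ j, ((Function.update μ c ν d).testBit j = true ↔ j < m ∧ get cs j ≠ 0 ∧
      ∀ w, Function.update f v (some c) w = some d → (get am j).testBit (ty w) = false) := by
    intro d hd j
    by_cases hdc : d = c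
    · subst hdc; rw [Function.update_self]; exact hν' j
    · rw [Function.update_of_ne hdc, hμ d hd j]
      have : ∀ w, Function.update f v (some c) w = some d ↔ f w = some d := by
        intro w
        by_cases hwv : w = v
        · subst hwv
          rw [Function.update_self, hv]
          constructor
          · intro h; exact absurd (Option.some.inj h).symm hdc
          · intro h; simp at h
        · rw [Function.update_of_ne hwv]
      simp only [this]
  refine ⟨by rw [length_dec, h1], dec_lt 16 cs _ h2, hcount, ?_⟩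
  have hgd : ∀ j, get (dec cs (ty v)) j ≠ 0 → get cs j ≠ 0 := by
    intro j hj
    rw [get_dec] at hj
    split_ifs at hj <;> omega
  rcases Nat.eq_zero_or_pos (get (dec cs (ty v)) (ty v)) with h0 | hpos
  · -- the type becomes inactive
    refine ⟨fun d => Function.update μ c ν d &&& get bits (ty v), ?_, ?_⟩
    · have e : stepL nam bits (dec cs (ty v)) L (ty v) (μ c) =
          srt (get bits (ty v)) (ν :: del (μ c) L) := by
        unfold stepL
        rw [h0]
        rfl
      rw [e]
      refine List.Perm.trans ?_ (srt_perm _ _).symm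
      have := hupd.map (fun x => x &&& get bits (ty v))
      rwa [List.map_map] at this
    · intro d hd j
      rw [Nat.testBit_and, Bool.and_eq_true, hall d hd j]
      constructor
      · rintro ⟨⟨a, b, e⟩, g⟩
        refine ⟨a, ?_, e⟩
        rw [hG.hbits _ (hG.hty v) _ a] at g
        have hjv : j ≠ ty v := by simpa using g
        rw [get_dec, if_neg hjv]; exact b
      · rintro ⟨a, b, e⟩
        refine ⟨⟨a, hgd j b, e⟩, ?_⟩
        rw [hG.hbits _ (hG.hty v) _ a]
        have hjv : j ≠ ty v := by
          rintro rfl; exact b h0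
        simp [hjv]
  · refine ⟨Function.update μ c ν, ?_, ?_⟩
    · have e : stepL nam bits (dec cs (ty v)) L (ty v) (μ c) = ins ν (del (μ c) L) := by
        unfold stepL
        obtain ⟨n, hn⟩ := Nat.exists_eq_succ_of_ne_zero (Nat.pos_iff_ne_zero.1 hpos)
        rw [hn]
        rfl
      rw [e]
      exact hupd.trans (ins_perm _ _).symm
    · intro d hd j
      rw [hall d hd j]
      constructor
      · rintro ⟨a, b, e⟩
        refine ⟨a, ?_, e⟩
        rw [get_dec]
        split_ifs with hjv
        · subst hjv
          rw [get_dec, if_pos rfl] at hpos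
          omega
        · exact b
      · rintro ⟨a, b, e⟩
        exact ⟨a, hgd j b, e⟩

/-- every legal move is described by a move of the abstract position -/
theorem Match.move {K : ℕ} {f : V → Option ℕ} {cs L : List ℕ} (h : Match K ty m am f cs L)
    {v : V} {c : ℕ} (hl : Legal G K f v c) :
    get cs (ty v) ≠ 0 ∧ ∃ μ ∈ L, μ.testBit (ty v) = true ∧
      Match K ty m am (Function.update f v (some c)) (dec cs (ty v))
      (stepL nam bits (dec cs (ty v)) L (ty v) μ) := by
  obtain ⟨h1, h2, h3, μ, hp, hμ⟩ := h
  have hpos : get cs (ty v) ≠ 0 := by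
    rw [h3 _ (hG.hty v)]
    exact Finset.card_ne_zero_of_mem (a := v) (by simp [hl.1])
  refine ⟨hpos, μ c, hp.mem_iff.1 (List.mem_map.2 ⟨c, List.mem_range.2 hl.2.1, rfl⟩), ?_,
    match_step hG h1 h2 h3 hp hμ hl⟩
  rw [hμ c hl.2.1]
  exact ⟨hG.hty v, hpos, (legal_iff (K := K) hG hl.1).1 hl.2.2⟩

/-- every move of the abstract position is realized by a legal move -/
theorem Match.realize {K : ℕ} {f : V → Option ℕ} {cs L : List ℕ} (h : Match K ty m am f cs L)
    {i : ℕ} (hi : get cs i ≠ 0) {μ' : ℕ} (hμ' : μ' ∈ L) (hb : μ'.testBit i = true) :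
    ∃ v c, Legal G K f v c ∧
      Match K ty m am (Function.update f v (some c)) (dec cs i) (stepL nam bits (dec cs i) L i μ') := by
  obtain ⟨h1, h2, h3, μ, hp, hμ⟩ := h
  have him : i < m := by rw [← h1]; exact (get_ne_zero _ _ hi).1
  rw [h3 i him, Finset.card_ne_zero] at hi
  obtain ⟨v, hv⟩ := hi
  simp only [Finset.mem_filter, Finset.mem_univ, true_and] at hv
  obtain ⟨rfl, hv⟩ := hv
  have := hp.mem_iff.2 hμ'
  simp only [List.mem_map, List.mem_range] at this
  obtain ⟨c, hc, rfl⟩ := this
  have hl : Legal G K f v c :=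
    ⟨hv, hc, (legal_iff (K := K) hG hv).2 ((hμ c hc _).1 hb).2.2⟩
  exact ⟨v, c, hl, match_step hG h1 h2 h3 hp hμ hl⟩

/-- in a live position every uncolored vertex has an available color -/
theorem Match.live {K : ℕ} {f : V → Option ℕ} {cs L : List ℕ} (h : Match K ty m am f cs L)
    (hlv : live cs L = true) {v : V} (hv : f v = none) : ∃ c, Legal G K f v c := by
  obtain ⟨h1, h2, h3, μ, hp, hμ⟩ := h
  have hpos : get cs (ty v) ≠ 0 := by
    rw [h3 _ (hG.hty v)]
    exact Finset.card_ne_zero_of_mem (a := v) (by simp [hv])
  have e : orL L = act cs := Nat.eq_of_beq_eq_true hlv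
  have hb := (testBit_act cs (ty v)).2 hpos
  rw [← e, testBit_orL] at hb
  obtain ⟨a, ha, hab⟩ := hb
  have := hp.mem_iff.2 ha
  simp only [List.mem_map, List.mem_range] at this
  obtain ⟨c, hc, rfl⟩ := this
  exact ⟨c, hv, hc, (legal_iff (K := K) hG hv).2 ((hμ c hc _).1 hab).2.2⟩

/-- in a dead position some uncolored vertex has no available color -/
theorem Match.dead {K : ℕ} {f : V → Option ℕ} {cs L : List ℕ} (h : Match K ty m am f cs L)
    (hd : dead cs L = true) : ∃ v, f v = none ∧ ∀ c, ¬ Legal G K f v c := by
  obtain ⟨h1, h2, h3, μ, hp, hμ⟩ := h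
  have hd' : Zhu.dead cs L = Bool.rec (motive := fun _ => Bool) true false (Nat.beq (orL L) (act cs)) := rfl
  rw [hd', br] at hd
  have hne : orL L ≠ act cs := by
    intro e
    rw [e] at hd
    simp at hd
  have hex : ∃ j, (orL L).testBit j ≠ (act cs).testBit j := by
    by_contra hcon
    push Not at hcon
    exact hne (Nat.eq_of_testBit_eq hcon)
  obtain ⟨j, hj⟩ := hex
  have key : (act cs).testBit j = true ∧ ¬ (orL L).testBit j = true := by
    by_cases ha : (act cs).testBit j = true
    · exact ⟨ha, fun ho => hj (by rw [ha, ho])⟩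
    · exfalso
      have ho : (orL L).testBit j = true := by
        by_contra ho
        apply hj
        simp only [Bool.not_eq_true] at ha ho
        rw [ha, ho]
      rw [testBit_orL] at ho
      obtain ⟨a, haL, hab⟩ := ho
      have := hp.mem_iff.2 haL
      simp only [List.mem_map, List.mem_range] at this
      obtain ⟨c, hc, rfl⟩ := this
      exact ha ((testBit_act cs j).2 ((hμ c hc j).1 hab).2.1)
  have hcj := (testBit_act cs j).1 key.1
  have hjm : j < m := by rw [← h1]; exact (get_ne_zero _ _ hcj).1
  have hcj' := hcj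
  rw [h3 j hjm, Finset.card_ne_zero] at hcj'
  obtain ⟨v, hv⟩ := hcj'
  simp only [Finset.mem_filter, Finset.mem_univ, true_and] at hv
  obtain ⟨rfl, hv⟩ := hv
  refine ⟨v, hv, ?_⟩
  rintro c ⟨_, hc, hl⟩
  apply key.2
  rw [testBit_orL]
  refine ⟨μ c, hp.mem_iff.1 (List.mem_map.2 ⟨c, List.mem_range.2 hc, rfl⟩), ?_⟩
  rw [hμ c hc]
  exact ⟨hjm, hcj, (legal_iff (K := K) hG hv).1 hl⟩

end

end Pool.Agent.Zhu
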