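import Mathlib
import Pool.Agent.Zhu.Game

set_option autoImplicit false

namespace Pool.Agent.Zhu

variable {V : Type} [Fintype V] [DecidableEq V]

/-- the legal colors of `v` -/
def LC (G : SimpleGraph V) (K : ℕ) (f : V → Option ℕ) (v : V) : Set ℕ :=
  {c | c < K ∧ ∀ w, G.Adj v w → f w ≠ some c}

theorem LC_finite (G : SimpleGraph V) (K : ℕ) (f : V → Option ℕ) (v : V) : (LC G K f v).Finite :=
  (Set.finite_Iio K).subset (fun _ h => h.1)

/-- every uncolored vertex has a private legal color or more legal colors than uncolored
neighbors -/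
def Safe (G : SimpleGraph V) (K : ℕ) (f : V → Option ℕ) : Prop :=
  ∀ v, f v = none →
    (∃ c ∈ LC G K f v, ∀ w, G.Adj v w → f w = none → c ∉ LC G K f w) ∨
    {w | G.Adj v w ∧ f w = none}.ncard < (LC G K f v).ncard

theorem Safe.legal {G : SimpleGraph V} {K : ℕ} {f : V → Option ℕ} (h : Safe G K f) {v : V}
    (hv : f v = none) : ∃ c, Legal G K f v c := by
  rcases h v hv with ⟨c, hc, _⟩ | h
  · exact ⟨c, hv, hc.1, hc.2⟩
  · have : (LC G K f v).Nonempty := by
      rw [Set.nonempty_iff_ne_empty]
      intro he
      rw [he] at h
      simp at h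
    obtain ⟨c, hc⟩ := this
    exact ⟨c, hv, hc.1, hc.2⟩

theorem LC_update_subset {G : SimpleGraph V} {K : ℕ} {f : V → Option ℕ} {u v : V} {c : ℕ}
    (hl : Legal G K f u c) : LC G K (Function.update f u (some c)) v ⊆ LC G K f v := by
  rintro d ⟨hd, h⟩
  refine ⟨hd, fun w hw hf => ?_⟩
  have hwu : w ≠ u := by rintro rfl; rw [hl.1] at hf; simp at hf
  exact h w hw (by rw [Function.update_of_ne hwu]; exact hf)

theorem mem_LC_update {G : SimpleGraph V} {K : ℕ} {f : V → Option ℕ} {u v : V} {c d : ℕ}
    (hd : d ∈ LC G K f v) (h : G.Adj v u → d ≠ c) : d ∈ LC G K (Function.update f u (some c)) v := by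
  refine ⟨hd.1, fun w hw hf => ?_⟩
  by_cases hwu : w = u
  · subst hwu
    rw [Function.update_self] at hf
    exact h hw (Option.some.inj hf).symm
  · rw [Function.update_of_ne hwu] at hf
    exact hd.2 w hw hf

theorem Safe.update {G : SimpleGraph V} {K : ℕ} {f : V → Option ℕ} (h : Safe G K f) {u : V} {c : ℕ}
    (hl : Legal G K f u c) : Safe G K (Function.update f u (some c)) := by
  intro v hv
  have hvu : v ≠ u := by rintro rfl; simp at hv
  have hv' : f v = none := by rwa [Function.update_of_ne hvu] at hv
  rcases h v hv' with ⟨d, hd, hpr⟩ | hlt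
  · left
    refine ⟨d, mem_LC_update hd ?_, ?_⟩
    · rintro huv rfl
      exact hpr u huv hl.1 ⟨hl.2.1, hl.2.2⟩
    · intro w hw hfw hdw
      have hwu : w ≠ u := by rintro rfl; simp at hfw
      rw [Function.update_of_ne hwu] at hfw
      exact hpr w hw hfw (LC_update_subset hl hdw)
  · right
    by_cases huv : G.Adj v u
    · have e : {w | G.Adj v w ∧ Function.update f u (some c) w = none} =
          {w | G.Adj v w ∧ f w = none} \ {u} := by
        ext w
        simp only [Set.mem_setOf_eq, Set.mem_sdiff, Set.mem_singleton_iff]
        by_cases hwu : w = u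
        · subst hwu; simp
        · rw [Function.update_of_ne hwu]; simp [hwu]
      have hmem : u ∈ {w | G.Adj v w ∧ f w = none} := ⟨huv, hl.1⟩
      have h1 := Set.ncard_diff_singleton_add_one hmem (Set.toFinite _)
      rw [e]
      have hsub : LC G K f v \ {c} ⊆ LC G K (Function.update f u (some c)) v := by
        rintro d ⟨hd, hdc⟩
        exact mem_LC_update hd (fun _ => hdc)
      have h2 := Set.ncard_le_ncard hsub (LC_finite _ _ _ _)
      have h3 : (LC G K f v).ncard ≤ (LC G K f v \ {c}).ncard + 1 := by
        by_cases hc : c ∈ LC G K f v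
        · rw [Set.ncard_diff_singleton_add_one hc (LC_finite _ _ _ _)]
        · rw [Set.diff_singleton_eq_self hc]; omega
      omega
    · have e : {w | G.Adj v w ∧ Function.update f u (some c) w = none} =
          {w | G.Adj v w ∧ f w = none} := by
        ext w
        simp only [Set.mem_setOf_eq]
        by_cases hwu : w = u
        · subst hwu
          constructor
          · rintro ⟨a, _⟩; exact absurd a huv
          · rintro ⟨a, _⟩; exact absurd a huv
        · rw [Function.update_of_ne hwu]
      rw [e]
      have hsub : LC G K f v ⊆ LC G K (Function.update f u (some c)) v := by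
        intro d hd
        exact mem_LC_update hd (fun h => absurd h huv)
      exact hlt.trans_le (Set.ncard_le_ncard hsub (LC_finite _ _ _ _))

/-! ### the boolean test -/

theorem cnt_cons (j a : ℕ) (l : List ℕ) :
    cnt j (a :: l) = if a.testBit j = true then cnt j l + 1 else cnt j l := by
  have : cnt j (a :: l) = Bool.rec (motive := fun _ => ℕ) (cnt j l) (Nat.succ (cnt j l)) (tb j a) := rfl
  rw [this, br]
  simp only [tb_iff]

theorem cnt_eq (j : ℕ) (l : List ℕ) : cnt j l = l.countP (fun a => a.testBit j) := by
  induction l with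
  | nil => rfl
  | cons a l ih =>
    rw [cnt_cons, List.countP_cons, ih]
    split_ifs <;> rfl

theorem prv_cons (j w a : ℕ) (l : List ℕ) : prv j w (a :: l) = true ↔
    (a.testBit j = true ∧ a &&& w = 0) ∨ prv j w l = true := by
  have : prv j w (a :: l) = Bool.rec (motive := fun _ => Bool) (prv j w l)
    (Bool.rec (motive := fun _ => Bool) (prv j w l) true (Nat.beq (Nat.land a w) 0)) (tb j a) := rfl
  rw [this, br, br]
  have e : Nat.beq (Nat.land a w) 0 = true ↔ a &&& w = 0 :=
    ⟨Nat.eq_of_beq_eq_true, fun h => by
      have : Nat.land a w = 0 := h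
      rw [this]; rfl⟩
  simp only [tb_iff, e]
  by_cases h1 : a.testBit j = true
  · by_cases h2 : a &&& w = 0
    · simp [h1, h2]
    · simp [h1, h2]
  · simp [h1]

theorem prv_iff (j w : ℕ) (l : List ℕ) : prv j w l = true ↔
    ∃ a ∈ l, a.testBit j = true ∧ a &&& w = 0 := by
  induction l with
  | nil =>
    have : prv j w [] = false := rfl
    simp [this]
  | cons a l ih =>
    rw [prv_cons, ih]
    simp

theorem dg_cons (a n : ℕ) (cs : List ℕ) (i : ℕ) :
    dg a (n :: cs) i = (if a.testBit i = true then n else 0) + dg a cs (i+1) := by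
  have : dg a (n :: cs) i = Bool.rec (motive := fun _ => ℕ) (dg a cs (i+1)) (n + dg a cs (i+1)) (tb i a) := rfl
  rw [this, br]
  simp only [tb_iff]
  split_ifs <;> simp

theorem dg_eq (a : ℕ) (cs : List ℕ) (i : ℕ) :
    dg a cs i = ∑ j ∈ Finset.range cs.length, if a.testBit (i + j) = true then get cs j else 0 := by
  induction cs generalizing i with
  | nil => rfl
  | cons n cs ih =>
    rw [dg_cons, ih, List.length_cons, Finset.sum_range_succ', add_comm]
    congr 1
    apply Finset.sum_congr rfl
    intro j _
    rw [get_succ]
    have : i + 1 + j = i + (j + 1) := by omega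
    rw [this]

theorem safeT_sound (am bits cs L l : List ℕ) (i : ℕ) (h : safeT am bits cs L l i = true) :
    ∀ j, get l j ≠ 0 → safe1 am bits cs L (i + j) (get l j) = true := by
  induction l generalizing i with
  | nil => intro j hj; exact absurd rfl hj
  | cons a l ih =>
    have e : safeT am bits cs L (a :: l) i =
      Nat.rec (motive := fun _ => Bool) (safeT am bits cs L l (i+1))
        (fun _ _ => Bool.rec (motive := fun _ => Bool) false (safeT am bits cs L l (i+1))
          (safe1 am bits cs L i a)) a := rfl
    rw [e] at h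
    intro j hj
    cases j with
    | zero =>
      rw [get_zero] at hj ⊢
      obtain ⟨n, rfl⟩ := Nat.exists_eq_succ_of_ne_zero hj
      change (Bool.rec (motive := fun _ => Bool) false (safeT am bits cs L l (i+1))
          (safe1 am bits cs L i (n+1))) = true at h
      rw [br] at h
      split_ifs at h with h1
      exact h1
    | succ j =>
      rw [get_succ] at hj ⊢
      have h' : safeT am bits cs L l (i+1) = true := by
        cases a with
        | zero => exact h
        | succ n =>
          change (Bool.rec (motive := fun _ => Bool) false (safeT am bits cs L l (i+1))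
            (safe1 am bits cs L i (n+1))) = true at h
          rw [br] at h
          split_ifs at h with h1
          exact h
      have e2 : i + (j + 1) = i + 1 + j := by omega
      rw [e2]
      exact ih _ h' j hj

theorem safe1_iff (am bits cs L : List ℕ) (j n : ℕ) (h : safe1 am bits cs L j n = true) :
    (∃ a ∈ L, a.testBit j = true ∧
      a &&& (if n = 1 then get am j &&& get bits j else get am j) = 0) ∨
    dg (get am j) cs 0 < (if (get am j).testBit j = true then cnt j L + 1 else cnt j L) := by
  have e : safe1 am bits cs L j n =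
    Bool.rec (motive := fun _ => Bool)
    (Nat.ble (Nat.succ (dg (get am j) cs 0))
      (Bool.rec (motive := fun _ => ℕ) (cnt j L) (Nat.succ (cnt j L)) (tb j (get am j))))
    true
    (prv j (Bool.rec (motive := fun _ => ℕ) (get am j) (Nat.land (get am j) (get bits j)) (Nat.beq n 1)) L) := rfl
  rw [e, br] at h
  split_ifs at h with h1
  · left
    rw [prv_iff, br] at h1
    obtain ⟨a, ha, hb, hc⟩ := h1
    refine ⟨a, ha, hb, ?_⟩
    by_cases hn : n = 1
    · subst hn
      simpa using hc
    · have : ¬ Nat.beq n 1 = true := fun h => hn (Nat.eq_of_beq_eq_true h)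
      rw [if_neg this] at hc
      rw [if_neg hn]; exact hc
  · right
    have := Nat.le_of_ble_eq_true h
    rw [br] at this
    simp only [tb_iff] at this
    exact this

section
variable {G : SimpleGraph V} {ty : V → ℕ} {m : ℕ} {am nam bits : List ℕ}
  (hG : GData G ty m am nam bits)
include hG

theorem Match.safe {K : ℕ} {f : V → Option ℕ} {cs L : List ℕ} (h : Match K ty m am f cs L)
    (hs : safe am bits cs L = true) : Safe G K f := by
  obtain ⟨h1, h2, h3, μ, hp, hμ⟩ := h
  intro v hv
  have hvm := hG.hty v
  have hpos : get cs (ty v) ≠ 0 := by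
    rw [h3 _ hvm]
    exact Finset.card_ne_zero_of_mem (a := v) (by simp [hv])
  have hs1 := safeT_sound _ _ _ _ _ _ hs (ty v) hpos
  rw [zero_add] at hs1
  have hlc : ∀ c < K, ∀ u, f u = none → (c ∈ LC G K f u ↔ (μ c).testBit (ty u) = true) := by
    intro c hc u hu
    have hposu : get cs (ty u) ≠ 0 := by
      rw [h3 _ (hG.hty u)]
      exact Finset.card_ne_zero_of_mem (a := u) (by simp [hu])
    rw [hμ c hc]
    constructor
    · intro hcu
      exact ⟨hG.hty u, hposu, (legal_iff (K := K) hG hu).1 hcu.2⟩
    · intro hcu
      exact ⟨hc, (legal_iff (K := K) hG hu).2 hcu.2.2⟩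
  rcases safe1_iff _ _ _ _ _ _ hs1 with ⟨a, ha, hb, hz⟩ | hlt
  · left
    have := hp.mem_iff.2 ha
    simp only [List.mem_map, List.mem_range] at this
    obtain ⟨c, hc, rfl⟩ := this
    refine ⟨c, (hlc c hc v hv).2 hb, ?_⟩
    intro w hw hfw hcw
    have hbw := (hlc c hc w hfw).1 hcw
    have hadj := (hG.hadj v w hw.ne).1 hw
    have hwm := hG.hty w
    have hbit : (if get cs (ty v) = 1 then get am (ty v) &&& get bits (ty v) else get am (ty v)).testBit (ty w) = true := by
      split_ifs with hone
      · rw [Nat.testBit_and, hadj, hG.hbits _ hvm _ hwm]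
        have hne : ty w ≠ ty v := by
          intro he
          rw [h3 _ hvm, Finset.card_eq_one] at hone
          obtain ⟨x, hx⟩ := hone
          have h5 : v ∈ ({x} : Finset V) := by rw [← hx]; simp [hv]
          have h6 : w ∈ ({x} : Finset V) := by rw [← hx]; simp [hfw, he]
          rw [Finset.mem_singleton] at h5 h6
          exact hw.ne (h5.trans h6.symm)
        simp [hne]
      · exact hadj
    have : (μ c &&& (if get cs (ty v) = 1 then get am (ty v) &&& get bits (ty v) else get am (ty v))).testBit (ty w) = true := by
      rw [Nat.testBit_and, hbw, hbit]; rfl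
    rw [hz] at this
    simp at this
  · right
    -- number of legal colors
    have hcard : (LC G K f v).ncard = cnt (ty v) L := by
      have e1 : LC G K f v = ((Finset.range K).filter (fun c => (μ c).testBit (ty v) = true) : Finset ℕ) := by
        ext c
        simp only [Finset.coe_filter, Finset.mem_range, Set.mem_setOf_eq]
        constructor
        · intro hc; exact ⟨hc.1, (hlc c hc.1 v hv).1 hc⟩
        · rintro ⟨hc, hb⟩; exact (hlc c hc v hv).2 hb
      rw [e1, Set.ncard_coe_finset, cnt_eq, ← hp.countP_eq, List.countP_map]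
      rw [Finset.card_def]
      simp only [Finset.filter_val, Finset.range_val, Multiset.range, Multiset.filter_coe, Multiset.coe_card]
      rw [List.countP_eq_length_filter]
      congr 1
      apply List.filter_congr
      intro x _
      simp
    -- number of uncolored vertices of the types in the mask
    have hdg : dg (get am (ty v)) cs 0 =
        (Finset.univ.filter (fun w => (get am (ty v)).testBit (ty w) = true ∧ f w = none)).card := by
      rw [dg_eq, h1]
      have hmaps : ∀ w ∈ (Finset.univ.filter (fun w => (get am (ty v)).testBit (ty w) = true ∧ f w = none)),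
          ty w ∈ Finset.range m := fun w _ => Finset.mem_range.2 (hG.hty w)
      rw [Finset.card_eq_sum_card_fiberwise hmaps]
      apply Finset.sum_congr rfl
      intro j hj
      rw [zero_add]
      rw [Finset.mem_range] at hj
      split_ifs with hbj
      · rw [h3 j hj]
        congr 1
        ext w
        simp only [Finset.mem_filter, Finset.mem_univ, true_and]
        constructor
        · rintro ⟨rfl, hw⟩; exact ⟨⟨hbj, hw⟩, rfl⟩
        · rintro ⟨⟨_, hw⟩, rfl⟩; exact ⟨rfl, hw⟩
      · symm
        rw [Finset.card_eq_zero, Finset.filter_eq_empty_iff]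
        intro w hw
        simp only [Finset.mem_filter, Finset.mem_univ, true_and] at hw
        rintro rfl
        exact hbj hw.1
    rw [hcard]
    have hfin : {w | G.Adj v w ∧ f w = none}.Finite := Set.toFinite _
    by_cases hself : (get am (ty v)).testBit (ty v) = true
    · rw [if_pos hself] at hlt
      have hle : {w | G.Adj v w ∧ f w = none}.ncard + 1 ≤ dg (get am (ty v)) cs 0 := by
        rw [hdg, ← Set.ncard_coe_finset]
        have hnot : v ∉ {w | G.Adj v w ∧ f w = none} := fun h => G.loopless.irrefl v h.1
        rw [← Set.ncard_insert_of_notMem hnot hfin]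
        apply Set.ncard_le_ncard _ (Set.toFinite _)
        intro w hw
        simp only [Set.mem_insert_iff, Set.mem_setOf_eq] at hw
        simp only [Finset.coe_filter, Finset.mem_univ, true_and, Set.mem_setOf_eq]
        rcases hw with rfl | ⟨hw, hfw⟩
        · exact ⟨hself, hv⟩
        · exact ⟨(hG.hadj v w hw.ne).1 hw, hfw⟩
      omega
    · rw [if_neg hself] at hlt
      have hle : {w | G.Adj v w ∧ f w = none}.ncard ≤ dg (get am (ty v)) cs 0 := by
        rw [hdg, ← Set.ncard_coe_finset]
        apply Set.ncard_le_ncard _ (Set.toFinite _)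
        rintro w ⟨hw, hfw⟩
        simp only [Finset.coe_filter, Finset.mem_univ, true_and, Set.mem_setOf_eq]
        exact ⟨(hG.hadj v w hw.ne).1 hw, hfw⟩
      omega

end

end Pool.Agent.Zhu
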