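import Mathlib
import Pool.Agent.Zhu.SafePos

set_option autoImplicit false

namespace Pool.Agent.Zhu

variable {V : Type} [Fintype V] [DecidableEq V] {G : SimpleGraph V}

/-- Alice, who moves first, has a winning strategy in the coloring game on `G` with colors
`0, …, k-1` (the same formula as in the frozen statement of the problem). -/
def AliceWins {V : Type} [Fintype V] [DecidableEq V] (G : SimpleGraph V) (k : ℕ) : Prop :=
  ∃ W : Set (V → Option ℕ), (fun _ => none : V → Option ℕ) ∈ W ∧
        ∀ f ∈ W,
          ((¬ ∃ v c, f v = none ∧ c < k ∧ ∀ w, G.Adj v w → f w ≠ some c) →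
              ∀ v, f v ≠ none) ∧
          (Even (Finset.univ.filter (fun v => f v ≠ none)).card →
              (∃ v c, f v = none ∧ c < k ∧ ∀ w, G.Adj v w → f w ≠ some c) →
              ∃ v c, f v = none ∧ c < k ∧ (∀ w, G.Adj v w → f w ≠ some c) ∧
                Function.update f v (some c) ∈ W) ∧
          (¬ Even (Finset.univ.filter (fun v => f v ≠ none)).card →
              ∀ v c, f v = none → c < k → (∀ w, G.Adj v w → f w ≠ some c) →
                Function.update f v (some c) ∈ W)

/-- The closure conditions on a set of positions. -/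
def Closed (G : SimpleGraph V) (k : ℕ) (W : Set (V → Option ℕ)) : Prop :=
  ∀ f ∈ W,
          ((¬ ∃ v c, Legal G k f v c) → ∀ v, f v ≠ none) ∧
          (Even (Finset.univ.filter (fun v => f v ≠ none)).card →
              (∃ v c, Legal G k f v c) →
              ∃ v c, Legal G k f v c ∧ Function.update f v (some c) ∈ W) ∧
          (¬ Even (Finset.univ.filter (fun v => f v ≠ none)).card →
              ∀ v c, Legal G k f v c → Function.update f v (some c) ∈ W)

theorem aliceWins_iff (k : ℕ) :
    AliceWins G k ↔ ∃ W : Set (V → Option ℕ), (fun _ => none : V → Option ℕ) ∈ W ∧ Closed G k W := by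
  unfold AliceWins Closed Legal
  constructor
  · rintro ⟨W, h0, h⟩
    refine ⟨W, h0, fun f hf => ?_⟩
    obtain ⟨h1, h2, h3⟩ := h f hf
    refine ⟨h1, ?_, ?_⟩
    · intro he hex
      obtain ⟨v, c, a, b, d, e⟩ := h2 he hex
      exact ⟨v, c, ⟨a, b, d⟩, e⟩
    · intro he v c hl
      exact h3 he v c hl.1 hl.2.1 hl.2.2
  · rintro ⟨W, h0, h⟩
    refine ⟨W, h0, fun f hf => ?_⟩
    obtain ⟨h1, h2, h3⟩ := h f hf
    refine ⟨h1, ?_, ?_⟩
    · intro he hex
      obtain ⟨v, c, ⟨a, b, d⟩, e⟩ := h2 he hex
      exact ⟨v, c, a, b, d, e⟩
    · intro he v c a b d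
      exact h3 he v c ⟨a, b, d⟩

/-- coloring a vertex decreases the number of uncolored vertices -/
theorem uncolored_lt {K : ℕ} {f : V → Option ℕ} {u : V} {c : ℕ} (hl : Legal G K f u c) :
    (Finset.univ.filter (fun w => Function.update f u (some c) w = none)).card <
      (Finset.univ.filter (fun w => f w = none)).card := by
  apply Finset.card_lt_card
  rw [Finset.ssubset_iff_of_subset]
  · refine ⟨u, by simpa using hl.1, by simp⟩
  · intro w hw
    simp only [Finset.mem_filter, Finset.mem_univ, true_and] at hw ⊢
    by_cases hwu : w = u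
    · subst hwu; exact hl.1
    · rwa [Function.update_of_ne hwu] at hw

/-- In a position from which Alice wins, every uncolored vertex has an available color. -/
theorem avail {k : ℕ} {W : Set (V → Option ℕ)} (hW : Closed G k W) :
    ∀ (n : ℕ) (f : V → Option ℕ), f ∈ W → (Finset.univ.filter (fun v => f v = none)).card = n →
      ∀ v, f v = none → ∃ c, Legal G k f v c := by
  intro n
  induction n using Nat.strong_induction_on with
  | _ n ih =>
    intro f hf hn v hv
    by_contra hno
    push Not at hno
    have hex : ∃ u c, Legal G k f u c := by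
      by_contra h
      exact (hW f hf).1 h v hv
    have key : ∀ u c, Legal G k f u c → Function.update f u (some c) ∈ W → False := by
      intro u c hl hu
      have huv : u ≠ v := by
        rintro rfl
        exact hno c hl
      have hv' : Function.update f u (some c) v = none := by
        rw [Function.update_of_ne huv.symm]; exact hv
      have hlt := uncolored_lt hl
      rw [hn] at hlt
      obtain ⟨c', h1, h2, h3⟩ := ih _ hlt _ hu rfl v hv'
      refine hno c' ⟨hv, h2, fun w hw => ?_⟩
      by_cases hwu : w = u
      · subst hwu; rw [hl.1]; simp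
      · have := h3 w hw
        rwa [Function.update_of_ne hwu] at this
    by_cases he : Even (Finset.univ.filter (fun v => f v ≠ none)).card
    · obtain ⟨u, c, hl, hu⟩ := (hW f hf).2.1 he hex
      exact key u c hl hu
    · obtain ⟨u, c, hl⟩ := hex
      exact key u c hl ((hW f hf).2.2 he u c hl)

/-- a move adds one colored vertex -/
theorem colored_update {K : ℕ} {f : V → Option ℕ} {u : V} {c : ℕ} (hl : Legal G K f u c) :
    (Finset.univ.filter (fun w => Function.update f u (some c) w ≠ none)).card =
      (Finset.univ.filter (fun w => f w ≠ none)).card + 1 := by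
  have e : (Finset.univ.filter (fun w => Function.update f u (some c) w ≠ none)) =
      insert u (Finset.univ.filter (fun w => f w ≠ none)) := by
    ext w
    simp only [Finset.mem_filter, Finset.mem_univ, true_and, Finset.mem_insert]
    by_cases hwu : w = u
    · subst hwu; simp
    · rw [Function.update_of_ne hwu]; simp [hwu]
  rw [e, Finset.card_insert_of_notMem (by simp [hl.1])]

section
variable {ty : V → ℕ} {m : ℕ} {am nam bits : List ℕ} (hG : GData G ty m am nam bits)
include hG

/-- a table of positions (Alice has just moved) gives a winning strategy of Alice -/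
theorem alice_of_table (K S : ℕ) (T : Tree)
    (hall : all (chk live (Zhu.safe am bits) T m K (16 ^ m) (2 ^ m) S nam bits) T = true)
    (cs0 L0 : List ℕ) (h0 : Match K ty m am (fun _ => none) cs0 L0)
    (hroot : Replies (Zhu.safe am bits) T (16 ^ m) (2 ^ m) nam bits cs0 L0) : AliceWins G K := by
  rw [aliceWins_iff]
  refine ⟨{f | Safe G K f ∨
    (¬ Even (Finset.univ.filter (fun v => f v ≠ none)).card ∧
      ∃ cs L, Match K ty m am f cs L ∧ mem (key (16 ^ m) (2 ^ m) cs L) T = true) ∨
    (Even (Finset.univ.filter (fun v => f v ≠ none)).card ∧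
      ∃ cs L, Match K ty m am f cs L ∧
        Replies (Zhu.safe am bits) T (16 ^ m) (2 ^ m) nam bits cs L)}, ?_, ?_⟩
  · right; right
    refine ⟨?_, cs0, L0, h0, hroot⟩
    simp
  · have hsafe : ∀ f : V → Option ℕ, Safe G K f →
        ((¬ ∃ v c, Legal G K f v c) → ∀ v, f v ≠ none) ∧
        ((∃ v c, Legal G K f v c) →
              ∃ v c, Legal G K f v c ∧ Safe G K (Function.update f v (some c))) ∧
        (∀ v c, Legal G K f v c → Safe G K (Function.update f v (some c))) := by
      intro f hf
      refine ⟨?_, ?_, ?_⟩
      · intro h v hv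
        obtain ⟨c, hc⟩ := hf.legal hv
        exact h ⟨v, c, hc⟩
      · rintro ⟨v, c, hl⟩
        exact ⟨v, c, hl, hf.update hl⟩
      · intro v c hl
        exact hf.update hl
    rintro f (hf | ⟨hodd, cs, L, hM, hmem⟩ | ⟨heven, cs, L, hM, hR⟩)
    · obtain ⟨h1, h2, h3⟩ := hsafe f hf
      refine ⟨h1, ?_, ?_⟩
      · intro _ hex
        obtain ⟨v, c, hl, hs⟩ := h2 hex
        exact ⟨v, c, hl, Or.inl hs⟩
      · intro _ v c hl
        exact Or.inl (h3 v c hl)
    · obtain ⟨hlive, hrep⟩ := chk_sound _ _ _ _ _ _ _ _ _ cs L hall hM.1 hM.2.1 hM.length_L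
        hM.lt hmem
      refine ⟨?_, fun he => absurd he hodd, ?_⟩
      · intro h v hv
        obtain ⟨c, hc⟩ := hM.live hG hlive hv
        exact h ⟨v, c, hc⟩
      · intro _ v c hl
        obtain ⟨hne, μ, hμ, hb, hM'⟩ := hM.move hG hl
        right; right
        refine ⟨?_, _, _, hM', hrep _ hne μ hμ hb⟩
        rw [colored_update hl, Nat.even_add_one]
        exact hodd
    · rcases hR with hs | ⟨i', μ', hne, hμ', hb, hcase⟩
      · have hf := hM.safe hG hs
        obtain ⟨h1, h2, h3⟩ := hsafe f hf
        refine ⟨h1, ?_, ?_⟩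
        · intro _ hex
          obtain ⟨v, c, hl, hs⟩ := h2 hex
          exact ⟨v, c, hl, Or.inl hs⟩
        · intro _ v c hl
          exact Or.inl (h3 v c hl)
      · obtain ⟨v, c, hl, hM'⟩ := hM.realize hG hne hμ' hb
        refine ⟨fun h => absurd ⟨v, c, hl⟩ h, ?_, fun ho => absurd heven ho⟩
        intro _ _
        refine ⟨v, c, hl, ?_⟩
        rcases hcase with hs | hmem
        · exact Or.inl (hM'.safe hG hs)
        · right; left
          refine ⟨?_, _, _, hM', hmem⟩
          rw [colored_update hl, Nat.even_add_one]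
          exact fun h => h heven

/-- a table of positions (Bob has just moved) gives a winning strategy of Bob -/
theorem bob_of_table (K S : ℕ) (T : Tree)
    (hall : all (chk nonfull dead T m K (16 ^ m) (2 ^ m) S nam bits) T = true)
    (cs0 L0 : List ℕ) (h0 : Match K ty m am (fun _ => none) cs0 L0)
    (hroot : mem (key (16 ^ m) (2 ^ m) cs0 L0) T = true) : ¬ AliceWins G K := by
  rw [aliceWins_iff]
  rintro ⟨W, h0W, hW⟩
  have main : ∀ (n : ℕ) (f : V → Option ℕ), f ∈ W →
      Even (Finset.univ.filter (fun v => f v ≠ none)).card →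
      (Finset.univ.filter (fun v => f v = none)).card = n →
      ∀ cs L, Match K ty m am f cs L → mem (key (16 ^ m) (2 ^ m) cs L) T = true → False := by
    intro n
    induction n using Nat.strong_induction_on with
    | _ n ih =>
      intro f hf heven hn cs L hM hmem
      obtain ⟨hpre, hrep⟩ := chk_sound _ _ _ _ _ _ _ _ _ cs L hall hM.1 hM.2.1 hM.length_L
        hM.lt hmem
      have hex : ∃ v c, Legal G K f v c := by
        have e : nonfull cs L = Bool.rec (motive := fun _ => Bool) true false (Nat.beq (act cs) 0) := rfl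
        rw [e, br] at hpre
        have hne : act cs ≠ 0 := by
          intro h
          rw [h] at hpre
          simp at hpre
        obtain ⟨j, hj⟩ := Nat.exists_testBit_of_ne_zero hne
        have hj' := (testBit_act cs j).1 hj
        have hjm : j < m := by rw [← hM.1]; exact (get_ne_zero _ _ hj').1
        rw [hM.2.2.1 j hjm, Finset.card_ne_zero] at hj'
        obtain ⟨v, hv⟩ := hj'
        simp only [Finset.mem_filter, Finset.mem_univ, true_and] at hv
        obtain ⟨c, hc⟩ := avail hW _ f hf rfl v hv.2
        exact ⟨v, c, hc⟩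
      obtain ⟨v, c, hl, hf1⟩ := (hW f hf).2.1 heven hex
      obtain ⟨hne, μ, hμ, hb, hM1⟩ := hM.move hG hl
      rcases hrep _ hne μ hμ hb with hd | ⟨i', μ', hne', hμ', hb', hcase⟩
      · obtain ⟨w, hw, hno⟩ := hM1.dead hG hd
        obtain ⟨d, hd'⟩ := avail hW _ _ hf1 rfl w hw
        exact hno d hd'
      · obtain ⟨v', c', hl', hM2⟩ := hM1.realize hG hne' hμ' hb'
        have hodd : ¬ Even (Finset.univ.filter (fun w => Function.update f v (some c) w ≠ none)).card := by
          rw [colored_update hl, Nat.even_add_one]
          exact fun h => h heven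
        have hf2 := (hW _ hf1).2.2 hodd v' c' hl'
        rcases hcase with hd | hmem'
        · obtain ⟨w, hw, hno⟩ := hM2.dead hG hd
          obtain ⟨d, hd'⟩ := avail hW _ _ hf2 rfl w hw
          exact hno d hd'
        · have hlt := (uncolored_lt hl').trans (uncolored_lt hl)
          rw [hn] at hlt
          refine ih _ hlt _ hf2 ?_ rfl _ _ hM2 hmem'
          rw [colored_update hl', Nat.even_add_one]
          exact hodd
  refine main _ _ h0W ?_ rfl cs0 L0 h0 hroot
  simp

end

/-- the description of the initial position -/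
theorem match_init (K m : ℕ) (ty : V → ℕ) (am cs : List ℕ) (hlen : cs.length = m)
    (hlt : ∀ a ∈ cs, a < 16)
    (hcount : ∀ i < m, get cs i = (Finset.univ.filter (fun v => ty v = i)).card)
    (hpos : ∀ i < m, get cs i ≠ 0) :
    Match K ty m am (fun _ => none) cs (List.replicate K (2 ^ m - 1)) := by
  refine ⟨hlen, hlt, ?_, fun _ => 2 ^ m - 1, ?_, ?_⟩
  · intro i hi
    rw [hcount i hi]
    congr 1
    ext v
    simp
  · have : (List.range K).map (fun _ => 2 ^ m - 1) = List.replicate K (2 ^ m - 1) := by
      rw [List.map_const', List.length_range]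
    rw [this]
  · intro c hc j
    rw [Nat.testBit_two_pow_sub_one]
    constructor
    · intro h
      have hj : j < m := by simpa using h
      exact ⟨hj, hpos j hj, fun w hw => by simp at hw⟩
    · rintro ⟨hj, _⟩
      simpa using hj

end Pool.Agent.Zhu
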