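import Pool.Agent.Zhu.Check

/-!
Checker of a strategy tree of Bob in the greedy coloring game.  A position is given by the mask `U`
of the uncolored vertices and the list `L` of the masks of the color classes.
-/

set_option autoImplicit false
set_option linter.unusedVariables false

namespace Pool.Agent.Zhu

/-- strategy of Bob: a list of the possible moves `v` of Alice with the reply `r` and the
continuation `sub` -/
inductive ST : Type
  | E : ST
  | N (v r : Nat) (sub next : ST) : ST

/-- put the vertex with mask `x` and neighborhood `a` into the first class that it does not meet -/
noncomputable def pl (a x : Nat) (l : List Nat) : List Nat :=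
  List.rec [] (fun y l ih => Bool.rec (y :: ih) (Nat.lor y x :: l) (Nat.beq (Nat.land y a) 0)) l

/-- every class meets `a` -/
noncomputable def blk (a : Nat) (l : List Nat) : Bool :=
  List.rec true (fun y _ ih => Bool.rec ih false (Nat.beq (Nat.land y a) 0)) l

/-- some uncolored vertex (index at least `i`) is blocked -/
noncomputable def gdead (U : Nat) (L ad : List Nat) : Nat → Bool :=
  List.rec (fun _ => false)
    (fun a _ ih i => Bool.rec (ih (Nat.succ i)) (Bool.rec (ih (Nat.succ i)) true (blk a L)) (tb i U)) ad

noncomputable def bit (v : Nat) : Nat := Nat.shiftLeft 1 v

/-- check of a strategy tree; `h` is the mask of the moves of Alice handled so far -/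
noncomputable def gchk (ad : List Nat) (t : ST) : Nat → List Nat → Nat → Bool :=
  ST.rec (fun U L h => Bool.rec false (Nat.beq (Nat.land U h) U) (Nat.ble 1 U))
    (fun v r _ _ isub inext U L h =>
      Bool.rec false
        (Bool.rec
          (Bool.rec
            (Bool.rec false
              (Bool.rec
                (Bool.rec
                  (Bool.rec false (inext U L (Nat.lor h (bit v)))
                    (isub (Nat.xor (Nat.xor U (bit v)) (bit r))
                      (pl (get ad r) (bit r) (pl (get ad v) (bit v) L)) 0))
                  (inext U L (Nat.lor h (bit v)))
                  (gdead (Nat.xor (Nat.xor U (bit v)) (bit r))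
                    (pl (get ad r) (bit r) (pl (get ad v) (bit v) L)) ad 0))
                false (blk (get ad r) (pl (get ad v) (bit v) L)))
              (tb r (Nat.xor U (bit v))))
            (inext U L (Nat.lor h (bit v)))
            (gdead (Nat.xor U (bit v)) (pl (get ad v) (bit v) L) ad 0))
          false (blk (get ad v) L))
        (tb v U)) t

end Pool.Agent.Zhu
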