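import Mathlib
import Pool.Agent.Zhu.Basic
import Pool.Agent.Zhu.GCheck

set_option autoImplicit false
set_option linter.unusedSectionVars false
set_option linter.unusedVariables false

namespace Pool.Agent.Zhu

/-! ### Bob's wins in the greedy game -/

section
variable {V : Type} [Fintype V] [DecidableEq V]

/-- coloring `v` with `a` is a move of the greedy game -/
def GMove (G : SimpleGraph V) (f : V → Option ℕ) (v : V) (a : ℕ) : Prop :=
  f v = none ∧ (∀ w, G.Adj v w → f w ≠ some a) ∧ ∀ b, b < a → ∃ w, G.Adj v w ∧ f w = some b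

/-- Alice wins the greedy coloring game with `k` colors -/
def GWin (G : SimpleGraph V) (k : ℕ) : Prop :=
  ∃ W : Bool → (V → Option ℕ) → Prop, W true (fun _ => none) ∧
      ∀ (t : Bool) (c : V → Option ℕ), W t c →
        (∀ v, c v ≠ none) ∨
        (t = true ∧ ∃ (v : V) (a : ℕ), c v = none ∧ a < k ∧
            (∀ w, G.Adj v w → c w ≠ some a) ∧
            (∀ b, b < a → ∃ w, G.Adj v w ∧ c w = some b) ∧
            W false (Function.update c v (some a))) ∨
        (t = false ∧
            ∀ (v : V) (a : ℕ), c v = none → (∀ w, G.Adj v w → c w ≠ some a) →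
              (∀ b, b < a → ∃ w, G.Adj v w ∧ c w = some b) →
              a < k ∧ W true (Function.update c v (some a)))

/-- positions won by Bob -/
inductive BW (G : SimpleGraph V) (k : ℕ) : Bool → (V → Option ℕ) → Prop
  | stuck (t : Bool) (f : V → Option ℕ) (v : V) (h1 : f v = none)
      (h2 : ∀ b, b < k → ∃ w, G.Adj v w ∧ f w = some b) : BW G k t f
  | alice (f : V → Option ℕ) (h1 : ∃ v, f v = none)
      (h2 : ∀ v a, GMove G f v a → a < k → BW G k false (Function.update f v (some a))) :
      BW G k true f
  | bob (f : V → Option ℕ) (v : V) (a : ℕ) (h1 : GMove G f v a)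
      (h2 : BW G k true (Function.update f v (some a))) : BW G k false f

theorem exists_gmove (G : SimpleGraph V) (f : V → Option ℕ) (v : V) (hv : f v = none) :
    ∃ a, GMove G f v a := by
  classical
  have hex : ∃ a : ℕ, ∀ w, G.Adj v w → f w ≠ some a := by
    by_contra hcon
    push Not at hcon
    choose w hw using hcon
    have hinj : Function.Injective w := by
      intro a b hab
      have h1 := (hw a).2
      have h2 := (hw b).2
      rw [hab] at h1
      rw [h1] at h2
      exact Option.some.inj h2
    exact not_injective_infinite_finite w hinj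
  refine ⟨Nat.find hex, hv, Nat.find_spec hex, ?_⟩
  intro b hb
  have := Nat.find_min hex hb
  push Not at this
  exact this

theorem BW.false_of {G : SimpleGraph V} {k : ℕ} {W : Bool → (V → Option ℕ) → Prop}
    (hW : ∀ (t : Bool) (c : V → Option ℕ), W t c →
        (∀ v, c v ≠ none) ∨
        (t = true ∧ ∃ (v : V) (a : ℕ), c v = none ∧ a < k ∧
            (∀ w, G.Adj v w → c w ≠ some a) ∧
            (∀ b, b < a → ∃ w, G.Adj v w ∧ c w = some b) ∧
            W false (Function.update c v (some a))) ∨
        (t = false ∧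
            ∀ (v : V) (a : ℕ), c v = none → (∀ w, G.Adj v w → c w ≠ some a) →
              (∀ b, b < a → ∃ w, G.Adj v w ∧ c w = some b) →
              a < k ∧ W true (Function.update c v (some a))))
    {t : Bool} {f : V → Option ℕ} (hb : BW G k t f) : W t f → False := by
  have hstuck : ∀ (f : V → Option ℕ) (v : V), f v = none →
      (∀ b, b < k → ∃ w, G.Adj v w ∧ f w = some b) → W false f → False := by
    intro f v h1 h2 hf
    obtain ⟨a, ha⟩ := exists_gmove G f v h1
    rcases hW _ _ hf with h | ⟨h, _⟩ | ⟨_, h⟩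
    · exact h v h1
    · simp at h
    · have hak := (h v a ha.1 ha.2.1 ha.2.2).1
      obtain ⟨w, hw, hfw⟩ := h2 a hak
      exact ha.2.1 w hw hfw
  induction hb with
  | stuck t f v h1 h2 =>
    intro hf
    cases t with
    | false => exact hstuck f v h1 h2 hf
    | true =>
      rcases hW _ _ hf with h | ⟨_, v', a', hn, hk, hl, hb, hu⟩ | ⟨h, _⟩
      · exact h v h1
      · have hne : v ≠ v' := by
          rintro rfl
          obtain ⟨w, hw, hfw⟩ := h2 a' hk
          exact hl w hw hfw
        refine hstuck _ v ?_ ?_ hu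
        · rw [Function.update_of_ne hne]; exact h1
        · intro b hb
          obtain ⟨w, hw, hfw⟩ := h2 b hb
          refine ⟨w, hw, ?_⟩
          have : w ≠ v' := by rintro rfl; rw [hn] at hfw; simp at hfw
          rw [Function.update_of_ne this]; exact hfw
      · simp at h
  | alice f h1 h2 ih =>
    intro hf
    obtain ⟨v, hv⟩ := h1
    rcases hW _ _ hf with h | ⟨_, v', a', hn, hk, hl, hb, hu⟩ | ⟨h, _⟩
    · exact h v hv
    · exact ih v' a' ⟨hn, hl, hb⟩ hk hu
    · simp at h
  | bob f v a h1 h2 ih =>
    intro hf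
    rcases hW _ _ hf with h | ⟨h, _⟩ | ⟨_, h⟩
    · exact h v h1.1
    · simp at h
    · exact ih (h v a h1.1 h1.2.1 h1.2.2).2

theorem not_gwin_of_bw {G : SimpleGraph V} {k : ℕ} (h : BW G k true (fun _ => none)) :
    ¬ GWin G k := by
  rintro ⟨W, h0, hW⟩
  exact BW.false_of hW h h0

end

/-! ### the checker -/

theorem pl_cons (a x y : ℕ) (l : List ℕ) :
    pl a x (y :: l) = if y &&& a = 0 then (y ||| x) :: l else y :: pl a x l := by
  have e : pl a x (y :: l) =
    Bool.rec (motive := fun _ => List ℕ) (y :: pl a x l) (Nat.lor y x :: l) (Nat.beq (Nat.land y a) 0) := rfl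
  rw [e, br]
  have e2 : Nat.beq (Nat.land y a) 0 = true ↔ y &&& a = 0 :=
    ⟨Nat.eq_of_beq_eq_true, fun h => by
      have : Nat.land y a = 0 := h
      rw [this]; rfl⟩
  simp only [e2]
  rfl

theorem blk_cons (a y : ℕ) (l : List ℕ) :
    blk a (y :: l) = true ↔ y &&& a ≠ 0 ∧ blk a l = true := by
  have e : blk a (y :: l) =
    Bool.rec (motive := fun _ => Bool) (blk a l) false (Nat.beq (Nat.land y a) 0) := rfl
  rw [e, br]
  have e2 : Nat.beq (Nat.land y a) 0 = true ↔ y &&& a = 0 :=
    ⟨Nat.eq_of_beq_eq_true, fun h => by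
      have : Nat.land y a = 0 := h
      rw [this]; rfl⟩
  simp only [e2]
  by_cases h : y &&& a = 0 <;> simp [h]

theorem blk_iff (a : ℕ) (l : List ℕ) :
    blk a l = true ↔ ∀ i < l.length, get l i &&& a ≠ 0 := by
  induction l with
  | nil => simp [blk]
  | cons y l ih =>
    rw [blk_cons, ih]
    constructor
    · rintro ⟨h1, h2⟩ i hi
      cases i with
      | zero => exact h1
      | succ i => rw [get_succ]; exact h2 i (by simpa using hi)
    · intro h
      refine ⟨h 0 (by simp), fun i hi => ?_⟩
      have := h (i+1) (by simpa using hi)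
      rwa [get_succ] at this

theorem pl_length (a x : ℕ) (l : List ℕ) : (pl a x l).length = l.length := by
  induction l with
  | nil => rfl
  | cons y l ih =>
    rw [pl_cons]
    split_ifs
    · rfl
    · simp [ih]

theorem pl_spec (a x : ℕ) (l : List ℕ) (h : ¬ blk a l = true) :
    ∃ i < l.length, (∀ j < i, get l j &&& a ≠ 0) ∧ get l i &&& a = 0 ∧
      ∀ j, get (pl a x l) j = if j = i then get l j ||| x else get l j := by
  induction l with
  | nil => exact absurd rfl h
  | cons y l ih =>
    by_cases hy : y &&& a = 0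
    · refine ⟨0, by simp, by simp, hy, ?_⟩
      intro j
      rw [pl_cons, if_pos hy]
      cases j with
      | zero => simp [get_zero]
      | succ j => simp [get_succ]
    · have h' : ¬ blk a l = true := by
        intro hb
        exact h ((blk_cons _ _ _).2 ⟨hy, hb⟩)
      obtain ⟨i, hi, h1, h2, h3⟩ := ih h'
      refine ⟨i + 1, by simpa using hi, ?_, by rw [get_succ]; exact h2, ?_⟩
      · intro j hj
        cases j with
        | zero => rw [get_zero]; exact hy
        | succ j => rw [get_succ]; exact h1 j (by omega)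
      · intro j
        rw [pl_cons, if_neg hy]
        cases j with
        | zero => simp [get_zero]
        | succ j =>
          rw [get_succ, get_succ, h3 j]
          simp

/-- the data `(U, L)` describe the position `f` -/
def Rep (n k : ℕ) (f : Fin n → Option ℕ) (U : ℕ) (L : List ℕ) : Prop :=
  L.length = k ∧ (∀ j, U.testBit j = true ↔ ∃ h : j < n, f ⟨j, h⟩ = none) ∧
  (∀ c < k, ∀ j, (get L c).testBit j = true ↔ ∃ h : j < n, f ⟨j, h⟩ = some c) ∧
  ∀ v c, f v = some c → c < k

theorem bit_eq (v : ℕ) : bit v = 2 ^ v := by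
  have : bit v = 1 <<< v := rfl
  rw [this, Nat.one_shiftLeft]

section
variable {n k : ℕ} {G : SimpleGraph (Fin n)} {ad : List ℕ}
  (hG : ∀ u v : Fin n, G.Adj u v ↔ (get ad u).testBit v = true)
include hG

theorem Rep.blocked_iff {f : Fin n → Option ℕ} {U : ℕ} {L : List ℕ} (h : Rep n k f U L)
    (v : Fin n) {c : ℕ} (hc : c < k) :
    get L c &&& get ad v ≠ 0 ↔ ∃ w, G.Adj v w ∧ f w = some c := by
  obtain ⟨h1, h2, h3, h4⟩ := h
  constructor
  · intro hne
    obtain ⟨j, hj⟩ := Nat.exists_testBit_of_ne_zero hne
    rw [Nat.testBit_and, Bool.and_eq_true, h3 c hc] at hj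
    obtain ⟨⟨hjn, hf⟩, hb⟩ := hj
    exact ⟨⟨j, hjn⟩, (hG v ⟨j, hjn⟩).2 hb, hf⟩
  · rintro ⟨w, hw, hf⟩ h0
    have : (get L c &&& get ad v).testBit w = true := by
      rw [Nat.testBit_and, Bool.and_eq_true, h3 c hc]
      exact ⟨⟨w.2, hf⟩, (hG v w).1 hw⟩
    rw [h0] at this
    simp at this

theorem Rep.step {f : Fin n → Option ℕ} {U : ℕ} {L : List ℕ} (h : Rep n k f U L)
    (v : Fin n) (hv : f v = none) (hb : ¬ blk (get ad v) L = true) :
    ∃ a < k, GMove G f v a ∧
      Rep n k (Function.update f v (some a)) (Nat.xor U (bit v)) (pl (get ad v) (bit v) L) := by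
  have h' := h
  obtain ⟨h1, h2, h3, h4⟩ := h
  obtain ⟨a, hak, hlt, h0, hpl⟩ := pl_spec (get ad v) (bit v) L hb
  rw [h1] at hak
  refine ⟨a, hak, ⟨hv, ?_, ?_⟩, ?_, ?_, ?_, ?_⟩
  · intro w hw hf
    exact ((h'.blocked_iff hG v hak).2 ⟨w, hw, hf⟩) h0
  · intro b hba
    exact (h'.blocked_iff hG v (hba.trans hak)).1 (hlt b hba)
  · rw [pl_length, h1]
  · intro j
    have e : Nat.xor U (bit v) = U ^^^ 2 ^ (v : ℕ) := by rw [bit_eq]; rfl
    rw [e, Nat.testBit_xor, Nat.testBit_two_pow]
    by_cases hj : (v : ℕ) = j
    · subst hj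
      have : U.testBit v = true := (h2 v).2 ⟨v.2, hv⟩
      simp [this]
    · simp only [hj, decide_false, Bool.xor_false]
      rw [h2 j]
      constructor
      · rintro ⟨hjn, hf⟩
        refine ⟨hjn, ?_⟩
        rw [Function.update_of_ne (by rintro rfl; exact hj rfl)]; exact hf
      · rintro ⟨hjn, hf⟩
        refine ⟨hjn, ?_⟩
        rwa [Function.update_of_ne (by rintro rfl; exact hj rfl)] at hf
  · intro c hc j
    rw [hpl c]
    split_ifs with hca
    · subst hca
      rw [Nat.testBit_or, Bool.or_eq_true, bit_eq, Nat.testBit_two_pow, h3 c hc]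
      constructor
      · rintro (⟨hjn, hf⟩ | hj)
        · refine ⟨hjn, ?_⟩
          have hne : (⟨j, hjn⟩ : Fin n) ≠ v := by rintro rfl; rw [hv] at hf; simp at hf
          rw [Function.update_of_ne hne]; exact hf
        · have hj' : (v : ℕ) = j := by simpa using hj
          subst hj'
          exact ⟨v.2, by simp⟩
      · rintro ⟨hjn, hf⟩
        by_cases hj : (v : ℕ) = j
        · right; simp [hj]
        · left
          refine ⟨hjn, ?_⟩
          rwa [Function.update_of_ne (by rintro rfl; exact hj rfl)] at hf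
    · rw [h3 c hc]
      constructor
      · rintro ⟨hjn, hf⟩
        refine ⟨hjn, ?_⟩
        have hne : (⟨j, hjn⟩ : Fin n) ≠ v := by rintro rfl; rw [hv] at hf; simp at hf
        rw [Function.update_of_ne hne]; exact hf
      · rintro ⟨hjn, hf⟩
        refine ⟨hjn, ?_⟩
        by_cases hj : (v : ℕ) = j
        · exfalso
          subst hj
          have : (⟨(v : ℕ), hjn⟩ : Fin n) = v := rfl
          rw [this, Function.update_self] at hf
          exact hca (Option.some.inj hf).symm
        · rwa [Function.update_of_ne (by rintro rfl; exact hj rfl)] at hf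
  · intro w c hf
    by_cases hw : w = v
    · subst hw
      rw [Function.update_self] at hf
      rw [← Option.some.inj hf]; exact hak
    · rw [Function.update_of_ne hw] at hf
      exact h4 w c hf

theorem gmove_unique {f : Fin n → Option ℕ} {v : Fin n} {a b : ℕ} (ha : GMove G f v a)
    (hb : GMove G f v b) : a = b := by
  rcases lt_trichotomy a b with h | h | h
  · obtain ⟨w, hw, hf⟩ := hb.2.2 a h
    exact absurd hf (ha.2.1 w hw)
  · exact h
  · obtain ⟨w, hw, hf⟩ := ha.2.2 b h
    exact absurd hf (hb.2.1 w hw)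

theorem gdead_sound {f : Fin n → Option ℕ} {U : ℕ} {L : List ℕ} (h : Rep n k f U L) (t : Bool)
    (l : List ℕ) (i : ℕ) (hl : ∀ j, get l j = get ad (i + j)) (hd : gdead U L l i = true) :
    BW G k t f := by
  induction l generalizing i with
  | nil => exact absurd hd (by simp [gdead])
  | cons a l ih =>
    have e : gdead U L (a :: l) i = Bool.rec (motive := fun _ => Bool) (gdead U L l (i+1))
      (Bool.rec (motive := fun _ => Bool) (gdead U L l (i+1)) true (blk a L)) (tb i U) := rfl
    rw [e, br, br] at hd
    have hl' : ∀ j, get l j = get ad (i + 1 + j) := by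
      intro j
      have := hl (j + 1)
      rw [get_succ] at this
      rw [this]; congr 1; omega
    split_ifs at hd with h1 h2
    · have ha : a = get ad i := by simpa [get_zero] using hl 0
      rw [tb_iff, h.2.1] at h1
      obtain ⟨hi, hf⟩ := h1
      refine BW.stuck t f ⟨i, hi⟩ hf ?_
      intro b hb
      rw [← h.blocked_iff hG ⟨i, hi⟩ hb]
      rw [blk_iff] at h2
      have := h2 b (by rw [h.1]; exact hb)
      rw [ha] at this
      exact this
    · exact ih _ hl' hd
    · exact ih _ hl' hd

theorem gchk_sound (t : ST) : ∀ {f : Fin n → Option ℕ} {U : ℕ} {L : List ℕ} {h : ℕ},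
    Rep n k f U L → gchk ad t U L h = true →
    (∃ v : Fin n, f v = none) ∧ ∀ (v : Fin n) (a : ℕ), h.testBit (v : ℕ) = false →
      GMove G f v a → a < k → BW G k false (Function.update f v (some a)) := by
  induction t with
  | E =>
    intro f U L h hR hc
    have e : gchk ad ST.E U L h =
      Bool.rec (motive := fun _ => Bool) false (Nat.beq (Nat.land U h) U) (Nat.ble 1 U) := rfl
    rw [e, br] at hc
    split_ifs at hc with h1
    have hU : U ≠ 0 := by
      have := Nat.le_of_ble_eq_true h1
      omega
    have hsub : U &&& h = U := Nat.eq_of_beq_eq_true hc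
    obtain ⟨j, hj⟩ := Nat.exists_testBit_of_ne_zero hU
    rw [hR.2.1] at hj
    obtain ⟨hjn, hf⟩ := hj
    refine ⟨⟨⟨j, hjn⟩, hf⟩, ?_⟩
    intro v a hv hm _
    exfalso
    have h3 : U.testBit v = true := (hR.2.1 v).2 ⟨v.2, hm.1⟩
    rw [← hsub, Nat.testBit_and, hv] at h3
    simp at h3
  | N v r sub next ihs ihn =>
    intro f U L h hR hc
    have e : gchk ad (ST.N v r sub next) U L h =
      Bool.rec (motive := fun _ => Bool) false
        (Bool.rec (motive := fun _ => Bool)
          (Bool.rec (motive := fun _ => Bool)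
            (Bool.rec (motive := fun _ => Bool) false
              (Bool.rec (motive := fun _ => Bool)
                (Bool.rec (motive := fun _ => Bool)
                  (Bool.rec (motive := fun _ => Bool) false (gchk ad next U L (Nat.lor h (bit v)))
                    (gchk ad sub (Nat.xor (Nat.xor U (bit v)) (bit r))
                      (pl (get ad r) (bit r) (pl (get ad v) (bit v) L)) 0))
                  (gchk ad next U L (Nat.lor h (bit v)))
                  (gdead (Nat.xor (Nat.xor U (bit v)) (bit r))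
                    (pl (get ad r) (bit r) (pl (get ad v) (bit v) L)) ad 0))
                false (blk (get ad r) (pl (get ad v) (bit v) L)))
              (tb r (Nat.xor U (bit v))))
            (gchk ad next U L (Nat.lor h (bit v)))
            (gdead (Nat.xor U (bit v)) (pl (get ad v) (bit v) L) ad 0))
          false (blk (get ad v) L))
        (tb v U) := rfl
    rw [e] at hc
    simp only [br] at hc
    split_ifs at hc with h1 h2 h3 h4 h5 h6 h7
    all_goals
      have hv1 := (hR.2.1 v).1 ((tb_iff _ _).1 h1)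
      obtain ⟨hvn, hfv⟩ := hv1
      obtain ⟨a, hak, hm, hR1⟩ := hR.step hG ⟨v, hvn⟩ hfv h2
      obtain ⟨hex, hnext⟩ := ihn hR hc
      refine ⟨hex, ?_⟩
      intro w b hw hmw hbk
      by_cases hwv : w = ⟨v, hvn⟩
      swap
      · refine hnext w b ?_ hmw hbk
        have e3 : Nat.lor h (bit v) = h ||| 2 ^ v := by rw [bit_eq]; rfl
        rw [e3, Nat.testBit_or, hw, Nat.testBit_two_pow]
        have : ¬ v = (w : ℕ) := by
          rintro rfl
          exact hwv rfl
        simp [this]
      subst hwv
      have hab := gmove_unique hG hmw hm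
      subst hab
    · exact gdead_sound hG hR1 false ad 0 (fun j => by rw [zero_add]) h3
    · have hr1 := (hR1.2.1 r).1 ((tb_iff _ _).1 h4)
      obtain ⟨hrn, hfr⟩ := hr1
      obtain ⟨c, hck, hmc, hR2⟩ := hR1.step hG ⟨r, hrn⟩ hfr h5
      exact BW.bob _ ⟨r, hrn⟩ c hmc
        (gdead_sound hG hR2 true ad 0 (fun j => by rw [zero_add]) h6)
    · have hr1 := (hR1.2.1 r).1 ((tb_iff _ _).1 h4)
      obtain ⟨hrn, hfr⟩ := hr1
      obtain ⟨c, hck, hmc, hR2⟩ := hR1.step hG ⟨r, hrn⟩ hfr h5
      obtain ⟨hex2, hs⟩ := ihs hR2 h7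
      exact BW.bob _ ⟨r, hrn⟩ c hmc (BW.alice _ hex2 (fun v a => hs v a (by simp)))

/-- a checked strategy tree proves that Bob wins the greedy game -/
theorem not_gwin_of_gchk (t : ST) (hk : 0 < k)
    (hc : gchk ad t (2 ^ n - 1) (List.replicate k 0) 0 = true) : ¬ GWin G k := by
  apply not_gwin_of_bw
  have hget : ∀ (m c : ℕ), get (List.replicate m 0) c = 0 := by
    intro m
    induction m with
    | zero => intro c; rfl
    | succ m ih =>
      intro c
      rw [List.replicate_succ]
      cases c with
      | zero => rfl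
      | succ c => rw [get_succ]; exact ih c
  have hR : Rep n k (fun _ => none : Fin n → Option ℕ) (2 ^ n - 1) (List.replicate k 0) := by
    refine ⟨by simp, ?_, ?_, ?_⟩
    · intro j
      rw [Nat.testBit_two_pow_sub_one]
      constructor
      · intro h; exact ⟨by simpa using h, rfl⟩
      · rintro ⟨h, _⟩; simpa using h
    · intro c _ j
      rw [hget]
      simp
    · intro v c h
      simp at h
  obtain ⟨hex, hs⟩ := gchk_sound hG t hR hc
  exact BW.alice _ hex (fun v a => hs v a (by simp))

end

end Pool.Agent.Zhu
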