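import Pool.Agent.Zhu.GCheck

/-!
The strategy of Bob in the greedy game with 5 colors.
-/

set_option autoImplicit false

namespace Pool.Agent.Zhu

open ST

def B0 : ST :=
  (N 1 4 (N 2 3 (N 5 6 (N 7 8 E (N 8 7 E (N 9 7 E E))) (N 6 5 (N 7 8 E (N 8 7 E (N 9 7 E E))) (N 7 5
  (N 6 8 E (N 8 6 E (N 9 6 E E))) (N 8 5 (N 6 7 E (N 7 6 E (N 9 6 E E))) (N 9 5 (N 6 7 E (N 7 6 E (N 8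
  6 E E))) E))))) (N 3 2 (N 5 6 (N 7 8 E (N 8 7 E (N 9 7 E E))) (N 6 5 (N 7 8 E (N 8 7 E (N 9 7 E E)))
  (N 7 5 (N 6 8 E (N 8 6 E (N 9 6 E E))) (N 8 5 (N 6 7 E (N 7 6 E (N 9 6 E E))) (N 9 5 (N 6 7 E (N 7 6
  E (N 8 6 E E))) E))))) (N 5 6 (N 2 3 (N 7 8 E (N 8 7 E (N 9 7 E E))) (N 3 2 (N 7 8 E (N 8 7 E (N 9 7
  E E))) (N 7 8 E (N 8 7 E (N 9 7 E E))))) (N 6 5 (N 2 3 (N 7 8 E (N 8 7 E (N 9 7 E E))) (N 3 2 (N 7 8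
  E (N 8 7 E (N 9 7 E E))) (N 7 8 E (N 8 7 E (N 9 7 E E))))) (N 7 5 (N 2 3 (N 6 8 E (N 8 6 E (N 9 6 E
  E))) (N 3 2 (N 6 8 E (N 8 6 E (N 9 6 E E))) (N 6 8 E (N 8 6 E (N 9 6 E E))))) (N 8 5 (N 2 3 (N 6 7 E
  (N 7 6 E (N 9 6 E E))) (N 3 2 (N 6 7 E (N 7 6 E (N 9 6 E E))) (N 6 7 E (N 7 6 E (N 9 6 E E))))) (N 9
  5 (N 2 3 (N 6 7 E (N 7 6 E (N 8 6 E E))) (N 3 2 (N 6 7 E (N 7 6 E (N 8 6 E E))) (N 6 7 E (N 7 6 E (N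
  8 6 E E))))) E))))))) (N 2 4 (N 1 3 (N 5 6 (N 7 8 E (N 8 7 E (N 9 7 E E))) (N 6 5 (N 7 8 E (N 8 7 E
  (N 9 7 E E))) (N 7 5 (N 6 8 E (N 8 6 E (N 9 6 E E))) (N 8 5 (N 6 7 E (N 7 6 E (N 9 6 E E))) (N 9 5
  (N 6 7 E (N 7 6 E (N 8 6 E E))) E))))) (N 3 1 (N 5 6 (N 7 8 E (N 8 7 E (N 9 7 E E))) (N 6 5 (N 7 8 E
  (N 8 7 E (N 9 7 E E))) (N 7 5 (N 6 8 E (N 8 6 E (N 9 6 E E))) (N 8 5 (N 6 7 E (N 7 6 E (N 9 6 E E)))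
  (N 9 5 (N 6 7 E (N 7 6 E (N 8 6 E E))) E))))) (N 5 6 (N 1 3 (N 7 8 E (N 8 7 E (N 9 7 E E))) (N 3 1
  (N 7 8 E (N 8 7 E (N 9 7 E E))) (N 7 8 E (N 8 7 E (N 9 7 E E))))) (N 6 5 (N 1 3 (N 7 8 E (N 8 7 E (N
  9 7 E E))) (N 3 1 (N 7 8 E (N 8 7 E (N 9 7 E E))) (N 7 8 E (N 8 7 E (N 9 7 E E))))) (N 7 5 (N 1 3 (N
  6 8 E (N 8 6 E (N 9 6 E E))) (N 3 1 (N 6 8 E (N 8 6 E (N 9 6 E E))) (N 6 8 E (N 8 6 E (N 9 6 E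
  E))))) (N 8 5 (N 1 3 (N 6 7 E (N 7 6 E (N 9 6 E E))) (N 3 1 (N 6 7 E (N 7 6 E (N 9 6 E E))) (N 6 7 E
  (N 7 6 E (N 9 6 E E))))) (N 9 5 (N 1 3 (N 6 7 E (N 7 6 E (N 8 6 E E))) (N 3 1 (N 6 7 E (N 7 6 E (N 8
  6 E E))) (N 6 7 E (N 7 6 E (N 8 6 E E))))) E))))))) (N 3 4 (N 1 2 (N 5 6 (N 7 8 E (N 8 7 E (N 9 7 E
  E))) (N 6 5 (N 7 8 E (N 8 7 E (N 9 7 E E))) (N 7 5 (N 6 8 E (N 8 6 E (N 9 6 E E))) (N 8 5 (N 6 7 E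
  (N 7 6 E (N 9 6 E E))) (N 9 5 (N 6 7 E (N 7 6 E (N 8 6 E E))) E))))) (N 2 1 (N 5 6 (N 7 8 E (N 8 7 E
  (N 9 7 E E))) (N 6 5 (N 7 8 E (N 8 7 E (N 9 7 E E))) (N 7 5 (N 6 8 E (N 8 6 E (N 9 6 E E))) (N 8 5
  (N 6 7 E (N 7 6 E (N 9 6 E E))) (N 9 5 (N 6 7 E (N 7 6 E (N 8 6 E E))) E))))) (N 5 6 (N 1 2 (N 7 8 E
  (N 8 7 E (N 9 7 E E))) (N 2 1 (N 7 8 E (N 8 7 E (N 9 7 E E))) (N 7 8 E (N 8 7 E (N 9 7 E E))))) (N 6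
  5 (N 1 2 (N 7 8 E (N 8 7 E (N 9 7 E E))) (N 2 1 (N 7 8 E (N 8 7 E (N 9 7 E E))) (N 7 8 E (N 8 7 E (N
  9 7 E E))))) (N 7 5 (N 1 2 (N 6 8 E (N 8 6 E (N 9 6 E E))) (N 2 1 (N 6 8 E (N 8 6 E (N 9 6 E E))) (N
  6 8 E (N 8 6 E (N 9 6 E E))))) (N 8 5 (N 1 2 (N 6 7 E (N 7 6 E (N 9 6 E E))) (N 2 1 (N 6 7 E (N 7 6
  E (N 9 6 E E))) (N 6 7 E (N 7 6 E (N 9 6 E E))))) (N 9 5 (N 1 2 (N 6 7 E (N 7 6 E (N 8 6 E E))) (N 2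
  1 (N 6 7 E (N 7 6 E (N 8 6 E E))) (N 6 7 E (N 7 6 E (N 8 6 E E))))) E))))))) (N 4 5 (N 1 6 (N 2 3 (N
  7 8 E (N 8 7 E (N 9 7 E E))) (N 3 2 (N 7 8 E (N 8 7 E (N 9 7 E E))) (N 7 8 E (N 8 7 E (N 9 7 E
  E))))) (N 2 6 (N 1 3 (N 7 8 E (N 8 7 E (N 9 7 E E))) (N 3 1 (N 7 8 E (N 8 7 E (N 9 7 E E))) (N 7 8 E
  (N 8 7 E (N 9 7 E E))))) (N 3 6 (N 1 2 (N 7 8 E (N 8 7 E (N 9 7 E E))) (N 2 1 (N 7 8 E (N 8 7 E (N 9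
  7 E E))) (N 7 8 E (N 8 7 E (N 9 7 E E))))) (N 6 7 (N 1 8 E (N 2 8 E (N 3 8 E (N 8 8 E (N 9 9 E
  E))))) (N 7 6 (N 1 8 E (N 2 8 E (N 3 8 E (N 8 8 E (N 9 9 E E))))) (N 8 6 (N 1 7 E (N 2 7 E (N 3 7 E
  (N 7 7 E (N 9 9 E E))))) (N 9 6 (N 1 7 E (N 2 7 E (N 3 7 E (N 7 7 E (N 8 8 E E))))) E))))))) (N 5 4
  (N 1 6 (N 2 3 (N 7 8 E (N 8 7 E (N 9 7 E E))) (N 3 2 (N 7 8 E (N 8 7 E (N 9 7 E E))) (N 7 8 E (N 8 7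
  E (N 9 7 E E))))) (N 2 6 (N 1 3 (N 7 8 E (N 8 7 E (N 9 7 E E))) (N 3 1 (N 7 8 E (N 8 7 E (N 9 7 E
  E))) (N 7 8 E (N 8 7 E (N 9 7 E E))))) (N 3 6 (N 1 2 (N 7 8 E (N 8 7 E (N 9 7 E E))) (N 2 1 (N 7 8 E
  (N 8 7 E (N 9 7 E E))) (N 7 8 E (N 8 7 E (N 9 7 E E))))) (N 6 7 (N 1 8 E (N 2 8 E (N 3 8 E (N 8 8 E
  (N 9 9 E E))))) (N 7 6 (N 1 8 E (N 2 8 E (N 3 8 E (N 8 8 E (N 9 9 E E))))) (N 8 6 (N 1 7 E (N 2 7 E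
  (N 3 7 E (N 7 7 E (N 9 9 E E))))) (N 9 6 (N 1 7 E (N 2 7 E (N 3 7 E (N 7 7 E (N 8 8 E E)))))
  E))))))) (N 6 5 (N 1 4 (N 2 3 (N 7 8 E (N 8 7 E (N 9 7 E E))) (N 3 2 (N 7 8 E (N 8 7 E (N 9 7 E E)))
  (N 7 8 E (N 8 7 E (N 9 7 E E))))) (N 2 4 (N 1 3 (N 7 8 E (N 8 7 E (N 9 7 E E))) (N 3 1 (N 7 8 E (N 8
  7 E (N 9 7 E E))) (N 7 8 E (N 8 7 E (N 9 7 E E))))) (N 3 4 (N 1 2 (N 7 8 E (N 8 7 E (N 9 7 E E))) (N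
  2 1 (N 7 8 E (N 8 7 E (N 9 7 E E))) (N 7 8 E (N 8 7 E (N 9 7 E E))))) (N 4 7 (N 1 8 E (N 2 8 E (N 3
  8 E (N 8 8 E (N 9 9 E E))))) (N 7 4 (N 1 8 E (N 2 8 E (N 3 8 E (N 8 8 E (N 9 9 E E))))) (N 8 4 (N 1
  7 E (N 2 7 E (N 3 7 E (N 7 7 E (N 9 9 E E))))) (N 9 4 (N 1 7 E (N 2 7 E (N 3 7 E (N 7 7 E (N 8 8 E
  E))))) E))))))) (N 7 5 (N 1 4 (N 2 3 (N 6 8 E (N 8 6 E (N 9 6 E E))) (N 3 2 (N 6 8 E (N 8 6 E (N 9 6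
  E E))) (N 6 8 E (N 8 6 E (N 9 6 E E))))) (N 2 4 (N 1 3 (N 6 8 E (N 8 6 E (N 9 6 E E))) (N 3 1 (N 6 8
  E (N 8 6 E (N 9 6 E E))) (N 6 8 E (N 8 6 E (N 9 6 E E))))) (N 3 4 (N 1 2 (N 6 8 E (N 8 6 E (N 9 6 E
  E))) (N 2 1 (N 6 8 E (N 8 6 E (N 9 6 E E))) (N 6 8 E (N 8 6 E (N 9 6 E E))))) (N 4 6 (N 1 8 E (N 2 8
  E (N 3 8 E (N 8 8 E (N 9 9 E E))))) (N 6 4 (N 1 8 E (N 2 8 E (N 3 8 E (N 8 8 E (N 9 9 E E))))) (N 8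
  4 (N 1 6 E (N 2 6 E (N 3 6 E (N 6 6 E (N 9 9 E E))))) (N 9 4 (N 1 6 E (N 2 6 E (N 3 6 E (N 6 6 E (N
  8 8 E E))))) E))))))) (N 8 5 (N 1 4 (N 2 3 (N 6 7 E (N 7 6 E (N 9 6 E E))) (N 3 2 (N 6 7 E (N 7 6 E
  (N 9 6 E E))) (N 6 7 E (N 7 6 E (N 9 6 E E))))) (N 2 4 (N 1 3 (N 6 7 E (N 7 6 E (N 9 6 E E))) (N 3 1
  (N 6 7 E (N 7 6 E (N 9 6 E E))) (N 6 7 E (N 7 6 E (N 9 6 E E))))) (N 3 4 (N 1 2 (N 6 7 E (N 7 6 E (N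
  9 6 E E))) (N 2 1 (N 6 7 E (N 7 6 E (N 9 6 E E))) (N 6 7 E (N 7 6 E (N 9 6 E E))))) (N 4 6 (N 1 7 E
  (N 2 7 E (N 3 7 E (N 7 7 E (N 9 9 E E))))) (N 6 4 (N 1 7 E (N 2 7 E (N 3 7 E (N 7 7 E (N 9 9 E
  E))))) (N 7 4 (N 1 6 E (N 2 6 E (N 3 6 E (N 6 6 E (N 9 9 E E))))) (N 9 4 (N 1 6 E (N 2 6 E (N 3 6 E
  (N 6 6 E (N 7 7 E E))))) E))))))) (N 9 5 (N 1 4 (N 2 3 (N 6 7 E (N 7 6 E (N 8 6 E E))) (N 3 2 (N 6 7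
  E (N 7 6 E (N 8 6 E E))) (N 6 7 E (N 7 6 E (N 8 6 E E))))) (N 2 4 (N 1 3 (N 6 7 E (N 7 6 E (N 8 6 E
  E))) (N 3 1 (N 6 7 E (N 7 6 E (N 8 6 E E))) (N 6 7 E (N 7 6 E (N 8 6 E E))))) (N 3 4 (N 1 2 (N 6 7 E
  (N 7 6 E (N 8 6 E E))) (N 2 1 (N 6 7 E (N 7 6 E (N 8 6 E E))) (N 6 7 E (N 7 6 E (N 8 6 E E))))) (N 4
  6 (N 1 7 E (N 2 7 E (N 3 7 E (N 7 7 E (N 8 8 E E))))) (N 6 4 (N 1 7 E (N 2 7 E (N 3 7 E (N 7 7 E (N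
  8 8 E E))))) (N 7 4 (N 1 6 E (N 2 6 E (N 3 6 E (N 6 6 E (N 8 8 E E))))) (N 8 4 (N 1 6 E (N 2 6 E (N
  3 6 E (N 6 6 E (N 7 7 E E))))) E))))))) E)))))))))

def B1 : ST :=
  (N 0 4 (N 2 3 (N 5 6 (N 7 8 E (N 8 7 E (N 9 7 E E))) (N 6 5 (N 7 8 E (N 8 7 E (N 9 7 E E))) (N 7 5
  (N 6 8 E (N 8 6 E (N 9 6 E E))) (N 8 5 (N 6 7 E (N 7 6 E (N 9 6 E E))) (N 9 5 (N 6 7 E (N 7 6 E (N 8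
  6 E E))) E))))) (N 3 2 (N 5 6 (N 7 8 E (N 8 7 E (N 9 7 E E))) (N 6 5 (N 7 8 E (N 8 7 E (N 9 7 E E)))
  (N 7 5 (N 6 8 E (N 8 6 E (N 9 6 E E))) (N 8 5 (N 6 7 E (N 7 6 E (N 9 6 E E))) (N 9 5 (N 6 7 E (N 7 6
  E (N 8 6 E E))) E))))) (N 5 6 (N 2 3 (N 7 8 E (N 8 7 E (N 9 7 E E))) (N 3 2 (N 7 8 E (N 8 7 E (N 9 7
  E E))) (N 7 8 E (N 8 7 E (N 9 7 E E))))) (N 6 5 (N 2 3 (N 7 8 E (N 8 7 E (N 9 7 E E))) (N 3 2 (N 7 8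
  E (N 8 7 E (N 9 7 E E))) (N 7 8 E (N 8 7 E (N 9 7 E E))))) (N 7 5 (N 2 3 (N 6 8 E (N 8 6 E (N 9 6 E
  E))) (N 3 2 (N 6 8 E (N 8 6 E (N 9 6 E E))) (N 6 8 E (N 8 6 E (N 9 6 E E))))) (N 8 5 (N 2 3 (N 6 7 E
  (N 7 6 E (N 9 6 E E))) (N 3 2 (N 6 7 E (N 7 6 E (N 9 6 E E))) (N 6 7 E (N 7 6 E (N 9 6 E E))))) (N 9
  5 (N 2 3 (N 6 7 E (N 7 6 E (N 8 6 E E))) (N 3 2 (N 6 7 E (N 7 6 E (N 8 6 E E))) (N 6 7 E (N 7 6 E (N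
  8 6 E E))))) E))))))) (N 2 4 (N 0 3 (N 5 6 (N 7 8 E (N 8 7 E (N 9 7 E E))) (N 6 5 (N 7 8 E (N 8 7 E
  (N 9 7 E E))) (N 7 5 (N 6 8 E (N 8 6 E (N 9 6 E E))) (N 8 5 (N 6 7 E (N 7 6 E (N 9 6 E E))) (N 9 5
  (N 6 7 E (N 7 6 E (N 8 6 E E))) E))))) (N 3 0 (N 5 6 (N 7 8 E (N 8 7 E (N 9 7 E E))) (N 6 5 (N 7 8 E
  (N 8 7 E (N 9 7 E E))) (N 7 5 (N 6 8 E (N 8 6 E (N 9 6 E E))) (N 8 5 (N 6 7 E (N 7 6 E (N 9 6 E E)))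
  (N 9 5 (N 6 7 E (N 7 6 E (N 8 6 E E))) E))))) (N 5 6 (N 0 3 (N 7 8 E (N 8 7 E (N 9 7 E E))) (N 3 0
  (N 7 8 E (N 8 7 E (N 9 7 E E))) (N 7 8 E (N 8 7 E (N 9 7 E E))))) (N 6 5 (N 0 3 (N 7 8 E (N 8 7 E (N
  9 7 E E))) (N 3 0 (N 7 8 E (N 8 7 E (N 9 7 E E))) (N 7 8 E (N 8 7 E (N 9 7 E E))))) (N 7 5 (N 0 3 (N
  6 8 E (N 8 6 E (N 9 6 E E))) (N 3 0 (N 6 8 E (N 8 6 E (N 9 6 E E))) (N 6 8 E (N 8 6 E (N 9 6 E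
  E))))) (N 8 5 (N 0 3 (N 6 7 E (N 7 6 E (N 9 6 E E))) (N 3 0 (N 6 7 E (N 7 6 E (N 9 6 E E))) (N 6 7 E
  (N 7 6 E (N 9 6 E E))))) (N 9 5 (N 0 3 (N 6 7 E (N 7 6 E (N 8 6 E E))) (N 3 0 (N 6 7 E (N 7 6 E (N 8
  6 E E))) (N 6 7 E (N 7 6 E (N 8 6 E E))))) E))))))) (N 3 4 (N 0 2 (N 5 6 (N 7 8 E (N 8 7 E (N 9 7 E
  E))) (N 6 5 (N 7 8 E (N 8 7 E (N 9 7 E E))) (N 7 5 (N 6 8 E (N 8 6 E (N 9 6 E E))) (N 8 5 (N 6 7 E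
  (N 7 6 E (N 9 6 E E))) (N 9 5 (N 6 7 E (N 7 6 E (N 8 6 E E))) E))))) (N 2 0 (N 5 6 (N 7 8 E (N 8 7 E
  (N 9 7 E E))) (N 6 5 (N 7 8 E (N 8 7 E (N 9 7 E E))) (N 7 5 (N 6 8 E (N 8 6 E (N 9 6 E E))) (N 8 5
  (N 6 7 E (N 7 6 E (N 9 6 E E))) (N 9 5 (N 6 7 E (N 7 6 E (N 8 6 E E))) E))))) (N 5 6 (N 0 2 (N 7 8 E
  (N 8 7 E (N 9 7 E E))) (N 2 0 (N 7 8 E (N 8 7 E (N 9 7 E E))) (N 7 8 E (N 8 7 E (N 9 7 E E))))) (N 6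
  5 (N 0 2 (N 7 8 E (N 8 7 E (N 9 7 E E))) (N 2 0 (N 7 8 E (N 8 7 E (N 9 7 E E))) (N 7 8 E (N 8 7 E (N
  9 7 E E))))) (N 7 5 (N 0 2 (N 6 8 E (N 8 6 E (N 9 6 E E))) (N 2 0 (N 6 8 E (N 8 6 E (N 9 6 E E))) (N
  6 8 E (N 8 6 E (N 9 6 E E))))) (N 8 5 (N 0 2 (N 6 7 E (N 7 6 E (N 9 6 E E))) (N 2 0 (N 6 7 E (N 7 6
  E (N 9 6 E E))) (N 6 7 E (N 7 6 E (N 9 6 E E))))) (N 9 5 (N 0 2 (N 6 7 E (N 7 6 E (N 8 6 E E))) (N 2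
  0 (N 6 7 E (N 7 6 E (N 8 6 E E))) (N 6 7 E (N 7 6 E (N 8 6 E E))))) E))))))) (N 4 5 (N 0 6 (N 2 3 (N
  7 8 E (N 8 7 E (N 9 7 E E))) (N 3 2 (N 7 8 E (N 8 7 E (N 9 7 E E))) (N 7 8 E (N 8 7 E (N 9 7 E
  E))))) (N 2 6 (N 0 3 (N 7 8 E (N 8 7 E (N 9 7 E E))) (N 3 0 (N 7 8 E (N 8 7 E (N 9 7 E E))) (N 7 8 E
  (N 8 7 E (N 9 7 E E))))) (N 3 6 (N 0 2 (N 7 8 E (N 8 7 E (N 9 7 E E))) (N 2 0 (N 7 8 E (N 8 7 E (N 9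
  7 E E))) (N 7 8 E (N 8 7 E (N 9 7 E E))))) (N 6 7 (N 0 8 E (N 2 8 E (N 3 8 E (N 8 8 E (N 9 9 E
  E))))) (N 7 6 (N 0 8 E (N 2 8 E (N 3 8 E (N 8 8 E (N 9 9 E E))))) (N 8 6 (N 0 7 E (N 2 7 E (N 3 7 E
  (N 7 7 E (N 9 9 E E))))) (N 9 6 (N 0 7 E (N 2 7 E (N 3 7 E (N 7 7 E (N 8 8 E E))))) E))))))) (N 5 4
  (N 0 6 (N 2 3 (N 7 8 E (N 8 7 E (N 9 7 E E))) (N 3 2 (N 7 8 E (N 8 7 E (N 9 7 E E))) (N 7 8 E (N 8 7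
  E (N 9 7 E E))))) (N 2 6 (N 0 3 (N 7 8 E (N 8 7 E (N 9 7 E E))) (N 3 0 (N 7 8 E (N 8 7 E (N 9 7 E
  E))) (N 7 8 E (N 8 7 E (N 9 7 E E))))) (N 3 6 (N 0 2 (N 7 8 E (N 8 7 E (N 9 7 E E))) (N 2 0 (N 7 8 E
  (N 8 7 E (N 9 7 E E))) (N 7 8 E (N 8 7 E (N 9 7 E E))))) (N 6 7 (N 0 8 E (N 2 8 E (N 3 8 E (N 8 8 E
  (N 9 9 E E))))) (N 7 6 (N 0 8 E (N 2 8 E (N 3 8 E (N 8 8 E (N 9 9 E E))))) (N 8 6 (N 0 7 E (N 2 7 E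
  (N 3 7 E (N 7 7 E (N 9 9 E E))))) (N 9 6 (N 0 7 E (N 2 7 E (N 3 7 E (N 7 7 E (N 8 8 E E)))))
  E))))))) (N 6 5 (N 0 4 (N 2 3 (N 7 8 E (N 8 7 E (N 9 7 E E))) (N 3 2 (N 7 8 E (N 8 7 E (N 9 7 E E)))
  (N 7 8 E (N 8 7 E (N 9 7 E E))))) (N 2 4 (N 0 3 (N 7 8 E (N 8 7 E (N 9 7 E E))) (N 3 0 (N 7 8 E (N 8
  7 E (N 9 7 E E))) (N 7 8 E (N 8 7 E (N 9 7 E E))))) (N 3 4 (N 0 2 (N 7 8 E (N 8 7 E (N 9 7 E E))) (N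
  2 0 (N 7 8 E (N 8 7 E (N 9 7 E E))) (N 7 8 E (N 8 7 E (N 9 7 E E))))) (N 4 7 (N 0 8 E (N 2 8 E (N 3
  8 E (N 8 8 E (N 9 9 E E))))) (N 7 4 (N 0 8 E (N 2 8 E (N 3 8 E (N 8 8 E (N 9 9 E E))))) (N 8 4 (N 0
  7 E (N 2 7 E (N 3 7 E (N 7 7 E (N 9 9 E E))))) (N 9 4 (N 0 7 E (N 2 7 E (N 3 7 E (N 7 7 E (N 8 8 E
  E))))) E))))))) (N 7 5 (N 0 4 (N 2 3 (N 6 8 E (N 8 6 E (N 9 6 E E))) (N 3 2 (N 6 8 E (N 8 6 E (N 9 6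
  E E))) (N 6 8 E (N 8 6 E (N 9 6 E E))))) (N 2 4 (N 0 3 (N 6 8 E (N 8 6 E (N 9 6 E E))) (N 3 0 (N 6 8
  E (N 8 6 E (N 9 6 E E))) (N 6 8 E (N 8 6 E (N 9 6 E E))))) (N 3 4 (N 0 2 (N 6 8 E (N 8 6 E (N 9 6 E
  E))) (N 2 0 (N 6 8 E (N 8 6 E (N 9 6 E E))) (N 6 8 E (N 8 6 E (N 9 6 E E))))) (N 4 6 (N 0 8 E (N 2 8
  E (N 3 8 E (N 8 8 E (N 9 9 E E))))) (N 6 4 (N 0 8 E (N 2 8 E (N 3 8 E (N 8 8 E (N 9 9 E E))))) (N 8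
  4 (N 0 6 E (N 2 6 E (N 3 6 E (N 6 6 E (N 9 9 E E))))) (N 9 4 (N 0 6 E (N 2 6 E (N 3 6 E (N 6 6 E (N
  8 8 E E))))) E))))))) (N 8 5 (N 0 4 (N 2 3 (N 6 7 E (N 7 6 E (N 9 6 E E))) (N 3 2 (N 6 7 E (N 7 6 E
  (N 9 6 E E))) (N 6 7 E (N 7 6 E (N 9 6 E E))))) (N 2 4 (N 0 3 (N 6 7 E (N 7 6 E (N 9 6 E E))) (N 3 0
  (N 6 7 E (N 7 6 E (N 9 6 E E))) (N 6 7 E (N 7 6 E (N 9 6 E E))))) (N 3 4 (N 0 2 (N 6 7 E (N 7 6 E (N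
  9 6 E E))) (N 2 0 (N 6 7 E (N 7 6 E (N 9 6 E E))) (N 6 7 E (N 7 6 E (N 9 6 E E))))) (N 4 6 (N 0 7 E
  (N 2 7 E (N 3 7 E (N 7 7 E (N 9 9 E E))))) (N 6 4 (N 0 7 E (N 2 7 E (N 3 7 E (N 7 7 E (N 9 9 E
  E))))) (N 7 4 (N 0 6 E (N 2 6 E (N 3 6 E (N 6 6 E (N 9 9 E E))))) (N 9 4 (N 0 6 E (N 2 6 E (N 3 6 E
  (N 6 6 E (N 7 7 E E))))) E))))))) (N 9 5 (N 0 4 (N 2 3 (N 6 7 E (N 7 6 E (N 8 6 E E))) (N 3 2 (N 6 7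
  E (N 7 6 E (N 8 6 E E))) (N 6 7 E (N 7 6 E (N 8 6 E E))))) (N 2 4 (N 0 3 (N 6 7 E (N 7 6 E (N 8 6 E
  E))) (N 3 0 (N 6 7 E (N 7 6 E (N 8 6 E E))) (N 6 7 E (N 7 6 E (N 8 6 E E))))) (N 3 4 (N 0 2 (N 6 7 E
  (N 7 6 E (N 8 6 E E))) (N 2 0 (N 6 7 E (N 7 6 E (N 8 6 E E))) (N 6 7 E (N 7 6 E (N 8 6 E E))))) (N 4
  6 (N 0 7 E (N 2 7 E (N 3 7 E (N 7 7 E (N 8 8 E E))))) (N 6 4 (N 0 7 E (N 2 7 E (N 3 7 E (N 7 7 E (N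
  8 8 E E))))) (N 7 4 (N 0 6 E (N 2 6 E (N 3 6 E (N 6 6 E (N 8 8 E E))))) (N 8 4 (N 0 6 E (N 2 6 E (N
  3 6 E (N 6 6 E (N 7 7 E E))))) E))))))) E)))))))))

def B2 : ST :=
  (N 0 4 (N 1 3 (N 5 6 (N 7 8 E (N 8 7 E (N 9 7 E E))) (N 6 5 (N 7 8 E (N 8 7 E (N 9 7 E E))) (N 7 5
  (N 6 8 E (N 8 6 E (N 9 6 E E))) (N 8 5 (N 6 7 E (N 7 6 E (N 9 6 E E))) (N 9 5 (N 6 7 E (N 7 6 E (N 8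
  6 E E))) E))))) (N 3 1 (N 5 6 (N 7 8 E (N 8 7 E (N 9 7 E E))) (N 6 5 (N 7 8 E (N 8 7 E (N 9 7 E E)))
  (N 7 5 (N 6 8 E (N 8 6 E (N 9 6 E E))) (N 8 5 (N 6 7 E (N 7 6 E (N 9 6 E E))) (N 9 5 (N 6 7 E (N 7 6
  E (N 8 6 E E))) E))))) (N 5 6 (N 1 3 (N 7 8 E (N 8 7 E (N 9 7 E E))) (N 3 1 (N 7 8 E (N 8 7 E (N 9 7
  E E))) (N 7 8 E (N 8 7 E (N 9 7 E E))))) (N 6 5 (N 1 3 (N 7 8 E (N 8 7 E (N 9 7 E E))) (N 3 1 (N 7 8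
  E (N 8 7 E (N 9 7 E E))) (N 7 8 E (N 8 7 E (N 9 7 E E))))) (N 7 5 (N 1 3 (N 6 8 E (N 8 6 E (N 9 6 E
  E))) (N 3 1 (N 6 8 E (N 8 6 E (N 9 6 E E))) (N 6 8 E (N 8 6 E (N 9 6 E E))))) (N 8 5 (N 1 3 (N 6 7 E
  (N 7 6 E (N 9 6 E E))) (N 3 1 (N 6 7 E (N 7 6 E (N 9 6 E E))) (N 6 7 E (N 7 6 E (N 9 6 E E))))) (N 9
  5 (N 1 3 (N 6 7 E (N 7 6 E (N 8 6 E E))) (N 3 1 (N 6 7 E (N 7 6 E (N 8 6 E E))) (N 6 7 E (N 7 6 E (N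
  8 6 E E))))) E))))))) (N 1 4 (N 0 3 (N 5 6 (N 7 8 E (N 8 7 E (N 9 7 E E))) (N 6 5 (N 7 8 E (N 8 7 E
  (N 9 7 E E))) (N 7 5 (N 6 8 E (N 8 6 E (N 9 6 E E))) (N 8 5 (N 6 7 E (N 7 6 E (N 9 6 E E))) (N 9 5
  (N 6 7 E (N 7 6 E (N 8 6 E E))) E))))) (N 3 0 (N 5 6 (N 7 8 E (N 8 7 E (N 9 7 E E))) (N 6 5 (N 7 8 E
  (N 8 7 E (N 9 7 E E))) (N 7 5 (N 6 8 E (N 8 6 E (N 9 6 E E))) (N 8 5 (N 6 7 E (N 7 6 E (N 9 6 E E)))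
  (N 9 5 (N 6 7 E (N 7 6 E (N 8 6 E E))) E))))) (N 5 6 (N 0 3 (N 7 8 E (N 8 7 E (N 9 7 E E))) (N 3 0
  (N 7 8 E (N 8 7 E (N 9 7 E E))) (N 7 8 E (N 8 7 E (N 9 7 E E))))) (N 6 5 (N 0 3 (N 7 8 E (N 8 7 E (N
  9 7 E E))) (N 3 0 (N 7 8 E (N 8 7 E (N 9 7 E E))) (N 7 8 E (N 8 7 E (N 9 7 E E))))) (N 7 5 (N 0 3 (N
  6 8 E (N 8 6 E (N 9 6 E E))) (N 3 0 (N 6 8 E (N 8 6 E (N 9 6 E E))) (N 6 8 E (N 8 6 E (N 9 6 E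
  E))))) (N 8 5 (N 0 3 (N 6 7 E (N 7 6 E (N 9 6 E E))) (N 3 0 (N 6 7 E (N 7 6 E (N 9 6 E E))) (N 6 7 E
  (N 7 6 E (N 9 6 E E))))) (N 9 5 (N 0 3 (N 6 7 E (N 7 6 E (N 8 6 E E))) (N 3 0 (N 6 7 E (N 7 6 E (N 8
  6 E E))) (N 6 7 E (N 7 6 E (N 8 6 E E))))) E))))))) (N 3 4 (N 0 1 (N 5 6 (N 7 8 E (N 8 7 E (N 9 7 E
  E))) (N 6 5 (N 7 8 E (N 8 7 E (N 9 7 E E))) (N 7 5 (N 6 8 E (N 8 6 E (N 9 6 E E))) (N 8 5 (N 6 7 E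
  (N 7 6 E (N 9 6 E E))) (N 9 5 (N 6 7 E (N 7 6 E (N 8 6 E E))) E))))) (N 1 0 (N 5 6 (N 7 8 E (N 8 7 E
  (N 9 7 E E))) (N 6 5 (N 7 8 E (N 8 7 E (N 9 7 E E))) (N 7 5 (N 6 8 E (N 8 6 E (N 9 6 E E))) (N 8 5
  (N 6 7 E (N 7 6 E (N 9 6 E E))) (N 9 5 (N 6 7 E (N 7 6 E (N 8 6 E E))) E))))) (N 5 6 (N 0 1 (N 7 8 E
  (N 8 7 E (N 9 7 E E))) (N 1 0 (N 7 8 E (N 8 7 E (N 9 7 E E))) (N 7 8 E (N 8 7 E (N 9 7 E E))))) (N 6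
  5 (N 0 1 (N 7 8 E (N 8 7 E (N 9 7 E E))) (N 1 0 (N 7 8 E (N 8 7 E (N 9 7 E E))) (N 7 8 E (N 8 7 E (N
  9 7 E E))))) (N 7 5 (N 0 1 (N 6 8 E (N 8 6 E (N 9 6 E E))) (N 1 0 (N 6 8 E (N 8 6 E (N 9 6 E E))) (N
  6 8 E (N 8 6 E (N 9 6 E E))))) (N 8 5 (N 0 1 (N 6 7 E (N 7 6 E (N 9 6 E E))) (N 1 0 (N 6 7 E (N 7 6
  E (N 9 6 E E))) (N 6 7 E (N 7 6 E (N 9 6 E E))))) (N 9 5 (N 0 1 (N 6 7 E (N 7 6 E (N 8 6 E E))) (N 1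
  0 (N 6 7 E (N 7 6 E (N 8 6 E E))) (N 6 7 E (N 7 6 E (N 8 6 E E))))) E))))))) (N 4 5 (N 0 6 (N 1 3 (N
  7 8 E (N 8 7 E (N 9 7 E E))) (N 3 1 (N 7 8 E (N 8 7 E (N 9 7 E E))) (N 7 8 E (N 8 7 E (N 9 7 E
  E))))) (N 1 6 (N 0 3 (N 7 8 E (N 8 7 E (N 9 7 E E))) (N 3 0 (N 7 8 E (N 8 7 E (N 9 7 E E))) (N 7 8 E
  (N 8 7 E (N 9 7 E E))))) (N 3 6 (N 0 1 (N 7 8 E (N 8 7 E (N 9 7 E E))) (N 1 0 (N 7 8 E (N 8 7 E (N 9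
  7 E E))) (N 7 8 E (N 8 7 E (N 9 7 E E))))) (N 6 7 (N 0 8 E (N 1 8 E (N 3 8 E (N 8 8 E (N 9 9 E
  E))))) (N 7 6 (N 0 8 E (N 1 8 E (N 3 8 E (N 8 8 E (N 9 9 E E))))) (N 8 6 (N 0 7 E (N 1 7 E (N 3 7 E
  (N 7 7 E (N 9 9 E E))))) (N 9 6 (N 0 7 E (N 1 7 E (N 3 7 E (N 7 7 E (N 8 8 E E))))) E))))))) (N 5 4
  (N 0 6 (N 1 3 (N 7 8 E (N 8 7 E (N 9 7 E E))) (N 3 1 (N 7 8 E (N 8 7 E (N 9 7 E E))) (N 7 8 E (N 8 7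
  E (N 9 7 E E))))) (N 1 6 (N 0 3 (N 7 8 E (N 8 7 E (N 9 7 E E))) (N 3 0 (N 7 8 E (N 8 7 E (N 9 7 E
  E))) (N 7 8 E (N 8 7 E (N 9 7 E E))))) (N 3 6 (N 0 1 (N 7 8 E (N 8 7 E (N 9 7 E E))) (N 1 0 (N 7 8 E
  (N 8 7 E (N 9 7 E E))) (N 7 8 E (N 8 7 E (N 9 7 E E))))) (N 6 7 (N 0 8 E (N 1 8 E (N 3 8 E (N 8 8 E
  (N 9 9 E E))))) (N 7 6 (N 0 8 E (N 1 8 E (N 3 8 E (N 8 8 E (N 9 9 E E))))) (N 8 6 (N 0 7 E (N 1 7 E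
  (N 3 7 E (N 7 7 E (N 9 9 E E))))) (N 9 6 (N 0 7 E (N 1 7 E (N 3 7 E (N 7 7 E (N 8 8 E E)))))
  E))))))) (N 6 5 (N 0 4 (N 1 3 (N 7 8 E (N 8 7 E (N 9 7 E E))) (N 3 1 (N 7 8 E (N 8 7 E (N 9 7 E E)))
  (N 7 8 E (N 8 7 E (N 9 7 E E))))) (N 1 4 (N 0 3 (N 7 8 E (N 8 7 E (N 9 7 E E))) (N 3 0 (N 7 8 E (N 8
  7 E (N 9 7 E E))) (N 7 8 E (N 8 7 E (N 9 7 E E))))) (N 3 4 (N 0 1 (N 7 8 E (N 8 7 E (N 9 7 E E))) (N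
  1 0 (N 7 8 E (N 8 7 E (N 9 7 E E))) (N 7 8 E (N 8 7 E (N 9 7 E E))))) (N 4 7 (N 0 8 E (N 1 8 E (N 3
  8 E (N 8 8 E (N 9 9 E E))))) (N 7 4 (N 0 8 E (N 1 8 E (N 3 8 E (N 8 8 E (N 9 9 E E))))) (N 8 4 (N 0
  7 E (N 1 7 E (N 3 7 E (N 7 7 E (N 9 9 E E))))) (N 9 4 (N 0 7 E (N 1 7 E (N 3 7 E (N 7 7 E (N 8 8 E
  E))))) E))))))) (N 7 5 (N 0 4 (N 1 3 (N 6 8 E (N 8 6 E (N 9 6 E E))) (N 3 1 (N 6 8 E (N 8 6 E (N 9 6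
  E E))) (N 6 8 E (N 8 6 E (N 9 6 E E))))) (N 1 4 (N 0 3 (N 6 8 E (N 8 6 E (N 9 6 E E))) (N 3 0 (N 6 8
  E (N 8 6 E (N 9 6 E E))) (N 6 8 E (N 8 6 E (N 9 6 E E))))) (N 3 4 (N 0 1 (N 6 8 E (N 8 6 E (N 9 6 E
  E))) (N 1 0 (N 6 8 E (N 8 6 E (N 9 6 E E))) (N 6 8 E (N 8 6 E (N 9 6 E E))))) (N 4 6 (N 0 8 E (N 1 8
  E (N 3 8 E (N 8 8 E (N 9 9 E E))))) (N 6 4 (N 0 8 E (N 1 8 E (N 3 8 E (N 8 8 E (N 9 9 E E))))) (N 8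
  4 (N 0 6 E (N 1 6 E (N 3 6 E (N 6 6 E (N 9 9 E E))))) (N 9 4 (N 0 6 E (N 1 6 E (N 3 6 E (N 6 6 E (N
  8 8 E E))))) E))))))) (N 8 5 (N 0 4 (N 1 3 (N 6 7 E (N 7 6 E (N 9 6 E E))) (N 3 1 (N 6 7 E (N 7 6 E
  (N 9 6 E E))) (N 6 7 E (N 7 6 E (N 9 6 E E))))) (N 1 4 (N 0 3 (N 6 7 E (N 7 6 E (N 9 6 E E))) (N 3 0
  (N 6 7 E (N 7 6 E (N 9 6 E E))) (N 6 7 E (N 7 6 E (N 9 6 E E))))) (N 3 4 (N 0 1 (N 6 7 E (N 7 6 E (N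
  9 6 E E))) (N 1 0 (N 6 7 E (N 7 6 E (N 9 6 E E))) (N 6 7 E (N 7 6 E (N 9 6 E E))))) (N 4 6 (N 0 7 E
  (N 1 7 E (N 3 7 E (N 7 7 E (N 9 9 E E))))) (N 6 4 (N 0 7 E (N 1 7 E (N 3 7 E (N 7 7 E (N 9 9 E
  E))))) (N 7 4 (N 0 6 E (N 1 6 E (N 3 6 E (N 6 6 E (N 9 9 E E))))) (N 9 4 (N 0 6 E (N 1 6 E (N 3 6 E
  (N 6 6 E (N 7 7 E E))))) E))))))) (N 9 5 (N 0 4 (N 1 3 (N 6 7 E (N 7 6 E (N 8 6 E E))) (N 3 1 (N 6 7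
  E (N 7 6 E (N 8 6 E E))) (N 6 7 E (N 7 6 E (N 8 6 E E))))) (N 1 4 (N 0 3 (N 6 7 E (N 7 6 E (N 8 6 E
  E))) (N 3 0 (N 6 7 E (N 7 6 E (N 8 6 E E))) (N 6 7 E (N 7 6 E (N 8 6 E E))))) (N 3 4 (N 0 1 (N 6 7 E
  (N 7 6 E (N 8 6 E E))) (N 1 0 (N 6 7 E (N 7 6 E (N 8 6 E E))) (N 6 7 E (N 7 6 E (N 8 6 E E))))) (N 4
  6 (N 0 7 E (N 1 7 E (N 3 7 E (N 7 7 E (N 8 8 E E))))) (N 6 4 (N 0 7 E (N 1 7 E (N 3 7 E (N 7 7 E (N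
  8 8 E E))))) (N 7 4 (N 0 6 E (N 1 6 E (N 3 6 E (N 6 6 E (N 8 8 E E))))) (N 8 4 (N 0 6 E (N 1 6 E (N
  3 6 E (N 6 6 E (N 7 7 E E))))) E))))))) E)))))))))

def B3 : ST :=
  (N 0 6 (N 1 5 (N 2 7 (N 8 8 E (N 9 9 E (N 10 8 E E))) (N 7 8 E (N 8 7 E (N 9 7 E (N 10 2 (N 7 8 E (N
  8 7 E (N 9 7 E E))) E))))) (N 2 5 (N 1 7 (N 8 8 E (N 9 9 E (N 10 8 E E))) (N 7 8 E (N 8 7 E (N 9 7 E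
  (N 10 1 (N 7 8 E (N 8 7 E (N 9 7 E E))) E))))) (N 5 7 (N 1 8 E (N 2 8 E (N 8 8 E (N 9 9 E (N 10 8 E
  E))))) (N 7 5 (N 1 8 E (N 2 8 E (N 8 8 E (N 9 9 E (N 10 1 E E))))) (N 8 5 (N 1 7 E (N 2 7 E (N 7 7 E
  (N 9 9 E (N 10 1 E E))))) (N 9 5 (N 1 7 E (N 2 7 E (N 7 7 E (N 8 8 E (N 10 1 E E))))) (N 10 7 (N 1 2
  E (N 2 1 E (N 5 1 E (N 8 5 E (N 9 5 E E))))) E))))))) (N 1 6 (N 0 5 (N 2 7 (N 8 8 E (N 9 9 E (N 10 8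
  E E))) (N 7 8 E (N 8 7 E (N 9 7 E (N 10 2 (N 7 8 E (N 8 7 E (N 9 7 E E))) E))))) (N 2 5 (N 0 7 (N 8
  8 E (N 9 9 E (N 10 8 E E))) (N 7 8 E (N 8 7 E (N 9 7 E (N 10 0 (N 7 8 E (N 8 7 E (N 9 7 E E)))
  E))))) (N 5 7 (N 0 8 E (N 2 8 E (N 8 8 E (N 9 9 E (N 10 8 E E))))) (N 7 5 (N 0 8 E (N 2 8 E (N 8 8 E
  (N 9 9 E (N 10 0 E E))))) (N 8 5 (N 0 7 E (N 2 7 E (N 7 7 E (N 9 9 E (N 10 0 E E))))) (N 9 5 (N 0 7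
  E (N 2 7 E (N 7 7 E (N 8 8 E (N 10 0 E E))))) (N 10 7 (N 0 2 E (N 2 0 E (N 5 0 E (N 8 5 E (N 9 5 E
  E))))) E))))))) (N 2 6 (N 0 5 (N 1 7 (N 8 8 E (N 9 9 E (N 10 8 E E))) (N 7 8 E (N 8 7 E (N 9 7 E (N
  10 1 (N 7 8 E (N 8 7 E (N 9 7 E E))) E))))) (N 1 5 (N 0 7 (N 8 8 E (N 9 9 E (N 10 8 E E))) (N 7 8 E
  (N 8 7 E (N 9 7 E (N 10 0 (N 7 8 E (N 8 7 E (N 9 7 E E))) E))))) (N 5 7 (N 0 8 E (N 1 8 E (N 8 8 E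
  (N 9 9 E (N 10 8 E E))))) (N 7 5 (N 0 8 E (N 1 8 E (N 8 8 E (N 9 9 E (N 10 0 E E))))) (N 8 5 (N 0 7
  E (N 1 7 E (N 7 7 E (N 9 9 E (N 10 0 E E))))) (N 9 5 (N 0 7 E (N 1 7 E (N 7 7 E (N 8 8 E (N 10 0 E
  E))))) (N 10 7 (N 0 1 E (N 1 0 E (N 5 0 E (N 8 5 E (N 9 5 E E))))) E))))))) (N 5 6 (N 0 1 (N 2 2 E
  (N 7 2 E (N 8 2 E (N 9 2 E (N 10 10 E E))))) (N 1 0 (N 2 2 E (N 7 2 E (N 8 2 E (N 9 2 E (N 10 10 E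
  E))))) (N 2 0 (N 1 1 E (N 7 1 E (N 8 1 E (N 9 1 E (N 10 10 E E))))) (N 7 0 (N 1 2 E (N 2 1 E (N 8 1
  (N 2 2 E (N 9 2 E (N 10 10 E E))) (N 9 1 (N 2 2 E (N 8 2 E (N 10 10 E E))) (N 10 1 E E))))) (N 8 0
  (N 1 2 E (N 2 1 E (N 7 1 (N 2 2 E (N 9 2 E (N 10 10 E E))) (N 9 1 (N 2 2 E (N 7 2 E (N 10 10 E E)))
  (N 10 1 E E))))) (N 9 0 (N 1 2 E (N 2 1 E (N 7 1 (N 2 2 E (N 8 2 E (N 10 10 E E))) (N 8 1 (N 2 2 E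
  (N 7 2 E (N 10 10 E E))) (N 10 1 E E))))) (N 10 0 (N 1 1 E (N 2 2 E (N 7 1 E (N 8 1 E (N 9 1 E
  E))))) E))))))) (N 6 10 (N 0 7 (N 1 2 E (N 2 1 E (N 5 1 E (N 8 5 E (N 9 5 E E))))) (N 1 7 (N 0 2 E
  (N 2 0 E (N 5 0 E (N 8 5 E (N 9 5 E E))))) (N 2 7 (N 0 1 E (N 1 0 E (N 5 0 E (N 8 5 E (N 9 5 E
  E))))) (N 5 0 (N 1 1 E (N 2 2 E (N 7 1 E (N 8 1 E (N 9 1 E E))))) (N 7 0 (N 1 2 E (N 2 1 E (N 5 1 E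
  (N 8 5 E (N 9 5 E E))))) (N 8 0 (N 1 2 E (N 2 1 E (N 5 1 E (N 7 5 E (N 9 5 E E))))) (N 9 0 (N 1 2 E
  (N 2 1 E (N 5 1 E (N 7 5 E (N 8 5 E E))))) E))))))) (N 7 10 (N 0 1 (N 2 2 E (N 5 5 E (N 6 2 E (N 8 2
  E (N 9 2 E E))))) (N 1 0 (N 2 2 E (N 5 5 E (N 6 2 E (N 8 2 E (N 9 2 E E))))) (N 2 0 (N 1 1 E (N 5 5
  E (N 6 1 E (N 8 1 E (N 9 1 E E))))) (N 5 0 (N 1 1 E (N 2 2 E (N 6 1 E (N 8 1 E (N 9 1 E E))))) (N 6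
  0 (N 1 2 E (N 2 1 E (N 5 1 E (N 8 5 E (N 9 5 E E))))) (N 8 0 (N 1 2 E (N 2 1 E (N 5 1 E (N 6 1 (N 2
  2 E (N 5 5 E (N 9 9 E E))) (N 9 1 (N 2 2 E (N 5 5 E (N 6 2 E E))) E))))) (N 9 0 (N 1 2 E (N 2 1 E (N
  5 1 E (N 6 1 (N 2 2 E (N 5 5 E (N 8 8 E E))) (N 8 1 (N 2 2 E (N 5 5 E (N 6 2 E E))) E))))) E)))))))
  (N 8 10 (N 0 1 (N 2 2 E (N 5 5 E (N 6 2 E (N 7 2 E (N 9 2 E E))))) (N 1 0 (N 2 2 E (N 5 5 E (N 6 2 E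
  (N 7 2 E (N 9 2 E E))))) (N 2 0 (N 1 1 E (N 5 5 E (N 6 1 E (N 7 1 E (N 9 1 E E))))) (N 5 0 (N 1 1 E
  (N 2 2 E (N 6 1 E (N 7 1 E (N 9 1 E E))))) (N 6 0 (N 1 2 E (N 2 1 E (N 5 1 E (N 7 5 E (N 9 5 E
  E))))) (N 7 0 (N 1 2 E (N 2 1 E (N 5 1 E (N 6 1 (N 2 2 E (N 5 5 E (N 9 9 E E))) (N 9 1 (N 2 2 E (N 5
  5 E (N 6 2 E E))) E))))) (N 9 0 (N 1 2 E (N 2 1 E (N 5 1 E (N 6 1 (N 2 2 E (N 5 5 E (N 7 7 E E))) (N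
  7 1 (N 2 2 E (N 5 5 E (N 6 2 E E))) E))))) E))))))) (N 9 10 (N 0 1 (N 2 2 E (N 5 5 E (N 6 2 E (N 7 2
  E (N 8 2 E E))))) (N 1 0 (N 2 2 E (N 5 5 E (N 6 2 E (N 7 2 E (N 8 2 E E))))) (N 2 0 (N 1 1 E (N 5 5
  E (N 6 1 E (N 7 1 E (N 8 1 E E))))) (N 5 0 (N 1 1 E (N 2 2 E (N 6 1 E (N 7 1 E (N 8 1 E E))))) (N 6
  0 (N 1 2 E (N 2 1 E (N 5 1 E (N 7 5 E (N 8 5 E E))))) (N 7 0 (N 1 2 E (N 2 1 E (N 5 1 E (N 6 1 (N 2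
  2 E (N 5 5 E (N 8 8 E E))) (N 8 1 (N 2 2 E (N 5 5 E (N 6 2 E E))) E))))) (N 8 0 (N 1 2 E (N 2 1 E (N
  5 1 E (N 6 1 (N 2 2 E (N 5 5 E (N 7 7 E E))) (N 7 1 (N 2 2 E (N 5 5 E (N 6 2 E E))) E))))) E)))))))
  (N 10 6 (N 0 7 (N 1 2 E (N 2 1 E (N 5 1 E (N 8 5 E (N 9 5 E E))))) (N 1 7 (N 0 2 E (N 2 0 E (N 5 0 E
  (N 8 5 E (N 9 5 E E))))) (N 2 7 (N 0 1 E (N 1 0 E (N 5 0 E (N 8 5 E (N 9 5 E E))))) (N 5 7 (N 0 8 E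
  (N 1 8 E (N 2 8 E (N 8 8 E (N 9 9 E E))))) (N 7 0 (N 1 2 E (N 2 1 E (N 5 1 E (N 8 5 E (N 9 5 E
  E))))) (N 8 0 (N 1 2 E (N 2 1 E (N 5 1 E (N 7 5 E (N 9 5 E E))))) (N 9 0 (N 1 2 E (N 2 1 E (N 5 1 E
  (N 7 5 E (N 8 5 E E))))) E))))))) E)))))))))

def B4 : ST :=
  (N 0 6 (N 1 5 (N 2 7 (N 8 8 E (N 9 9 E (N 10 8 E E))) (N 7 8 E (N 8 7 E (N 9 7 E (N 10 2 (N 7 8 E (N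
  8 7 E (N 9 7 E E))) E))))) (N 2 5 (N 1 7 (N 8 8 E (N 9 9 E (N 10 8 E E))) (N 7 8 E (N 8 7 E (N 9 7 E
  (N 10 1 (N 7 8 E (N 8 7 E (N 9 7 E E))) E))))) (N 5 7 (N 1 8 E (N 2 8 E (N 8 8 E (N 9 9 E (N 10 8 E
  E))))) (N 7 5 (N 1 8 E (N 2 8 E (N 8 8 E (N 9 9 E (N 10 1 E E))))) (N 8 5 (N 1 7 E (N 2 7 E (N 7 7 E
  (N 9 9 E (N 10 1 E E))))) (N 9 5 (N 1 7 E (N 2 7 E (N 7 7 E (N 8 8 E (N 10 1 E E))))) (N 10 7 (N 1 2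
  E (N 2 1 E (N 5 1 E (N 8 5 E (N 9 5 E E))))) E))))))) (N 1 6 (N 0 5 (N 2 7 (N 8 8 E (N 9 9 E (N 10 8
  E E))) (N 7 8 E (N 8 7 E (N 9 7 E (N 10 2 (N 7 8 E (N 8 7 E (N 9 7 E E))) E))))) (N 2 5 (N 0 7 (N 8
  8 E (N 9 9 E (N 10 8 E E))) (N 7 8 E (N 8 7 E (N 9 7 E (N 10 0 (N 7 8 E (N 8 7 E (N 9 7 E E)))
  E))))) (N 5 7 (N 0 8 E (N 2 8 E (N 8 8 E (N 9 9 E (N 10 8 E E))))) (N 7 5 (N 0 8 E (N 2 8 E (N 8 8 E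
  (N 9 9 E (N 10 0 E E))))) (N 8 5 (N 0 7 E (N 2 7 E (N 7 7 E (N 9 9 E (N 10 0 E E))))) (N 9 5 (N 0 7
  E (N 2 7 E (N 7 7 E (N 8 8 E (N 10 0 E E))))) (N 10 7 (N 0 2 E (N 2 0 E (N 5 0 E (N 8 5 E (N 9 5 E
  E))))) E))))))) (N 2 6 (N 0 5 (N 1 7 (N 8 8 E (N 9 9 E (N 10 8 E E))) (N 7 8 E (N 8 7 E (N 9 7 E (N
  10 1 (N 7 8 E (N 8 7 E (N 9 7 E E))) E))))) (N 1 5 (N 0 7 (N 8 8 E (N 9 9 E (N 10 8 E E))) (N 7 8 E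
  (N 8 7 E (N 9 7 E (N 10 0 (N 7 8 E (N 8 7 E (N 9 7 E E))) E))))) (N 5 7 (N 0 8 E (N 1 8 E (N 8 8 E
  (N 9 9 E (N 10 8 E E))))) (N 7 5 (N 0 8 E (N 1 8 E (N 8 8 E (N 9 9 E (N 10 0 E E))))) (N 8 5 (N 0 7
  E (N 1 7 E (N 7 7 E (N 9 9 E (N 10 0 E E))))) (N 9 5 (N 0 7 E (N 1 7 E (N 7 7 E (N 8 8 E (N 10 0 E
  E))))) (N 10 7 (N 0 1 E (N 1 0 E (N 5 0 E (N 8 5 E (N 9 5 E E))))) E))))))) (N 5 6 (N 0 1 (N 2 2 E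
  (N 7 2 E (N 8 2 E (N 9 2 E (N 10 10 E E))))) (N 1 0 (N 2 2 E (N 7 2 E (N 8 2 E (N 9 2 E (N 10 10 E
  E))))) (N 2 0 (N 1 1 E (N 7 1 E (N 8 1 E (N 9 1 E (N 10 10 E E))))) (N 7 0 (N 1 2 E (N 2 1 E (N 8 1
  (N 2 2 E (N 9 2 E (N 10 10 E E))) (N 9 1 (N 2 2 E (N 8 2 E (N 10 10 E E))) (N 10 1 E E))))) (N 8 0
  (N 1 2 E (N 2 1 E (N 7 1 (N 2 2 E (N 9 2 E (N 10 10 E E))) (N 9 1 (N 2 2 E (N 7 2 E (N 10 10 E E)))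
  (N 10 1 E E))))) (N 9 0 (N 1 2 E (N 2 1 E (N 7 1 (N 2 2 E (N 8 2 E (N 10 10 E E))) (N 8 1 (N 2 2 E
  (N 7 2 E (N 10 10 E E))) (N 10 1 E E))))) (N 10 0 (N 1 1 E (N 2 2 E (N 7 1 E (N 8 1 E (N 9 1 E
  E))))) E))))))) (N 6 10 (N 0 7 (N 1 2 E (N 2 1 E (N 5 1 E (N 8 5 E (N 9 5 E E))))) (N 1 7 (N 0 2 E
  (N 2 0 E (N 5 0 E (N 8 5 E (N 9 5 E E))))) (N 2 7 (N 0 1 E (N 1 0 E (N 5 0 E (N 8 5 E (N 9 5 E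
  E))))) (N 5 0 (N 1 1 E (N 2 2 E (N 7 1 E (N 8 1 E (N 9 1 E E))))) (N 7 0 (N 1 2 E (N 2 1 E (N 5 1 E
  (N 8 5 E (N 9 5 E E))))) (N 8 0 (N 1 2 E (N 2 1 E (N 5 1 E (N 7 5 E (N 9 5 E E))))) (N 9 0 (N 1 2 E
  (N 2 1 E (N 5 1 E (N 7 5 E (N 8 5 E E))))) E))))))) (N 7 10 (N 0 1 (N 2 2 E (N 5 5 E (N 6 2 E (N 8 2
  E (N 9 2 E E))))) (N 1 0 (N 2 2 E (N 5 5 E (N 6 2 E (N 8 2 E (N 9 2 E E))))) (N 2 0 (N 1 1 E (N 5 5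
  E (N 6 1 E (N 8 1 E (N 9 1 E E))))) (N 5 0 (N 1 1 E (N 2 2 E (N 6 1 E (N 8 1 E (N 9 1 E E))))) (N 6
  0 (N 1 2 E (N 2 1 E (N 5 1 E (N 8 5 E (N 9 5 E E))))) (N 8 0 (N 1 2 E (N 2 1 E (N 5 1 E (N 6 1 (N 2
  2 E (N 5 5 E (N 9 9 E E))) (N 9 1 (N 2 2 E (N 5 5 E (N 6 2 E E))) E))))) (N 9 0 (N 1 2 E (N 2 1 E (N
  5 1 E (N 6 1 (N 2 2 E (N 5 5 E (N 8 8 E E))) (N 8 1 (N 2 2 E (N 5 5 E (N 6 2 E E))) E))))) E)))))))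
  (N 8 10 (N 0 1 (N 2 2 E (N 5 5 E (N 6 2 E (N 7 2 E (N 9 2 E E))))) (N 1 0 (N 2 2 E (N 5 5 E (N 6 2 E
  (N 7 2 E (N 9 2 E E))))) (N 2 0 (N 1 1 E (N 5 5 E (N 6 1 E (N 7 1 E (N 9 1 E E))))) (N 5 0 (N 1 1 E
  (N 2 2 E (N 6 1 E (N 7 1 E (N 9 1 E E))))) (N 6 0 (N 1 2 E (N 2 1 E (N 5 1 E (N 7 5 E (N 9 5 E
  E))))) (N 7 0 (N 1 2 E (N 2 1 E (N 5 1 E (N 6 1 (N 2 2 E (N 5 5 E (N 9 9 E E))) (N 9 1 (N 2 2 E (N 5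
  5 E (N 6 2 E E))) E))))) (N 9 0 (N 1 2 E (N 2 1 E (N 5 1 E (N 6 1 (N 2 2 E (N 5 5 E (N 7 7 E E))) (N
  7 1 (N 2 2 E (N 5 5 E (N 6 2 E E))) E))))) E))))))) (N 9 10 (N 0 1 (N 2 2 E (N 5 5 E (N 6 2 E (N 7 2
  E (N 8 2 E E))))) (N 1 0 (N 2 2 E (N 5 5 E (N 6 2 E (N 7 2 E (N 8 2 E E))))) (N 2 0 (N 1 1 E (N 5 5
  E (N 6 1 E (N 7 1 E (N 8 1 E E))))) (N 5 0 (N 1 1 E (N 2 2 E (N 6 1 E (N 7 1 E (N 8 1 E E))))) (N 6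
  0 (N 1 2 E (N 2 1 E (N 5 1 E (N 7 5 E (N 8 5 E E))))) (N 7 0 (N 1 2 E (N 2 1 E (N 5 1 E (N 6 1 (N 2
  2 E (N 5 5 E (N 8 8 E E))) (N 8 1 (N 2 2 E (N 5 5 E (N 6 2 E E))) E))))) (N 8 0 (N 1 2 E (N 2 1 E (N
  5 1 E (N 6 1 (N 2 2 E (N 5 5 E (N 7 7 E E))) (N 7 1 (N 2 2 E (N 5 5 E (N 6 2 E E))) E))))) E)))))))
  (N 10 6 (N 0 7 (N 1 2 E (N 2 1 E (N 5 1 E (N 8 5 E (N 9 5 E E))))) (N 1 7 (N 0 2 E (N 2 0 E (N 5 0 E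
  (N 8 5 E (N 9 5 E E))))) (N 2 7 (N 0 1 E (N 1 0 E (N 5 0 E (N 8 5 E (N 9 5 E E))))) (N 5 7 (N 0 8 E
  (N 1 8 E (N 2 8 E (N 8 8 E (N 9 9 E E))))) (N 7 0 (N 1 2 E (N 2 1 E (N 5 1 E (N 8 5 E (N 9 5 E
  E))))) (N 8 0 (N 1 2 E (N 2 1 E (N 5 1 E (N 7 5 E (N 9 5 E E))))) (N 9 0 (N 1 2 E (N 2 1 E (N 5 1 E
  (N 7 5 E (N 8 5 E E))))) E))))))) E)))))))))

def B5 : ST :=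
  (N 0 1 (N 2 4 E (N 3 2 (N 4 4 E (N 7 4 E (N 8 4 E (N 9 4 E (N 10 10 E E))))) (N 4 2 E (N 7 2 (N 3 4
  E (N 4 4 E (N 8 4 E (N 9 4 E (N 10 10 E E))))) (N 8 2 (N 3 4 E (N 4 4 E (N 7 4 E (N 9 4 E (N 10 10 E
  E))))) (N 9 2 (N 3 4 E (N 4 4 E (N 7 4 E (N 8 4 E (N 10 10 E E))))) (N 10 2 E E))))))) (N 1 0 (N 2 4
  E (N 3 2 (N 4 4 E (N 7 4 E (N 8 4 E (N 9 4 E (N 10 10 E E))))) (N 4 2 E (N 7 2 (N 3 4 E (N 4 4 E (N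
  8 4 E (N 9 4 E (N 10 10 E E))))) (N 8 2 (N 3 4 E (N 4 4 E (N 7 4 E (N 9 4 E (N 10 10 E E))))) (N 9 2
  (N 3 4 E (N 4 4 E (N 7 4 E (N 8 4 E (N 10 10 E E))))) (N 10 2 E E))))))) (N 2 0 (N 1 4 E (N 3 1 (N 4
  4 E (N 7 4 E (N 8 4 E (N 9 4 E (N 10 10 E E))))) (N 4 1 E (N 7 1 (N 3 4 E (N 4 4 E (N 8 4 E (N 9 4 E
  (N 10 10 E E))))) (N 8 1 (N 3 4 E (N 4 4 E (N 7 4 E (N 9 4 E (N 10 10 E E))))) (N 9 1 (N 3 4 E (N 4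
  4 E (N 7 4 E (N 8 4 E (N 10 10 E E))))) (N 10 1 E E))))))) (N 3 0 (N 1 2 (N 4 4 E (N 7 4 E (N 8 4 E
  (N 9 4 E (N 10 10 E E))))) (N 2 1 (N 4 4 E (N 7 4 E (N 8 4 E (N 9 4 E (N 10 10 E E))))) (N 4 1 (N 2
  2 E (N 7 2 E (N 8 2 E (N 9 2 E (N 10 10 E E))))) (N 7 1 (N 2 4 E (N 4 2 E (N 8 2 (N 4 4 E (N 9 4 E
  (N 10 10 E E))) (N 9 2 (N 4 4 E (N 8 4 E (N 10 10 E E))) (N 10 2 E E))))) (N 8 1 (N 2 4 E (N 4 2 E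
  (N 7 2 (N 4 4 E (N 9 4 E (N 10 10 E E))) (N 9 2 (N 4 4 E (N 7 4 E (N 10 10 E E))) (N 10 2 E E)))))
  (N 9 1 (N 2 4 E (N 4 2 E (N 7 2 (N 4 4 E (N 8 4 E (N 10 10 E E))) (N 8 2 (N 4 4 E (N 7 4 E (N 10 10
  E E))) (N 10 2 E E))))) (N 10 1 (N 2 2 E (N 4 4 E (N 7 2 E (N 8 2 E (N 9 2 E E))))) E))))))) (N 4 0
  (N 1 2 E (N 2 1 E (N 3 1 (N 2 2 E (N 7 2 E (N 8 2 E (N 9 2 E (N 10 10 E E))))) (N 7 1 (N 2 2 E (N 3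
  2 E (N 8 2 E (N 9 2 E (N 10 10 E E))))) (N 8 1 (N 2 2 E (N 3 2 E (N 7 2 E (N 9 2 E (N 10 10 E E)))))
  (N 9 1 (N 2 2 E (N 3 2 E (N 7 2 E (N 8 2 E (N 10 10 E E))))) (N 10 1 E E))))))) (N 7 0 (N 1 2 (N 3 4
  E (N 4 4 E (N 8 4 E (N 9 4 E (N 10 10 E E))))) (N 2 1 (N 3 4 E (N 4 4 E (N 8 4 E (N 9 4 E (N 10 10 E
  E))))) (N 3 1 (N 2 4 E (N 4 2 E (N 8 2 (N 4 4 E (N 9 4 E (N 10 10 E E))) (N 9 2 (N 4 4 E (N 8 4 E (N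
  10 10 E E))) (N 10 2 E E))))) (N 4 1 (N 2 2 E (N 3 2 E (N 8 2 E (N 9 2 E (N 10 10 E E))))) (N 8 1 (N
  2 4 E (N 3 2 (N 4 4 E (N 9 4 E (N 10 10 E E))) (N 4 2 E (N 9 2 (N 3 4 E (N 4 4 E (N 10 10 E E))) (N
  10 2 E E))))) (N 9 1 (N 2 4 E (N 3 2 (N 4 4 E (N 8 4 E (N 10 10 E E))) (N 4 2 E (N 8 2 (N 3 4 E (N 4
  4 E (N 10 10 E E))) (N 10 2 E E))))) (N 10 1 (N 2 2 E (N 3 2 E (N 4 4 E (N 8 2 E (N 9 2 E E)))))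
  E))))))) (N 8 0 (N 1 2 (N 3 4 E (N 4 4 E (N 7 4 E (N 9 4 E (N 10 10 E E))))) (N 2 1 (N 3 4 E (N 4 4
  E (N 7 4 E (N 9 4 E (N 10 10 E E))))) (N 3 1 (N 2 4 E (N 4 2 E (N 7 2 (N 4 4 E (N 9 4 E (N 10 10 E
  E))) (N 9 2 (N 4 4 E (N 7 4 E (N 10 10 E E))) (N 10 2 E E))))) (N 4 1 (N 2 2 E (N 3 2 E (N 7 2 E (N
  9 2 E (N 10 10 E E))))) (N 7 1 (N 2 4 E (N 3 2 (N 4 4 E (N 9 4 E (N 10 10 E E))) (N 4 2 E (N 9 2 (N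
  3 4 E (N 4 4 E (N 10 10 E E))) (N 10 2 E E))))) (N 9 1 (N 2 4 E (N 3 2 (N 4 4 E (N 7 4 E (N 10 10 E
  E))) (N 4 2 E (N 7 2 (N 3 4 E (N 4 4 E (N 10 10 E E))) (N 10 2 E E))))) (N 10 1 (N 2 2 E (N 3 2 E (N
  4 4 E (N 7 2 E (N 9 2 E E))))) E))))))) (N 9 0 (N 1 2 (N 3 4 E (N 4 4 E (N 7 4 E (N 8 4 E (N 10 10 E
  E))))) (N 2 1 (N 3 4 E (N 4 4 E (N 7 4 E (N 8 4 E (N 10 10 E E))))) (N 3 1 (N 2 4 E (N 4 2 E (N 7 2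
  (N 4 4 E (N 8 4 E (N 10 10 E E))) (N 8 2 (N 4 4 E (N 7 4 E (N 10 10 E E))) (N 10 2 E E))))) (N 4 1
  (N 2 2 E (N 3 2 E (N 7 2 E (N 8 2 E (N 10 10 E E))))) (N 7 1 (N 2 4 E (N 3 2 (N 4 4 E (N 8 4 E (N 10
  10 E E))) (N 4 2 E (N 8 2 (N 3 4 E (N 4 4 E (N 10 10 E E))) (N 10 2 E E))))) (N 8 1 (N 2 4 E (N 3 2
  (N 4 4 E (N 7 4 E (N 10 10 E E))) (N 4 2 E (N 7 2 (N 3 4 E (N 4 4 E (N 10 10 E E))) (N 10 2 E E)))))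
  (N 10 1 (N 2 2 E (N 3 2 E (N 4 4 E (N 7 2 E (N 8 2 E E))))) E))))))) (N 10 0 (N 1 2 E (N 2 1 E (N 3
  1 (N 2 2 E (N 4 4 E (N 7 2 E (N 8 2 E (N 9 2 E E))))) (N 4 1 E (N 7 1 (N 2 2 E (N 3 2 E (N 4 4 E (N
  8 2 E (N 9 2 E E))))) (N 8 1 (N 2 2 E (N 3 2 E (N 4 4 E (N 7 2 E (N 9 2 E E))))) (N 9 1 (N 2 2 E (N
  3 2 E (N 4 4 E (N 7 2 E (N 8 2 E E))))) E))))))) E)))))))))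

def B6 : ST :=
  (N 0 1 (N 2 4 E (N 3 2 (N 4 4 E (N 7 4 E (N 8 4 E (N 9 4 E (N 10 10 E E))))) (N 4 2 E (N 7 2 (N 3 4
  E (N 4 4 E (N 8 4 E (N 9 4 E (N 10 10 E E))))) (N 8 2 (N 3 4 E (N 4 4 E (N 7 4 E (N 9 4 E (N 10 10 E
  E))))) (N 9 2 (N 3 4 E (N 4 4 E (N 7 4 E (N 8 4 E (N 10 10 E E))))) (N 10 2 E E))))))) (N 1 0 (N 2 4
  E (N 3 2 (N 4 4 E (N 7 4 E (N 8 4 E (N 9 4 E (N 10 10 E E))))) (N 4 2 E (N 7 2 (N 3 4 E (N 4 4 E (N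
  8 4 E (N 9 4 E (N 10 10 E E))))) (N 8 2 (N 3 4 E (N 4 4 E (N 7 4 E (N 9 4 E (N 10 10 E E))))) (N 9 2
  (N 3 4 E (N 4 4 E (N 7 4 E (N 8 4 E (N 10 10 E E))))) (N 10 2 E E))))))) (N 2 0 (N 1 4 E (N 3 1 (N 4
  4 E (N 7 4 E (N 8 4 E (N 9 4 E (N 10 10 E E))))) (N 4 1 E (N 7 1 (N 3 4 E (N 4 4 E (N 8 4 E (N 9 4 E
  (N 10 10 E E))))) (N 8 1 (N 3 4 E (N 4 4 E (N 7 4 E (N 9 4 E (N 10 10 E E))))) (N 9 1 (N 3 4 E (N 4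
  4 E (N 7 4 E (N 8 4 E (N 10 10 E E))))) (N 10 1 E E))))))) (N 3 0 (N 1 2 (N 4 4 E (N 7 4 E (N 8 4 E
  (N 9 4 E (N 10 10 E E))))) (N 2 1 (N 4 4 E (N 7 4 E (N 8 4 E (N 9 4 E (N 10 10 E E))))) (N 4 1 (N 2
  2 E (N 7 2 E (N 8 2 E (N 9 2 E (N 10 10 E E))))) (N 7 1 (N 2 4 E (N 4 2 E (N 8 2 (N 4 4 E (N 9 4 E
  (N 10 10 E E))) (N 9 2 (N 4 4 E (N 8 4 E (N 10 10 E E))) (N 10 2 E E))))) (N 8 1 (N 2 4 E (N 4 2 E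
  (N 7 2 (N 4 4 E (N 9 4 E (N 10 10 E E))) (N 9 2 (N 4 4 E (N 7 4 E (N 10 10 E E))) (N 10 2 E E)))))
  (N 9 1 (N 2 4 E (N 4 2 E (N 7 2 (N 4 4 E (N 8 4 E (N 10 10 E E))) (N 8 2 (N 4 4 E (N 7 4 E (N 10 10
  E E))) (N 10 2 E E))))) (N 10 1 (N 2 2 E (N 4 4 E (N 7 2 E (N 8 2 E (N 9 2 E E))))) E))))))) (N 4 0
  (N 1 2 E (N 2 1 E (N 3 1 (N 2 2 E (N 7 2 E (N 8 2 E (N 9 2 E (N 10 10 E E))))) (N 7 1 (N 2 2 E (N 3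
  2 E (N 8 2 E (N 9 2 E (N 10 10 E E))))) (N 8 1 (N 2 2 E (N 3 2 E (N 7 2 E (N 9 2 E (N 10 10 E E)))))
  (N 9 1 (N 2 2 E (N 3 2 E (N 7 2 E (N 8 2 E (N 10 10 E E))))) (N 10 1 E E))))))) (N 7 0 (N 1 2 (N 3 4
  E (N 4 4 E (N 8 4 E (N 9 4 E (N 10 10 E E))))) (N 2 1 (N 3 4 E (N 4 4 E (N 8 4 E (N 9 4 E (N 10 10 E
  E))))) (N 3 1 (N 2 4 E (N 4 2 E (N 8 2 (N 4 4 E (N 9 4 E (N 10 10 E E))) (N 9 2 (N 4 4 E (N 8 4 E (N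
  10 10 E E))) (N 10 2 E E))))) (N 4 1 (N 2 2 E (N 3 2 E (N 8 2 E (N 9 2 E (N 10 10 E E))))) (N 8 1 (N
  2 4 E (N 3 2 (N 4 4 E (N 9 4 E (N 10 10 E E))) (N 4 2 E (N 9 2 (N 3 4 E (N 4 4 E (N 10 10 E E))) (N
  10 2 E E))))) (N 9 1 (N 2 4 E (N 3 2 (N 4 4 E (N 8 4 E (N 10 10 E E))) (N 4 2 E (N 8 2 (N 3 4 E (N 4
  4 E (N 10 10 E E))) (N 10 2 E E))))) (N 10 1 (N 2 2 E (N 3 2 E (N 4 4 E (N 8 2 E (N 9 2 E E)))))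
  E))))))) (N 8 0 (N 1 2 (N 3 4 E (N 4 4 E (N 7 4 E (N 9 4 E (N 10 10 E E))))) (N 2 1 (N 3 4 E (N 4 4
  E (N 7 4 E (N 9 4 E (N 10 10 E E))))) (N 3 1 (N 2 4 E (N 4 2 E (N 7 2 (N 4 4 E (N 9 4 E (N 10 10 E
  E))) (N 9 2 (N 4 4 E (N 7 4 E (N 10 10 E E))) (N 10 2 E E))))) (N 4 1 (N 2 2 E (N 3 2 E (N 7 2 E (N
  9 2 E (N 10 10 E E))))) (N 7 1 (N 2 4 E (N 3 2 (N 4 4 E (N 9 4 E (N 10 10 E E))) (N 4 2 E (N 9 2 (N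
  3 4 E (N 4 4 E (N 10 10 E E))) (N 10 2 E E))))) (N 9 1 (N 2 4 E (N 3 2 (N 4 4 E (N 7 4 E (N 10 10 E
  E))) (N 4 2 E (N 7 2 (N 3 4 E (N 4 4 E (N 10 10 E E))) (N 10 2 E E))))) (N 10 1 (N 2 2 E (N 3 2 E (N
  4 4 E (N 7 2 E (N 9 2 E E))))) E))))))) (N 9 0 (N 1 2 (N 3 4 E (N 4 4 E (N 7 4 E (N 8 4 E (N 10 10 E
  E))))) (N 2 1 (N 3 4 E (N 4 4 E (N 7 4 E (N 8 4 E (N 10 10 E E))))) (N 3 1 (N 2 4 E (N 4 2 E (N 7 2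
  (N 4 4 E (N 8 4 E (N 10 10 E E))) (N 8 2 (N 4 4 E (N 7 4 E (N 10 10 E E))) (N 10 2 E E))))) (N 4 1
  (N 2 2 E (N 3 2 E (N 7 2 E (N 8 2 E (N 10 10 E E))))) (N 7 1 (N 2 4 E (N 3 2 (N 4 4 E (N 8 4 E (N 10
  10 E E))) (N 4 2 E (N 8 2 (N 3 4 E (N 4 4 E (N 10 10 E E))) (N 10 2 E E))))) (N 8 1 (N 2 4 E (N 3 2
  (N 4 4 E (N 7 4 E (N 10 10 E E))) (N 4 2 E (N 7 2 (N 3 4 E (N 4 4 E (N 10 10 E E))) (N 10 2 E E)))))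
  (N 10 1 (N 2 2 E (N 3 2 E (N 4 4 E (N 7 2 E (N 8 2 E E))))) E))))))) (N 10 0 (N 1 2 E (N 2 1 E (N 3
  1 (N 2 2 E (N 4 4 E (N 7 2 E (N 8 2 E (N 9 2 E E))))) (N 4 1 E (N 7 1 (N 2 2 E (N 3 2 E (N 4 4 E (N
  8 2 E (N 9 2 E E))))) (N 8 1 (N 2 2 E (N 3 2 E (N 4 4 E (N 7 2 E (N 9 2 E E))))) (N 9 1 (N 2 2 E (N
  3 2 E (N 4 4 E (N 7 2 E (N 8 2 E E))))) E))))))) E)))))))))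

def B7 : ST :=
  (N 0 5 (N 1 2 (N 3 4 E (N 4 4 E (N 8 4 E (N 9 4 E (N 10 10 E E))))) (N 2 1 (N 3 4 E (N 4 4 E (N 8 4
  E (N 9 4 E (N 10 10 E E))))) (N 3 1 (N 2 4 E (N 4 2 E (N 8 2 (N 4 4 E (N 9 4 E (N 10 10 E E))) (N 9
  2 (N 4 4 E (N 8 4 E (N 10 10 E E))) (N 10 2 E E))))) (N 4 1 (N 2 2 E (N 3 2 E (N 8 2 E (N 9 2 E (N
  10 10 E E))))) (N 8 1 (N 2 4 E (N 3 2 (N 4 4 E (N 9 4 E (N 10 10 E E))) (N 4 2 E (N 9 2 (N 3 4 E (N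
  4 4 E (N 10 10 E E))) (N 10 2 E E))))) (N 9 1 (N 2 4 E (N 3 2 (N 4 4 E (N 8 4 E (N 10 10 E E))) (N 4
  2 E (N 8 2 (N 3 4 E (N 4 4 E (N 10 10 E E))) (N 10 2 E E))))) (N 10 1 (N 2 2 E (N 3 2 E (N 4 4 E (N
  8 2 E (N 9 2 E E))))) E))))))) (N 1 5 (N 0 2 (N 3 4 E (N 4 4 E (N 8 4 E (N 9 4 E (N 10 10 E E)))))
  (N 2 0 (N 3 4 E (N 4 4 E (N 8 4 E (N 9 4 E (N 10 10 E E))))) (N 3 0 (N 2 4 E (N 4 2 E (N 8 2 (N 4 4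
  E (N 9 4 E (N 10 10 E E))) (N 9 2 (N 4 4 E (N 8 4 E (N 10 10 E E))) (N 10 2 E E))))) (N 4 0 (N 2 2 E
  (N 3 2 E (N 8 2 E (N 9 2 E (N 10 10 E E))))) (N 8 0 (N 2 4 E (N 3 2 (N 4 4 E (N 9 4 E (N 10 10 E
  E))) (N 4 2 E (N 9 2 (N 3 4 E (N 4 4 E (N 10 10 E E))) (N 10 2 E E))))) (N 9 0 (N 2 4 E (N 3 2 (N 4
  4 E (N 8 4 E (N 10 10 E E))) (N 4 2 E (N 8 2 (N 3 4 E (N 4 4 E (N 10 10 E E))) (N 10 2 E E))))) (N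
  10 0 (N 2 2 E (N 3 2 E (N 4 4 E (N 8 2 E (N 9 2 E E))))) E))))))) (N 2 5 (N 0 1 (N 3 4 E (N 4 4 E (N
  8 4 E (N 9 4 E (N 10 10 E E))))) (N 1 0 (N 3 4 E (N 4 4 E (N 8 4 E (N 9 4 E (N 10 10 E E))))) (N 3 0
  (N 1 4 E (N 4 1 E (N 8 1 (N 4 4 E (N 9 4 E (N 10 10 E E))) (N 9 1 (N 4 4 E (N 8 4 E (N 10 10 E E)))
  (N 10 1 E E))))) (N 4 0 (N 1 1 E (N 3 1 E (N 8 1 E (N 9 1 E (N 10 10 E E))))) (N 8 0 (N 1 4 E (N 3 1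
  (N 4 4 E (N 9 4 E (N 10 10 E E))) (N 4 1 E (N 9 1 (N 3 4 E (N 4 4 E (N 10 10 E E))) (N 10 1 E E)))))
  (N 9 0 (N 1 4 E (N 3 1 (N 4 4 E (N 8 4 E (N 10 10 E E))) (N 4 1 E (N 8 1 (N 3 4 E (N 4 4 E (N 10 10
  E E))) (N 10 1 E E))))) (N 10 0 (N 1 1 E (N 3 1 E (N 4 4 E (N 8 1 E (N 9 1 E E))))) E))))))) (N 3 4
  (N 0 5 (N 1 2 E (N 2 1 E (N 8 1 (N 2 2 E (N 9 2 E (N 10 10 E E))) (N 9 1 (N 2 2 E (N 8 2 E (N 10 10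
  E E))) (N 10 1 E E))))) (N 1 5 (N 0 2 E (N 2 0 E (N 8 0 (N 2 2 E (N 9 2 E (N 10 10 E E))) (N 9 0 (N
  2 2 E (N 8 2 E (N 10 10 E E))) (N 10 0 E E))))) (N 2 5 (N 0 1 E (N 1 0 E (N 8 0 (N 1 1 E (N 9 1 E (N
  10 10 E E))) (N 9 0 (N 1 1 E (N 8 1 E (N 10 10 E E))) (N 10 0 E E))))) (N 5 0 (N 1 2 E (N 2 1 E (N 8
  1 (N 2 2 E (N 9 2 E (N 10 10 E E))) (N 9 1 (N 2 2 E (N 8 2 E (N 10 10 E E))) (N 10 1 E E))))) (N 8 5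
  (N 0 1 (N 2 2 E (N 9 2 E (N 10 10 E E))) (N 1 0 (N 2 2 E (N 9 2 E (N 10 10 E E))) (N 2 0 (N 1 1 E (N
  9 1 E (N 10 10 E E))) (N 9 0 (N 1 2 E (N 2 1 E (N 10 1 E E))) (N 10 0 (N 1 1 E (N 2 2 E (N 9 1 E
  E))) E))))) (N 9 5 (N 0 1 (N 2 2 E (N 8 2 E (N 10 10 E E))) (N 1 0 (N 2 2 E (N 8 2 E (N 10 10 E E)))
  (N 2 0 (N 1 1 E (N 8 1 E (N 10 10 E E))) (N 8 0 (N 1 2 E (N 2 1 E (N 10 1 E E))) (N 10 0 (N 1 1 E (N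
  2 2 E (N 8 1 E E))) E))))) (N 10 5 (N 0 1 E (N 1 0 E (N 2 0 E (N 8 0 (N 1 1 E (N 2 2 E (N 9 1 E E)))
  (N 9 0 (N 1 1 E (N 2 2 E (N 8 1 E E))) E))))) E))))))) (N 4 5 (N 0 1 (N 2 2 E (N 3 2 E (N 8 2 E (N 9
  2 E (N 10 10 E E))))) (N 1 0 (N 2 2 E (N 3 2 E (N 8 2 E (N 9 2 E (N 10 10 E E))))) (N 2 0 (N 1 1 E
  (N 3 1 E (N 8 1 E (N 9 1 E (N 10 10 E E))))) (N 3 0 (N 1 2 E (N 2 1 E (N 8 1 (N 2 2 E (N 9 2 E (N 10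
  10 E E))) (N 9 1 (N 2 2 E (N 8 2 E (N 10 10 E E))) (N 10 1 E E))))) (N 8 0 (N 1 2 E (N 2 1 E (N 3 1
  (N 2 2 E (N 9 2 E (N 10 10 E E))) (N 9 1 (N 2 2 E (N 3 2 E (N 10 10 E E))) (N 10 1 E E))))) (N 9 0
  (N 1 2 E (N 2 1 E (N 3 1 (N 2 2 E (N 8 2 E (N 10 10 E E))) (N 8 1 (N 2 2 E (N 3 2 E (N 10 10 E E)))
  (N 10 1 E E))))) (N 10 0 (N 1 1 E (N 2 2 E (N 3 1 E (N 8 1 E (N 9 1 E E))))) E))))))) (N 5 0 (N 1 2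
  (N 3 4 E (N 4 4 E (N 8 4 E (N 9 4 E (N 10 10 E E))))) (N 2 1 (N 3 4 E (N 4 4 E (N 8 4 E (N 9 4 E (N
  10 10 E E))))) (N 3 1 (N 2 4 E (N 4 2 E (N 8 2 (N 4 4 E (N 9 4 E (N 10 10 E E))) (N 9 2 (N 4 4 E (N
  8 4 E (N 10 10 E E))) (N 10 2 E E))))) (N 4 1 (N 2 2 E (N 3 2 E (N 8 2 E (N 9 2 E (N 10 10 E E)))))
  (N 8 1 (N 2 4 E (N 3 2 (N 4 4 E (N 9 4 E (N 10 10 E E))) (N 4 2 E (N 9 2 (N 3 4 E (N 4 4 E (N 10 10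
  E E))) (N 10 2 E E))))) (N 9 1 (N 2 4 E (N 3 2 (N 4 4 E (N 8 4 E (N 10 10 E E))) (N 4 2 E (N 8 2 (N
  3 4 E (N 4 4 E (N 10 10 E E))) (N 10 2 E E))))) (N 10 1 (N 2 2 E (N 3 2 E (N 4 4 E (N 8 2 E (N 9 2 E
  E))))) E))))))) (N 8 4 (N 0 5 (N 1 2 E (N 2 1 E (N 3 1 (N 2 2 E (N 9 2 E (N 10 10 E E))) (N 9 1 (N 2
  2 E (N 3 2 E (N 10 10 E E))) (N 10 1 E E))))) (N 1 5 (N 0 2 E (N 2 0 E (N 3 0 (N 2 2 E (N 9 2 E (N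
  10 10 E E))) (N 9 0 (N 2 2 E (N 3 2 E (N 10 10 E E))) (N 10 0 E E))))) (N 2 5 (N 0 1 E (N 1 0 E (N 3
  0 (N 1 1 E (N 9 1 E (N 10 10 E E))) (N 9 0 (N 1 1 E (N 3 1 E (N 10 10 E E))) (N 10 0 E E))))) (N 3 5
  (N 0 1 (N 2 2 E (N 9 2 E (N 10 10 E E))) (N 1 0 (N 2 2 E (N 9 2 E (N 10 10 E E))) (N 2 0 (N 1 1 E (N
  9 1 E (N 10 10 E E))) (N 9 0 (N 1 2 E (N 2 1 E (N 10 1 E E))) (N 10 0 (N 1 1 E (N 2 2 E (N 9 1 E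
  E))) E))))) (N 5 0 (N 1 2 E (N 2 1 E (N 3 1 (N 2 2 E (N 9 2 E (N 10 10 E E))) (N 9 1 (N 2 2 E (N 3 2
  E (N 10 10 E E))) (N 10 1 E E))))) (N 9 3 (N 0 5 (N 1 2 E (N 2 1 E (N 10 1 E E))) (N 1 5 (N 0 2 E (N
  2 0 E (N 10 0 E E))) (N 2 5 (N 0 1 E (N 1 0 E (N 10 0 E E))) (N 5 0 (N 1 2 E (N 2 1 E (N 10 1 E E)))
  (N 10 5 (N 0 1 E (N 1 0 E (N 2 0 E E))) E))))) (N 10 5 (N 0 1 E (N 1 0 E (N 2 0 E (N 3 0 (N 1 1 E (N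
  2 2 E (N 9 1 E E))) (N 9 0 (N 1 1 E (N 2 2 E (N 3 1 E E))) E))))) E))))))) (N 9 4 (N 0 5 (N 1 2 E (N
  2 1 E (N 3 1 (N 2 2 E (N 8 2 E (N 10 10 E E))) (N 8 1 (N 2 2 E (N 3 2 E (N 10 10 E E))) (N 10 1 E
  E))))) (N 1 5 (N 0 2 E (N 2 0 E (N 3 0 (N 2 2 E (N 8 2 E (N 10 10 E E))) (N 8 0 (N 2 2 E (N 3 2 E (N
  10 10 E E))) (N 10 0 E E))))) (N 2 5 (N 0 1 E (N 1 0 E (N 3 0 (N 1 1 E (N 8 1 E (N 10 10 E E))) (N 8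
  0 (N 1 1 E (N 3 1 E (N 10 10 E E))) (N 10 0 E E))))) (N 3 5 (N 0 1 (N 2 2 E (N 8 2 E (N 10 10 E E)))
  (N 1 0 (N 2 2 E (N 8 2 E (N 10 10 E E))) (N 2 0 (N 1 1 E (N 8 1 E (N 10 10 E E))) (N 8 0 (N 1 2 E (N
  2 1 E (N 10 1 E E))) (N 10 0 (N 1 1 E (N 2 2 E (N 8 1 E E))) E))))) (N 5 0 (N 1 2 E (N 2 1 E (N 3 1
  (N 2 2 E (N 8 2 E (N 10 10 E E))) (N 8 1 (N 2 2 E (N 3 2 E (N 10 10 E E))) (N 10 1 E E))))) (N 8 3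
  (N 0 5 (N 1 2 E (N 2 1 E (N 10 1 E E))) (N 1 5 (N 0 2 E (N 2 0 E (N 10 0 E E))) (N 2 5 (N 0 1 E (N 1
  0 E (N 10 0 E E))) (N 5 0 (N 1 2 E (N 2 1 E (N 10 1 E E))) (N 10 5 (N 0 1 E (N 1 0 E (N 2 0 E E)))
  E))))) (N 10 5 (N 0 1 E (N 1 0 E (N 2 0 E (N 3 0 (N 1 1 E (N 2 2 E (N 8 1 E E))) (N 8 0 (N 1 1 E (N
  2 2 E (N 3 1 E E))) E))))) E))))))) (N 10 5 (N 0 1 (N 2 2 E (N 3 2 E (N 4 4 E (N 8 2 E (N 9 2 E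
  E))))) (N 1 0 (N 2 2 E (N 3 2 E (N 4 4 E (N 8 2 E (N 9 2 E E))))) (N 2 0 (N 1 1 E (N 3 1 E (N 4 4 E
  (N 8 1 E (N 9 1 E E))))) (N 3 0 (N 1 2 E (N 2 1 E (N 4 1 E (N 8 1 (N 2 2 E (N 4 4 E (N 9 2 E E))) (N
  9 1 (N 2 2 E (N 4 4 E (N 8 2 E E))) E))))) (N 4 0 (N 1 1 E (N 2 2 E (N 3 1 E (N 8 1 E (N 9 1 E
  E))))) (N 8 0 (N 1 2 E (N 2 1 E (N 3 1 (N 2 2 E (N 4 4 E (N 9 2 E E))) (N 4 1 E (N 9 1 (N 2 2 E (N 3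
  2 E (N 4 4 E E))) E))))) (N 9 0 (N 1 2 E (N 2 1 E (N 3 1 (N 2 2 E (N 4 4 E (N 8 2 E E))) (N 4 1 E (N
  8 1 (N 2 2 E (N 3 2 E (N 4 4 E E))) E))))) E))))))) E)))))))))

def B8 : ST :=
  (N 0 5 (N 1 2 (N 3 4 E (N 4 4 E (N 7 4 E (N 9 4 E (N 10 10 E E))))) (N 2 1 (N 3 4 E (N 4 4 E (N 7 4
  E (N 9 4 E (N 10 10 E E))))) (N 3 1 (N 2 4 E (N 4 2 E (N 7 2 (N 4 4 E (N 9 4 E (N 10 10 E E))) (N 9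
  2 (N 4 4 E (N 7 4 E (N 10 10 E E))) (N 10 2 E E))))) (N 4 1 (N 2 2 E (N 3 2 E (N 7 2 E (N 9 2 E (N
  10 10 E E))))) (N 7 1 (N 2 4 E (N 3 2 (N 4 4 E (N 9 4 E (N 10 10 E E))) (N 4 2 E (N 9 2 (N 3 4 E (N
  4 4 E (N 10 10 E E))) (N 10 2 E E))))) (N 9 1 (N 2 4 E (N 3 2 (N 4 4 E (N 7 4 E (N 10 10 E E))) (N 4
  2 E (N 7 2 (N 3 4 E (N 4 4 E (N 10 10 E E))) (N 10 2 E E))))) (N 10 1 (N 2 2 E (N 3 2 E (N 4 4 E (N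
  7 2 E (N 9 2 E E))))) E))))))) (N 1 5 (N 0 2 (N 3 4 E (N 4 4 E (N 7 4 E (N 9 4 E (N 10 10 E E)))))
  (N 2 0 (N 3 4 E (N 4 4 E (N 7 4 E (N 9 4 E (N 10 10 E E))))) (N 3 0 (N 2 4 E (N 4 2 E (N 7 2 (N 4 4
  E (N 9 4 E (N 10 10 E E))) (N 9 2 (N 4 4 E (N 7 4 E (N 10 10 E E))) (N 10 2 E E))))) (N 4 0 (N 2 2 E
  (N 3 2 E (N 7 2 E (N 9 2 E (N 10 10 E E))))) (N 7 0 (N 2 4 E (N 3 2 (N 4 4 E (N 9 4 E (N 10 10 E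
  E))) (N 4 2 E (N 9 2 (N 3 4 E (N 4 4 E (N 10 10 E E))) (N 10 2 E E))))) (N 9 0 (N 2 4 E (N 3 2 (N 4
  4 E (N 7 4 E (N 10 10 E E))) (N 4 2 E (N 7 2 (N 3 4 E (N 4 4 E (N 10 10 E E))) (N 10 2 E E))))) (N
  10 0 (N 2 2 E (N 3 2 E (N 4 4 E (N 7 2 E (N 9 2 E E))))) E))))))) (N 2 5 (N 0 1 (N 3 4 E (N 4 4 E (N
  7 4 E (N 9 4 E (N 10 10 E E))))) (N 1 0 (N 3 4 E (N 4 4 E (N 7 4 E (N 9 4 E (N 10 10 E E))))) (N 3 0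
  (N 1 4 E (N 4 1 E (N 7 1 (N 4 4 E (N 9 4 E (N 10 10 E E))) (N 9 1 (N 4 4 E (N 7 4 E (N 10 10 E E)))
  (N 10 1 E E))))) (N 4 0 (N 1 1 E (N 3 1 E (N 7 1 E (N 9 1 E (N 10 10 E E))))) (N 7 0 (N 1 4 E (N 3 1
  (N 4 4 E (N 9 4 E (N 10 10 E E))) (N 4 1 E (N 9 1 (N 3 4 E (N 4 4 E (N 10 10 E E))) (N 10 1 E E)))))
  (N 9 0 (N 1 4 E (N 3 1 (N 4 4 E (N 7 4 E (N 10 10 E E))) (N 4 1 E (N 7 1 (N 3 4 E (N 4 4 E (N 10 10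
  E E))) (N 10 1 E E))))) (N 10 0 (N 1 1 E (N 3 1 E (N 4 4 E (N 7 1 E (N 9 1 E E))))) E))))))) (N 3 4
  (N 0 5 (N 1 2 E (N 2 1 E (N 7 1 (N 2 2 E (N 9 2 E (N 10 10 E E))) (N 9 1 (N 2 2 E (N 7 2 E (N 10 10
  E E))) (N 10 1 E E))))) (N 1 5 (N 0 2 E (N 2 0 E (N 7 0 (N 2 2 E (N 9 2 E (N 10 10 E E))) (N 9 0 (N
  2 2 E (N 7 2 E (N 10 10 E E))) (N 10 0 E E))))) (N 2 5 (N 0 1 E (N 1 0 E (N 7 0 (N 1 1 E (N 9 1 E (N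
  10 10 E E))) (N 9 0 (N 1 1 E (N 7 1 E (N 10 10 E E))) (N 10 0 E E))))) (N 5 0 (N 1 2 E (N 2 1 E (N 7
  1 (N 2 2 E (N 9 2 E (N 10 10 E E))) (N 9 1 (N 2 2 E (N 7 2 E (N 10 10 E E))) (N 10 1 E E))))) (N 7 5
  (N 0 1 (N 2 2 E (N 9 2 E (N 10 10 E E))) (N 1 0 (N 2 2 E (N 9 2 E (N 10 10 E E))) (N 2 0 (N 1 1 E (N
  9 1 E (N 10 10 E E))) (N 9 0 (N 1 2 E (N 2 1 E (N 10 1 E E))) (N 10 0 (N 1 1 E (N 2 2 E (N 9 1 E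
  E))) E))))) (N 9 5 (N 0 1 (N 2 2 E (N 7 2 E (N 10 10 E E))) (N 1 0 (N 2 2 E (N 7 2 E (N 10 10 E E)))
  (N 2 0 (N 1 1 E (N 7 1 E (N 10 10 E E))) (N 7 0 (N 1 2 E (N 2 1 E (N 10 1 E E))) (N 10 0 (N 1 1 E (N
  2 2 E (N 7 1 E E))) E))))) (N 10 5 (N 0 1 E (N 1 0 E (N 2 0 E (N 7 0 (N 1 1 E (N 2 2 E (N 9 1 E E)))
  (N 9 0 (N 1 1 E (N 2 2 E (N 7 1 E E))) E))))) E))))))) (N 4 5 (N 0 1 (N 2 2 E (N 3 2 E (N 7 2 E (N 9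
  2 E (N 10 10 E E))))) (N 1 0 (N 2 2 E (N 3 2 E (N 7 2 E (N 9 2 E (N 10 10 E E))))) (N 2 0 (N 1 1 E
  (N 3 1 E (N 7 1 E (N 9 1 E (N 10 10 E E))))) (N 3 0 (N 1 2 E (N 2 1 E (N 7 1 (N 2 2 E (N 9 2 E (N 10
  10 E E))) (N 9 1 (N 2 2 E (N 7 2 E (N 10 10 E E))) (N 10 1 E E))))) (N 7 0 (N 1 2 E (N 2 1 E (N 3 1
  (N 2 2 E (N 9 2 E (N 10 10 E E))) (N 9 1 (N 2 2 E (N 3 2 E (N 10 10 E E))) (N 10 1 E E))))) (N 9 0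
  (N 1 2 E (N 2 1 E (N 3 1 (N 2 2 E (N 7 2 E (N 10 10 E E))) (N 7 1 (N 2 2 E (N 3 2 E (N 10 10 E E)))
  (N 10 1 E E))))) (N 10 0 (N 1 1 E (N 2 2 E (N 3 1 E (N 7 1 E (N 9 1 E E))))) E))))))) (N 5 0 (N 1 2
  (N 3 4 E (N 4 4 E (N 7 4 E (N 9 4 E (N 10 10 E E))))) (N 2 1 (N 3 4 E (N 4 4 E (N 7 4 E (N 9 4 E (N
  10 10 E E))))) (N 3 1 (N 2 4 E (N 4 2 E (N 7 2 (N 4 4 E (N 9 4 E (N 10 10 E E))) (N 9 2 (N 4 4 E (N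
  7 4 E (N 10 10 E E))) (N 10 2 E E))))) (N 4 1 (N 2 2 E (N 3 2 E (N 7 2 E (N 9 2 E (N 10 10 E E)))))
  (N 7 1 (N 2 4 E (N 3 2 (N 4 4 E (N 9 4 E (N 10 10 E E))) (N 4 2 E (N 9 2 (N 3 4 E (N 4 4 E (N 10 10
  E E))) (N 10 2 E E))))) (N 9 1 (N 2 4 E (N 3 2 (N 4 4 E (N 7 4 E (N 10 10 E E))) (N 4 2 E (N 7 2 (N
  3 4 E (N 4 4 E (N 10 10 E E))) (N 10 2 E E))))) (N 10 1 (N 2 2 E (N 3 2 E (N 4 4 E (N 7 2 E (N 9 2 E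
  E))))) E))))))) (N 7 4 (N 0 5 (N 1 2 E (N 2 1 E (N 3 1 (N 2 2 E (N 9 2 E (N 10 10 E E))) (N 9 1 (N 2
  2 E (N 3 2 E (N 10 10 E E))) (N 10 1 E E))))) (N 1 5 (N 0 2 E (N 2 0 E (N 3 0 (N 2 2 E (N 9 2 E (N
  10 10 E E))) (N 9 0 (N 2 2 E (N 3 2 E (N 10 10 E E))) (N 10 0 E E))))) (N 2 5 (N 0 1 E (N 1 0 E (N 3
  0 (N 1 1 E (N 9 1 E (N 10 10 E E))) (N 9 0 (N 1 1 E (N 3 1 E (N 10 10 E E))) (N 10 0 E E))))) (N 3 5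
  (N 0 1 (N 2 2 E (N 9 2 E (N 10 10 E E))) (N 1 0 (N 2 2 E (N 9 2 E (N 10 10 E E))) (N 2 0 (N 1 1 E (N
  9 1 E (N 10 10 E E))) (N 9 0 (N 1 2 E (N 2 1 E (N 10 1 E E))) (N 10 0 (N 1 1 E (N 2 2 E (N 9 1 E
  E))) E))))) (N 5 0 (N 1 2 E (N 2 1 E (N 3 1 (N 2 2 E (N 9 2 E (N 10 10 E E))) (N 9 1 (N 2 2 E (N 3 2
  E (N 10 10 E E))) (N 10 1 E E))))) (N 9 3 (N 0 5 (N 1 2 E (N 2 1 E (N 10 1 E E))) (N 1 5 (N 0 2 E (N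
  2 0 E (N 10 0 E E))) (N 2 5 (N 0 1 E (N 1 0 E (N 10 0 E E))) (N 5 0 (N 1 2 E (N 2 1 E (N 10 1 E E)))
  (N 10 5 (N 0 1 E (N 1 0 E (N 2 0 E E))) E))))) (N 10 5 (N 0 1 E (N 1 0 E (N 2 0 E (N 3 0 (N 1 1 E (N
  2 2 E (N 9 1 E E))) (N 9 0 (N 1 1 E (N 2 2 E (N 3 1 E E))) E))))) E))))))) (N 9 4 (N 0 5 (N 1 2 E (N
  2 1 E (N 3 1 (N 2 2 E (N 7 2 E (N 10 10 E E))) (N 7 1 (N 2 2 E (N 3 2 E (N 10 10 E E))) (N 10 1 E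
  E))))) (N 1 5 (N 0 2 E (N 2 0 E (N 3 0 (N 2 2 E (N 7 2 E (N 10 10 E E))) (N 7 0 (N 2 2 E (N 3 2 E (N
  10 10 E E))) (N 10 0 E E))))) (N 2 5 (N 0 1 E (N 1 0 E (N 3 0 (N 1 1 E (N 7 1 E (N 10 10 E E))) (N 7
  0 (N 1 1 E (N 3 1 E (N 10 10 E E))) (N 10 0 E E))))) (N 3 5 (N 0 1 (N 2 2 E (N 7 2 E (N 10 10 E E)))
  (N 1 0 (N 2 2 E (N 7 2 E (N 10 10 E E))) (N 2 0 (N 1 1 E (N 7 1 E (N 10 10 E E))) (N 7 0 (N 1 2 E (N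
  2 1 E (N 10 1 E E))) (N 10 0 (N 1 1 E (N 2 2 E (N 7 1 E E))) E))))) (N 5 0 (N 1 2 E (N 2 1 E (N 3 1
  (N 2 2 E (N 7 2 E (N 10 10 E E))) (N 7 1 (N 2 2 E (N 3 2 E (N 10 10 E E))) (N 10 1 E E))))) (N 7 3
  (N 0 5 (N 1 2 E (N 2 1 E (N 10 1 E E))) (N 1 5 (N 0 2 E (N 2 0 E (N 10 0 E E))) (N 2 5 (N 0 1 E (N 1
  0 E (N 10 0 E E))) (N 5 0 (N 1 2 E (N 2 1 E (N 10 1 E E))) (N 10 5 (N 0 1 E (N 1 0 E (N 2 0 E E)))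
  E))))) (N 10 5 (N 0 1 E (N 1 0 E (N 2 0 E (N 3 0 (N 1 1 E (N 2 2 E (N 7 1 E E))) (N 7 0 (N 1 1 E (N
  2 2 E (N 3 1 E E))) E))))) E))))))) (N 10 5 (N 0 1 (N 2 2 E (N 3 2 E (N 4 4 E (N 7 2 E (N 9 2 E
  E))))) (N 1 0 (N 2 2 E (N 3 2 E (N 4 4 E (N 7 2 E (N 9 2 E E))))) (N 2 0 (N 1 1 E (N 3 1 E (N 4 4 E
  (N 7 1 E (N 9 1 E E))))) (N 3 0 (N 1 2 E (N 2 1 E (N 4 1 E (N 7 1 (N 2 2 E (N 4 4 E (N 9 2 E E))) (N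
  9 1 (N 2 2 E (N 4 4 E (N 7 2 E E))) E))))) (N 4 0 (N 1 1 E (N 2 2 E (N 3 1 E (N 7 1 E (N 9 1 E
  E))))) (N 7 0 (N 1 2 E (N 2 1 E (N 3 1 (N 2 2 E (N 4 4 E (N 9 2 E E))) (N 4 1 E (N 9 1 (N 2 2 E (N 3
  2 E (N 4 4 E E))) E))))) (N 9 0 (N 1 2 E (N 2 1 E (N 3 1 (N 2 2 E (N 4 4 E (N 7 2 E E))) (N 4 1 E (N
  7 1 (N 2 2 E (N 3 2 E (N 4 4 E E))) E))))) E))))))) E)))))))))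

def B9 : ST :=
  (N 0 5 (N 1 2 (N 3 4 E (N 4 4 E (N 7 4 E (N 8 4 E (N 10 10 E E))))) (N 2 1 (N 3 4 E (N 4 4 E (N 7 4
  E (N 8 4 E (N 10 10 E E))))) (N 3 1 (N 2 4 E (N 4 2 E (N 7 2 (N 4 4 E (N 8 4 E (N 10 10 E E))) (N 8
  2 (N 4 4 E (N 7 4 E (N 10 10 E E))) (N 10 2 E E))))) (N 4 1 (N 2 2 E (N 3 2 E (N 7 2 E (N 8 2 E (N
  10 10 E E))))) (N 7 1 (N 2 4 E (N 3 2 (N 4 4 E (N 8 4 E (N 10 10 E E))) (N 4 2 E (N 8 2 (N 3 4 E (N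
  4 4 E (N 10 10 E E))) (N 10 2 E E))))) (N 8 1 (N 2 4 E (N 3 2 (N 4 4 E (N 7 4 E (N 10 10 E E))) (N 4
  2 E (N 7 2 (N 3 4 E (N 4 4 E (N 10 10 E E))) (N 10 2 E E))))) (N 10 1 (N 2 2 E (N 3 2 E (N 4 4 E (N
  7 2 E (N 8 2 E E))))) E))))))) (N 1 5 (N 0 2 (N 3 4 E (N 4 4 E (N 7 4 E (N 8 4 E (N 10 10 E E)))))
  (N 2 0 (N 3 4 E (N 4 4 E (N 7 4 E (N 8 4 E (N 10 10 E E))))) (N 3 0 (N 2 4 E (N 4 2 E (N 7 2 (N 4 4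
  E (N 8 4 E (N 10 10 E E))) (N 8 2 (N 4 4 E (N 7 4 E (N 10 10 E E))) (N 10 2 E E))))) (N 4 0 (N 2 2 E
  (N 3 2 E (N 7 2 E (N 8 2 E (N 10 10 E E))))) (N 7 0 (N 2 4 E (N 3 2 (N 4 4 E (N 8 4 E (N 10 10 E
  E))) (N 4 2 E (N 8 2 (N 3 4 E (N 4 4 E (N 10 10 E E))) (N 10 2 E E))))) (N 8 0 (N 2 4 E (N 3 2 (N 4
  4 E (N 7 4 E (N 10 10 E E))) (N 4 2 E (N 7 2 (N 3 4 E (N 4 4 E (N 10 10 E E))) (N 10 2 E E))))) (N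
  10 0 (N 2 2 E (N 3 2 E (N 4 4 E (N 7 2 E (N 8 2 E E))))) E))))))) (N 2 5 (N 0 1 (N 3 4 E (N 4 4 E (N
  7 4 E (N 8 4 E (N 10 10 E E))))) (N 1 0 (N 3 4 E (N 4 4 E (N 7 4 E (N 8 4 E (N 10 10 E E))))) (N 3 0
  (N 1 4 E (N 4 1 E (N 7 1 (N 4 4 E (N 8 4 E (N 10 10 E E))) (N 8 1 (N 4 4 E (N 7 4 E (N 10 10 E E)))
  (N 10 1 E E))))) (N 4 0 (N 1 1 E (N 3 1 E (N 7 1 E (N 8 1 E (N 10 10 E E))))) (N 7 0 (N 1 4 E (N 3 1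
  (N 4 4 E (N 8 4 E (N 10 10 E E))) (N 4 1 E (N 8 1 (N 3 4 E (N 4 4 E (N 10 10 E E))) (N 10 1 E E)))))
  (N 8 0 (N 1 4 E (N 3 1 (N 4 4 E (N 7 4 E (N 10 10 E E))) (N 4 1 E (N 7 1 (N 3 4 E (N 4 4 E (N 10 10
  E E))) (N 10 1 E E))))) (N 10 0 (N 1 1 E (N 3 1 E (N 4 4 E (N 7 1 E (N 8 1 E E))))) E))))))) (N 3 4
  (N 0 5 (N 1 2 E (N 2 1 E (N 7 1 (N 2 2 E (N 8 2 E (N 10 10 E E))) (N 8 1 (N 2 2 E (N 7 2 E (N 10 10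
  E E))) (N 10 1 E E))))) (N 1 5 (N 0 2 E (N 2 0 E (N 7 0 (N 2 2 E (N 8 2 E (N 10 10 E E))) (N 8 0 (N
  2 2 E (N 7 2 E (N 10 10 E E))) (N 10 0 E E))))) (N 2 5 (N 0 1 E (N 1 0 E (N 7 0 (N 1 1 E (N 8 1 E (N
  10 10 E E))) (N 8 0 (N 1 1 E (N 7 1 E (N 10 10 E E))) (N 10 0 E E))))) (N 5 0 (N 1 2 E (N 2 1 E (N 7
  1 (N 2 2 E (N 8 2 E (N 10 10 E E))) (N 8 1 (N 2 2 E (N 7 2 E (N 10 10 E E))) (N 10 1 E E))))) (N 7 5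
  (N 0 1 (N 2 2 E (N 8 2 E (N 10 10 E E))) (N 1 0 (N 2 2 E (N 8 2 E (N 10 10 E E))) (N 2 0 (N 1 1 E (N
  8 1 E (N 10 10 E E))) (N 8 0 (N 1 2 E (N 2 1 E (N 10 1 E E))) (N 10 0 (N 1 1 E (N 2 2 E (N 8 1 E
  E))) E))))) (N 8 5 (N 0 1 (N 2 2 E (N 7 2 E (N 10 10 E E))) (N 1 0 (N 2 2 E (N 7 2 E (N 10 10 E E)))
  (N 2 0 (N 1 1 E (N 7 1 E (N 10 10 E E))) (N 7 0 (N 1 2 E (N 2 1 E (N 10 1 E E))) (N 10 0 (N 1 1 E (N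
  2 2 E (N 7 1 E E))) E))))) (N 10 5 (N 0 1 E (N 1 0 E (N 2 0 E (N 7 0 (N 1 1 E (N 2 2 E (N 8 1 E E)))
  (N 8 0 (N 1 1 E (N 2 2 E (N 7 1 E E))) E))))) E))))))) (N 4 5 (N 0 1 (N 2 2 E (N 3 2 E (N 7 2 E (N 8
  2 E (N 10 10 E E))))) (N 1 0 (N 2 2 E (N 3 2 E (N 7 2 E (N 8 2 E (N 10 10 E E))))) (N 2 0 (N 1 1 E
  (N 3 1 E (N 7 1 E (N 8 1 E (N 10 10 E E))))) (N 3 0 (N 1 2 E (N 2 1 E (N 7 1 (N 2 2 E (N 8 2 E (N 10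
  10 E E))) (N 8 1 (N 2 2 E (N 7 2 E (N 10 10 E E))) (N 10 1 E E))))) (N 7 0 (N 1 2 E (N 2 1 E (N 3 1
  (N 2 2 E (N 8 2 E (N 10 10 E E))) (N 8 1 (N 2 2 E (N 3 2 E (N 10 10 E E))) (N 10 1 E E))))) (N 8 0
  (N 1 2 E (N 2 1 E (N 3 1 (N 2 2 E (N 7 2 E (N 10 10 E E))) (N 7 1 (N 2 2 E (N 3 2 E (N 10 10 E E)))
  (N 10 1 E E))))) (N 10 0 (N 1 1 E (N 2 2 E (N 3 1 E (N 7 1 E (N 8 1 E E))))) E))))))) (N 5 0 (N 1 2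
  (N 3 4 E (N 4 4 E (N 7 4 E (N 8 4 E (N 10 10 E E))))) (N 2 1 (N 3 4 E (N 4 4 E (N 7 4 E (N 8 4 E (N
  10 10 E E))))) (N 3 1 (N 2 4 E (N 4 2 E (N 7 2 (N 4 4 E (N 8 4 E (N 10 10 E E))) (N 8 2 (N 4 4 E (N
  7 4 E (N 10 10 E E))) (N 10 2 E E))))) (N 4 1 (N 2 2 E (N 3 2 E (N 7 2 E (N 8 2 E (N 10 10 E E)))))
  (N 7 1 (N 2 4 E (N 3 2 (N 4 4 E (N 8 4 E (N 10 10 E E))) (N 4 2 E (N 8 2 (N 3 4 E (N 4 4 E (N 10 10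
  E E))) (N 10 2 E E))))) (N 8 1 (N 2 4 E (N 3 2 (N 4 4 E (N 7 4 E (N 10 10 E E))) (N 4 2 E (N 7 2 (N
  3 4 E (N 4 4 E (N 10 10 E E))) (N 10 2 E E))))) (N 10 1 (N 2 2 E (N 3 2 E (N 4 4 E (N 7 2 E (N 8 2 E
  E))))) E))))))) (N 7 4 (N 0 5 (N 1 2 E (N 2 1 E (N 3 1 (N 2 2 E (N 8 2 E (N 10 10 E E))) (N 8 1 (N 2
  2 E (N 3 2 E (N 10 10 E E))) (N 10 1 E E))))) (N 1 5 (N 0 2 E (N 2 0 E (N 3 0 (N 2 2 E (N 8 2 E (N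
  10 10 E E))) (N 8 0 (N 2 2 E (N 3 2 E (N 10 10 E E))) (N 10 0 E E))))) (N 2 5 (N 0 1 E (N 1 0 E (N 3
  0 (N 1 1 E (N 8 1 E (N 10 10 E E))) (N 8 0 (N 1 1 E (N 3 1 E (N 10 10 E E))) (N 10 0 E E))))) (N 3 5
  (N 0 1 (N 2 2 E (N 8 2 E (N 10 10 E E))) (N 1 0 (N 2 2 E (N 8 2 E (N 10 10 E E))) (N 2 0 (N 1 1 E (N
  8 1 E (N 10 10 E E))) (N 8 0 (N 1 2 E (N 2 1 E (N 10 1 E E))) (N 10 0 (N 1 1 E (N 2 2 E (N 8 1 E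
  E))) E))))) (N 5 0 (N 1 2 E (N 2 1 E (N 3 1 (N 2 2 E (N 8 2 E (N 10 10 E E))) (N 8 1 (N 2 2 E (N 3 2
  E (N 10 10 E E))) (N 10 1 E E))))) (N 8 3 (N 0 5 (N 1 2 E (N 2 1 E (N 10 1 E E))) (N 1 5 (N 0 2 E (N
  2 0 E (N 10 0 E E))) (N 2 5 (N 0 1 E (N 1 0 E (N 10 0 E E))) (N 5 0 (N 1 2 E (N 2 1 E (N 10 1 E E)))
  (N 10 5 (N 0 1 E (N 1 0 E (N 2 0 E E))) E))))) (N 10 5 (N 0 1 E (N 1 0 E (N 2 0 E (N 3 0 (N 1 1 E (N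
  2 2 E (N 8 1 E E))) (N 8 0 (N 1 1 E (N 2 2 E (N 3 1 E E))) E))))) E))))))) (N 8 4 (N 0 5 (N 1 2 E (N
  2 1 E (N 3 1 (N 2 2 E (N 7 2 E (N 10 10 E E))) (N 7 1 (N 2 2 E (N 3 2 E (N 10 10 E E))) (N 10 1 E
  E))))) (N 1 5 (N 0 2 E (N 2 0 E (N 3 0 (N 2 2 E (N 7 2 E (N 10 10 E E))) (N 7 0 (N 2 2 E (N 3 2 E (N
  10 10 E E))) (N 10 0 E E))))) (N 2 5 (N 0 1 E (N 1 0 E (N 3 0 (N 1 1 E (N 7 1 E (N 10 10 E E))) (N 7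
  0 (N 1 1 E (N 3 1 E (N 10 10 E E))) (N 10 0 E E))))) (N 3 5 (N 0 1 (N 2 2 E (N 7 2 E (N 10 10 E E)))
  (N 1 0 (N 2 2 E (N 7 2 E (N 10 10 E E))) (N 2 0 (N 1 1 E (N 7 1 E (N 10 10 E E))) (N 7 0 (N 1 2 E (N
  2 1 E (N 10 1 E E))) (N 10 0 (N 1 1 E (N 2 2 E (N 7 1 E E))) E))))) (N 5 0 (N 1 2 E (N 2 1 E (N 3 1
  (N 2 2 E (N 7 2 E (N 10 10 E E))) (N 7 1 (N 2 2 E (N 3 2 E (N 10 10 E E))) (N 10 1 E E))))) (N 7 3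
  (N 0 5 (N 1 2 E (N 2 1 E (N 10 1 E E))) (N 1 5 (N 0 2 E (N 2 0 E (N 10 0 E E))) (N 2 5 (N 0 1 E (N 1
  0 E (N 10 0 E E))) (N 5 0 (N 1 2 E (N 2 1 E (N 10 1 E E))) (N 10 5 (N 0 1 E (N 1 0 E (N 2 0 E E)))
  E))))) (N 10 5 (N 0 1 E (N 1 0 E (N 2 0 E (N 3 0 (N 1 1 E (N 2 2 E (N 7 1 E E))) (N 7 0 (N 1 1 E (N
  2 2 E (N 3 1 E E))) E))))) E))))))) (N 10 5 (N 0 1 (N 2 2 E (N 3 2 E (N 4 4 E (N 7 2 E (N 8 2 E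
  E))))) (N 1 0 (N 2 2 E (N 3 2 E (N 4 4 E (N 7 2 E (N 8 2 E E))))) (N 2 0 (N 1 1 E (N 3 1 E (N 4 4 E
  (N 7 1 E (N 8 1 E E))))) (N 3 0 (N 1 2 E (N 2 1 E (N 4 1 E (N 7 1 (N 2 2 E (N 4 4 E (N 8 2 E E))) (N
  8 1 (N 2 2 E (N 4 4 E (N 7 2 E E))) E))))) (N 4 0 (N 1 1 E (N 2 2 E (N 3 1 E (N 7 1 E (N 8 1 E
  E))))) (N 7 0 (N 1 2 E (N 2 1 E (N 3 1 (N 2 2 E (N 4 4 E (N 8 2 E E))) (N 4 1 E (N 8 1 (N 2 2 E (N 3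
  2 E (N 4 4 E E))) E))))) (N 8 0 (N 1 2 E (N 2 1 E (N 3 1 (N 2 2 E (N 4 4 E (N 7 2 E E))) (N 4 1 E (N
  7 1 (N 2 2 E (N 3 2 E (N 4 4 E E))) E))))) E))))))) E)))))))))

def B10 : ST :=
  (N 0 4 (N 1 6 (N 2 3 (N 7 8 E (N 8 7 E (N 9 7 E E))) (N 3 2 (N 7 8 E (N 8 7 E (N 9 7 E E))) (N 7 8 E
  (N 8 7 E (N 9 7 E E))))) (N 2 6 (N 1 3 (N 7 8 E (N 8 7 E (N 9 7 E E))) (N 3 1 (N 7 8 E (N 8 7 E (N 9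
  7 E E))) (N 7 8 E (N 8 7 E (N 9 7 E E))))) (N 3 6 (N 1 2 (N 7 8 E (N 8 7 E (N 9 7 E E))) (N 2 1 (N 7
  8 E (N 8 7 E (N 9 7 E E))) (N 7 8 E (N 8 7 E (N 9 7 E E))))) (N 6 7 (N 1 8 E (N 2 8 E (N 3 8 E (N 8
  8 E (N 9 9 E E))))) (N 7 6 (N 1 8 E (N 2 8 E (N 3 8 E (N 8 8 E (N 9 9 E E))))) (N 8 6 (N 1 7 E (N 2
  7 E (N 3 7 E (N 7 7 E (N 9 9 E E))))) (N 9 6 (N 1 7 E (N 2 7 E (N 3 7 E (N 7 7 E (N 8 8 E E)))))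
  E))))))) (N 1 4 (N 0 6 (N 2 3 (N 7 8 E (N 8 7 E (N 9 7 E E))) (N 3 2 (N 7 8 E (N 8 7 E (N 9 7 E E)))
  (N 7 8 E (N 8 7 E (N 9 7 E E))))) (N 2 6 (N 0 3 (N 7 8 E (N 8 7 E (N 9 7 E E))) (N 3 0 (N 7 8 E (N 8
  7 E (N 9 7 E E))) (N 7 8 E (N 8 7 E (N 9 7 E E))))) (N 3 6 (N 0 2 (N 7 8 E (N 8 7 E (N 9 7 E E))) (N
  2 0 (N 7 8 E (N 8 7 E (N 9 7 E E))) (N 7 8 E (N 8 7 E (N 9 7 E E))))) (N 6 7 (N 0 8 E (N 2 8 E (N 3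
  8 E (N 8 8 E (N 9 9 E E))))) (N 7 6 (N 0 8 E (N 2 8 E (N 3 8 E (N 8 8 E (N 9 9 E E))))) (N 8 6 (N 0
  7 E (N 2 7 E (N 3 7 E (N 7 7 E (N 9 9 E E))))) (N 9 6 (N 0 7 E (N 2 7 E (N 3 7 E (N 7 7 E (N 8 8 E
  E))))) E))))))) (N 2 4 (N 0 6 (N 1 3 (N 7 8 E (N 8 7 E (N 9 7 E E))) (N 3 1 (N 7 8 E (N 8 7 E (N 9 7
  E E))) (N 7 8 E (N 8 7 E (N 9 7 E E))))) (N 1 6 (N 0 3 (N 7 8 E (N 8 7 E (N 9 7 E E))) (N 3 0 (N 7 8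
  E (N 8 7 E (N 9 7 E E))) (N 7 8 E (N 8 7 E (N 9 7 E E))))) (N 3 6 (N 0 1 (N 7 8 E (N 8 7 E (N 9 7 E
  E))) (N 1 0 (N 7 8 E (N 8 7 E (N 9 7 E E))) (N 7 8 E (N 8 7 E (N 9 7 E E))))) (N 6 7 (N 0 8 E (N 1 8
  E (N 3 8 E (N 8 8 E (N 9 9 E E))))) (N 7 6 (N 0 8 E (N 1 8 E (N 3 8 E (N 8 8 E (N 9 9 E E))))) (N 8
  6 (N 0 7 E (N 1 7 E (N 3 7 E (N 7 7 E (N 9 9 E E))))) (N 9 6 (N 0 7 E (N 1 7 E (N 3 7 E (N 7 7 E (N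
  8 8 E E))))) E))))))) (N 3 4 (N 0 6 (N 1 2 (N 7 8 E (N 8 7 E (N 9 7 E E))) (N 2 1 (N 7 8 E (N 8 7 E
  (N 9 7 E E))) (N 7 8 E (N 8 7 E (N 9 7 E E))))) (N 1 6 (N 0 2 (N 7 8 E (N 8 7 E (N 9 7 E E))) (N 2 0
  (N 7 8 E (N 8 7 E (N 9 7 E E))) (N 7 8 E (N 8 7 E (N 9 7 E E))))) (N 2 6 (N 0 1 (N 7 8 E (N 8 7 E (N
  9 7 E E))) (N 1 0 (N 7 8 E (N 8 7 E (N 9 7 E E))) (N 7 8 E (N 8 7 E (N 9 7 E E))))) (N 6 7 (N 0 8 E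
  (N 1 8 E (N 2 8 E (N 8 8 E (N 9 9 E E))))) (N 7 6 (N 0 8 E (N 1 8 E (N 2 8 E (N 8 8 E (N 9 9 E
  E))))) (N 8 6 (N 0 7 E (N 1 7 E (N 2 7 E (N 7 7 E (N 9 9 E E))))) (N 9 6 (N 0 7 E (N 1 7 E (N 2 7 E
  (N 7 7 E (N 8 8 E E))))) E))))))) (N 4 6 (N 0 7 (N 1 8 E (N 2 8 E (N 3 8 E (N 8 8 E (N 9 9 E E)))))
  (N 1 7 (N 0 8 E (N 2 8 E (N 3 8 E (N 8 8 E (N 9 9 E E))))) (N 2 7 (N 0 8 E (N 1 8 E (N 3 8 E (N 8 8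
  E (N 9 9 E E))))) (N 3 7 (N 0 8 E (N 1 8 E (N 2 8 E (N 8 8 E (N 9 9 E E))))) (N 7 8 E (N 8 7 E (N 9
  7 E E))))))) (N 6 4 (N 0 7 (N 1 8 E (N 2 8 E (N 3 8 E (N 8 8 E (N 9 9 E E))))) (N 1 7 (N 0 8 E (N 2
  8 E (N 3 8 E (N 8 8 E (N 9 9 E E))))) (N 2 7 (N 0 8 E (N 1 8 E (N 3 8 E (N 8 8 E (N 9 9 E E))))) (N
  3 7 (N 0 8 E (N 1 8 E (N 2 8 E (N 8 8 E (N 9 9 E E))))) (N 7 8 E (N 8 7 E (N 9 7 E E))))))) (N 7 4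
  (N 0 6 (N 1 8 E (N 2 8 E (N 3 8 E (N 8 8 E (N 9 9 E E))))) (N 1 6 (N 0 8 E (N 2 8 E (N 3 8 E (N 8 8
  E (N 9 9 E E))))) (N 2 6 (N 0 8 E (N 1 8 E (N 3 8 E (N 8 8 E (N 9 9 E E))))) (N 3 6 (N 0 8 E (N 1 8
  E (N 2 8 E (N 8 8 E (N 9 9 E E))))) (N 6 8 E (N 8 6 E (N 9 6 E E))))))) (N 8 4 (N 0 6 (N 1 7 E (N 2
  7 E (N 3 7 E (N 7 7 E (N 9 9 E E))))) (N 1 6 (N 0 7 E (N 2 7 E (N 3 7 E (N 7 7 E (N 9 9 E E))))) (N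
  2 6 (N 0 7 E (N 1 7 E (N 3 7 E (N 7 7 E (N 9 9 E E))))) (N 3 6 (N 0 7 E (N 1 7 E (N 2 7 E (N 7 7 E
  (N 9 9 E E))))) (N 6 7 E (N 7 6 E (N 9 6 E E))))))) (N 9 4 (N 0 6 (N 1 7 E (N 2 7 E (N 3 7 E (N 7 7
  E (N 8 8 E E))))) (N 1 6 (N 0 7 E (N 2 7 E (N 3 7 E (N 7 7 E (N 8 8 E E))))) (N 2 6 (N 0 7 E (N 1 7
  E (N 3 7 E (N 7 7 E (N 8 8 E E))))) (N 3 6 (N 0 7 E (N 1 7 E (N 2 7 E (N 7 7 E (N 8 8 E E))))) (N 6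
  7 E (N 7 6 E (N 8 6 E E))))))) E)))))))))

def BT : ST :=
  (N 0 10 B0 (N 1 10 B1 (N 2 10 B2 (N 3 4 B3 (N 4 3 B4 (N 5 6 B5 (N 6 5 B6 (N 7 6 B7 (N 8 6 B8 (N 9 6
  B9 (N 10 5 B10 E)))))))))))

/-- neighborhoods of the vertices -/
def gad : List Nat := [1078, 1077, 1075, 1056, 1991, 911, 1936, 880, 752, 496, 95]

end Pool.Agent.Zhu
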