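import Pool.Agent.Zhu.TAC0

set_option autoImplicit false

namespace Pool.Agent.Zhu


theorem TA_all : all TAP TA = true :=
  TA_c0

end Pool.Agent.Zhu
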