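import Mathlib
import Pool.Agent.Zhu.Final
import Pool.Agent.Zhu.DataA
import Pool.Agent.Zhu.TAAll
import Pool.Agent.Zhu.GSound
import Pool.Agent.Zhu.GTree

/-!
A graph on 11 vertices on which Alice (moving first) wins the coloring game with 5 colors but not
the greedy coloring game with 5 colors.
-/

set_option autoImplicit false

namespace Pool.Agent.Zhu

/-- the types of the 11 vertices -/
def tysA : List ℕ := [0, 0, 0, 1, 2, 3, 4, 5, 5, 5, 6]

/-- type of a vertex -/
noncomputable def tyA (v : Fin 11) : ℕ := get tysA v.val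

/-- the graph -/
noncomputable def G11 : SimpleGraph (Fin 11) :=
  SimpleGraph.fromRel (fun u v => (get amA (tyA u)).testBit (tyA v) = true)

theorem amA_symm : ∀ i < 7, ∀ j < 7, (get amA i).testBit j = (get amA j).testBit i := by
  decide +kernel

theorem tyA_lt : ∀ v : Fin 11, tyA v < 7 := by decide +kernel

theorem gdataA : GData G11 tyA 7 amA namA bitsA where
  hty := tyA_lt
  hadj := by
    intro u v huv
    unfold G11
    rw [SimpleGraph.fromRel_adj]
    rw [amA_symm _ (tyA_lt v) _ (tyA_lt u)]
    simp [huv]
  hsymm := amA_symm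
  hnam := by decide +kernel
  hbits := by decide +kernel

theorem count_tyA : ∀ i < 7, get csA i = (Finset.univ.filter (fun v => tyA v = i)).card := by
  decide +kernel

theorem matchA (K : ℕ) : Match K tyA 7 amA (fun _ => none) csA (List.replicate K (2 ^ 7 - 1)) := by
  refine match_init K 7 tyA amA csA rfl ?_ count_tyA ?_
  · decide +kernel
  · decide +kernel

theorem alice5 : AliceWins G11 5 := by
  refine alice_of_table gdataA 5 40 TA ?_ csA _ (matchA 5) ?_
  · have e1 : (16 : ℕ) ^ 7 = 268435456 := by norm_num
    have e2 : (2 : ℕ) ^ 7 = 128 := by norm_num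
    rw [e1, e2]
    exact TA_all
  · refine Or.inr ⟨0, 127, ?_, ?_, ?_, Or.inr ?_⟩
    · decide +kernel
    · decide +kernel
    · decide +kernel
    · have e1 : (16 : ℕ) ^ 7 = 268435456 := by norm_num
      have e2 : (2 : ℕ) ^ 7 = 128 := by norm_num
      rw [e1, e2]
      decide +kernel

theorem g11_adj : ∀ u v : Fin 11, G11.Adj u v ↔ (get gad u).testBit v = true := by
  have h : ∀ u v : Fin 11, (u ≠ v ∧ ((get amA (tyA u)).testBit (tyA v) = true ∨
      (get amA (tyA v)).testBit (tyA u) = true)) ↔ (get gad u).testBit v = true := by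
    decide +kernel
  intro u v
  rw [← h u v]
  unfold G11
  rw [SimpleGraph.fromRel_adj]

theorem not_gwin5 : ¬ GWin G11 5 := by
  refine not_gwin_of_gchk g11_adj BT (by norm_num) ?_
  decide +kernel

end Pool.Agent.Zhu
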