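import Pool.Agent.Zhu.TMC0

set_option autoImplicit false

namespace Pool.Agent.Zhu

theorem TM_e0 : TMP (nat_lit 0x1210060302000000050121) (nat_lit 0xa1a10000000000000000000000000000a1000000000f000f0f0f0000000000a1000000) = true := by decide +kernel
theorem TM_e1 : TMP (nat_lit 0x3030050500000000150201) (nat_lit 0xb0000000000000b0000000000000000000000000000000c0000000000000000000000000000f000000) = true := by decide +kernel
theorem TM_e2 : TMP (nat_lit 0x1a10100b06000000041121) (nat_lit 0xa100a100000000a10000a100000000000000a100000f00000f0f0000000000a1000000) = true := by decide +kernel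
theorem TM_e3 : TMP (nat_lit 0x9191890804000010041102) (nat_lit 0xc0d000000000000000000000000000000000000000a200000000000000b2b2000000000000000f00000000000000000000d0d000000000) = true := by decide +kernel
theorem TM_e4 : TMP (nat_lit 0xbba28b3a09000010171012) (nat_lit 0xb1b1c10000000000000000000000b1d100d1000000b10000c1000000c100b1b1b1000000000000000000a3b00fa3000000d100b100c10000) = true := by decide +kernel
theorem TM_e5 : TMP (nat_lit 0x9f861a1009000010061111) (nat_lit 0xfd100000000000000000000000000000000000000c100e1c1000000c100a000c10000c1c100000000000fb00f00000000c1000000c10000) = true := by decide +kernel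
theorem TM_e6 : TMP (nat_lit 0x3b3b300800000000161012) (nat_lit 0xe1d10000000000e1d100000000000f00d100000000000000000000000f000000000000d10000000000) = true := by decide +kernel

theorem TM_all : all TMP TM = true :=
  (all_mk _ _ _ _ _ TM_e6 (all_mk _ _ _ _ _ TM_e2 (all_mk _ _ _ _ _ TM_e0 TM_c0 TM_c1) (all_mk _ _ _ _ _ TM_e1 TM_c2 TM_c3)) (all_mk _ _ _ _ _ TM_e5 (all_mk _ _ _ _ _ TM_e3 TM_c4 TM_c5) (all_mk _ _ _ _ _ TM_e4 TM_c6 TM_c7)))

end Pool.Agent.Zhu
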