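import Mathlib
import Pool.Agent.Zhu.Final
import Pool.Agent.Zhu.TMAll
import Pool.Agent.Zhu.TRAll

/-!
A graph on 20 vertices on which Alice (moving first) wins the coloring game with 7 colors but not
with 8 colors.
-/

set_option autoImplicit false

namespace Pool.Agent.Zhu

/-- the types of the 20 vertices -/
def tys : List ℕ := [0, 0, 0, 1, 1, 2, 2, 3, 3, 4, 4, 4, 4, 4, 4, 4, 5, 6, 6, 7]

/-- type of a vertex -/
noncomputable def ty (v : Fin 20) : ℕ := get tys v.val

/-- the graph -/
noncomputable def GZ : SimpleGraph (Fin 20) :=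
  SimpleGraph.fromRel (fun u v => (get am (ty u)).testBit (ty v) = true)

theorem am_symm : ∀ i < 8, ∀ j < 8, (get am i).testBit j = (get am j).testBit i := by
  decide +kernel

theorem ty_lt : ∀ v : Fin 20, ty v < 8 := by decide +kernel

theorem gdata : GData GZ ty 8 am nam bits where
  hty := ty_lt
  hadj := by
    intro u v huv
    unfold GZ
    rw [SimpleGraph.fromRel_adj]
    rw [am_symm _ (ty_lt v) _ (ty_lt u)]
    simp [huv]
  hsymm := am_symm
  hnam := by decide +kernel
  hbits := by decide +kernel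

theorem count_ty : ∀ i < 8, get cs0 i = (Finset.univ.filter (fun v => ty v = i)).card := by
  decide +kernel

theorem match0 (K : ℕ) : Match K ty 8 am (fun _ => none) cs0 (List.replicate K (2 ^ 8 - 1)) := by
  refine match_init K 8 ty am cs0 rfl ?_ count_ty ?_
  · decide +kernel
  · decide +kernel

theorem alice7 : AliceWins GZ 7 := by
  refine alice_of_table gdata 7 56 TM ?_ cs0 _ (match0 7) ?_
  · have e1 : (16 : ℕ) ^ 8 = 4294967296 := by norm_num
    have e2 : (2 : ℕ) ^ 8 = 256 := by norm_num
    rw [e1, e2]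
    exact TM_all
  · refine Or.inr ⟨6, 255, ?_, ?_, ?_, Or.inr ?_⟩
    · decide +kernel
    · decide +kernel
    · decide +kernel
    · have e1 : (16 : ℕ) ^ 8 = 4294967296 := by norm_num
      have e2 : (2 : ℕ) ^ 8 = 256 := by norm_num
      rw [e1, e2]
      decide +kernel

theorem not_alice8 : ¬ AliceWins GZ 8 := by
  refine bob_of_table gdata 8 64 TR ?_ cs0 _ (match0 8) ?_
  · have e1 : (16 : ℕ) ^ 8 = 4294967296 := by norm_num
    have e2 : (2 : ℕ) ^ 8 = 256 := by norm_num
    rw [e1, e2]
    exact TR_all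
  · have e1 : (16 : ℕ) ^ 8 = 4294967296 := by norm_num
    have e2 : (2 : ℕ) ^ 8 = 256 := by norm_num
    rw [e1, e2]
    decide +kernel

end Pool.Agent.Zhu
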