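import Pool.Agent.Zhu.Check

/-!
The graph of the counterexample has 20 vertices of 8 types.  The numbers of vertices of the types
are `3, 2, 2, 2, 7, 1, 2, 1`; types 0, 1 and 6 are cliques, the others are independent sets, and
the pairs of types that are completely joined are
0-2, 0-6, 0-7, 1-4, 1-5, 1-6, 1-7, 2-3, 2-4, 2-6, 3-4, 3-5, 3-6, 4-6, 5-6, 6-7.
-/

set_option autoImplicit false

namespace Pool.Agent.Zhu

/-- masks of the types adjacent to a type -/
def am : List Nat := [nat_lit 197, nat_lit 242, nat_lit 89, nat_lit 116, nat_lit 78, nat_lit 74, nat_lit 255, nat_lit 67]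
/-- complements of the masks in `am` -/
def nam : List Nat := [nat_lit 58, nat_lit 13, nat_lit 166, nat_lit 139, nat_lit 177, nat_lit 181, nat_lit 0, nat_lit 188]
/-- complements of the singletons -/
def bits : List Nat := [nat_lit 254, nat_lit 253, nat_lit 251, nat_lit 247, nat_lit 239, nat_lit 223, nat_lit 191, nat_lit 127]
/-- numbers of vertices of the types -/
def cs0 : List Nat := [nat_lit 3, nat_lit 2, nat_lit 2, nat_lit 2, nat_lit 7, nat_lit 1, nat_lit 2, nat_lit 1]

end Pool.Agent.Zhu
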