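import Pool.Agent.Zhu.SphFinite

open MeasureTheory Metric Set Filter Matrix Topology

namespace SphSplit

theorem dens_disjoint_ae {C D : Set E} (hD : NullMeasurableSet D) (h : volume (C ∩ D) = 0) {x : E}
    (h1 : x ∈ Dens C) (h2 : x ∈ Dens D) : False := by
  have h3 := Tendsto.add (show Tendsto _ _ _ from h1) (show Tendsto _ _ _ from h2)
  have h4 : ∀ᶠ δ in 𝓝[>] (0 : ℝ), volume (C ∩ closedBall x δ) / volume (closedBall x δ)
      + volume (D ∩ closedBall x δ) / volume (closedBall x δ) ≤ 1 := by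
    filter_upwards with δ
    rw [← ENNReal.add_div]
    have h5 : volume (C ∩ closedBall x δ) + volume (D ∩ closedBall x δ)
        ≤ volume (closedBall x δ) := by
      have h7 : AEDisjoint volume (C ∩ closedBall x δ) (D ∩ closedBall x δ) :=
        measure_mono_null (inter_subset_inter inter_subset_left inter_subset_left) h
      rw [← measure_union₀ (hD.inter measurableSet_closedBall.nullMeasurableSet) h7]
      exact measure_mono (union_subset inter_subset_right inter_subset_right)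
    exact ENNReal.div_le_of_le_mul (by rw [one_mul]; exact h5)
  have h6 := le_of_tendsto h3 h4
  norm_num at h6

theorem exists_dens_cover_ae (C : Fin 3 → Set E)
    (hcov : volume (ball (0 : E) 1 \ ⋃ i, C i) = 0) (V : Set E) (hV : IsOpen V)
    (hVb : V ⊆ ball 0 1) (hne : V.Nonempty) : ∃ k, ∃ x ∈ V, x ∈ Dens (C k) := by
  by_contra hcon
  push Not at hcon
  have h0 : ∀ k, volume (C k ∩ V) = 0 := by
    intro k
    by_contra h
    obtain ⟨x, hxV, hx⟩ := exists_dens (C k) V hV.measurableSet h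
    exact hcon k x hxV hx
  apply (hV.measure_pos volume hne).ne'
  refine measure_mono_null (t := (ball (0 : E) 1 \ ⋃ i, C i) ∪ ⋃ k, (C k ∩ V)) ?_ ?_
  · intro z hz
    by_cases hz0 : z ∈ ⋃ i, C i
    · obtain ⟨i, hi⟩ := mem_iUnion.mp hz0
      right; exact mem_iUnion.mpr ⟨i, hi, hz⟩
    · left; exact ⟨hVb hz, hz0⟩
  · exact measure_union_null hcov (measure_iUnion_null h0)

theorem zonal_absurd_ae (C : Set E) (hC : NullMeasurableSet C)
    (g : Fin 3 → (E ≃ₗᵢ[ℝ] E)) (hdis : ∀ i j, i ≠ j → volume (g i '' C ∩ g j '' C) = 0)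
    (hcov : volume (ball (0 : E) 1 \ ⋃ i, g i '' C) = 0) (b : E) (hb : ‖b‖ = 1)
    (hZ : ∀ x y : E, x ∈ Dens C → ‖y‖ = ‖x‖ → inner ℝ y b = inner ℝ x b → y ∈ Dens C) :
    False := by
  -- transport of density points
  have hT : ∀ (k i : Fin 3) (x y : E), x ∈ Dens (g k '' C) → ‖y‖ = ‖x‖ →
      inner ℝ y (g i b) = inner ℝ x (g k b) → y ∈ Dens (g i '' C) := by
    intro k i x y hx hn hi
    have h1 : (g k).symm x ∈ Dens C := by
      have := dens_image (g k).symm _ hx
      have h2 : (g k).symm '' (g k '' C) = C := by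
        rw [image_image]; simp
      rwa [h2] at this
    have h2 : ∀ (j : Fin 3) (z : E), inner ℝ ((g j).symm z) b = inner ℝ z (g j b) := by
      intro j z
      rw [← (g j).inner_map_map, (g j).apply_symm_apply]
    have h3 : (g i).symm y ∈ Dens C := by
      apply hZ _ _ h1
      · simpa using hn
      · rw [h2, h2]; exact hi
    have h4 := dens_image (g i) C h3
    rwa [(g i).apply_symm_apply] at h4
  have habs : ∀ (i j : Fin 3) (z : E), i ≠ j → z ∈ Dens (g i '' C) → z ∈ Dens (g j '' C) →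
      False := fun i j z hij h1 h2 => dens_disjoint_ae (image_null (g j) hC) (hdis i j hij) h1 h2
  set B : Fin 3 → E := fun i => g i b with hB
  have hBB : ∀ i, inner ℝ (B i) (B i) = 1 := by
    intro i
    rw [hB, (g i).inner_map_map, real_inner_self_eq_norm_sq, hb]; norm_num
  have hBn : ∀ i, ‖B i‖ = 1 := by intro i; rw [hB]; simp [hb]
  -- the closest pair of axes
  obtain ⟨p, hp, hmax⟩ := Finset.exists_max_image
    (Finset.univ.filter (fun p : Fin 3 × Fin 3 => p.1 ≠ p.2))
    (fun p => inner ℝ (B p.1) (B p.2)) ⟨(0, 1), by simp⟩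
  obtain ⟨i, j⟩ := p
  have hij : i ≠ j := by simpa using hp
  have hmax' : ∀ k l, k ≠ l → inner ℝ (B k) (B l) ≤ inner ℝ (B i) (B j) := by
    intro k l hkl
    exact hmax (k, l) (by simp [hkl])
  set c := inner ℝ (B i) (B j) with hc
  have hcji : inner ℝ (B j) (B i) = c := by rw [real_inner_comm]
  have hσ : inner ℝ (B 0 + B 1 + B 2) (B 0 + B 1 + B 2) ≤ 3 + 6 * c := by
    simp only [inner_add_left, inner_add_right, hBB]
    have h01 := hmax' 0 1 (by decide)
    have h10 := hmax' 1 0 (by decide)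
    have h02 := hmax' 0 2 (by decide)
    have h20 := hmax' 2 0 (by decide)
    have h12 := hmax' 1 2 (by decide)
    have h21 := hmax' 2 1 (by decide)
    linarith
  have hcpos : 0 < 1 + c := by
    have : 0 ≤ inner ℝ (B 0 + B 1 + B 2) (B 0 + B 1 + B 2) := real_inner_self_nonneg
    linarith
  have hc1 : c < 1 := by
    have hle : c ≤ 1 := by
      have := real_inner_le_norm (B i) (B j)
      rw [hBn, hBn, mul_one] at this; exact this
    rcases hle.lt_or_eq with h | h
    · exact h
    · exfalso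
      have hBij : B i = B j := (inner_eq_one_iff_of_norm_eq_one (hBn i) (hBn j)).mp h
      obtain ⟨k, x, _, hx⟩ := exists_dens_cover_ae (fun k => g k '' C) hcov (ball 0 1) isOpen_ball
        subset_rfl ⟨0, by simp⟩
      have hy : g i ((g k).symm x) ∈ Dens (g i '' C) := by
        apply hT k i x _ hx (by simp)
        rw [(g i).inner_map_map, ← (g k).inner_map_map, (g k).apply_symm_apply]
      refine habs i j _ hij hy (hT i j _ _ hy rfl ?_)
      show inner ℝ _ (B j) = inner ℝ _ (B i)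
      rw [hBij]
  have hbad : ∀ (k : Fin 3) (x : E), x ∈ Dens (g k '' C) →
      ¬ (inner ℝ x (B k)) ^ 2 ≤ (1 + c) / 2 * inner ℝ x x := by
    intro k x hx hle
    obtain ⟨w, hw0, hwb, hwr⟩ := exists_orth (B i) (B j)
    have hwpos : 0 < inner ℝ w w := real_inner_self_pos.mpr hw0
    set m := B i + B j with hmdef
    have hmb : inner ℝ m (B i) = 1 + c := by
      rw [hmdef, inner_add_left, hBB, hcji]
    have hmr : inner ℝ m (B j) = 1 + c := by
      rw [hmdef, inner_add_left, hBB, ← hc]; ring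
    have hmm : inner ℝ m m = 2 * (1 + c) := by
      conv_lhs => rw [hmdef]
      rw [inner_add_right, hmb, hmr]
      ring
    have hwm : inner ℝ w m = 0 := by
      conv_lhs => rw [hmdef]
      rw [inner_add_right, hwb, hwr, add_zero]
    set a := inner ℝ x (B k) with ha
    set q := inner ℝ x x - 2 * a ^ 2 / (1 + c) with hq
    have hq0 : 0 ≤ q := by
      rw [hq, sub_nonneg, div_le_iff₀ hcpos]
      linarith
    set κ := Real.sqrt (q / inner ℝ w w) with hκ
    have hκ2 : κ ^ 2 * inner ℝ w w = q := by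
      rw [hκ, Real.sq_sqrt (by positivity)]
      field_simp
    set z := (a / (1 + c)) • m + κ • w with hz
    have hzb : inner ℝ z (B i) = a := by
      rw [hz, inner_add_left, real_inner_smul_left, real_inner_smul_left, hmb, hwb]
      field_simp; ring
    have hzr : inner ℝ z (B j) = a := by
      rw [hz, inner_add_left, real_inner_smul_left, real_inner_smul_left, hmr, hwr]
      field_simp; ring
    have hzz : inner ℝ z z = inner ℝ x x := by
      rw [hz, inner_add_add_self]
      simp only [real_inner_smul_left, real_inner_smul_right]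
      rw [hmm, real_inner_comm w m, hwm]
      have : κ * (κ * inner ℝ w w) = q := by rw [← hκ2]; ring
      rw [this, hq]
      field_simp
      ring
    have hzn : ‖z‖ = ‖x‖ := by
      rw [real_inner_self_eq_norm_sq, real_inner_self_eq_norm_sq] at hzz
      exact (pow_left_inj₀ (norm_nonneg _) (norm_nonneg _) two_ne_zero).mp hzz
    exact habs i j z hij (hT k i x z hx hzn hzb) (hT k j x z hx hzn hzr)
  -- a point far from all three axes
  obtain ⟨w, hw0, hw1, hw2⟩ := exists_orth (B 0 - B 1) (B 0 - B 2)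
  rw [inner_sub_right, sub_eq_zero] at hw1 hw2
  have hwpos : 0 < inner ℝ w w := real_inner_self_pos.mpr hw0
  have hall : ∀ k, inner ℝ w (B k) = inner ℝ w (B 0) := by
    intro k
    fin_cases k
    · rfl
    · exact hw1.symm
    · exact hw2.symm
  have hlt : (inner ℝ w (B 0)) ^ 2 < (1 + c) / 2 * inner ℝ w w := by
    have h1 : inner ℝ w (B 0 + B 1 + B 2) = 3 * inner ℝ w (B 0) := by
      rw [inner_add_right, inner_add_right, ← hw1, ← hw2]; ring
    have h2 : inner ℝ w (B 0 + B 1 + B 2) * inner ℝ w (B 0 + B 1 + B 2)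
        ≤ inner ℝ w w * inner ℝ (B 0 + B 1 + B 2) (B 0 + B 1 + B 2) :=
      real_inner_mul_inner_self_le _ _
    rw [h1] at h2
    nlinarith
  have hn0 : ‖w‖ ≠ 0 := norm_ne_zero_iff.mpr hw0
  set V : Set E := ball 0 1 ∩ ⋂ k : Fin 3, {x : E | (inner ℝ x (B k)) ^ 2 < (1 + c) / 2 * inner ℝ x x}
    with hV
  have hVo : IsOpen V := by
    apply isOpen_ball.inter
    apply isOpen_iInter_of_finite
    intro k
    apply isOpen_lt <;> fun_prop
  have hVne : V.Nonempty := by
    refine ⟨(2 * ‖w‖)⁻¹ • w, ?_, ?_⟩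
    · rw [mem_ball_zero_iff, norm_smul, norm_inv, norm_mul, norm_norm]
      simp only [Real.norm_ofNat]
      rw [mul_inv, mul_assoc, inv_mul_cancel₀ hn0]; norm_num
    · rw [mem_iInter]
      intro k
      show (inner ℝ ((2 * ‖w‖)⁻¹ • w) (B k)) ^ 2
        < (1 + c) / 2 * inner ℝ ((2 * ‖w‖)⁻¹ • w) ((2 * ‖w‖)⁻¹ • w)
      rw [real_inner_smul_left, real_inner_smul_left, real_inner_smul_right, hall k]
      have hpos : 0 < (2 * ‖w‖)⁻¹ := by positivity
      have : 0 < (2 * ‖w‖)⁻¹ ^ 2 := by positivity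
      nlinarith [mul_lt_mul_of_pos_left hlt this]
  obtain ⟨k, x, hxV, hx⟩ := exists_dens_cover_ae (fun k => g k '' C) hcov V hVo inter_subset_left hVne
  exact hbad k x hx (mem_iInter.mp hxV.2 k).le

theorem cone_ae_inter {A B : Set E}
    (h : ((↑) ⁻¹' (A ∩ B) : Set (sphere (0 : E) 1)) =ᵐ[(volume : Measure E).toSphere]
      ((↑) ⁻¹' (∅ : Set E) : Set (sphere (0 : E) 1))) : volume (cone A ∩ cone B) = 0 := by
  rw [ae_eq_set] at h
  have h1 : volume (cone ((A ∩ B) \ ∅)) = 0 := cone_zero _ h.1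
  refine measure_mono_null ?_ h1
  rintro x ⟨⟨h1, h2, h3⟩, ⟨_, _, h4⟩⟩
  exact ⟨h1, h2, ⟨h3, h4⟩, fun h => h⟩

theorem sym_finite_ae (P : Fin 3 → Set E)
    (hm : ∀ i, NullMeasurableSet ((↑) ⁻¹' (P i) : Set (sphere (0 : E) 1))
      (volume : Measure E).toSphere)
    (hd : ∀ i j, i ≠ j → ((↑) ⁻¹' (P i ∩ P j) : Set (sphere (0 : E) 1))
      =ᵐ[(volume : Measure E).toSphere] ((↑) ⁻¹' (∅ : Set E) : Set (sphere (0 : E) 1)))
    (hu : ((↑) ⁻¹' (⋃ i, P i) : Set (sphere (0 : E) 1)) =ᵐ[(volume : Measure E).toSphere]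
      ((↑) ⁻¹' (sphere (0 : E) 1) : Set (sphere (0 : E) 1)))
    (hc : ∀ i j, ∃ g : E ≃ₗᵢ[ℝ] E, ((↑) ⁻¹' (g '' P i) : Set (sphere (0 : E) 1))
      =ᵐ[(volume : Measure E).toSphere] ((↑) ⁻¹' (P j) : Set (sphere (0 : E) 1)))
    (i j : Fin 3) :
    {t : E ≃ₗᵢ[ℝ] E | ((↑) ⁻¹' (t '' P i) : Set (sphere (0 : E) 1))
      =ᵐ[(volume : Measure E).toSphere] ((↑) ⁻¹' (P j) : Set (sphere (0 : E) 1))}.Finite := by
  by_contra hcon
  rw [← Set.Infinite] at hcon
  choose g hg using fun j => hc i j
  have himg : ∀ j, g j '' cone (P i) =ᵐ[volume] cone (P j) := by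
    intro j; rw [image_cone]; exact cone_ae (hg j)
  have hinf : {t : E ≃ₗᵢ[ℝ] E | mat t ∈ Good (cone (P i))}.Infinite := by
    have h1 : Set.InjOn (fun t : E ≃ₗᵢ[ℝ] E => t.trans (g j).symm)
        {t : E ≃ₗᵢ[ℝ] E | ((↑) ⁻¹' (t '' P i) : Set (sphere (0 : E) 1))
          =ᵐ[(volume : Measure E).toSphere] ((↑) ⁻¹' (P j) : Set (sphere (0 : E) 1))} := by
      intro a _ b _ h
      ext1 x
      have h2 := congrArg (fun f : E ≃ₗᵢ[ℝ] E => f x) h
      exact (g j).symm.injective h2
    refine (hcon.image h1).mono ?_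
    rintro _ ⟨t, ht, rfl⟩
    have hrest : (volume : Measure E).restrict (t '' cone (P i))
        = (volume : Measure E).restrict (g j '' cone (P i)) := by
      apply Measure.restrict_congr_set
      refine EventuallyEq.trans ?_ (himg j).symm
      rw [image_cone]
      exact cone_ae ht
    have hmom : ∀ l, tp l (mat t) *ᵥ mom (cone (P i)) l
        = tp l (mat (g j)) *ᵥ mom (cone (P i)) l := by
      intro l
      rw [← mom_image t _ (cone_sub _), ← mom_image (g j) _ (cone_sub _)]
      ext w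
      simp only [mom, hrest]
    intro l
    rw [mat_trans, mat_symm, ← tp_mul, ← Matrix.mulVec_mulVec, hmom, Matrix.mulVec_mulVec, tp_mul,
      mat_orth, tp_one, Matrix.one_mulVec]
  obtain ⟨b, hb, hZ⟩ := zonal_of_infinite (cone (P i)) (cone_sub _) hinf
  refine zonal_absurd_ae (cone (P i)) (cone_null _ (hm i)) g ?_ ?_ b hb hZ
  · intro j k hjk
    have h1 : (g j '' cone (P i) ∩ g k '' cone (P i) : Set E) =ᵐ[volume]
        (cone (P j) ∩ cone (P k) : Set E) := (himg j).inter (himg k)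
    rw [measure_congr h1]
    exact cone_ae_inter (hd j k hjk)
  · have h1 : (⋃ k, g k '' cone (P i) : Set E) =ᵐ[volume] (⋃ k, cone (P k) : Set E) :=
      EventuallyEq.countable_iUnion himg
    have h2 : (ball (0 : E) 1 \ ⋃ k, g k '' cone (P i) : Set E) =ᵐ[volume]
        (ball (0 : E) 1 \ ⋃ k, cone (P k) : Set E) := (ae_eq_refl _).diff h1
    rw [measure_congr h2]
    rw [ae_eq_set] at hu
    have h3 := cone_zero (sphere (0 : E) 1 \ ⋃ i, P i) hu.2
    refine measure_mono_null (t := {0} ∪ cone (sphere (0 : E) 1 \ ⋃ k, P k)) ?_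
      (measure_union_null (measure_singleton _) h3)
    rintro x ⟨hx, hx2⟩
    by_cases hx0 : x = 0
    · left; exact hx0
    · right
      have h4 : x ∈ cone (sphere (0 : E) 1) := by rw [cone_sphere]; exact ⟨hx, hx0⟩
      refine ⟨h4.1, h4.2.1, h4.2.2, ?_⟩
      intro h5
      apply hx2
      obtain ⟨k, hk⟩ := mem_iUnion.mp h5
      exact mem_iUnion.mpr ⟨k, h4.1, h4.2.1, hk⟩

end SphSplit
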