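import Mathlib

open Matrix Polynomial

namespace SphSplit

variable {R S : Type*} [CommRing R] [CommRing S]

/-- The `l`-th tensor power of a `3 × 3` matrix, indexed by words of length `l`. -/
def tp (l : ℕ) (M : Matrix (Fin 3) (Fin 3) R) :
    Matrix (Fin l → Fin 3) (Fin l → Fin 3) R :=
  Matrix.of fun w w' => ∏ k, M (w k) (w' k)

theorem tp_mul (l : ℕ) (M N : Matrix (Fin 3) (Fin 3) R) :
    tp l M * tp l N = tp l (M * N) := by
  ext a b
  simp only [tp, Matrix.mul_apply, Matrix.of_apply]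
  rw [Finset.prod_univ_sum, Fintype.piFinset_univ]
  exact Finset.sum_congr rfl fun w _ => (Finset.prod_mul_distrib).symm

theorem tp_one (l : ℕ) : tp l (1 : Matrix (Fin 3) (Fin 3) R) = 1 := by
  ext a b
  simp only [tp, Matrix.of_apply, Matrix.one_apply]
  by_cases h : a = b
  · subst h; simp
  · rw [if_neg h]
    obtain ⟨k, hk⟩ := Function.ne_iff.mp h
    exact Finset.prod_eq_zero (Finset.mem_univ k) (if_neg hk)

theorem tp_transpose (l : ℕ) (M : Matrix (Fin 3) (Fin 3) R) :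
    (tp l M)ᵀ = tp l Mᵀ := by
  ext a b; simp [tp]

theorem tp_smul (l : ℕ) (c : R) (M : Matrix (Fin 3) (Fin 3) R) :
    tp l (c • M) = c ^ l • tp l M := by
  ext a b
  simp [tp, Finset.prod_mul_distrib]

theorem tp_map (l : ℕ) (f : R →+* S) (M : Matrix (Fin 3) (Fin 3) R) :
    (tp l M).map f = tp l (M.map f) := by
  ext a b; simp [tp]

/-- the determinant polynomial -/
noncomputable def Dp (l : ℕ) (P : Matrix (Fin 3) (Fin 3) ℝ) (N : ℝ[X])
    (M : Matrix (Fin 3) (Fin 3) ℝ[X]) : ℝ[X] :=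
  (N ^ l • ((1 : Matrix _ _ ℝ[X]) + (tp l P).map C) + tp l M).det

theorem Dp_eval (l : ℕ) (P : Matrix (Fin 3) (Fin 3) ℝ) (N : ℝ[X])
    (M : Matrix (Fin 3) (Fin 3) ℝ[X]) (s : ℝ) :
    (Dp l P N M).eval s =
      ((N.eval s) ^ l • ((1 : Matrix _ _ ℝ) + tp l P) + tp l (M.map (eval s))).det := by
  have h1 : (Dp l P N M).eval s = evalRingHom s (Dp l P N M) := rfl
  rw [h1, Dp, RingHom.map_det]
  congr 1
  ext a b
  by_cases hab : a = b
  · subst hab
    simp [tp, Polynomial.eval_prod]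
  · simp [tp, Polynomial.eval_prod, Matrix.one_apply, hab]

theorem vec_zero_of_norm {n : Type*} [Fintype n] [DecidableEq n] (O : Matrix n n ℝ)
    (hO : Oᵀ * O = 1) (v : n → ℝ) (h : O *ᵥ v = -(2 : ℝ) • v) : v = 0 := by
  have h1 : (O *ᵥ v) ⬝ᵥ (O *ᵥ v) = v ⬝ᵥ v := by
    rw [Matrix.dotProduct_mulVec, ← Matrix.mulVec_transpose, Matrix.mulVec_mulVec, hO,
      Matrix.one_mulVec]
  rw [h] at h1
  simp only [smul_dotProduct, dotProduct_smul, neg_smul, neg_dotProduct, dotProduct_neg,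
    smul_eq_mul, neg_neg] at h1
  have h2 : v ⬝ᵥ v = 0 := by linarith
  exact dotProduct_self_eq_zero.mp h2

theorem Dp_ne_zero (l : ℕ) (P : Matrix (Fin 3) (Fin 3) ℝ) (hP : Pᵀ * P = 1) (N : ℝ[X])
    (M : Matrix (Fin 3) (Fin 3) ℝ[X]) (hN : N.eval 0 = 1) (σ : ℝ) (hσ : σ = 1 ∨ σ = -1)
    (hM : M.map (eval 0) = σ • (1 : Matrix (Fin 3) (Fin 3) ℝ)) : Dp l P N M ≠ 0 := by
  intro h0
  have h1 := Dp_eval l P N M 0
  rw [h0, hN, hM, tp_smul, tp_one] at h1
  simp only [eval_zero, one_pow, one_smul] at h1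
  obtain ⟨v, hv, hv0⟩ := Matrix.exists_mulVec_eq_zero_iff.mpr h1.symm
  have hO : (tp l P)ᵀ * tp l P = 1 := by
    rw [tp_transpose, tp_mul, hP, tp_one]
  rw [Matrix.add_mulVec, Matrix.add_mulVec, Matrix.smul_mulVec, Matrix.one_mulVec] at hv0
  have hs : σ ^ l = 1 ∨ σ ^ l = -1 := by
    rcases hσ with h | h
    · left; rw [h, one_pow]
    · rw [h]; exact neg_one_pow_eq_or ℝ l
  rcases hs with h | h
  · rw [h] at hv0
    apply hv
    apply vec_zero_of_norm _ hO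
    rw [one_smul] at hv0
    have : tp l P *ᵥ v = -(v + v) := by
      have := eq_neg_of_add_eq_zero_left (show tp l P *ᵥ v + (v + v) = 0 by
        rw [← hv0]; abel)
      exact this
    rw [this, neg_smul, two_smul]
  · rw [h] at hv0
    apply hv
    have h3 : tp l P *ᵥ v = 0 := by
      rw [← hv0, neg_smul, one_smul]; abel
    have h4 : (tp l P)ᵀ *ᵥ (tp l P *ᵥ v) = v := by
      rw [Matrix.mulVec_mulVec, hO, Matrix.one_mulVec]
    rw [← h4, h3, Matrix.mulVec_zero]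

theorem kernel_zero (l : ℕ) (P T : Matrix (Fin 3) (Fin 3) ℝ) (N : ℝ[X])
    (M : Matrix (Fin 3) (Fin 3) ℝ[X]) (s : ℝ) (hs : (Dp l P N M).eval s ≠ 0)
    (hT : N.eval s • T = M.map (eval s)) (F : (Fin l → Fin 3) → ℝ)
    (hF : F + tp l P *ᵥ F + tp l T *ᵥ F = 0) : F = 0 := by
  by_contra hne
  apply hs
  rw [Dp_eval]
  apply Matrix.exists_mulVec_eq_zero_iff.mp
  refine ⟨F, hne, ?_⟩
  rw [← hT, tp_smul, ← smul_add, Matrix.smul_mulVec, Matrix.add_mulVec, Matrix.add_mulVec,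
    Matrix.one_mulVec, hF, smul_zero]

end SphSplit
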