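import Pool.Agent.Zhu.SphGlue

open MeasureTheory Metric Set Filter Matrix Topology

namespace SphSplit

/-- the matrices preserving the moments of `C` -/
def Good (C : Set E) : Set (Matrix (Fin 3) (Fin 3) ℝ) :=
  {M | ∀ l, tp l M *ᵥ mom C l = mom C l}

theorem good_closed (C : Set E) : IsClosed (Good C) := by
  have : Good C = ⋂ (l : ℕ), ⋂ (w : Fin l → Fin 3), {M | (tp l M *ᵥ mom C l) w = mom C l w} := by
    refine Set.ext fun M => ?_
    simp only [Good, mem_iInter, mem_setOf_eq]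
    exact ⟨fun h l w => congrFun (h l) w, fun h l => funext (h l)⟩
  rw [this]
  refine isClosed_iInter fun l => isClosed_iInter fun w => isClosed_eq ?_ continuous_const
  simp only [Matrix.mulVec, dotProduct, tp, Matrix.of_apply]
  refine continuous_finsetSum _ fun w' _ => Continuous.mul ?_ continuous_const
  exact continuous_finset_prod _ fun k _ => continuous_id.matrix_elem _ _

theorem good_mul {C : Set E} {M N : Matrix (Fin 3) (Fin 3) ℝ} (hM : M ∈ Good C)
    (hN : N ∈ Good C) : M * N ∈ Good C := by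
  intro l
  rw [← tp_mul, ← Matrix.mulVec_mulVec, hN l, hM l]

theorem good_inv {C : Set E} {M N : Matrix (Fin 3) (Fin 3) ℝ} (hM : M ∈ Good C)
    (h : N * M = 1) : N ∈ Good C := by
  intro l
  conv_lhs => rw [← hM l]
  rw [Matrix.mulVec_mulVec, tp_mul, h, tp_one, Matrix.one_mulVec]

theorem good_one (C : Set E) : (1 : Matrix (Fin 3) (Fin 3) ℝ) ∈ Good C := by
  intro l; rw [tp_one, Matrix.one_mulVec]

theorem mat_symm (g : E ≃ₗᵢ[ℝ] E) : mat g.symm = (mat g)ᵀ := by
  have h2 : mat g * (mat g)ᵀ = 1 := mul_eq_one_comm.mp (mat_orth g)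
  have h3 : mat g.symm * mat g = 1 := by
    rw [← mat_trans, LinearIsometryEquiv.self_trans_symm, mat_refl]
  calc mat g.symm = mat g.symm * (mat g * (mat g)ᵀ) := by rw [h2, mul_one]
    _ = (mat g)ᵀ := by rw [← mul_assoc, h3, one_mul]

/-- the angles of rotations preserving the moments -/
noncomputable def angS (C : Set E) (Q : E ≃ₗᵢ[ℝ] E) : AddSubgroup ℝ where
  carrier := {φ | mat (rotQ Q φ) ∈ Good C}
  add_mem' := by
    intro a b ha hb
    show mat (rotQ Q (a + b)) ∈ Good C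
    rw [mat_rotQ_add]
    exact good_mul hb ha
  zero_mem' := by
    show mat (rotQ Q 0) ∈ Good C
    rw [rotQ_zero, mat_refl]; exact good_one C
  neg_mem' := by
    intro a ha
    exact good_inv ha (by rw [← mat_rotQ_add, add_neg_cancel, rotQ_zero, mat_refl])

/-- orthogonal matrices -/
def Orth : Set (Matrix (Fin 3) (Fin 3) ℝ) := {M | Mᵀ * M = 1}

theorem orth_compact : IsCompact Orth := by
  have h1 : IsCompact (Set.pi univ fun _ : Fin 3 => Set.pi univ fun _ : Fin 3 => Icc (-1 : ℝ) 1) :=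
    isCompact_univ_pi fun i => isCompact_univ_pi fun j => isCompact_Icc
  have h2 : IsClosed Orth := by
    apply isClosed_eq _ continuous_const
    exact (continuous_id.matrix_transpose).matrix_mul continuous_id
  have h3 : Orth ⊆ (Set.pi univ fun _ : Fin 3 => Set.pi univ fun _ : Fin 3 => Icc (-1 : ℝ) 1) := by
    intro M hM i _ j _
    have h4 := congrFun (congrFun (show Mᵀ * M = 1 from hM) j) j
    simp only [Matrix.mul_apply, Fin.sum_univ_three, Matrix.transpose_apply,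
      Matrix.one_apply_eq] at h4
    have h5 : ∀ i : Fin 3, M i j ^ 2 ≤ 1 := by
      have a0 : M 0 j ^ 2 ≤ 1 := by nlinarith [sq_nonneg (M 1 j), sq_nonneg (M 2 j)]
      have a1 : M 1 j ^ 2 ≤ 1 := by nlinarith [sq_nonneg (M 0 j), sq_nonneg (M 2 j)]
      have a2 : M 2 j ^ 2 ≤ 1 := by nlinarith [sq_nonneg (M 0 j), sq_nonneg (M 1 j)]
      intro i
      fin_cases i
      · exact a0
      · exact a1
      · exact a2
    have h6 := h5 i
    exact ⟨by nlinarith, by nlinarith⟩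
  exact IsCompact.of_isClosed_subset h1 h2 h3

instance : FirstCountableTopology (Matrix (Fin 3) (Fin 3) ℝ) :=
  inferInstanceAs (FirstCountableTopology (Fin 3 → Fin 3 → ℝ))

/-- the isometry of an orthogonal matrix -/
noncomputable def ofOrthLin (M : Matrix (Fin 3) (Fin 3) ℝ) : E →ₗ[ℝ] E where
  toFun x := WithLp.toLp 2 (M *ᵥ x.ofLp)
  map_add' x y := by
    apply WithLp.ofLp_injective 2
    simp [Matrix.mulVec_add]
  map_smul' c x := by
    apply WithLp.ofLp_injective 2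
    simp [Matrix.mulVec_smul]

theorem ofOrthLin_norm (M : Matrix (Fin 3) (Fin 3) ℝ) (h : Mᵀ * M = 1) (x : E) :
    ‖ofOrthLin M x‖ = ‖x‖ := by
  rw [EuclideanSpace.norm_eq, EuclideanSpace.norm_eq]
  congr 1
  have h1 : ∀ y : E, ∑ i, ‖y i‖ ^ 2 = y.ofLp ⬝ᵥ y.ofLp := by
    intro y
    simp [dotProduct, sq]
  rw [h1, h1]
  show (M *ᵥ x.ofLp) ⬝ᵥ (M *ᵥ x.ofLp) = _
  rw [Matrix.dotProduct_mulVec, Matrix.vecMul_mulVec, h, Matrix.vecMul_one]

noncomputable def ofOrth (M : Matrix (Fin 3) (Fin 3) ℝ) (h : Mᵀ * M = 1) : E ≃ₗᵢ[ℝ] E :=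
  LinearIsometry.toLinearIsometryEquiv ⟨ofOrthLin M, ofOrthLin_norm M h⟩ rfl

theorem mat_ofOrth (M : Matrix (Fin 3) (Fin 3) ℝ) (h : Mᵀ * M = 1) : mat (ofOrth M h) = M := by
  ext i j
  show (M *ᵥ (EuclideanSpace.single j (1 : ℝ) : E).ofLp) i = M i j
  simp [Matrix.mulVec, dotProduct]

theorem exists_angle' (p r : ℝ) (h : p ^ 2 + r ^ 2 = 1) :
    ∃ α, |α| ≤ Real.pi ∧ Real.cos α = p ∧ Real.sin α = r := by
  have hn : ‖(⟨p, r⟩ : ℂ)‖ = 1 := by
    rw [Complex.norm_def, Complex.normSq_mk, Real.sqrt_eq_one]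
    nlinarith
  have hne : (⟨p, r⟩ : ℂ) ≠ 0 := by
    intro h0; rw [h0, norm_zero] at hn; exact zero_ne_one hn
  refine ⟨Complex.arg ⟨p, r⟩, Complex.abs_arg_le_pi _, ?_, ?_⟩
  · rw [Complex.cos_arg hne, hn]; simp
  · rw [Complex.sin_arg, hn]; simp

theorem eq_rot3' (g : E ≃ₗᵢ[ℝ] E) (hd : (mat g).det = 1)
    (hfix : g (EuclideanSpace.single 2 1) = EuclideanSpace.single 2 1) :
    ∃ α, |α| ≤ Real.pi ∧ g = rot3 α := by
  obtain ⟨α, hα⟩ := eq_rot3 g hd hfix
  obtain ⟨β, hβ, h1, h2⟩ := exists_angle' (Real.cos α) (Real.sin α) (Real.cos_sq_add_sin_sq α)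
  refine ⟨β, hβ, ?_⟩
  rw [hα]
  apply mat_inj
  rw [mat_rot3, mat_rot3, h1, h2]

theorem exists_rotQ (g : E ≃ₗᵢ[ℝ] E) (hdg : (mat g).det = 1) :
    ∃ (Q : E ≃ₗᵢ[ℝ] E) (α : ℝ), |α| ≤ Real.pi ∧ rotQ Q α = g := by
  obtain ⟨b, hb, hgb⟩ := exists_fixed g hdg
  obtain ⟨Q, hQ⟩ := exists_Q b hb
  have hg' : ∃ α, |α| ≤ Real.pi ∧ (Q.trans g).trans Q.symm = rot3 α := by
    apply eq_rot3'
    · rw [mat_trans, mat_trans, Matrix.det_mul, Matrix.det_mul, hdg, one_mul, ← Matrix.det_mul,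
        ← mat_trans, LinearIsometryEquiv.self_trans_symm, mat_refl, Matrix.det_one]
    · simp only [LinearIsometryEquiv.trans_apply, hQ, hgb]
      rw [← hQ, LinearIsometryEquiv.symm_apply_apply]
  obtain ⟨α, hαπ, hα⟩ := hg'
  refine ⟨Q, α, hαπ, ?_⟩
  rw [rotQ, ← hα]
  ext x
  simp

theorem mat_rotQ (Q : E ≃ₗᵢ[ℝ] E) (φ : ℝ) :
    mat (rotQ Q φ) = mat Q * (mat (rot3 φ) * (mat Q)ᵀ) := by
  rw [rotQ, mat_trans, mat_trans, mat_symm]

theorem trace_rotQ (Q : E ≃ₗᵢ[ℝ] E) (φ : ℝ) : (mat (rotQ Q φ)).trace = 1 + 2 * Real.cos φ := by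
  rw [mat_rotQ, Matrix.trace_mul_comm, mul_assoc, mat_orth, mul_one, mat_rot3]
  simp [Matrix.trace, Fin.sum_univ_three]
  ring

theorem rot3_cont : Continuous fun φ => mat (rot3 φ) := by
  apply continuous_matrix
  intro i j
  simp only [mat_rot3]
  fin_cases i <;> fin_cases j <;> simp <;> fun_prop

theorem zonal_of_infinite (C : Set E) (hsub : C ⊆ ball 0 1)
    (hinf : {g : E ≃ₗᵢ[ℝ] E | mat g ∈ Good C}.Infinite) :
    ∃ b : E, ‖b‖ = 1 ∧ ∀ x y : E, x ∈ Dens C → ‖y‖ = ‖x‖ → inner ℝ y b = inner ℝ x b →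
      y ∈ Dens C := by
  set e := hinf.natEmbedding with he
  set g : ℕ → (E ≃ₗᵢ[ℝ] E) := fun n => (e n : E ≃ₗᵢ[ℝ] E) with hg
  have hginj : Function.Injective g := fun a b h => e.injective (Subtype.ext h)
  have hgK : ∀ n, mat (g n) ∈ Good C := fun n => (e n).2
  obtain ⟨L, hL, φ, hφ, hlim⟩ := orth_compact.tendsto_subseq (x := fun n => mat (g n))
    (fun n => mat_orth (g n))
  have hLL : L * Lᵀ = 1 := mul_eq_one_comm.mp hL
  set k : ℕ → (E ≃ₗᵢ[ℝ] E) := fun n => (g (φ n)).symm.trans (g (φ (n + 1))) with hk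
  have hkmat : ∀ n, mat (k n) = mat (g (φ (n + 1))) * (mat (g (φ n)))ᵀ := by
    intro n; rw [hk]; simp only; rw [mat_trans, mat_symm]
  have hkgood : ∀ n, mat (k n) ∈ Good C := by
    intro n; rw [hkmat]
    exact good_mul (hgK _) (good_inv (hgK _) (mat_orth _))
  have hkne : ∀ n, k n ≠ LinearIsometryEquiv.refl ℝ E := by
    intro n h
    have : g (φ (n + 1)) = g (φ n) := by
      ext1 x
      have h1 := congrArg (fun f : E ≃ₗᵢ[ℝ] E => f (g (φ n) x)) h
      simpa [hk] using h1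
    have h2 := hφ.injective (hginj this)
    omega
  have hklim : Tendsto (fun n => mat (k n)) atTop (𝓝 1) := by
    have h1 : Tendsto (fun n => mat (g (φ (n + 1)))) atTop (𝓝 L) :=
      hlim.comp (tendsto_add_atTop_nat 1)
    have h2 : Tendsto (fun n => (mat (g (φ n)))ᵀ) atTop (𝓝 Lᵀ) :=
      (continuous_id.matrix_transpose.tendsto L).comp hlim
    have h3 : Continuous fun p : Matrix (Fin 3) (Fin 3) ℝ × Matrix (Fin 3) (Fin 3) ℝ =>
        p.1 * p.2 := continuous_fst.matrix_mul continuous_snd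
    have h4 := (h3.tendsto (L, Lᵀ)).comp (h1.prodMk_nhds h2)
    simp only [hLL] at h4
    refine h4.congr fun n => ?_
    rw [hkmat]; rfl
  have hdet : ∀ᶠ n in atTop, (mat (k n)).det = 1 := by
    have h1 : Tendsto (fun n => (mat (k n)).det) atTop (𝓝 1) := by
      have h0 : Tendsto (fun n => (mat (k n)).det) atTop
          (𝓝 (1 : Matrix (Fin 3) (Fin 3) ℝ).det) :=
        ((continuous_id.matrix_det).tendsto (1 : Matrix (Fin 3) (Fin 3) ℝ)).comp hklim
      rwa [Matrix.det_one] at h0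
    filter_upwards [h1.eventually (lt_mem_nhds (show (0 : ℝ) < 1 by norm_num))] with n hn
    have := det_mat_sq (k n)
    nlinarith
  obtain ⟨N0, hN0⟩ := eventually_atTop.mp hdet
  choose Q α hαπ hQα using fun n => exists_rotQ (k (n + N0)) (hN0 (n + N0) (by omega))
  have hα0 : ∀ n, α n ≠ 0 := by
    intro n h
    apply hkne (n + N0)
    rw [← hQα n, h, rotQ_zero]
  have hαS : ∀ n, α n ∈ angS C (Q n) := by
    intro n
    show mat (rotQ (Q n) (α n)) ∈ Good C
    rw [hQα]; exact hkgood _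
  have hαlim : Tendsto (fun n => |α n|) atTop (𝓝 0) := by
    have h1 : Tendsto (fun n => (mat (k (n + N0))).trace) atTop (𝓝 3) := by
      have h0 : Tendsto (fun n => (mat (k (n + N0))).trace) atTop
          (𝓝 (1 : Matrix (Fin 3) (Fin 3) ℝ).trace) :=
        ((continuous_id.matrix_trace).tendsto (1 : Matrix (Fin 3) (Fin 3) ℝ)).comp
          (hklim.comp (tendsto_add_atTop_nat N0))
      simpa using h0
    have h2 : ∀ n, |α n| = Real.arccos (((mat (k (n + N0))).trace - 1) / 2) := by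
      intro n
      rw [← hQα n, trace_rotQ]
      have : (1 + 2 * Real.cos (α n) - 1) / 2 = Real.cos |α n| := by
        rw [Real.cos_abs]; ring
      rw [this, Real.arccos_cos (abs_nonneg _) (hαπ n)]
    simp only [h2]
    have h3 := (Real.continuous_arccos.tendsto ((3 - 1) / 2)).comp
      ((h1.sub_const 1).div_const 2)
    have h4 : Real.arccos ((3 - 1) / 2) = 0 := by
      norm_num
    rw [h4] at h3
    exact h3
  obtain ⟨M, hM, ψ, hψ, hMlim⟩ := orth_compact.tendsto_subseq (x := fun n => mat (Q n))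
    (fun n => mat_orth (Q n))
  have hlimθ : ∀ θ : ℝ, mat (rotQ (ofOrth M hM) θ) ∈ Good C := by
    intro θ
    set β : ℕ → ℝ := fun n => (round (θ / α (ψ n)) : ℝ) * α (ψ n) with hβ
    have hβS : ∀ n, mat (rotQ (Q (ψ n)) (β n)) ∈ Good C := by
      intro n
      have h1 := (angS C (Q (ψ n))).zsmul_mem (hαS (ψ n)) (round (θ / α (ψ n)))
      rw [zsmul_eq_mul] at h1
      exact h1
    have hβlim : Tendsto β atTop (𝓝 θ) := by
      rw [tendsto_iff_norm_sub_tendsto_zero]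
      refine squeeze_zero (fun _ => norm_nonneg _) (fun n => ?_) (hαlim.comp hψ.tendsto_atTop)
      have h1 : β n - θ = (round (θ / α (ψ n)) - θ / α (ψ n)) * α (ψ n) := by
        rw [hβ]; simp only
        rw [sub_mul, div_mul_cancel₀ _ (hα0 _)]
      have h2 := abs_sub_round (θ / α (ψ n))
      rw [h1, Real.norm_eq_abs, abs_mul, abs_sub_comm]
      show _ ≤ |α (ψ n)|
      nlinarith [abs_nonneg (α (ψ n))]
    have hQlim : Tendsto (fun n => mat (Q (ψ n))) atTop (𝓝 M) := hMlim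
    have h3 : Continuous fun p : Matrix (Fin 3) (Fin 3) ℝ × Matrix (Fin 3) (Fin 3) ℝ =>
        p.1 * (p.2 * p.1ᵀ) :=
      continuous_fst.matrix_mul (continuous_snd.matrix_mul continuous_fst.matrix_transpose)
    have h4 := (h3.tendsto (M, mat (rot3 θ))).comp
      (hQlim.prodMk_nhds ((rot3_cont.tendsto θ).comp hβlim))
    have h5 : mat (rotQ (ofOrth M hM) θ) = M * (mat (rot3 θ) * Mᵀ) := by
      rw [mat_rotQ, mat_ofOrth]
    rw [h5]
    refine (good_closed C).mem_of_tendsto h4 (Eventually.of_forall fun n => ?_)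
    have h6 := hβS n
    rw [mat_rotQ] at h6
    exact h6
  refine ⟨ofOrth M hM (EuclideanSpace.single 2 1), by simp, ?_⟩
  intro x y hx hn hi
  obtain ⟨θ, rfl⟩ := rotQ_circle (ofOrth M hM) _ rfl x y hn hi
  apply dens_inv _ _ _ hx
  apply restrict_eq_of_mom (image_ball_sub _ hsub) hsub
  intro l
  rw [mom_image _ _ hsub]
  exact hlimθ θ l

end SphSplit
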