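import Pool.Agent.Zhu.SphRot

open MeasureTheory Metric Set Filter Matrix Topology

namespace SphSplit

/-- the points of density one -/
def Dens (C : Set E) : Set E :=
  {x | Tendsto (fun δ => volume (C ∩ closedBall x δ) / volume (closedBall x δ)) (𝓝[>] 0) (𝓝 1)}

theorem vol_image (g : E ≃ₗᵢ[ℝ] E) (s : Set E) : volume (g '' s) = volume s := by
  have h : g '' s = g.symm ⁻¹' s := g.toEquiv.image_eq_preimage_symm s
  rw [h]
  exact (LinearIsometryEquiv.measurePreserving g.symm).measure_preimage_emb
    g.symm.toHomeomorph.measurableEmbedding s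

theorem image_null (g : E ≃ₗᵢ[ℝ] E) {s : Set E} (hs : NullMeasurableSet s) :
    NullMeasurableSet (g '' s) := by
  have h : g '' s = g.symm ⁻¹' s := g.toEquiv.image_eq_preimage_symm s
  rw [h]
  exact hs.preimage (LinearIsometryEquiv.measurePreserving g.symm).quasiMeasurePreserving

theorem dens_image (g : E ≃ₗᵢ[ℝ] E) (C : Set E) {x : E} (hx : x ∈ Dens C) :
    g x ∈ Dens (g '' C) := by
  have : ∀ δ, volume (g '' C ∩ closedBall (g x) δ) / volume (closedBall (g x) δ)
      = volume (C ∩ closedBall x δ) / volume (closedBall x δ) := by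
    intro δ
    have h1 : closedBall (g x) δ = g '' closedBall x δ := (g.image_closedBall x δ).symm
    rw [h1, ← image_inter g.injective, vol_image, vol_image]
  simp only [Dens, mem_setOf_eq, this]
  exact hx

theorem dens_inv (g : E ≃ₗᵢ[ℝ] E) (C : Set E)
    (h : (volume : Measure E).restrict (g '' C) = (volume : Measure E).restrict C) {x : E}
    (hx : x ∈ Dens C) : g x ∈ Dens C := by
  have h1 := dens_image g C hx
  have : ∀ δ, volume (g '' C ∩ closedBall (g x) δ) = volume (C ∩ closedBall (g x) δ) := by
    intro δ
    rw [inter_comm, ← Measure.restrict_apply measurableSet_closedBall, h,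
      Measure.restrict_apply measurableSet_closedBall, inter_comm]
  simp only [Dens, mem_setOf_eq, this] at h1
  exact h1

theorem dens_disjoint {C D : Set E} (hD : NullMeasurableSet D) (h : Disjoint C D) {x : E}
    (h1 : x ∈ Dens C) (h2 : x ∈ Dens D) : False := by
  have h3 := Tendsto.add (show Tendsto _ _ _ from h1) (show Tendsto _ _ _ from h2)
  have h4 : ∀ᶠ δ in 𝓝[>] (0 : ℝ), volume (C ∩ closedBall x δ) / volume (closedBall x δ)
      + volume (D ∩ closedBall x δ) / volume (closedBall x δ) ≤ 1 := by
    filter_upwards with δ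
    rw [← ENNReal.add_div]
    have h5 : volume (C ∩ closedBall x δ) + volume (D ∩ closedBall x δ)
        ≤ volume (closedBall x δ) := by
      rw [← measure_union₀ (hD.inter measurableSet_closedBall.nullMeasurableSet)
        (h.mono inter_subset_left inter_subset_left).aedisjoint]
      exact measure_mono (union_subset inter_subset_right inter_subset_right)
    exact ENNReal.div_le_of_le_mul (by rw [one_mul]; exact h5)
  have h6 := le_of_tendsto h3 h4
  norm_num at h6

theorem exists_dens (C U : Set E) (hU : MeasurableSet U) (h : volume (C ∩ U) ≠ 0) :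
    ∃ x ∈ U, x ∈ Dens C := by
  have h1 := Besicovitch.ae_tendsto_measure_inter_div (volume : Measure E) C
  by_contra hcon
  push Not at hcon
  apply h
  rw [inter_comm, ← Measure.restrict_apply hU]
  refine measure_mono_null ?_ (ae_iff.mp h1)
  intro x hx
  exact hcon x hx

/-- the moments of `C` -/
noncomputable def mom (C : Set E) (l : ℕ) (w : Fin l → Fin 3) : ℝ := ∫ x in C, mon l w x

theorem mom_image (g : E ≃ₗᵢ[ℝ] E) (C : Set E) (hsub : C ⊆ ball 0 1) (l : ℕ) :
    mom (g '' C) l = tp l (mat g) *ᵥ mom C l := by
  ext w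
  have h1 : ∫ y in g '' C, mon l w y = ∫ x in C, mon l w (g x) :=
    (LinearIsometryEquiv.measurePreserving g).setIntegral_image_emb
      g.toHomeomorph.measurableEmbedding _ C
  simp only [mom]
  rw [h1]
  simp only [mon_comp]
  rw [integral_finsetSum]
  · simp only [Matrix.mulVec, dotProduct]
    exact Finset.sum_congr rfl fun w' _ => integral_const_mul _ _
  · intro w' _
    exact (intOn (mon l w') hsub).const_mul _

theorem image_ball_sub (g : E ≃ₗᵢ[ℝ] E) {C : Set E} (hsub : C ⊆ ball 0 1) :
    g '' C ⊆ ball 0 1 := by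
  have : g '' ball 0 1 = ball 0 1 := by simpa using g.image_ball 0 1
  rw [← this]; exact image_mono hsub

theorem restrict_eq_of_mom {C D : Set E} (hC : C ⊆ ball 0 1) (hD : D ⊆ ball 0 1)
    (h : ∀ l, mom C l = mom D l) :
    (volume : Measure E).restrict C = (volume : Measure E).restrict D := by
  have hfin : ∀ s : Set E, s ⊆ ball 0 1 → IsFiniteMeasure ((volume : Measure E).restrict s) :=
    fun s hs => ⟨by
      rw [Measure.restrict_apply_univ]
      exact lt_of_le_of_lt (measure_mono hs) measure_ball_lt_top⟩
  have := hfin C hC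
  have := hfin D hD
  have hcl : (closedBall (0 : E) 1)ᶜ ∩ ball 0 1 = ∅ := by
    refine Set.ext fun x => ?_
    simp only [mem_inter_iff, mem_compl_iff, mem_closedBall, mem_ball, mem_empty_iff_false,
      iff_false, not_and, not_lt]
    intro h; exact (not_le.mp h).le
  have hz : ∀ s : Set E, s ⊆ ball 0 1 →
      (volume : Measure E).restrict s (closedBall 0 1)ᶜ = 0 := by
    intro s hs
    rw [Measure.restrict_apply measurableSet_closedBall.compl]
    refine measure_mono_null (t := (closedBall (0 : E) 1)ᶜ ∩ ball 0 1) ?_ (by rw [hcl]; simp)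
    exact inter_subset_inter_right _ hs
  exact ext_poly _ _ (hz C hC) (hz D hD) fun l w => congrFun (h l) w

end SphSplit
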