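import Pool.Agent.Zhu.SphCpt

open MeasureTheory Metric Set Filter Matrix Topology

namespace SphSplit

theorem sym_finite (P : Fin 3 → Set E)
    (hm : ∀ i, NullMeasurableSet ((↑) ⁻¹' (P i) : Set (sphere (0 : E) 1))
      (volume : Measure E).toSphere)
    (hd : ∀ i j, i ≠ j → Disjoint (P i) (P j)) (hu : ⋃ i, P i = sphere (0 : E) 1)
    (hc : ∀ i j, ∃ g : E ≃ₗᵢ[ℝ] E, g '' P i = P j) (i j : Fin 3) :
    {t : E ≃ₗᵢ[ℝ] E | ((↑) ⁻¹' (t '' P i) : Set (sphere (0 : E) 1))
      =ᵐ[(volume : Measure E).toSphere] ((↑) ⁻¹' (P j) : Set (sphere (0 : E) 1))}.Finite := by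
  by_contra hcon
  rw [← Set.Infinite] at hcon
  choose g hg using fun j => hc i j
  have himg : ∀ j, g j '' cone (P i) = cone (P j) := by
    intro j; rw [image_cone, hg]
  have hinf : {t : E ≃ₗᵢ[ℝ] E | mat t ∈ Good (cone (P i))}.Infinite := by
    have h1 : Set.InjOn (fun t : E ≃ₗᵢ[ℝ] E => t.trans (g j).symm)
        {t : E ≃ₗᵢ[ℝ] E | ((↑) ⁻¹' (t '' P i) : Set (sphere (0 : E) 1))
          =ᵐ[(volume : Measure E).toSphere] ((↑) ⁻¹' (P j) : Set (sphere (0 : E) 1))} := by
      intro a _ b _ h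
      ext1 x
      have h2 := congrArg (fun f : E ≃ₗᵢ[ℝ] E => f x) h
      exact (g j).symm.injective h2
    refine (hcon.image h1).mono ?_
    rintro _ ⟨t, ht, rfl⟩
    have hrest : (volume : Measure E).restrict (t '' cone (P i))
        = (volume : Measure E).restrict (g j '' cone (P i)) := by
      apply Measure.restrict_congr_set
      rw [himg, image_cone]
      exact cone_ae ht
    have hmom : ∀ l, tp l (mat t) *ᵥ mom (cone (P i)) l
        = tp l (mat (g j)) *ᵥ mom (cone (P i)) l := by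
      intro l
      rw [← mom_image t _ (cone_sub _), ← mom_image (g j) _ (cone_sub _)]
      ext w
      simp only [mom, hrest]
    intro l
    rw [mat_trans, mat_symm, ← tp_mul, ← Matrix.mulVec_mulVec, hmom, Matrix.mulVec_mulVec, tp_mul,
      mat_orth, tp_one, Matrix.one_mulVec]
  obtain ⟨b, hb, hZ⟩ := zonal_of_infinite (cone (P i)) (cone_sub _) hinf
  refine zonal_absurd (cone (P i)) (cone_null _ (hm i)) g ?_ ?_ b hb hZ
  · intro j k hjk
    rw [himg, himg]
    exact cone_disjoint (hd j k hjk)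
  · intro x hx hx0
    have h1 : x ∈ cone (sphere (0 : E) 1) := by rw [cone_sphere]; exact ⟨hx, hx0⟩
    rw [← hu] at h1
    obtain ⟨k1, k2, k3⟩ := h1
    obtain ⟨j, hj⟩ := mem_iUnion.mp k3
    exact ⟨j, by rw [himg]; exact ⟨k1, k2, hj⟩⟩

end SphSplit
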