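import Pool.Agent.Zhu.SphSym

open MeasureTheory Metric Set Filter Matrix Topology

open scoped Pointwise in
theorem SphSplit.cone_zero (N : Set SphSplit.E)
    (hN : (volume : Measure SphSplit.E).toSphere ((↑) ⁻¹' N : Set (sphere (0 : SphSplit.E) 1)) = 0) :
    volume (SphSplit.cone N) = 0 := by
  set T := toMeasurable (volume : Measure SphSplit.E).toSphere
    ((↑) ⁻¹' N : Set (sphere (0 : SphSplit.E) 1)) with hT
  have h1 : (volume : Measure SphSplit.E).toSphere T = 0 := by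
    rw [hT, measure_toMeasurable]; exact hN
  rw [Measure.toSphere_apply' _ (measurableSet_toMeasurable _ _)] at h1
  have h2 : volume (Ioo (0 : ℝ) 1 • ((↑) '' T : Set SphSplit.E)) = 0 := by
    rcases mul_eq_zero.mp h1 with h | h
    · exfalso
      simp at h
    · exact h
  refine measure_mono_null ?_ h2
  rintro x ⟨hx0, hx1, hxN⟩
  have hn : 0 < ‖x‖ := norm_pos_iff.mpr hx0
  refine ⟨‖x‖, ⟨hn, hx1⟩, ‖x‖⁻¹ • x, ?_, ?_⟩
  · have hs : ‖x‖⁻¹ • x ∈ sphere (0 : SphSplit.E) 1 := by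
      rw [mem_sphere_zero_iff_norm, norm_smul, norm_inv, norm_norm]
      exact inv_mul_cancel₀ hn.ne'
    exact ⟨⟨_, hs⟩, subset_toMeasurable _ _ hxN, rfl⟩
  · show ‖x‖ • (‖x‖⁻¹ • x) = x
    rw [smul_smul, mul_inv_cancel₀ hn.ne', one_smul]

namespace SphSplit

theorem cone_ae {A B : Set E}
    (h : ((↑) ⁻¹' A : Set (sphere (0 : E) 1)) =ᵐ[(volume : Measure E).toSphere]
      ((↑) ⁻¹' B : Set (sphere (0 : E) 1))) : cone A =ᵐ[volume] cone B := by
  rw [ae_eq_set] at h ⊢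
  constructor
  · refine measure_mono_null (t := cone (A \ B)) ?_ (cone_zero _ h.1)
    rintro x ⟨⟨h1, h2, h3⟩, h4⟩
    exact ⟨h1, h2, h3, fun h5 => h4 ⟨h1, h2, h5⟩⟩
  · refine measure_mono_null (t := cone (B \ A)) ?_ (cone_zero _ h.2)
    rintro x ⟨⟨h1, h2, h3⟩, h4⟩
    exact ⟨h1, h2, h3, fun h5 => h4 ⟨h1, h2, h5⟩⟩

theorem sym_finite_order (P : Fin 3 → Set E) 
    (hm : ∀ i, NullMeasurableSet ((↑) ⁻¹' (P i) : Set (sphere (0 : E) 1))
      (volume : Measure E).toSphere)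
    (hd : ∀ i j, i ≠ j → Disjoint (P i) (P j)) (hu : ⋃ i, P i = sphere (0 : E) 1)
    (hc : ∀ i j, ∃ g : E ≃ₗᵢ[ℝ] E, g '' P i = P j) (i : Fin 3) (t : E ≃ₗᵢ[ℝ] E)
    (ht : ((↑) ⁻¹' (t '' P i) : Set (sphere (0 : E) 1)) =ᵐ[(volume : Measure E).toSphere]
      ((↑) ⁻¹' (P i) : Set (sphere (0 : E) 1))) : ∃ k : ℕ, k ≠ 0 ∧ t ^ k = 1 := by
  by_contra hcon
  push Not at hcon
  choose g hg using fun j => hc i j
  have himg : ∀ j, g j '' cone (P i) = cone (P j) := by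
    intro j; rw [image_cone, hg]
  have hrest : (volume : Measure E).restrict (t '' cone (P i))
      = (volume : Measure E).restrict (cone (P i)) := by
    apply Measure.restrict_congr_set
    rw [image_cone]
    exact cone_ae ht
  obtain ⟨b, hb, hZ⟩ := zonal_of_inf (cone (P i)) (cone_sub _) t hrest hcon
  refine zonal_absurd (cone (P i)) (cone_null _ (hm i)) g ?_ ?_ b hb hZ
  · intro j k hjk
    rw [himg, himg]
    exact cone_disjoint (hd j k hjk)
  · intro x hx hx0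
    have h1 : x ∈ cone (sphere (0 : E) 1) := by rw [cone_sphere]; exact ⟨hx, hx0⟩
    rw [← hu] at h1
    obtain ⟨k1, k2, k3⟩ := h1
    obtain ⟨j, hj⟩ := mem_iUnion.mp k3
    exact ⟨j, by rw [himg]; exact ⟨k1, k2, hj⟩⟩

end SphSplit
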