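import Mathlib

open MeasureTheory Metric Set Filter

namespace SphSplit

abbrev E := EuclideanSpace ℝ (Fin 3)

def coordC (i : Fin 3) : C(E, ℝ) := ⟨fun x => x i, by fun_prop⟩

theorem integrable_cont (μ : Measure E) [IsFiniteMeasure μ]
    (hμ : μ (closedBall 0 1)ᶜ = 0) (g : C(E, ℝ)) : Integrable g μ := by
  have h1 : μ.restrict (closedBall (0 : E) 1) = μ := by
    apply Measure.restrict_eq_self_of_ae_mem
    rw [ae_iff]; exact hμ
  rw [← h1]
  exact g.continuous.continuousOn.integrableOn_compact (isCompact_closedBall 0 1)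

theorem closure_word (g : C(E, ℝ)) (hg : g ∈ Submonoid.closure (range coordC)) :
    ∃ (l : ℕ) (w : Fin l → Fin 3), ∀ x, g x = ∏ k, x (w k) := by
  induction hg using Submonoid.closure_induction with
  | mem x hx =>
    obtain ⟨i, rfl⟩ := hx
    exact ⟨1, fun _ => i, fun x => by simp [coordC]⟩
  | one => exact ⟨0, Fin.elim0, fun x => by simp⟩
  | mul a b _ _ ha hb =>
    obtain ⟨l, w, hw⟩ := ha
    obtain ⟨m, v, hv⟩ := hb
    refine ⟨l + m, Fin.append w v, fun x => ?_⟩
    rw [ContinuousMap.mul_apply, hw, hv, Fin.prod_univ_add]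
    simp

theorem ext_poly (μ ν : Measure E) [IsFiniteMeasure μ] [IsFiniteMeasure ν]
    (hμ : μ (closedBall 0 1)ᶜ = 0) (hν : ν (closedBall 0 1)ᶜ = 0)
    (h : ∀ (l : ℕ) (w : Fin l → Fin 3),
      ∫ x : E, ∏ k, x (w k) ∂μ = ∫ x : E, ∏ k, x (w k) ∂ν) : μ = ν := by
  have hA : ∀ g ∈ Algebra.adjoin ℝ (range coordC), ∫ x, g x ∂μ = ∫ x, g x ∂ν := by
    intro g hg
    rw [← Subalgebra.mem_toSubmodule, Algebra.adjoin_eq_span] at hg
    induction hg using Submodule.span_induction with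
    | mem x hx =>
      obtain ⟨l, w, hw⟩ := closure_word x hx
      simp only [hw]
      exact h l w
    | zero => simp
    | add x y _ _ hx hy =>
      simp only [ContinuousMap.add_apply]
      rw [integral_add (integrable_cont μ hμ x) (integrable_cont μ hμ y),
        integral_add (integrable_cont ν hν x) (integrable_cont ν hν y), hx, hy]
    | smul a x _ hx =>
      simp only [ContinuousMap.smul_apply]
      rw [integral_smul, integral_smul, hx]
  have hsep : (Algebra.adjoin ℝ (range coordC)).SeparatesPoints := by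
    intro x y hxy
    have : ∃ i, x i ≠ y i := by
      by_contra hcon
      push Not at hcon
      exact hxy (PiLp.ext hcon)
    obtain ⟨i, hi⟩ := this
    exact ⟨coordC i, ⟨coordC i, Algebra.subset_adjoin ⟨i, rfl⟩, rfl⟩, hi⟩
  apply ext_of_forall_integral_eq_of_IsFiniteMeasure
  intro f
  have key : ∀ ε : ℝ, 0 < ε →
      |∫ x, f x ∂μ - ∫ x, f x ∂ν| ≤ ε * μ.real univ + ε * ν.real univ := by
    intro ε hε
    obtain ⟨g, hgA, hg⟩ :=
      ContinuousMap.exists_mem_subalgebra_near_continuous_of_isCompact_of_separatesPoints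
        hsep (f : C(E, ℝ)) (isCompact_closedBall (0 : E) 1) hε
    have hfi : ∀ (κ : Measure E) [IsFiniteMeasure κ], Integrable f κ := fun κ _ => f.integrable κ
    have b : ∀ (κ : Measure E) [IsFiniteMeasure κ] (hκ : κ (closedBall 0 1)ᶜ = 0),
        |∫ x, f x ∂κ - ∫ x, g x ∂κ| ≤ ε * κ.real univ := by
      intro κ _ hκ
      rw [← integral_sub (hfi κ) (integrable_cont κ hκ g), ← Real.norm_eq_abs]
      apply norm_integral_le_of_norm_le_const
      have : ∀ᵐ x ∂κ, x ∈ closedBall (0 : E) 1 := by rw [ae_iff]; exact hκ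
      filter_upwards [this] with x hx
      have := hg x hx
      rw [norm_sub_rev]
      exact this.le
    have e1 := b μ hμ
    have e2 := b ν hν
    rw [← hA g hgA] at e2
    calc |∫ x, f x ∂μ - ∫ x, f x ∂ν|
        = |(∫ x, f x ∂μ - ∫ x, g x ∂μ) - (∫ x, f x ∂ν - ∫ x, g x ∂μ)| := by ring_nf
      _ ≤ |∫ x, f x ∂μ - ∫ x, g x ∂μ| + |∫ x, f x ∂ν - ∫ x, g x ∂μ| := abs_sub _ _
      _ ≤ _ := add_le_add e1 e2
  have h0 : |∫ x, f x ∂μ - ∫ x, f x ∂ν| ≤ 0 := by
    apply le_of_forall_pos_le_add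
    intro δ hδ
    have hc : 0 ≤ μ.real univ + ν.real univ := by positivity
    have := key (δ / (μ.real univ + ν.real univ + 1)) (by positivity)
    refine this.trans ?_
    rw [← mul_add, zero_add, div_mul_eq_mul_div, div_le_iff₀ (by positivity)]
    nlinarith
  exact sub_eq_zero.mp (abs_nonpos_iff.mp h0)

/-- the open cone over a subset of the unit sphere, cut at radius one -/
def cone (A : Set E) : Set E := {x | x ≠ 0 ∧ ‖x‖ < 1 ∧ ‖x‖⁻¹ • x ∈ A}

theorem cone_null (A : Set E)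
    (hA : NullMeasurableSet ((↑) ⁻¹' A : Set (sphere (0 : E) 1)) (volume : Measure E).toSphere) :
    NullMeasurableSet (cone A) (volume : Measure E) := by
  have h1 : NullMeasurableSet
      (((↑) ⁻¹' A : Set (sphere (0 : E) 1)) ×ˢ (Iio (⟨1, mem_Ioi.mpr one_pos⟩ : Ioi (0 : ℝ)) : Set (Ioi (0 : ℝ))))
      ((volume : Measure E).toSphere.prod
        (Measure.volumeIoiPow (Module.finrank ℝ E - 1))) :=
    hA.prod measurableSet_Iio.nullMeasurableSet
  have h2 := h1.preimage
    (Measure.measurePreserving_homeomorphUnitSphereProd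
      (volume : Measure E)).quasiMeasurePreserving
  have h3 := Measure.NullMeasurableSet.subtype_coe
    (measurableSet_singleton (0 : E)).compl.nullMeasurableSet h2
  suffices heq : cone A = (Subtype.val : ({0}ᶜ : Set E) → E) ''
      (homeomorphUnitSphereProd E ⁻¹' (((↑) ⁻¹' A : Set (sphere (0 : E) 1)) ×ˢ
        (Iio (⟨1, mem_Ioi.mpr one_pos⟩ : Ioi (0 : ℝ)) : Set (Ioi (0 : ℝ))))) by
    rw [heq]; exact h3
  refine Set.ext fun x => ?_
  constructor
  · rintro ⟨hx, h, hA⟩
    refine ⟨⟨x, hx⟩, ⟨?_, ?_⟩, rfl⟩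
    · show ((homeomorphUnitSphereProd E ⟨x, hx⟩).1 : E) ∈ A
      simpa using hA
    · show ((homeomorphUnitSphereProd E ⟨x, hx⟩).2 : ℝ) < 1
      simpa using h
  · rintro ⟨⟨y, hy⟩, ⟨h1, h2⟩, rfl⟩
    refine ⟨hy, ?_, ?_⟩
    · have h3 : ((homeomorphUnitSphereProd E ⟨y, hy⟩).2 : ℝ) < 1 := h2
      simpa using h3
    · have h3 : ((homeomorphUnitSphereProd E ⟨y, hy⟩).1 : E) ∈ A := h1
      simpa using h3

end SphSplit
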