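import Pool.Agent.Zhu.SphAlg
import Pool.Agent.Zhu.SphMeas

open MeasureTheory Metric Set Filter Matrix Polynomial

namespace SphSplit

/-- `S²` splits into three pairwise congruent measurable pieces `A`, `ρ A`, `τ A`. -/
def Splits (ρ τ : E ≃ₗᵢ[ℝ] E) : Prop :=
  ∃ A : Set E, A ⊆ sphere (0 : E) 1 ∧
    NullMeasurableSet ((↑) ⁻¹' A : Set (sphere (0 : E) 1)) (volume : Measure E).toSphere ∧
    Disjoint A (ρ '' A) ∧ Disjoint A (τ '' A) ∧ Disjoint (ρ '' A) (τ '' A) ∧
    A ∪ ρ '' A ∪ τ '' A = sphere (0 : E) 1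

/-- the matrix of an isometry -/
noncomputable def mat (ρ : E ≃ₗᵢ[ℝ] E) : Matrix (Fin 3) (Fin 3) ℝ :=
  Matrix.of fun i j => ρ (EuclideanSpace.single j 1) i

theorem mat_apply (ρ : E ≃ₗᵢ[ℝ] E) (x : E) (i : Fin 3) :
    ρ x i = ∑ j, mat ρ i j * x j := by
  have hx : x = ∑ j, x j • (EuclideanSpace.single j (1 : ℝ) : E) := by
    ext k
    simp [Fin.sum_univ_three, Pi.single_apply]
    fin_cases k <;> simp
  conv_lhs => rw [hx]
  rw [map_sum]
  simp only [map_smul, mat, Matrix.of_apply]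
  simp [Fin.sum_univ_three, mul_comm]

theorem mat_orth (ρ : E ≃ₗᵢ[ℝ] E) : (mat ρ)ᵀ * mat ρ = 1 := by
  ext i j
  have h := ρ.inner_map_map (EuclideanSpace.single i (1 : ℝ)) (EuclideanSpace.single j (1 : ℝ))
  rw [EuclideanSpace.inner_single_left] at h
  simp only [Matrix.mul_apply, Matrix.transpose_apply, mat, Matrix.of_apply, Matrix.one_apply]
  rw [PiLp.inner_apply] at h
  simp only [RCLike.inner_apply, conj_trivial] at h
  rw [← Finset.sum_congr rfl fun k _ => mul_comm _ _] at h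
  rw [h]
  simp [Pi.single_apply, eq_comm]

theorem image_cone (ρ : E ≃ₗᵢ[ℝ] E) (A : Set E) : ρ '' cone A = cone (ρ '' A) := by
  refine Set.ext fun x => ⟨?_, ?_⟩
  · rintro ⟨y, ⟨h1, h2, h3⟩, rfl⟩
    refine ⟨by simpa using h1, by simpa using h2, ⟨‖y‖⁻¹ • y, h3, by simp⟩⟩
  · rintro ⟨h1, h2, ⟨y, h3, h4⟩⟩
    refine ⟨ρ.symm x, ⟨by simpa using h1, by simpa using h2, ?_⟩, by simp⟩
    have : ‖ρ.symm x‖⁻¹ • ρ.symm x = y := by
      apply ρ.injective
      rw [h4]; simp
    rw [this]; exact h3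

theorem cone_disjoint {A B : Set E} (h : Disjoint A B) : Disjoint (cone A) (cone B) := by
  rw [Set.disjoint_left] at h ⊢
  rintro x ⟨_, _, hA⟩ ⟨_, _, hB⟩
  exact h hA hB

theorem cone_union (A B : Set E) : cone (A ∪ B) = cone A ∪ cone B := by
  refine Set.ext fun x => ⟨?_, ?_⟩
  · rintro ⟨h1, h2, h3 | h3⟩
    · exact Or.inl ⟨h1, h2, h3⟩
    · exact Or.inr ⟨h1, h2, h3⟩
  · rintro (⟨h1, h2, h3⟩ | ⟨h1, h2, h3⟩)
    · exact ⟨h1, h2, Or.inl h3⟩
    · exact ⟨h1, h2, Or.inr h3⟩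

theorem cone_sphere : cone (sphere (0 : E) 1) = ball 0 1 \ {0} := by
  refine Set.ext fun x => ⟨?_, ?_⟩
  · rintro ⟨h1, h2, _⟩
    exact ⟨by simpa using h2, h1⟩
  · rintro ⟨h1, h2⟩
    have h2' : x ≠ 0 := h2
    refine ⟨h2', by simpa using h1, ?_⟩
    have : ‖x‖ ≠ 0 := norm_ne_zero_iff.mpr h2'
    simp [norm_smul, this]

theorem cone_sub (A : Set E) : cone A ⊆ ball 0 1 := fun x hx => by simpa using hx.2.1

/-- the monomial function of a word -/
noncomputable def mon (l : ℕ) (w : Fin l → Fin 3) : C(E, ℝ) :=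
  ⟨fun x => ∏ k, x (w k), by fun_prop⟩

theorem mon_comp (l : ℕ) (w : Fin l → Fin 3) (ρ : E ≃ₗᵢ[ℝ] E) (x : E) :
    mon l w (ρ x) = ∑ w', tp l (mat ρ) w w' * mon l w' x := by
  simp only [mon, ContinuousMap.coe_mk, tp, Matrix.of_apply]
  simp only [mat_apply]
  rw [Finset.prod_univ_sum, Fintype.piFinset_univ]
  exact Finset.sum_congr rfl fun w' _ => Finset.prod_mul_distrib

theorem intOn (g : C(E, ℝ)) {s : Set E} (hs : s ⊆ ball 0 1) : IntegrableOn g s :=
  (g.continuous.continuousOn.integrableOn_compact (isCompact_closedBall (0 : E) 1)).mono_set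
    (hs.trans ball_subset_closedBall)

/-- the defect functional -/
noncomputable def Fd (C : Set E) (l : ℕ) (w : Fin l → Fin 3) : ℝ :=
  (∫ x in C, mon l w x) - 1 / 3 * ∫ x in ball (0 : E) 1, mon l w x

theorem Fd_relation (ρ τ : E ≃ₗᵢ[ℝ] E) (C : Set E) (hC : NullMeasurableSet C)
    (hsub : C ⊆ ball 0 1) (h1 : Disjoint C (ρ '' C)) (h2 : Disjoint C (τ '' C))
    (h3 : Disjoint (ρ '' C) (τ '' C)) (h4 : C ∪ ρ '' C ∪ τ '' C = ball 0 1 \ {0}) (l : ℕ) :
    Fd C l + tp l (mat ρ) *ᵥ Fd C l + tp l (mat τ) *ᵥ Fd C l = 0 := by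
  have himg : ∀ (σ : E ≃ₗᵢ[ℝ] E) (s : Set E) (g : E → ℝ),
      ∫ y in σ '' s, g y = ∫ x in s, g (σ x) := fun σ s g =>
    (LinearIsometryEquiv.measurePreserving σ).setIntegral_image_emb
      σ.toHomeomorph.measurableEmbedding g s
  have hball : ∀ σ : E ≃ₗᵢ[ℝ] E, σ '' ball 0 1 = ball 0 1 := fun σ => by
    simpa using σ.image_ball 0 1
  have hnull : ∀ σ : E ≃ₗᵢ[ℝ] E, NullMeasurableSet (σ '' C) := fun σ => by
    have : σ '' C = σ.symm ⁻¹' C := by
      exact σ.toEquiv.image_eq_preimage_symm C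
    rw [this]
    exact hC.preimage (LinearIsometryEquiv.measurePreserving σ.symm).quasiMeasurePreserving
  have hlin : ∀ (σ : E ≃ₗᵢ[ℝ] E) (s : Set E), s ⊆ ball 0 1 → ∀ w : Fin l → Fin 3,
      ∫ x in s, mon l w (σ x) = ∑ w', tp l (mat σ) w w' * ∫ x in s, mon l w' x := by
    intro σ s hs w
    simp only [mon_comp]
    rw [integral_finsetSum]
    · exact Finset.sum_congr rfl fun w' _ => integral_const_mul _ _
    · intro w' _
      exact (intOn (mon l w') hs).const_mul _
  ext w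
  have e1 : ∫ x in C ∪ ρ '' C ∪ τ '' C, mon l w x
      = (∫ x in C, mon l w x) + (∫ x in ρ '' C, mon l w x) + ∫ x in τ '' C, mon l w x := by
    have hs1 : ρ '' C ⊆ ball 0 1 := by
      rw [← hball ρ]; exact image_mono hsub
    have hs2 : τ '' C ⊆ ball 0 1 := by
      rw [← hball τ]; exact image_mono hsub
    rw [setIntegral_union₀ (Disjoint.aedisjoint (disjoint_union_left.mpr ⟨h2, h3⟩)) (hnull τ)
      (intOn _ (union_subset hsub hs1)) (intOn _ hs2),
      setIntegral_union₀ h1.aedisjoint (hnull ρ) (intOn _ hsub) (intOn _ hs1)]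
  have e2 : ∫ x in ball (0 : E) 1 \ {0}, mon l w x = ∫ x in ball (0 : E) 1, mon l w x := by
    apply setIntegral_congr_set
    exact sdiff_null_ae_eq_self (measure_singleton _)
  rw [h4, e2, himg, himg, hlin ρ C hsub, hlin τ C hsub] at e1
  have e3 : ∀ σ : E ≃ₗᵢ[ℝ] E, ∫ x in ball (0 : E) 1, mon l w x
      = ∑ w', tp l (mat σ) w w' * ∫ x in ball (0 : E) 1, mon l w' x := by
    intro σ
    rw [← hlin σ _ subset_rfl, ← himg, hball]
  have e4 : ∀ σ : E ≃ₗᵢ[ℝ] E, (tp l (mat σ) *ᵥ Fd C l) w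
      = (∑ w', tp l (mat σ) w w' * ∫ x in C, mon l w' x)
        - 1 / 3 * ∫ x in ball (0 : E) 1, mon l w x := by
    intro σ
    rw [e3 σ]
    simp only [Matrix.mulVec, dotProduct, Fd, mul_sub, Finset.sum_sub_distrib, Finset.mul_sum]
    congr 1
    exact Finset.sum_congr rfl fun w' _ => by ring
  simp only [Pi.add_apply, Pi.zero_apply]
  rw [e4, e4, Fd]
  linarith

theorem no_split (ρ τ : E ≃ₗᵢ[ℝ] E)
    (hker : ∀ (l : ℕ) (F : (Fin l → Fin 3) → ℝ),
      F + tp l (mat ρ) *ᵥ F + tp l (mat τ) *ᵥ F = 0 → F = 0) : ¬ Splits ρ τ := by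
  rintro ⟨A, hA, hm, d1, d2, d3, hu⟩
  have hC := cone_null A hm
  set C := cone A with hCdef
  have hsub : C ⊆ ball 0 1 := cone_sub A
  have h1 : Disjoint C (ρ '' C) := by rw [image_cone]; exact cone_disjoint d1
  have h2 : Disjoint C (τ '' C) := by rw [image_cone]; exact cone_disjoint d2
  have h3 : Disjoint (ρ '' C) (τ '' C) := by
    rw [image_cone, image_cone]; exact cone_disjoint d3
  have h4 : C ∪ ρ '' C ∪ τ '' C = ball 0 1 \ {0} := by
    rw [image_cone, image_cone, ← cone_union, ← cone_union, hu, cone_sphere]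
  have hF : ∀ l w, ∫ x in C, mon l w x = 1 / 3 * ∫ x in ball (0 : E) 1, mon l w x := by
    intro l w
    have := congrFun (hker l _ (Fd_relation ρ τ C hC hsub h1 h2 h3 h4 l)) w
    simp only [Fd, Pi.zero_apply] at this
    linarith
  have hfin : volume (ball (0 : E) 1) ≠ ⊤ := measure_ball_lt_top.ne
  have hCfin : volume C ≠ ⊤ := (lt_of_le_of_lt (measure_mono hsub) measure_ball_lt_top).ne
  haveI : IsFiniteMeasure (volume.restrict C) := ⟨by
    rw [Measure.restrict_apply_univ]; exact hCfin.lt_top⟩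
  haveI : IsFiniteMeasure (volume.restrict (ball (0 : E) 1)) := ⟨by
    rw [Measure.restrict_apply_univ]; exact hfin.lt_top⟩
  have key : volume.restrict C
      = (ENNReal.ofReal (1 / 3)) • volume.restrict (ball (0 : E) 1) := by
    haveI : IsFiniteMeasure ((ENNReal.ofReal (1 / 3)) • volume.restrict (ball (0 : E) 1)) :=
      ⟨by
        rw [Measure.smul_apply, smul_eq_mul]
        exact ENNReal.mul_lt_top ENNReal.ofReal_lt_top (measure_lt_top _ _)⟩
    have hcl : (closedBall (0 : E) 1)ᶜ ∩ ball 0 1 = ∅ := by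
      ext x
      simp only [mem_inter_iff, mem_compl_iff, mem_closedBall, mem_ball, mem_empty_iff_false,
        iff_false, not_and, not_lt]
      intro h; exact (not_le.mp h).le
    apply ext_poly
    · rw [Measure.restrict_apply measurableSet_closedBall.compl]
      refine measure_mono_null (t := (closedBall (0 : E) 1)ᶜ ∩ ball 0 1) ?_ (by rw [hcl]; simp)
      exact inter_subset_inter_right _ hsub
    · rw [Measure.smul_apply, Measure.restrict_apply measurableSet_closedBall.compl, hcl]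
      simp
    · intro l w
      rw [integral_smul_measure]
      rw [ENNReal.toReal_ofReal (by norm_num)]
      exact hF l w
  have k1 := congrArg (fun m : Measure E => m C) key
  have k2 := congrArg (fun m : Measure E => m Cᶜ) key
  simp only [Measure.smul_apply, smul_eq_mul] at k1 k2
  rw [Measure.restrict_apply₀' hC, Measure.restrict_apply' measurableSet_ball] at k1 k2
  rw [inter_self, inter_eq_left.mpr hsub] at k1
  rw [compl_inter_self, measure_empty] at k2
  have k3 : volume C = 0 := by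
    by_contra hne
    have hlt : ENNReal.ofReal (1 / 3) * volume C < 1 * volume C := by
      apply ENNReal.mul_lt_mul_left hne hCfin
      rw [ENNReal.ofReal_lt_one]; norm_num
    rw [one_mul, ← k1] at hlt
    exact lt_irrefl _ hlt
  have k4 : volume (Cᶜ ∩ ball (0 : E) 1) = 0 := by
    rcases mul_eq_zero.mp k2.symm with h | h
    · exfalso
      rw [ENNReal.ofReal_eq_zero] at h
      norm_num at h
    · exact h
  have k5 : volume (ball (0 : E) 1) = 0 := by
    refine measure_mono_null (t := C ∪ (Cᶜ ∩ ball (0 : E) 1)) ?_ (measure_union_null k3 k4)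
    intro x hx
    by_cases hxC : x ∈ C
    · exact Or.inl hxC
    · exact Or.inr ⟨hxC, hx⟩
  exact (measure_ball_pos volume (0 : E) one_pos).ne' k5

end SphSplit
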