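import Pool.Agent.Zhu.SphDens

open MeasureTheory Metric Set Filter Matrix Topology

namespace SphSplit

/-- rotation about the axis `Q e₃` -/
noncomputable def rotQ (Q : E ≃ₗᵢ[ℝ] E) (φ : ℝ) : E ≃ₗᵢ[ℝ] E := (Q.symm.trans (rot3 φ)).trans Q

theorem rotQ_add (Q : E ≃ₗᵢ[ℝ] E) (φ ψ : ℝ) :
    rotQ Q (φ + ψ) = (rotQ Q φ).trans (rotQ Q ψ) := by
  ext x
  simp [rotQ, rot3_add]

theorem mat_rotQ_add (Q : E ≃ₗᵢ[ℝ] E) (φ ψ : ℝ) :
    mat (rotQ Q (φ + ψ)) = mat (rotQ Q ψ) * mat (rotQ Q φ) := by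
  rw [rotQ_add, mat_trans]

theorem rotQ_two_pi (Q : E ≃ₗᵢ[ℝ] E) : rotQ Q (2 * Real.pi) = LinearIsometryEquiv.refl ℝ E := by
  ext x
  simp [rotQ, rot3_two_pi]

theorem rotQ_zero (Q : E ≃ₗᵢ[ℝ] E) : rotQ Q 0 = LinearIsometryEquiv.refl ℝ E := by
  have h : rotQ Q 0 = (rotQ Q 0).trans (rotQ Q 0) := by
    conv_lhs => rw [← add_zero (0 : ℝ)]
    rw [rotQ_add]
  ext x : 1
  have h2 := congrArg (fun f : E ≃ₗᵢ[ℝ] E => f x) h
  simp only [LinearIsometryEquiv.trans_apply] at h2
  have h3 := (rotQ Q 0).injective h2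
  simpa using h3.symm

theorem rotQ_cont (Q : E ≃ₗᵢ[ℝ] E) (i j : Fin 3) : Continuous fun φ => mat (rotQ Q φ) i j := by
  have h : ∀ φ, mat (rotQ Q φ) = mat Q * (mat (rot3 φ) * mat Q.symm) := by
    intro φ; rw [rotQ, mat_trans, mat_trans]
  have h2 : ∀ i j, Continuous fun φ => mat (rot3 φ) i j := by
    intro i j
    simp only [mat_rot3]
    fin_cases i <;> fin_cases j <;> simp <;> fun_prop
  simp only [h, Matrix.mul_apply]
  fun_prop

theorem rotQ_circle (Q : E ≃ₗᵢ[ℝ] E) (b : E) (hb : Q (EuclideanSpace.single 2 1) = b) (x y : E)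
    (hn : ‖y‖ = ‖x‖) (hi : inner ℝ y b = inner ℝ x b) : ∃ φ, rotQ Q φ x = y := by
  have key : ∀ z : E, (Q.symm z) 2 = inner ℝ z b := by
    intro z
    have h1 : inner ℝ (Q.symm z) (EuclideanSpace.single 2 (1 : ℝ)) = inner ℝ z b := by
      rw [← hb, ← Q.inner_map_map, Q.apply_symm_apply]
    rw [← h1, EuclideanSpace.inner_single_right]
    simp
  obtain ⟨φ, hφ⟩ := rot3_trans (Q.symm x) (Q.symm y) (by simpa using hn)
    (by rw [key, key, hi])
  refine ⟨φ, ?_⟩
  simp [rotQ, hφ]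

/-- the set of angles whose rotation preserves the moments is everything, once it contains an
angle of infinite order -/
theorem all_angles (Q : E ≃ₗᵢ[ℝ] E) (C : Set E) (α : ℝ)
    (hα : ∀ l, tp l (mat (rotQ Q α)) *ᵥ mom C l = mom C l)
    (hord : ∀ n : ℤ, n ≠ 0 → rotQ Q (n * α) ≠ LinearIsometryEquiv.refl ℝ E) (φ : ℝ) :
    ∀ l, tp l (mat (rotQ Q φ)) *ᵥ mom C l = mom C l := by
  let S : AddSubgroup ℝ :=
    { carrier := {φ | ∀ l, tp l (mat (rotQ Q φ)) *ᵥ mom C l = mom C l}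
      add_mem' := by
        intro a b ha hb l
        rw [mat_rotQ_add, ← tp_mul, ← Matrix.mulVec_mulVec, ha l, hb l]
      zero_mem' := by
        intro l
        rw [rotQ_zero, mat_refl, tp_one, Matrix.one_mulVec]
      neg_mem' := by
        intro a ha l
        have h1 : tp l (mat (rotQ Q (-a))) * tp l (mat (rotQ Q a)) = 1 := by
          rw [tp_mul, ← mat_rotQ_add, add_neg_cancel, rotQ_zero, mat_refl, tp_one]
        conv_lhs => rw [← ha l]
        rw [Matrix.mulVec_mulVec, h1, Matrix.one_mulVec] }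
  have hS : ∀ ψ, ψ ∈ S ↔ ∀ l, tp l (mat (rotQ Q ψ)) *ᵥ mom C l = mom C l := fun ψ => Iff.rfl
  have h2pi : 2 * Real.pi ∈ S := by
    rw [hS]; intro l
    rw [rotQ_two_pi, mat_refl, tp_one, Matrix.one_mulVec]
  have hclosed : IsClosed (S : Set ℝ) := by
    have : (S : Set ℝ) = ⋂ (l : ℕ), ⋂ (w : Fin l → Fin 3),
        {ψ | (tp l (mat (rotQ Q ψ)) *ᵥ mom C l) w = mom C l w} := by
      refine Set.ext fun ψ => ?_
      simp only [SetLike.mem_coe, hS, mem_iInter, mem_setOf_eq]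
      exact ⟨fun h l w => congrFun (h l) w, fun h l => funext (h l)⟩
    rw [this]
    refine isClosed_iInter fun l => isClosed_iInter fun w => isClosed_eq ?_ continuous_const
    simp only [Matrix.mulVec, dotProduct, tp, Matrix.of_apply]
    refine continuous_finsetSum _ fun w' _ => Continuous.mul ?_ continuous_const
    exact continuous_finset_prod _ fun k _ => rotQ_cont Q _ _
  rcases S.dense_or_cyclic with hd | ⟨a, ha⟩
  · have : (S : Set ℝ) = univ := by
      rw [← hclosed.closure_eq]; exact hd.closure_eq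
    have h3 : φ ∈ (S : Set ℝ) := by rw [this]; trivial
    exact h3
  · exfalso
    rw [ha, AddSubgroup.mem_closure_singleton] at h2pi
    have hα' : α ∈ S := hα
    rw [ha, AddSubgroup.mem_closure_singleton] at hα'
    obtain ⟨n, hn⟩ := h2pi
    obtain ⟨m, hm⟩ := hα'
    have hn0 : n ≠ 0 := by
      intro h0
      rw [h0, zero_smul] at hn
      exact (by positivity : (2 * Real.pi) ≠ 0) hn.symm
    apply hord n hn0
    have h4 : (n : ℝ) * α = m * (2 * Real.pi) := by
      rw [← hm, ← hn]; simp only [zsmul_eq_mul]; ring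
    rw [h4]
    have h5 : ∀ k : ℕ, rotQ Q (k * (2 * Real.pi)) = LinearIsometryEquiv.refl ℝ E := by
      intro k
      induction k with
      | zero => simpa using rotQ_zero Q
      | succ k ih =>
        have : ((k + 1 : ℕ) : ℝ) * (2 * Real.pi) = k * (2 * Real.pi) + 2 * Real.pi := by
          push_cast; ring
        rw [this, rotQ_add, ih, rotQ_two_pi]
        rfl
    rcases Int.eq_nat_or_neg m with ⟨k, rfl | rfl⟩
    · exact_mod_cast h5 k
    · have h6 : rotQ Q (((-(k : ℤ) : ℤ) : ℝ) * (2 * Real.pi) + k * (2 * Real.pi))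
          = LinearIsometryEquiv.refl ℝ E := by
        have : (((-(k : ℤ) : ℤ) : ℝ) * (2 * Real.pi) + k * (2 * Real.pi)) = 0 := by
          push_cast; ring
        rw [this, rotQ_zero]
      rw [rotQ_add, h5 k] at h6
      exact h6

end SphSplit
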