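import Pool.Agent.Zhu.SphMain

open MeasureTheory Metric Set Filter Matrix

namespace SphSplit

theorem mat_trans (f g : E ≃ₗᵢ[ℝ] E) : mat (f.trans g) = mat g * mat f := by
  ext i j
  rw [Matrix.mul_apply]
  have := mat_apply g (f (EuclideanSpace.single j 1)) i
  simpa [mat] using this

theorem mat_refl : mat (LinearIsometryEquiv.refl ℝ E) = 1 := by
  ext i j
  simp [mat, Matrix.one_apply, Pi.single_apply]

theorem mat_inj {f g : E ≃ₗᵢ[ℝ] E} (h : mat f = mat g) : f = g := by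
  ext x i
  rw [mat_apply, mat_apply, h]

/-- rotation about the third axis, as a linear map -/
noncomputable def rot3Lin (φ : ℝ) : E →ₗ[ℝ] E where
  toFun x := !₂[Real.cos φ * x 0 - Real.sin φ * x 1, Real.sin φ * x 0 + Real.cos φ * x 1, x 2]
  map_add' x y := by
    ext i; fin_cases i <;> simp <;> ring
  map_smul' c x := by
    ext i; fin_cases i <;> simp <;> ring

theorem rot3Lin_norm (φ : ℝ) (x : E) : ‖rot3Lin φ x‖ = ‖x‖ := by
  rw [EuclideanSpace.norm_eq, EuclideanSpace.norm_eq]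
  congr 1
  simp only [Fin.sum_univ_three, rot3Lin, LinearMap.coe_mk, AddHom.coe_mk, Real.norm_eq_abs,
    sq_abs]
  simp
  nlinarith [Real.sin_sq_add_cos_sq φ]

/-- rotation about the third axis -/
noncomputable def rot3 (φ : ℝ) : E ≃ₗᵢ[ℝ] E :=
  LinearIsometry.toLinearIsometryEquiv ⟨rot3Lin φ, rot3Lin_norm φ⟩ rfl

theorem rot3_apply (φ : ℝ) (x : E) : rot3 φ x =
    !₂[Real.cos φ * x 0 - Real.sin φ * x 1, Real.sin φ * x 0 + Real.cos φ * x 1, x 2] := rfl

theorem mat_rot3 (φ : ℝ) : mat (rot3 φ) =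
    !![Real.cos φ, -Real.sin φ, 0; Real.sin φ, Real.cos φ, 0; 0, 0, 1] := by
  ext i j
  simp only [mat, Matrix.of_apply, rot3_apply]
  fin_cases i <;> fin_cases j <;> simp

theorem rot3_add (φ ψ : ℝ) : rot3 (φ + ψ) = (rot3 φ).trans (rot3 ψ) := by
  apply mat_inj
  rw [mat_trans, mat_rot3, mat_rot3, mat_rot3]
  ext i j
  fin_cases i <;> fin_cases j <;>
    simp [Matrix.mul_apply, Fin.sum_univ_three, Real.cos_add, Real.sin_add] <;> ring

theorem rot3_two_pi : rot3 (2 * Real.pi) = LinearIsometryEquiv.refl ℝ E := by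
  apply mat_inj
  rw [mat_rot3, mat_refl]
  ext i j
  fin_cases i <;> fin_cases j <;> simp

theorem exists_angle (p r : ℝ) (h : p ^ 2 + r ^ 2 = 1) :
    ∃ α, Real.cos α = p ∧ Real.sin α = r := by
  have hn : ‖(⟨p, r⟩ : ℂ)‖ = 1 := by
    rw [Complex.norm_def, Complex.normSq_mk, Real.sqrt_eq_one]
    nlinarith
  have hne : (⟨p, r⟩ : ℂ) ≠ 0 := by
    intro h0; rw [h0, norm_zero] at hn; exact zero_ne_one hn
  refine ⟨Complex.arg ⟨p, r⟩, ?_, ?_⟩
  · rw [Complex.cos_arg hne, hn]; simp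
  · rw [Complex.sin_arg, hn]; simp

/-- an orthogonal matrix of determinant one fixing the third axis is a rotation about it -/
theorem eq_rot3 (g : E ≃ₗᵢ[ℝ] E) (hd : (mat g).det = 1)
    (hfix : g (EuclideanSpace.single 2 1) = EuclideanSpace.single 2 1) : ∃ α, g = rot3 α := by
  have h1 := mat_orth g
  have h2 : mat g * (mat g)ᵀ = 1 := mul_eq_one_comm.mp h1
  have c02 : mat g 0 2 = 0 := by simp [mat, hfix]
  have c12 : mat g 1 2 = 0 := by simp [mat, hfix]
  have c22 : mat g 2 2 = 1 := by simp [mat, hfix]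
  have r22 := congrFun (congrFun h2 2) 2
  simp only [Matrix.mul_apply, Fin.sum_univ_three, Matrix.transpose_apply, Matrix.one_apply_eq,
    c22] at r22
  have r20 : mat g 2 0 = 0 := by nlinarith [sq_nonneg (mat g 2 0), sq_nonneg (mat g 2 1)]
  have r21 : mat g 2 1 = 0 := by nlinarith [sq_nonneg (mat g 2 0), sq_nonneg (mat g 2 1)]
  have e00 := congrFun (congrFun h1 0) 0
  have e11 := congrFun (congrFun h1 1) 1
  simp only [Matrix.mul_apply, Fin.sum_univ_three, Matrix.transpose_apply, Matrix.one_apply_eq,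
    r20, r21] at e00 e11
  rw [Matrix.det_fin_three, c02, c12, c22, r20, r21] at hd
  have hs : mat g 1 1 = mat g 0 0 := by
    nlinarith [sq_nonneg (mat g 1 1 - mat g 0 0), sq_nonneg (mat g 0 1 + mat g 1 0)]
  have hq : mat g 0 1 = -mat g 1 0 := by
    nlinarith [sq_nonneg (mat g 1 1 - mat g 0 0), sq_nonneg (mat g 0 1 + mat g 1 0)]
  obtain ⟨α, ha, hb⟩ := exists_angle (mat g 0 0) (mat g 1 0) (by nlinarith)
  refine ⟨α, mat_inj ?_⟩
  rw [mat_rot3]
  ext i j
  fin_cases i <;> fin_cases j <;> simp [ha, hb, c02, c12, c22, r20, r21, hs, hq]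

theorem rot3_trans (x y : E) (hn : ‖y‖ = ‖x‖) (h2 : y 2 = x 2) : ∃ φ, rot3 φ x = y := by
  have hsq : y 0 ^ 2 + y 1 ^ 2 = x 0 ^ 2 + x 1 ^ 2 := by
    have := congrArg (fun z => z ^ 2) hn
    simp only [EuclideanSpace.norm_sq_eq, Fin.sum_univ_three, Real.norm_eq_abs, sq_abs] at this
    rw [h2] at this
    linarith
  by_cases h0 : x 0 ^ 2 + x 1 ^ 2 = 0
  · have hx0 : x 0 = 0 := by nlinarith [sq_nonneg (x 0), sq_nonneg (x 1)]
    have hx1 : x 1 = 0 := by nlinarith [sq_nonneg (x 0), sq_nonneg (x 1)]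
    have hy0 : y 0 = 0 := by nlinarith [sq_nonneg (y 0), sq_nonneg (y 1)]
    have hy1 : y 1 = 0 := by nlinarith [sq_nonneg (y 0), sq_nonneg (y 1)]
    refine ⟨0, ?_⟩
    rw [rot3_apply]
    ext i
    fin_cases i <;> simp [hx0, hx1, hy0, hy1, h2]
  · set d := x 0 ^ 2 + x 1 ^ 2 with hd
    obtain ⟨φ, hc, hs⟩ := exists_angle ((y 0 * x 0 + y 1 * x 1) / d)
      ((y 1 * x 0 - y 0 * x 1) / d) (by
        rw [div_pow, div_pow, ← add_div, div_eq_one_iff_eq (pow_ne_zero 2 h0)]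
        have : (y 0 * x 0 + y 1 * x 1) ^ 2 + (y 1 * x 0 - y 0 * x 1) ^ 2
          = (y 0 ^ 2 + y 1 ^ 2) * (x 0 ^ 2 + x 1 ^ 2) := by ring
        rw [this, hsq, ← hd]; ring)
    refine ⟨φ, ?_⟩
    rw [rot3_apply, hc, hs]
    have k0 : (y 0 * x 0 + y 1 * x 1) / d * x 0 - (y 1 * x 0 - y 0 * x 1) / d * x 1 = y 0 := by
      field_simp
      rw [hd]; ring
    have k1 : (y 1 * x 0 - y 0 * x 1) / d * x 0 + (y 0 * x 0 + y 1 * x 1) / d * x 1 = y 1 := by
      field_simp
      rw [hd]; ring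
    ext i
    fin_cases i
    · simpa using k0
    · simpa using k1
    · simp [h2]

theorem det_mat_sq (g : E ≃ₗᵢ[ℝ] E) : (mat g).det ^ 2 = 1 := by
  have := congrArg Matrix.det (mat_orth g)
  rw [Matrix.det_mul, Matrix.det_transpose, Matrix.det_one] at this
  rw [sq]; exact this

/-- the square of an isometry has a unit fixed vector -/
theorem exists_fixed (g : E ≃ₗᵢ[ℝ] E) (hd : (mat g).det = 1) : ∃ b : E, ‖b‖ = 1 ∧ g b = b := by
  have h2 : mat g * (mat g)ᵀ = 1 := mul_eq_one_comm.mp (mat_orth g)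
  have h3 : (mat g - 1).det = 0 := by
    have e1 : mat g - 1 = mat g * (1 - (mat g)ᵀ) := by
      rw [mul_sub, mul_one, h2]
    have e2 : (1 - (mat g)ᵀ).det = (1 - mat g).det := by
      rw [← Matrix.det_transpose, Matrix.transpose_sub, Matrix.transpose_one,
        Matrix.transpose_transpose]
    have e3 : (1 - mat g).det = -(mat g - 1).det := by
      rw [← neg_sub, Matrix.det_neg]; simp; norm_num
    have := congrArg Matrix.det e1
    rw [Matrix.det_mul, hd, e2, e3] at this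
    linarith
  obtain ⟨v, hv, hv0⟩ := Matrix.exists_mulVec_eq_zero_iff.mpr h3
  set x : E := WithLp.toLp 2 v with hx
  have hxne : x ≠ 0 := by
    intro h; apply hv; ext i
    have := congrArg (fun z : E => z i) h
    simpa [hx] using this
  have hgx : g x = x := by
    ext i
    rw [mat_apply]
    have := congrFun hv0 i
    rw [Matrix.sub_mulVec, Matrix.one_mulVec, Pi.sub_apply, Pi.zero_apply, sub_eq_zero] at this
    simpa [Matrix.mulVec, dotProduct, hx] using this
  refine ⟨‖x‖⁻¹ • x, ?_, ?_⟩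
  · rw [norm_smul, norm_inv, norm_norm]
    exact inv_mul_cancel₀ (norm_ne_zero_iff.mpr hxne)
  · rw [map_smul, hgx]

end SphSplit
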