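import Pool.Agent.Zhu.SphThree

open MeasureTheory Metric Set Filter Matrix Topology

namespace SphSplit

theorem exists_orth (u v : E) : ∃ w : E, w ≠ 0 ∧ inner ℝ w u = 0 ∧ inner ℝ w v = 0 := by
  let f : E →ₗ[ℝ] ℝ × ℝ := (innerₛₗ ℝ u).prod (innerₛₗ ℝ v)
  have hf : LinearMap.ker f ≠ ⊥ := by
    apply LinearMap.ker_ne_bot_of_finrank_lt
    simp
  obtain ⟨w, hw, hw0⟩ := Submodule.exists_mem_ne_zero_of_ne_bot hf
  have h1 : f w = 0 := hw
  have h2 : inner ℝ u w = 0 := congrArg Prod.fst h1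
  have h3 : inner ℝ v w = 0 := congrArg Prod.snd h1
  exact ⟨w, hw0, by rw [real_inner_comm]; exact h2, by rw [real_inner_comm]; exact h3⟩

theorem zonal_of_inf (C : Set E) (hsub : C ⊆ ball 0 1) (t : E ≃ₗᵢ[ℝ] E)
    (hrest : (volume : Measure E).restrict (t '' C) = (volume : Measure E).restrict C)
    (hinf : ∀ k : ℕ, k ≠ 0 → t ^ k ≠ 1) :
    ∃ b : E, ‖b‖ = 1 ∧ ∀ x y : E, x ∈ Dens C → ‖y‖ = ‖x‖ → inner ℝ y b = inner ℝ x b →
      y ∈ Dens C := by
  have hmt : ∀ l, tp l (mat t) *ᵥ mom C l = mom C l := by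
    intro l
    rw [← mom_image t C hsub]
    ext w
    simp only [mom, hrest]
  set g := t.trans t with hg
  have hmg : ∀ l, tp l (mat g) *ᵥ mom C l = mom C l := by
    intro l
    rw [hg, mat_trans, ← tp_mul, ← Matrix.mulVec_mulVec, hmt, hmt]
  have hdg : (mat g).det = 1 := by
    rw [hg, mat_trans, Matrix.det_mul, ← sq]; exact det_mat_sq t
  obtain ⟨b, hb, hgb⟩ := exists_fixed g hdg
  obtain ⟨Q, hQ⟩ := exists_Q b hb
  have hg' : ∃ α, (Q.trans g).trans Q.symm = rot3 α := by
    apply eq_rot3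
    · rw [mat_trans, mat_trans, Matrix.det_mul, Matrix.det_mul, hdg, one_mul, ← Matrix.det_mul,
        ← mat_trans, LinearIsometryEquiv.self_trans_symm, mat_refl, Matrix.det_one]
    · simp only [LinearIsometryEquiv.trans_apply, hQ, hgb]
      rw [← hQ, LinearIsometryEquiv.symm_apply_apply]
  obtain ⟨α, hα⟩ := hg'
  have hgα : rotQ Q α = g := by
    rw [rotQ, ← hα]
    ext x
    simp
  have hgpow : ∀ k : ℕ, rotQ Q (k * α) = g ^ k := by
    intro k
    induction k with
    | zero => rw [pow_zero, Nat.cast_zero, zero_mul, rotQ_zero]; rfl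
    | succ k ih =>
      have : ((k + 1 : ℕ) : ℝ) * α = k * α + α := by push_cast; ring
      rw [this, rotQ_add, ih, hgα, pow_succ']
      rfl
  have hg2 : g = t ^ 2 := by rw [hg, sq]; rfl
  have hord : ∀ n : ℤ, n ≠ 0 → rotQ Q (n * α) ≠ LinearIsometryEquiv.refl ℝ E := by
    have hnat : ∀ k : ℕ, k ≠ 0 → rotQ Q (k * α) ≠ LinearIsometryEquiv.refl ℝ E := by
      intro k hk h
      rw [hgpow, hg2, ← pow_mul] at h
      exact hinf (2 * k) (by positivity) h
    intro n hn h
    rcases Int.eq_nat_or_neg n with ⟨k, rfl | rfl⟩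
    · exact hnat k (by exact_mod_cast hn) (by exact_mod_cast h)
    · have hk : k ≠ 0 := by
        intro h0; apply hn; rw [h0]; simp
      apply hnat k hk
      have h7 : rotQ Q (((-(k : ℤ) : ℤ) : ℝ) * α + k * α) = LinearIsometryEquiv.refl ℝ E := by
        have : (((-(k : ℤ) : ℤ) : ℝ) * α + k * α) = 0 := by push_cast; ring
        rw [this, rotQ_zero]
      rw [rotQ_add, h] at h7
      exact h7
  have hall := all_angles Q C α (by rw [hgα]; exact hmg) hord
  refine ⟨b, hb, ?_⟩
  intro x y hx hn hi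
  obtain ⟨φ, rfl⟩ := rotQ_circle Q b hQ x y hn hi
  apply dens_inv _ _ _ hx
  apply restrict_eq_of_mom (image_ball_sub _ hsub) hsub
  intro l
  rw [mom_image _ _ hsub]
  exact hall φ l

theorem exists_dens_cover (C : Fin 3 → Set E)
    (hcov : ∀ x, x ∈ ball (0 : E) 1 → x ≠ 0 → ∃ i, x ∈ C i) (V : Set E) (hV : IsOpen V)
    (hVb : V ⊆ ball 0 1) (hne : V.Nonempty) : ∃ k, ∃ x ∈ V, x ∈ Dens (C k) := by
  by_contra hcon
  push Not at hcon
  have h0 : ∀ k, volume (C k ∩ V) = 0 := by
    intro k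
    by_contra h
    obtain ⟨x, hxV, hx⟩ := exists_dens (C k) V hV.measurableSet h
    exact hcon k x hxV hx
  apply (hV.measure_pos volume hne).ne'
  refine measure_mono_null (t := {0} ∪ ⋃ k, (C k ∩ V)) ?_ ?_
  · intro z hz
    by_cases hz0 : z = 0
    · left; exact hz0
    · obtain ⟨i, hi⟩ := hcov z (hVb hz) hz0
      right; exact mem_iUnion.mpr ⟨i, hi, hz⟩
  · exact measure_union_null (measure_singleton _) (measure_iUnion_null h0)

theorem zonal_absurd (C : Set E) (hC : NullMeasurableSet C)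
    (g : Fin 3 → (E ≃ₗᵢ[ℝ] E)) (hdis : ∀ i j, i ≠ j → Disjoint (g i '' C) (g j '' C))
    (hcov : ∀ x, x ∈ ball (0 : E) 1 → x ≠ 0 → ∃ i, x ∈ g i '' C) (b : E) (hb : ‖b‖ = 1)
    (hZ : ∀ x y : E, x ∈ Dens C → ‖y‖ = ‖x‖ → inner ℝ y b = inner ℝ x b → y ∈ Dens C) :
    False := by
  -- transport of density points
  have hT : ∀ (k i : Fin 3) (x y : E), x ∈ Dens (g k '' C) → ‖y‖ = ‖x‖ →
      inner ℝ y (g i b) = inner ℝ x (g k b) → y ∈ Dens (g i '' C) := by
    intro k i x y hx hn hi
    have h1 : (g k).symm x ∈ Dens C := by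
      have := dens_image (g k).symm _ hx
      have h2 : (g k).symm '' (g k '' C) = C := by
        rw [image_image]; simp
      rwa [h2] at this
    have h2 : ∀ (j : Fin 3) (z : E), inner ℝ ((g j).symm z) b = inner ℝ z (g j b) := by
      intro j z
      rw [← (g j).inner_map_map, (g j).apply_symm_apply]
    have h3 : (g i).symm y ∈ Dens C := by
      apply hZ _ _ h1
      · simpa using hn
      · rw [h2, h2]; exact hi
    have h4 := dens_image (g i) C h3
    rwa [(g i).apply_symm_apply] at h4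
  have habs : ∀ (i j : Fin 3) (z : E), i ≠ j → z ∈ Dens (g i '' C) → z ∈ Dens (g j '' C) →
      False := fun i j z hij h1 h2 => dens_disjoint (image_null (g j) hC) (hdis i j hij) h1 h2
  set B : Fin 3 → E := fun i => g i b with hB
  have hBB : ∀ i, inner ℝ (B i) (B i) = 1 := by
    intro i
    rw [hB, (g i).inner_map_map, real_inner_self_eq_norm_sq, hb]; norm_num
  have hBn : ∀ i, ‖B i‖ = 1 := by intro i; rw [hB]; simp [hb]
  -- the closest pair of axes
  obtain ⟨p, hp, hmax⟩ := Finset.exists_max_image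
    (Finset.univ.filter (fun p : Fin 3 × Fin 3 => p.1 ≠ p.2))
    (fun p => inner ℝ (B p.1) (B p.2)) ⟨(0, 1), by simp⟩
  obtain ⟨i, j⟩ := p
  have hij : i ≠ j := by simpa using hp
  have hmax' : ∀ k l, k ≠ l → inner ℝ (B k) (B l) ≤ inner ℝ (B i) (B j) := by
    intro k l hkl
    exact hmax (k, l) (by simp [hkl])
  set c := inner ℝ (B i) (B j) with hc
  have hcji : inner ℝ (B j) (B i) = c := by rw [real_inner_comm]
  have hσ : inner ℝ (B 0 + B 1 + B 2) (B 0 + B 1 + B 2) ≤ 3 + 6 * c := by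
    simp only [inner_add_left, inner_add_right, hBB]
    have h01 := hmax' 0 1 (by decide)
    have h10 := hmax' 1 0 (by decide)
    have h02 := hmax' 0 2 (by decide)
    have h20 := hmax' 2 0 (by decide)
    have h12 := hmax' 1 2 (by decide)
    have h21 := hmax' 2 1 (by decide)
    linarith
  have hcpos : 0 < 1 + c := by
    have : 0 ≤ inner ℝ (B 0 + B 1 + B 2) (B 0 + B 1 + B 2) := real_inner_self_nonneg
    linarith
  have hc1 : c < 1 := by
    have hle : c ≤ 1 := by
      have := real_inner_le_norm (B i) (B j)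
      rw [hBn, hBn, mul_one] at this; exact this
    rcases hle.lt_or_eq with h | h
    · exact h
    · exfalso
      have hBij : B i = B j := (inner_eq_one_iff_of_norm_eq_one (hBn i) (hBn j)).mp h
      obtain ⟨k, x, _, hx⟩ := exists_dens_cover (fun k => g k '' C) hcov (ball 0 1) isOpen_ball
        subset_rfl ⟨0, by simp⟩
      have hy : g i ((g k).symm x) ∈ Dens (g i '' C) := by
        apply hT k i x _ hx (by simp)
        rw [(g i).inner_map_map, ← (g k).inner_map_map, (g k).apply_symm_apply]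
      refine habs i j _ hij hy (hT i j _ _ hy rfl ?_)
      show inner ℝ _ (B j) = inner ℝ _ (B i)
      rw [hBij]
  have hbad : ∀ (k : Fin 3) (x : E), x ∈ Dens (g k '' C) →
      ¬ (inner ℝ x (B k)) ^ 2 ≤ (1 + c) / 2 * inner ℝ x x := by
    intro k x hx hle
    obtain ⟨w, hw0, hwb, hwr⟩ := exists_orth (B i) (B j)
    have hwpos : 0 < inner ℝ w w := real_inner_self_pos.mpr hw0
    set m := B i + B j with hmdef
    have hmb : inner ℝ m (B i) = 1 + c := by
      rw [hmdef, inner_add_left, hBB, hcji]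
    have hmr : inner ℝ m (B j) = 1 + c := by
      rw [hmdef, inner_add_left, hBB, ← hc]; ring
    have hmm : inner ℝ m m = 2 * (1 + c) := by
      conv_lhs => rw [hmdef]
      rw [inner_add_right, hmb, hmr]
      ring
    have hwm : inner ℝ w m = 0 := by
      conv_lhs => rw [hmdef]
      rw [inner_add_right, hwb, hwr, add_zero]
    set a := inner ℝ x (B k) with ha
    set q := inner ℝ x x - 2 * a ^ 2 / (1 + c) with hq
    have hq0 : 0 ≤ q := by
      rw [hq, sub_nonneg, div_le_iff₀ hcpos]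
      linarith
    set κ := Real.sqrt (q / inner ℝ w w) with hκ
    have hκ2 : κ ^ 2 * inner ℝ w w = q := by
      rw [hκ, Real.sq_sqrt (by positivity)]
      field_simp
    set z := (a / (1 + c)) • m + κ • w with hz
    have hzb : inner ℝ z (B i) = a := by
      rw [hz, inner_add_left, real_inner_smul_left, real_inner_smul_left, hmb, hwb]
      field_simp; ring
    have hzr : inner ℝ z (B j) = a := by
      rw [hz, inner_add_left, real_inner_smul_left, real_inner_smul_left, hmr, hwr]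
      field_simp; ring
    have hzz : inner ℝ z z = inner ℝ x x := by
      rw [hz, inner_add_add_self]
      simp only [real_inner_smul_left, real_inner_smul_right]
      rw [hmm, real_inner_comm w m, hwm]
      have : κ * (κ * inner ℝ w w) = q := by rw [← hκ2]; ring
      rw [this, hq]
      field_simp
      ring
    have hzn : ‖z‖ = ‖x‖ := by
      rw [real_inner_self_eq_norm_sq, real_inner_self_eq_norm_sq] at hzz
      exact (pow_left_inj₀ (norm_nonneg _) (norm_nonneg _) two_ne_zero).mp hzz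
    exact habs i j z hij (hT k i x z hx hzn hzb) (hT k j x z hx hzn hzr)
  -- a point far from all three axes
  obtain ⟨w, hw0, hw1, hw2⟩ := exists_orth (B 0 - B 1) (B 0 - B 2)
  rw [inner_sub_right, sub_eq_zero] at hw1 hw2
  have hwpos : 0 < inner ℝ w w := real_inner_self_pos.mpr hw0
  have hall : ∀ k, inner ℝ w (B k) = inner ℝ w (B 0) := by
    intro k
    fin_cases k
    · rfl
    · exact hw1.symm
    · exact hw2.symm
  have hlt : (inner ℝ w (B 0)) ^ 2 < (1 + c) / 2 * inner ℝ w w := by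
    have h1 : inner ℝ w (B 0 + B 1 + B 2) = 3 * inner ℝ w (B 0) := by
      rw [inner_add_right, inner_add_right, ← hw1, ← hw2]; ring
    have h2 : inner ℝ w (B 0 + B 1 + B 2) * inner ℝ w (B 0 + B 1 + B 2)
        ≤ inner ℝ w w * inner ℝ (B 0 + B 1 + B 2) (B 0 + B 1 + B 2) :=
      real_inner_mul_inner_self_le _ _
    rw [h1] at h2
    nlinarith
  have hn0 : ‖w‖ ≠ 0 := norm_ne_zero_iff.mpr hw0
  set V : Set E := ball 0 1 ∩ ⋂ k : Fin 3, {x : E | (inner ℝ x (B k)) ^ 2 < (1 + c) / 2 * inner ℝ x x}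
    with hV
  have hVo : IsOpen V := by
    apply isOpen_ball.inter
    apply isOpen_iInter_of_finite
    intro k
    apply isOpen_lt <;> fun_prop
  have hVne : V.Nonempty := by
    refine ⟨(2 * ‖w‖)⁻¹ • w, ?_, ?_⟩
    · rw [mem_ball_zero_iff, norm_smul, norm_inv, norm_mul, norm_norm]
      simp only [Real.norm_ofNat]
      rw [mul_inv, mul_assoc, inv_mul_cancel₀ hn0]; norm_num
    · rw [mem_iInter]
      intro k
      show (inner ℝ ((2 * ‖w‖)⁻¹ • w) (B k)) ^ 2
        < (1 + c) / 2 * inner ℝ ((2 * ‖w‖)⁻¹ • w) ((2 * ‖w‖)⁻¹ • w)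
      rw [real_inner_smul_left, real_inner_smul_left, real_inner_smul_right, hall k]
      have hpos : 0 < (2 * ‖w‖)⁻¹ := by positivity
      have : 0 < (2 * ‖w‖)⁻¹ ^ 2 := by positivity
      nlinarith [mul_lt_mul_of_pos_left hlt this]
  obtain ⟨k, x, hxV, hx⟩ := exists_dens_cover (fun k => g k '' C) hcov V hVo inter_subset_left hVne
  exact hbad k x hx (mem_iInter.mp hxV.2 k).le

end SphSplit
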