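import Pool.Agent.Zhu.Check

set_option autoImplicit false

namespace Pool.Agent.Zhu

open Tree

def TA_0 : Tree := (node (node (node (node (node leaf (nat_lit 0x4060c1000000112) (nat_lit 0xf000000000000a0a00000000f0000) leaf) (nat_lit 0x1d3a000000011101) (nat_lit 0xb000000000b200000000c0000000000000000000c2000000) (node leaf (nat_lit 0x2010040800101002) (nat_lit 0xa0000000000000000000000f000000000000000000000000000000000f00) leaf)) (nat_lit 0x2040100800200101) (nat_lit 0xf0000000000000000000000000000000f00000000000000000000a200) (node (node leaf (nat_lit 0x2040802000300100) (nat_lit 0xa20000000000000000000000000000000f0000000000000000000000) leaf) (nat_lit 0x2110040000101002) (nat_lit 0xa0000000000000000000000f000000000000000000000000000f000f0000) (node leaf (nat_lit 0x2d5a000000101101) (nat_lit 0xb0000000000000000000c000000000c0000000000000000000c2000000) leaf))) (nat_lit 0x2d5a800800201102) (nat_lit 0x42200000000000000000a200000000a300000000000000000043002500) (node (node (node leaf (nat_lit 0x2d5ab40000201102) (nat_lit 0x20000000000000000000a200000000a3000000000000000000250000) leaf) (nat_lit 0x2f5e0c1000101112) (nat_lit 0x43000000000000000000c000000000b3000000004220200000c3110000) (node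 leaf (nat_lit 0x3060200800111001) (nat_lit 0xf000000000f00000000000f000000000000000000000000000000a300) leaf)) (nat_lit 0x3060c04000211000) (nat_lit 0xa300000000a300000000000f00000000000000000000000000000000) (node (node leaf (nat_lit 0x3d7ac18000211101) (nat_lit 0x4200240000430025000092000000009300000000000000000042000000) leaf) (nat_lit 0x3d7af40000111102) (nat_lit 0x20000000002000000000a200000000a3000000000000000000240000) leaf))) (nat_lit 0x3f7efd9000211112) (nat_lit 0x24110000001111000000920000000093000000002020000000110000) (node (node (node (node leaf (nat_lit 0x4040804001201000) (nat_lit 0xa30000000000000f000000000000000000000f00000000000000000000000000000000) leaf) (nat_lit 0x61c2800801300002) (nat_lit 0xf0000000090a0000000000000000000000000000000000000000000000090000f00) (node leaf (nat_lit 0x6cd8000001101100) (nat_lit 0xc300000000c2000000000000000000b200000000b300000000000000000000000000) leaf)) (nat_lit 0x6cd8810001301100) (nat_lit 0x430000000042002500000000000000b2000000009300000000000000000000000000) (node (node leaf (nat_lit 0x6ddbb40001201101) (nat_lit 0x250000000020000000000000000000a200000000a3000000000000000000250000) leaf) (nat_lit 0x6ddbb50011301102) (nat_lit 0x250000000026100000000000000000220000000013000000000000000000000020)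 leaf)) (nat_lit 0x6ddbb76801301102) (nat_lit 0x1500000000100000000000000000009200000000930000000000000000002000) (node (node (node leaf (nat_lit 0x71e2c18001310001) (nat_lit 0xa4000000009400a4000090000f000000000000000000000000000000000094000000) leaf) (nat_lit 0x71e3c40001210002) (nat_lit 0xb400000000a600000000a000000000000000000000000000000000000000a40000) (node leaf (nat_lit 0x73e7cd9001310012) (nat_lit 0xa400000000a611000000b691000000000000000000000000002094000000110000) leaf)) (nat_lit 0x7dfbf58301311101) (nat_lit 0x50000000026001400000000200000220000000003000000000000000000040000) (node (node leaf (nat_lit 0x7dfbf7e801211102) (nat_lit 0x1500000000160000000010000000001200000000130000000000000000001400) leaf) (nat_lit 0x7ffffffb21311112) (nat_lit 0x500000000160100000001010000001200000000030000000010100000000100) leaf))))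

def TA : Tree := TA_0

def TA_root : Nat := nat_lit 0x7ffffffb21311112
end Pool.Agent.Zhu
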