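import Pool.Agent.Zhu.TAP

set_option autoImplicit false

namespace Pool.Agent.Zhu

theorem TA_c0 : all TAP TA_0 = true := by decide +kernel

end Pool.Agent.Zhu
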