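import Pool.Agent.Zhu.DataA
import Pool.Agent.Zhu.TA

set_option autoImplicit false

namespace Pool.Agent.Zhu

/-- the test applied to the entries of the table `TA` -/
noncomputable def TAP : Nat → Nat → Bool := chk live (safe amA bitsA) TA (nat_lit 7) (nat_lit 5) (nat_lit 268435456) (nat_lit 128) (nat_lit 40) namA bitsA

end Pool.Agent.Zhu
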