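import Pool.Agent.Zhu.TMP

set_option autoImplicit false

namespace Pool.Agent.Zhu

theorem TM_c0 : all TMP TM_0 = true := by decide +kernel
theorem TM_c1 : all TMP TM_1 = true := by decide +kernel
theorem TM_c2 : all TMP TM_2 = true := by decide +kernel
theorem TM_c3 : all TMP TM_3 = true := by decide +kernel
theorem TM_c4 : all TMP TM_4 = true := by decide +kernel
theorem TM_c5 : all TMP TM_5 = true := by decide +kernel
theorem TM_c6 : all TMP TM_6 = true := by decide +kernel
theorem TM_c7 : all TMP TM_7 = true := by decide +kernel

end Pool.Agent.Zhu
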