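import Pool.Agent.Zhu.TRP

set_option autoImplicit false

namespace Pool.Agent.Zhu

theorem TR_c0 : all TRP TR_0 = true := by decide +kernel
theorem TR_c1 : all TRP TR_1 = true := by decide +kernel
theorem TR_c2 : all TRP TR_2 = true := by decide +kernel
theorem TR_c3 : all TRP TR_3 = true := by decide +kernel
theorem TR_c4 : all TRP TR_4 = true := by decide +kernel
theorem TR_c5 : all TRP TR_5 = true := by decide +kernel
theorem TR_c6 : all TRP TR_6 = true := by decide +kernel
theorem TR_c7 : all TRP TR_7 = true := by decide +kernel

end Pool.Agent.Zhu
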