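import Pool.Agent.Zhu.TRP

set_option autoImplicit false

namespace Pool.Agent.Zhu

theorem TR_c8 : all TRP TR_8 = true := by decide +kernel
theorem TR_c9 : all TRP TR_9 = true := by decide +kernel
theorem TR_c10 : all TRP TR_10 = true := by decide +kernel
theorem TR_c11 : all TRP TR_11 = true := by decide +kernel
theorem TR_c12 : all TRP TR_12 = true := by decide +kernel
theorem TR_c13 : all TRP TR_13 = true := by decide +kernel
theorem TR_c14 : all TRP TR_14 = true := by decide +kernel
theorem TR_c15 : all TRP TR_15 = true := by decide +kernel

end Pool.Agent.Zhu
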