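import Pool.Agent.Zhu.TRP

set_option autoImplicit false

namespace Pool.Agent.Zhu

theorem TR_c16 : all TRP TR_16 = true := by decide +kernel
theorem TR_c17 : all TRP TR_17 = true := by decide +kernel
theorem TR_c18 : all TRP TR_18 = true := by decide +kernel
theorem TR_c19 : all TRP TR_19 = true := by decide +kernel
theorem TR_c20 : all TRP TR_20 = true := by decide +kernel
theorem TR_c21 : all TRP TR_21 = true := by decide +kernel
theorem TR_c22 : all TRP TR_22 = true := by decide +kernel
theorem TR_c23 : all TRP TR_23 = true := by decide +kernel

end Pool.Agent.Zhu
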