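import Pool.Agent.Zhu.TRP

set_option autoImplicit false

namespace Pool.Agent.Zhu

theorem TR_c24 : all TRP TR_24 = true := by decide +kernel
theorem TR_c25 : all TRP TR_25 = true := by decide +kernel
theorem TR_c26 : all TRP TR_26 = true := by decide +kernel
theorem TR_c27 : all TRP TR_27 = true := by decide +kernel
theorem TR_c28 : all TRP TR_28 = true := by decide +kernel
theorem TR_c29 : all TRP TR_29 = true := by decide +kernel
theorem TR_c30 : all TRP TR_30 = true := by decide +kernel
theorem TR_c31 : all TRP TR_31 = true := by decide +kernel

end Pool.Agent.Zhu
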