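import Pool.Agent.Zhu.Data
import Pool.Agent.Zhu.TR

set_option autoImplicit false

namespace Pool.Agent.Zhu

/-- the test applied to the entries of the table `TR` -/
noncomputable def TRP : Nat → Nat → Bool := chk nonfull dead TR (nat_lit 8) (nat_lit 8) (nat_lit 4294967296) (nat_lit 256) (nat_lit 64) nam bits

end Pool.Agent.Zhu
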